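import Mathlib
import Pool.Agent.AHC.Defs

/-!
# The divergence theorem on the simplex `{t ≥ 0, ∑ t ≤ 1}`

Proof.  For fixed `i`, Fubini in the coordinate `i`
(`MeasureTheory.volume_preserving_piFinSuccAbove`): the simplex of dimension `q + 1` is the set of
`(t', t_i)` with `t'` in the simplex of dimension `q` and `0 ≤ t_i ≤ 1 - ∑ t'`, and by the
fundamental theorem of calculus (`integral_eq_sub_of_hasDerivAt`; the segment is in the simplex)
`∫ ∂_i a = ∫_{t'} (a (i.insertNth (1 - ∑ t') t') - a (i.insertNth 0 t'))`.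
Finally `∫_{t'} b (i.insertNth (1 - ∑ t') t') = ∫_t b (Fin.cons (1 - ∑ t) t)` over the simplex of
dimension `q`, for continuous `b`: for `i = 0` they are equal, and for `i = j + 1` one writes
`t' = (x, s)`; then `i.insertNth (1 - ∑ t') t' = (x, j.insertNth (1 - ∑ s - x) s)`, and the
substitution `x ↦ 1 - ∑ s - x` in the coordinate `0` gives the integral in the coordinate `j`.
-/

namespace Pool.Agent.AHU

open Pool.Agent.AHC MeasureTheory
open scoped ContDiff

theorem Stk_isClosed (q : ℕ) : IsClosed (simplexDomain q) := by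
  have h : simplexDomain q = (⋂ i, {t : Fin q → ℝ | 0 ≤ t i}) ∩ {t | ∑ i, t i ≤ 1} := by
    ext t
    simp [simplexDomain]
  rw [h]
  refine IsClosed.inter (isClosed_iInter fun i => ?_) ?_
  · exact isClosed_le continuous_const (continuous_apply i)
  · exact isClosed_le (continuous_finsetSum _ fun i _ => continuous_apply i) continuous_const

theorem Stk_isCompact (q : ℕ) : IsCompact (simplexDomain q) := by
  have h : simplexDomain q ⊆ Set.Icc (0 : Fin q → ℝ) 1 := by
    rintro t ⟨h1, h2⟩
    refine ⟨fun i => h1 i, fun i => ?_⟩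
    have h3 : t i ≤ ∑ j, t j := Finset.single_le_sum (fun j _ => h1 j) (Finset.mem_univ i)
    exact h3.trans h2
  exact isCompact_Icc.of_isClosed_subset (Stk_isClosed q) h

theorem Stk_mem_iff {q : ℕ} (i : Fin (q + 1)) (x : ℝ) (s : Fin q → ℝ) :
    (i.insertNth x s : Fin (q + 1) → ℝ) ∈ simplexDomain (q + 1) ↔
      s ∈ simplexDomain q ∧ x ∈ Set.Icc 0 (1 - ∑ j, s j) := by
  unfold simplexDomain
  simp only [Set.mem_ofPred_eq, Set.mem_Icc]
  rw [Fin.forall_iff_succAbove i, Fin.sum_univ_succAbove _ i]
  simp only [Fin.insertNth_apply_same, Fin.insertNth_apply_succAbove]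
  constructor
  · rintro ⟨⟨h1, h2⟩, h3⟩
    exact ⟨⟨h2, by linarith⟩, h1, by linarith⟩
  · rintro ⟨⟨h1, -⟩, h3, h4⟩
    exact ⟨⟨h3, h1⟩, by linarith⟩

theorem Stk_cont_insertNth {q : ℕ} (i : Fin (q + 1)) :
    Continuous fun p : ℝ × (Fin q → ℝ) => (i.insertNth p.1 p.2 : Fin (q + 1) → ℝ) := by
  refine continuous_pi fun j => ?_
  refine i.succAboveCases ?_ (fun l => ?_) j
  · simp only [Fin.insertNth_apply_same]
    exact continuous_fst
  · simp only [Fin.insertNth_apply_succAbove]
    exact (continuous_apply l).comp continuous_snd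

/-- Fubini on the simplex -/
theorem Stk_fubini {q : ℕ} (i : Fin (q + 1)) (g : (Fin (q + 1) → ℝ) → ℂ)
    (hg : ContinuousOn g (simplexDomain (q + 1))) :
    ∫ t in simplexDomain (q + 1), g t =
      ∫ s in simplexDomain q, ∫ x in (0 : ℝ)..(1 - ∑ j, s j), g (i.insertNth x s) := by
  have hm : MeasurableSet (simplexDomain (q + 1)) := (Stk_isClosed _).measurableSet
  have hm' : MeasurableSet (simplexDomain q) := (Stk_isClosed _).measurableSet
  have hint : Integrable ((simplexDomain (q + 1)).indicator g) := by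
    rw [integrable_indicator_iff hm]
    exact hg.integrableOn_compact (Stk_isCompact _)
  rw [← integral_indicator hm, ← integral_indicator hm']
  have he := (volume_preserving_piFinSuccAbove (fun _ : Fin (q + 1) => ℝ) i).symm
  rw [← he.integral_comp']
  have hint' : Integrable (fun p : ℝ × (Fin q → ℝ) => (simplexDomain (q + 1)).indicator g
      ((MeasurableEquiv.piFinSuccAbove (fun _ : Fin (q + 1) => ℝ) i).symm p)) :=
    he.integrable_comp_of_integrable hint
  rw [Measure.volume_eq_prod, integral_prod_symm _ hint']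
  refine integral_congr_ae (Filter.Eventually.of_forall fun s => ?_)
  have h1 : ∀ x : ℝ, (MeasurableEquiv.piFinSuccAbove (fun _ : Fin (q + 1) => ℝ) i).symm (x, s) =
      (i.insertNth x s : Fin (q + 1) → ℝ) := fun x => rfl
  simp only [h1]
  by_cases hs : s ∈ simplexDomain q
  · rw [Set.indicator_of_mem hs]
    have h2 : ∀ x : ℝ, (simplexDomain (q + 1)).indicator g (i.insertNth x s) =
        (Set.Icc 0 (1 - ∑ j, s j)).indicator (fun x => g (i.insertNth x s)) x := by
      intro x
      by_cases hx : x ∈ Set.Icc 0 (1 - ∑ j, s j)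
      · rw [Set.indicator_of_mem hx, Set.indicator_of_mem ((Stk_mem_iff i x s).2 ⟨hs, hx⟩)]
      · rw [Set.indicator_of_notMem hx,
          Set.indicator_of_notMem fun h => hx ((Stk_mem_iff i x s).1 h).2]
    simp only [h2]
    rw [integral_indicator measurableSet_Icc, integral_Icc_eq_integral_Ioc,
      intervalIntegral.integral_of_le]
    linarith [hs.2]
  · rw [Set.indicator_of_notMem hs]
    have h2 : ∀ x : ℝ, (simplexDomain (q + 1)).indicator g (i.insertNth x s) = 0 := by
      intro x
      exact Set.indicator_of_notMem (fun h => hs ((Stk_mem_iff i x s).1 h).1) _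
    simp only [h2, integral_zero]

/-- the faces opposite to the vertex `0` -/
theorem Stk_top {q : ℕ} (i : Fin (q + 1)) (b : (Fin (q + 1) → ℝ) → ℂ)
    (hb : ContinuousOn b (simplexDomain (q + 1))) :
    ∫ s in simplexDomain q, b (i.insertNth (1 - ∑ j, s j) s) =
      ∫ t in simplexDomain q, b (Fin.cons (1 - ∑ j, t j) t) := by
  refine Fin.cases ?_ (fun j => ?_) i
  · simp only [Fin.insertNth_zero']
  · obtain _ | r := q
    · exact j.elim0
    · have hm0 : ∀ t ∈ simplexDomain (r + 1),
          (Fin.cons (1 - ∑ l, t l) t : Fin (r + 2) → ℝ) ∈ simplexDomain (r + 2) := by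
        intro t ht
        have h := (Stk_mem_iff (0 : Fin (r + 2)) (1 - ∑ l, t l) t).2
          ⟨ht, by linarith [ht.2], le_rfl⟩
        rwa [Fin.insertNth_zero'] at h
      have hc0 : Continuous fun t : Fin (r + 1) → ℝ =>
          (Fin.cons (1 - ∑ l, t l) t : Fin (r + 2) → ℝ) := by
        have h : Continuous fun t : Fin (r + 1) → ℝ =>
            ((0 : Fin (r + 2)).insertNth (1 - ∑ l, t l) t : Fin (r + 2) → ℝ) :=
          (Stk_cont_insertNth (0 : Fin (r + 2))).comp
            (((continuous_const (y := (1 : ℝ))).sub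
              (continuous_finsetSum Finset.univ fun (l : Fin (r + 1)) _ =>
                continuous_apply (A := fun _ : Fin (r + 1) => ℝ) l)).prodMk continuous_id)
        simpa only [Fin.insertNth_zero'] using h
      have hB : ContinuousOn (fun t : Fin (r + 1) → ℝ =>
          b (Fin.cons (1 - ∑ l, t l) t)) (simplexDomain (r + 1)) :=
        hb.comp hc0.continuousOn hm0
      have hm1 : ∀ t ∈ simplexDomain (r + 1),
          (j.succ.insertNth (1 - ∑ l, t l) t : Fin (r + 2) → ℝ) ∈ simplexDomain (r + 2) := by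
        intro t ht
        exact (Stk_mem_iff j.succ (1 - ∑ l, t l) t).2 ⟨ht, by linarith [ht.2], le_rfl⟩
      have hc1 : Continuous fun t : Fin (r + 1) → ℝ =>
          (j.succ.insertNth (1 - ∑ l, t l) t : Fin (r + 2) → ℝ) :=
        (Stk_cont_insertNth j.succ).comp
          (((continuous_const (y := (1 : ℝ))).sub
            (continuous_finsetSum Finset.univ fun (l : Fin (r + 1)) _ =>
              continuous_apply (A := fun _ : Fin (r + 1) => ℝ) l)).prodMk continuous_id)
      have hB' : ContinuousOn (fun t : Fin (r + 1) → ℝ =>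
          b (j.succ.insertNth (1 - ∑ l, t l) t)) (simplexDomain (r + 1)) :=
        hb.comp hc1.continuousOn hm1
      rw [Stk_fubini 0 _ hB', Stk_fubini j _ hB]
      refine integral_congr_ae (Filter.Eventually.of_forall fun s => ?_)
      have h1 : ∀ x : ℝ, b (j.succ.insertNth (1 - ∑ l, (Fin.insertNth 0 x s : Fin (r + 1) → ℝ) l)
          (Fin.insertNth 0 x s : Fin (r + 1) → ℝ)) =
          (fun y : ℝ => b (Fin.cons (1 - ∑ l, (j.insertNth y s : Fin (r + 1) → ℝ) l)
            (j.insertNth y s : Fin (r + 1) → ℝ))) (1 - ∑ l, s l - x) := by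
        intro x
        have h2 : ∑ l, (Fin.insertNth 0 x s : Fin (r + 1) → ℝ) l = x + ∑ l, s l := by
          rw [Fin.sum_univ_succAbove _ 0]
          simp
        have h3 : ∑ l, (j.insertNth (1 - ∑ l, s l - x) s : Fin (r + 1) → ℝ) l = 1 - x := by
          rw [Fin.sum_univ_succAbove _ j]
          simp only [Fin.insertNth_apply_same, Fin.insertNth_apply_succAbove]
          ring
        simp only [h2, h3]
        congr 1
        rw [Fin.insertNth_zero']
        have h4 := Fin.insertNth_succ_cons j (1 - (x + ∑ l, s l)) x s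
        rw [h4]
        have h5 : (1 : ℝ) - (x + ∑ l, s l) = 1 - ∑ l, s l - x := by ring
        have h6 : (1 : ℝ) - (1 - x) = x := by ring
        rw [h5, h6]
      simp only [h1]
      rw [intervalIntegral.integral_comp_sub_left (fun y : ℝ =>
        b (Fin.cons (1 - ∑ l, (j.insertNth y s : Fin (r + 1) → ℝ) l)
            (j.insertNth y s : Fin (r + 1) → ℝ))), sub_self, sub_zero]

theorem Stk_deriv {q : ℕ} (i : Fin (q + 1)) (s : Fin q → ℝ) (x : ℝ) :
    HasDerivAt (fun x : ℝ => (i.insertNth x s : Fin (q + 1) → ℝ)) (Pi.single i 1) x := by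
  rw [hasDerivAt_pi]
  intro j
  refine i.succAboveCases ?_ (fun l => ?_) j
  · simp only [Fin.insertNth_apply_same, Pi.single_eq_same]
    exact hasDerivAt_id x
  · simp only [Fin.insertNth_apply_succAbove]
    rw [Pi.single_eq_of_ne (Fin.succAbove_ne i l)]
    exact hasDerivAt_const x _

theorem stokes_simplex {q : ℕ} {a : Fin (q + 1) → (Fin (q + 1) → ℝ) → ℂ}
    {O : Set (Fin (q + 1) → ℝ)} (hO : IsOpen O) (hs : simplexDomain (q + 1) ⊆ O)
    (ha : ∀ i, ContDiffOn ℝ 1 (a i) O) :
    ∫ t in simplexDomain (q + 1), ∑ i, fderiv ℝ (a i) t (Pi.single i 1) =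
      ∫ t in simplexDomain q, ((∑ i, a i (Fin.cons (1 - ∑ j, t j) t)) -
        ∑ i : Fin (q + 1), a i (i.insertNth 0 t)) := by
  have hac : ∀ i, ContinuousOn (a i) (simplexDomain (q + 1)) := fun i =>
    (ha i).continuousOn.mono hs
  have hdc : ∀ i, ContinuousOn (fun t => fderiv ℝ (a i) t (Pi.single i 1))
      (simplexDomain (q + 1)) := by
    intro i
    have h1 : ContinuousOn (fderiv ℝ (a i)) O := (ha i).continuousOn_fderiv_of_isOpen hO le_rfl
    exact (h1.mono hs).clm_apply continuousOn_const
  have hm1 : ∀ i : Fin (q + 1), ∀ t ∈ simplexDomain q,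
      (i.insertNth (1 - ∑ l, t l) t : Fin (q + 1) → ℝ) ∈ simplexDomain (q + 1) := by
    intro i t ht
    exact (Stk_mem_iff i (1 - ∑ l, t l) t).2 ⟨ht, by linarith [ht.2], le_rfl⟩
  have hm2 : ∀ i : Fin (q + 1), ∀ t ∈ simplexDomain q,
      (i.insertNth 0 t : Fin (q + 1) → ℝ) ∈ simplexDomain (q + 1) := by
    intro i t ht
    exact (Stk_mem_iff i 0 t).2 ⟨ht, le_rfl, by linarith [ht.2]⟩
  have hc1 : ∀ i : Fin (q + 1), Continuous fun t : Fin q → ℝ =>
      (i.insertNth (1 - ∑ l, t l) t : Fin (q + 1) → ℝ) := fun i =>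
    (Stk_cont_insertNth i).comp
      (((continuous_const (y := (1 : ℝ))).sub
        (continuous_finsetSum Finset.univ fun (l : Fin q) _ =>
          continuous_apply (A := fun _ : Fin q => ℝ) l)).prodMk continuous_id)
  have hc2 : ∀ i : Fin (q + 1), Continuous fun t : Fin q → ℝ =>
      (i.insertNth 0 t : Fin (q + 1) → ℝ) := fun i =>
    (Stk_cont_insertNth i).comp (continuous_const.prodMk continuous_id)
  have hi1 : ∀ i : Fin (q + 1), IntegrableOn (fun t : Fin q → ℝ =>
      a i (i.insertNth (1 - ∑ l, t l) t)) (simplexDomain q) := fun i =>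
    ((hac i).comp (hc1 i).continuousOn (hm1 i)).integrableOn_compact (Stk_isCompact q)
  have hi2 : ∀ i : Fin (q + 1), IntegrableOn (fun t : Fin q → ℝ =>
      a i (i.insertNth 0 t)) (simplexDomain q) := fun i =>
    ((hac i).comp (hc2 i).continuousOn (hm2 i)).integrableOn_compact (Stk_isCompact q)
  have hi3 : ∀ i : Fin (q + 1), IntegrableOn (fun t : Fin q → ℝ =>
      a i (Fin.cons (1 - ∑ l, t l) t)) (simplexDomain q) := by
    intro i
    have h1 := ((hac i).comp (hc1 0).continuousOn (hm1 0)).integrableOn_compact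
      (μ := volume) (Stk_isCompact q)
    simpa only [Function.comp_def, Fin.insertNth_zero'] using h1
  rw [integral_finsetSum _ fun i _ => (hdc i).integrableOn_compact (Stk_isCompact _)]
  rw [integral_sub (integrable_finsetSum _ fun i _ => hi3 i)
    (integrable_finsetSum _ fun i _ => hi2 i), integral_finsetSum _ fun i _ => hi3 i,
    integral_finsetSum _ fun i _ => hi2 i, ← Finset.sum_sub_distrib]
  refine Finset.sum_congr rfl fun i _ => ?_
  rw [Stk_fubini i _ (hdc i), ← Stk_top i _ (hac i), ← integral_sub (hi1 i) (hi2 i)]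
  refine setIntegral_congr_fun (Stk_isClosed q).measurableSet fun s hsq => ?_
  have hle : (0 : ℝ) ≤ 1 - ∑ l, s l := by linarith [hsq.2]
  have hmem : ∀ x ∈ Set.uIcc (0 : ℝ) (1 - ∑ l, s l),
      (i.insertNth x s : Fin (q + 1) → ℝ) ∈ simplexDomain (q + 1) := by
    intro x hx
    rw [Set.uIcc_of_le hle] at hx
    exact (Stk_mem_iff i x s).2 ⟨hsq, hx⟩
  have hcx : Continuous fun x : ℝ => (i.insertNth x s : Fin (q + 1) → ℝ) :=
    (Stk_cont_insertNth i).comp (continuous_id.prodMk continuous_const)
  exact intervalIntegral.integral_eq_sub_of_hasDerivAt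
    (f := fun x : ℝ => a i (i.insertNth x s))
    (f' := fun x : ℝ => fderiv ℝ (a i) (i.insertNth x s) (Pi.single i 1))
    (by
      intro x hx
      have h1 : HasFDerivAt (a i) (fderiv ℝ (a i) (i.insertNth x s)) (i.insertNth x s) := by
        have h2 : DifferentiableAt ℝ (a i) (i.insertNth x s) :=
          ((ha i).differentiableOn (by norm_num)).differentiableAt
            (hO.mem_nhds (hs (hmem x hx)))
        exact h2.hasFDerivAt
      exact h1.comp_hasDerivAt x (Stk_deriv i s x))
    (((hdc i).comp hcx.continuousOn hmem).intervalIntegrable)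

end Pool.Agent.AHU
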