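import Mathlib
import Pool.Agent.AHR.Nby
import Pool.Agent.AHR.Root
import Pool.Agent.AHR.Two2

/-!
# An automorphism which is near `β₁` on `X` can be changed outside `X` to be near `β₁` on `X₂`

Proof.  Composing with `β₁.symm` (and replacing `X`, `X₂` by their images under `β₁`) we may assume
`β₁ = id`, `β ∈ GA`.  Let `t` be a basis of `X` (`exists_basis ∅`, its elements are in `X`,
`X ⊆ cl (range t)`), and `t'` a basis of `X ∪ X₂` over `range t` (`exists_basis (range t)`), so that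
the sequence `(t, t')` (`Fin.append`, or use snoc repeatedly) is independent and
`X ∪ X₂ ⊆ cl (range (t, t'))`.  Root functions `φ x` in `t` for `x ∈ X` (`exists_root'`: radii `r`,
`η`).  Let `δ` be as in `exists_nearby` for `(t, t')`, `X ∪ X₂` and `min ε₂ η`.  Let `β ∈ GA` be near the
identity on `X` (so `β t` is near `t` and `β x` is within `η` of `x`).  Choose `a'` near `t'`
independent over `range (β t)` (`exists_seqInd_near'`); then `(β t, a')` is independent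
(`SeqInd.map`), and there is `β₃ ∈ GA` with `β₃ t = β t`, `β₃ t' = a'`, within `min ε₂ η` of the
identity on `X ∪ X₂`.  For `x ∈ X`: `β x = φ x (β t) = β₃ x`.
-/

namespace Pool.Agent.AHU

open Pool.Agent.AHC Pool.Agent.AHI Pool.Agent.AHR

theorem seqInd_append {X : Set ℂ} {n m : ℕ} {t : Fin n → ℂ} {v : Fin m → ℂ} (ht : SeqInd X t)
    (hv : SeqInd (X ∪ Set.range t) v) : SeqInd X (Fin.append t v) := by
  intro i
  induction i using Fin.addCases with
  | left i =>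
    rw [Fin.append_left]
    refine fun h => ht i (cl_mono (Set.union_subset_union_right _ ?_) h)
    rintro z ⟨j, hj, rfl⟩
    induction j using Fin.addCases with
    | left j =>
      rw [Fin.append_left]
      refine ⟨j, ?_, rfl⟩
      have h1 := Fin.lt_def.1 hj
      exact Fin.lt_def.2 (by simpa using h1)
    | right j =>
      exfalso
      have h1 := Fin.lt_def.1 hj
      have h2 := i.2
      rw [Fin.val_natAdd, Fin.val_castAdd] at h1
      omega
  | right i =>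
    rw [Fin.append_right]
    refine fun h => hv i (cl_mono ?_ h)
    rintro z (hz | ⟨j, hj, rfl⟩)
    · exact Or.inl (Or.inl hz)
    · induction j using Fin.addCases with
      | left j =>
        rw [Fin.append_left]
        exact Or.inl (Or.inr ⟨j, rfl⟩)
      | right j =>
        rw [Fin.append_right]
        refine Or.inr ⟨j, ?_, rfl⟩
        have h1 := Fin.lt_def.1 hj
        exact Fin.lt_def.2 (by simpa using h1)

theorem ext_uniq {n : ℕ} {t : Fin n → ℂ} {X : Finset ℂ} (hX : (X : Set ℂ) ⊆ cl (Set.range t)) :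
    ∃ r : ℝ, 0 < r ∧ ∀ x ∈ X, ∀ β β' : ℂ ≃+* ℂ, (∀ i, β' (t i) = β (t i)) →
      (∀ i, ‖β (t i) - t i‖ < r) → ‖β x - x‖ < r → ‖β' x - x‖ < r → β' x = β x := by
  have h1 : ∀ᶠ r in nhdsWithin (0 : ℝ) (Set.Ioi 0), ∀ x ∈ X, ∀ β β' : ℂ ≃+* ℂ,
      (∀ i, β' (t i) = β (t i)) →
      (∀ i, ‖β (t i) - t i‖ < r) → ‖β x - x‖ < r → ‖β' x - x‖ < r → β' x = β x := by
    refine (Filter.eventually_all_finset X).2 fun x hx => ?_
    obtain ⟨r, hr, η, hη, φ, -, -, hφ⟩ := exists_root' (hX (Finset.mem_coe.2 hx))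
    filter_upwards [Ioc_mem_nhdsGT (lt_min hr hη)] with s hs β β' h2 h3 h4 h5
    have hsr : s ≤ r := hs.2.trans (min_le_left _ _)
    have hsη : s ≤ η := hs.2.trans (min_le_right _ _)
    have h6 : (fun i => β (t i)) ∈ Metric.ball t r := by
      rw [Metric.mem_ball, dist_pi_lt_iff hr]
      intro i
      rw [dist_eq_norm]
      exact (h3 i).trans_le hsr
    have h7 : (fun i => β' (t i)) = fun i => β (t i) := funext h2
    rw [hφ β h6 (h4.trans_le hsη), hφ β' (by rw [h7]; exact h6) (h5.trans_le hsη), h7]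
  obtain ⟨r, h2, h3⟩ := (h1.and self_mem_nhdsWithin).exists
  exact ⟨r, h3, h2⟩

theorem near_ext_id (X X₂ : Finset ℂ) {ε₂ : ℝ} (hε₂ : 0 < ε₂) :
    ∃ ε > 0, ∀ β : ℂ ≃+* ℂ, (∀ x ∈ X, ‖β x - x‖ < ε) →
      ∃ β₃ : ℂ ≃+* ℂ, (∀ x ∈ X, β₃ x = β x) ∧ (∀ z ∈ cl ∅, β₃ z = z) ∧
        ∀ x ∈ X₂, ‖β₃ x - x‖ < ε₂ := by
  classical
  obtain ⟨n, t, ht1, ht2, ht3⟩ := exists_basis ∅ X.finite_toSet
  rw [Set.empty_union] at ht3
  obtain ⟨m, v, hv1, -, hv3⟩ := exists_basis (Set.range t) (X ∪ X₂).finite_toSet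
  have hb : SeqInd ∅ (Fin.append t v) := seqInd_append ht1 (by rwa [Set.empty_union])
  have hb3 : ((X ∪ X₂ : Finset ℂ) : Set ℂ) ⊆ cl (Set.range (Fin.append t v)) := by
    refine hv3.trans (cl_mono ?_)
    rintro z (⟨i, rfl⟩ | ⟨i, rfl⟩)
    · exact ⟨Fin.castAdd m i, Fin.append_left _ _ _⟩
    · exact ⟨Fin.natAdd n i, Fin.append_right _ _ _⟩
  obtain ⟨r, hr, hQ⟩ := ext_uniq ht3
  obtain ⟨δ, hδ, hnear⟩ := exists_nearby hb (X ∪ X₂).finite_toSet hb3 (lt_min hε₂ hr)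
  refine ⟨min r δ, lt_min hr hδ, fun β hβ => ?_⟩
  have hβt : ∀ i, ‖β (t i) - t i‖ < min r δ := fun i => hβ _ (Finset.mem_coe.1 (ht2 ⟨i, rfl⟩))
  obtain ⟨a, ha1, ha2⟩ := exists_seqInd_near' (Set.countable_range fun i => β (t i)) hδ m v
  have h1 : SeqInd ∅ (fun i => β (t i)) := by
    have h := ht1.map β
    rwa [Set.image_empty] at h
  have h2 : SeqInd ∅ (Fin.append (fun i => β (t i)) a) :=
    seqInd_append h1 (by rwa [Set.empty_union])
  obtain ⟨β₃, h3, h4, h5⟩ := hnear _ h2 (fun i => by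
    induction i using Fin.addCases with
    | left i =>
      rw [Fin.append_left, Fin.append_left]
      exact (hβt i).trans_le (min_le_right _ _)
    | right i =>
      rw [Fin.append_right, Fin.append_right]
      exact ha2 i)
  refine ⟨β₃, fun x hx => ?_, h3, fun x hx => ?_⟩
  · refine hQ x hx β β₃ (fun i => ?_) (fun i => (hβt i).trans_le (min_le_left _ _))
      ((hβ x hx).trans_le (min_le_left _ _)) ?_
    · have h6 := h4 (Fin.castAdd m i)
      rwa [Fin.append_left, Fin.append_left] at h6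
    · exact (h5 x (Finset.mem_coe.2 (Finset.mem_union_left _ hx))).trans_le (min_le_right _ _)
  · exact (h5 x (Finset.mem_coe.2 (Finset.mem_union_right _ hx))).trans_le (min_le_left _ _)

theorem near_ext (X X₂ : Finset ℂ) (β₁ : ℂ ≃+* ℂ) {ε₂ : ℝ} (hε₂ : 0 < ε₂) :
    ∃ ε > 0, ∀ β : ℂ ≃+* ℂ, (∀ z ∈ cl ∅, β z = β₁ z) → (∀ x ∈ X, ‖β x - β₁ x‖ < ε) →
      ∃ β₃ : ℂ ≃+* ℂ, (∀ x ∈ X, β₃ x = β x) ∧ (∀ z ∈ cl ∅, β₃ z = β₁ z) ∧
        ∀ x ∈ X₂, ‖β₃ x - β₁ x‖ < ε₂ := by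
  classical
  obtain ⟨ε, hε, h⟩ := near_ext_id (X.image β₁) (X₂.image β₁) hε₂
  refine ⟨ε, hε, fun β _ hβ => ?_⟩
  obtain ⟨γ, h1, h2, h3⟩ := h (β₁.symm.trans β) (fun x hx => by
    obtain ⟨y, hy, rfl⟩ := Finset.mem_image.1 hx
    rw [RingEquiv.trans_apply, RingEquiv.symm_apply_apply]
    exact hβ y hy)
  refine ⟨β₁.trans γ, fun x hx => ?_, fun z hz => ?_, fun x hx => ?_⟩
  · rw [RingEquiv.trans_apply, h1 _ (Finset.mem_image_of_mem _ hx), RingEquiv.trans_apply,
      RingEquiv.symm_apply_apply]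
  · rw [RingEquiv.trans_apply]
    exact h2 _ (map_cl_empty β₁ hz)
  · rw [RingEquiv.trans_apply]
    exact h3 _ (Finset.mem_image_of_mem _ hx)

end Pool.Agent.AHU
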