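import Mathlib
import Pool.Agent.AHC.LD
import Pool.Agent.AHC.Indep

/-!
# Linear disjointness over `cl S`

Relative form of `AHC.linDisj` (file `AHC/LD.lean`), where `S = ∅`.  Proof: copy the proofs of
`AHC.exists_stab_move` and `AHC.linDisj` and replace `∅` by `S`:
if `m ∈ cl (S ∪ B)` and `m ∉ cl S`, there is an automorphism `γ` which fixes `cl X`, maps
`cl (S ∪ B)` into itself and moves `m` (take a minimal finite `J ⊆ B` with `m ∈ cl (S ∪ J)`, it is
not empty, `b ∈ J`; `b ∈ cl (insert m (S ∪ J \ {b}))` by exchange, `m ∉ cl (X ∪ (B \ {b}))`; take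
`γ` fixing `cl (X ∪ (B \ {b}))` with `γ m = m + 1`, `AHC.exists_move`).
-/

namespace Pool.Agent.AHU

open Pool.Agent.AHC

/-- an element of `cl (S ∪ B)` which is not in `cl S` is moved by an automorphism fixing `cl X`
and preserving `cl (S ∪ B)`, if `S ⊆ X` and `B` is independent over `X` -/
theorem LDr.exists_stab_move {S X B : Set ℂ} (hS : S ⊆ X)
    (hB : ∀ b ∈ B, b ∉ cl (X ∪ (B \ {b}))) {m : ℂ}
    (hm : m ∈ cl (S ∪ B)) (hm0 : m ∉ cl S) :
    ∃ γ : ℂ ≃+* ℂ, (∀ z ∈ cl X, γ z = z) ∧ (∀ z ∈ cl (S ∪ B), γ z ∈ cl (S ∪ B)) ∧ γ m ≠ m := by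
  classical
  have key : ∀ I : Finset ℂ, (I : Set ℂ) ⊆ B → m ∈ cl (S ∪ I) →
      ∃ J : Set ℂ, J ⊆ B ∧ ∃ b ∈ J, m ∈ cl (S ∪ J) ∧ m ∉ cl (S ∪ (J \ {b})) := by
    intro I
    induction I using Finset.strongInduction with
    | H I ih =>
      intro hI hmI
      by_cases h : ∃ b ∈ I, m ∈ cl (S ∪ ((I : Set ℂ) \ {b}))
      · obtain ⟨b, hb, hmb⟩ := h
        refine ih (I.erase b) (Finset.erase_ssubset hb) ?_ ?_
        · rw [Finset.coe_erase]
          exact Set.sdiff_subset.trans hI
        · rw [Finset.coe_erase]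
          exact hmb
      · push Not at h
        have hne : I.Nonempty := by
          rw [Finset.nonempty_iff_ne_empty]
          rintro rfl
          rw [Finset.coe_empty, Set.union_empty] at hmI
          exact hm0 hmI
        obtain ⟨b, hb⟩ := hne
        exact ⟨I, hI, b, hb, hmI, h b hb⟩
  obtain ⟨I, hIB, hIf, -, hmI⟩ := exists_finite_of_mem_cl hm
  obtain ⟨J, hJ, b, hb, h1, h2⟩ := key (hIf.subset (Set.sdiff_subset (t := S))).toFinset
    (by
      intro z hz
      rw [Set.Finite.coe_toFinset] at hz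
      rcases hIB hz.1 with h | h
      · exact absurd h hz.2
      · exact h)
    (by
      rw [Set.Finite.coe_toFinset]
      refine cl_mono ?_ hmI
      intro z hz
      by_cases h : z ∈ S
      · exact Or.inl h
      · exact Or.inr ⟨hz, h⟩)
  have h3 : insert b (S ∪ (J \ {b})) = S ∪ J := by
    rw [← Set.union_insert, Set.insert_sdiff_singleton, Set.insert_eq_of_mem hb]
  have h4 : b ∈ cl (insert m (S ∪ (J \ {b}))) := cl_exchange (by rwa [h3]) h2
  have hJB : J \ {b} ⊆ B \ {b} := Set.sdiff_subset_sdiff_left hJ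
  have h5 : m ∉ cl (X ∪ (B \ {b})) := by
    intro h
    refine hB b (hJ hb) ?_
    refine (cl_subset_iff.2 ?_) h4
    rintro z (rfl | hz | hz)
    · exact h
    · exact subset_cl _ (Or.inl (hS hz))
    · exact subset_cl _ (Or.inr (hJB hz))
  have h6 : m + 1 ∉ cl (X ∪ (B \ {b})) := by
    intro h
    have h' : m + 1 - 1 ∈ clF (X ∪ (B \ {b})) := (clF _).sub_mem h (clF _).one_mem
    rw [add_sub_cancel_right] at h'
    exact h5 h'
  obtain ⟨γ, hγ, hγm⟩ := exists_move h5 h6
  have hfix : ∀ z ∈ B \ {b}, γ z = z := fun z hz => hγ z (subset_cl _ (Or.inr hz))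
  have hfixS : ∀ z ∈ S, γ z = z := fun z hz => hγ z (subset_cl _ (Or.inl (hS hz)))
  refine ⟨γ, fun z hz => hγ z (cl_mono Set.subset_union_left hz), fun z hz => ?_, ?_⟩
  · have h7 : z ∈ cl (insert m (S ∪ (B \ {b}))) := by
      refine (cl_subset_iff.2 ?_) hz
      rintro y (hy | hy)
      · exact subset_cl _ (Or.inr (Or.inl hy))
      · by_cases hyb : y = b
        · rw [hyb]
          exact cl_mono (Set.insert_subset_insert (Set.union_subset_union_right _ hJB)) h4
        · exact subset_cl _ (Or.inr (Or.inr ⟨hy, hyb⟩))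
    have h8 := map_mem_cl γ h7
    refine (cl_subset_iff.2 ?_) h8
    rintro _ ⟨y, (rfl | hy | hy), rfl⟩
    · rw [hγm]
      exact (clF (S ∪ B)).add_mem hm (clF (S ∪ B)).one_mem
    · rw [hfixS y hy]
      exact subset_cl _ (Or.inl hy)
    · rw [hfix y hy]
      exact subset_cl _ (Or.inr hy.1)
  · rw [hγm]
    simp

theorem linDisj_rel {S X B : Set ℂ} (hS : S ⊆ X) (hB : ∀ b ∈ B, b ∉ cl (X ∪ (B \ {b})))
    {ι : Type} (d : ι → ℂ) (hd : ∀ i, d i ∈ cl X) (hli : LinearIndependent (clF S) d)
    (s : Finset ι) :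
    ∀ m : ι → ℂ, (∀ i, m i ∈ cl (S ∪ B)) → ∑ i ∈ s, d i * m i = 0 → ∀ i ∈ s, m i = 0 := by
  classical
  induction s using Finset.induction_on with
  | empty => intro m _ _ i hi; simp at hi
  | insert j s hj ih =>
    intro m hm h
    by_cases hmj : m j = 0
    · rw [Finset.sum_insert hj, hmj, mul_zero, zero_add] at h
      intro i hi
      rcases Finset.mem_insert.1 hi with rfl | hi
      · exact hmj
      · exact ih m hm h i hi
    · exfalso
      let m' : ι → ℂ := fun i => m i * (m j)⁻¹
      have hm' : ∀ i, m' i ∈ cl (S ∪ B) :=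
        fun i => (clF (S ∪ B)).mul_mem (hm i) (clF_inv_mem (hm j))
      have hm'j : m' j = 1 := mul_inv_cancel₀ hmj
      have h' : ∑ i ∈ insert j s, d i * m' i = 0 := by
        have h1 : ∑ i ∈ insert j s, d i * m' i = (∑ i ∈ insert j s, d i * m i) * (m j)⁻¹ := by
          rw [Finset.sum_mul]
          exact Finset.sum_congr rfl fun i _ => (mul_assoc _ _ _).symm
        rw [h1, h, zero_mul]
      have hk : ∀ i ∈ s, m' i ∈ cl S := by
        intro i hi
        by_contra hcon
        obtain ⟨γ, h1, h2, h3⟩ := LDr.exists_stab_move hS hB (hm' i) hcon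
        have h4 : ∑ i ∈ s, d i * (γ (m' i) - m' i) = 0 := by
          have h5 := congrArg γ h'
          rw [map_sum, map_zero] at h5
          have h6 : ∑ i ∈ insert j s, d i * (γ (m' i) - m' i) = 0 := by
            have : ∑ i ∈ insert j s, d i * (γ (m' i) - m' i) =
                ∑ i ∈ insert j s, γ (d i * m' i) - ∑ i ∈ insert j s, d i * m' i := by
              rw [← Finset.sum_sub_distrib]
              refine Finset.sum_congr rfl fun i _ => ?_
              rw [map_mul γ (d i) (m' i), h1 _ (hd i)]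
              ring
            rw [this, h5, h', sub_zero]
          rw [Finset.sum_insert hj, hm'j, map_one, sub_self, mul_zero, zero_add] at h6
          exact h6
        have h7 := ih (fun i => γ (m' i) - m' i)
          (fun i => (clF (S ∪ B)).sub_mem (h2 _ (hm' i)) (hm' i)) h4 i hi
        exact h3 (sub_eq_zero.1 h7)
      have hk' : ∀ i ∈ insert j s, m' i ∈ clF S := by
        intro i hi
        rcases Finset.mem_insert.1 hi with rfl | hi
        · rw [hm'j]
          exact (clF S).one_mem
        · exact hk i hi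
      rw [linearIndependent_iff'] at hli
      let g : ι → clF S := fun i => if hi : i ∈ insert j s then ⟨m' i, hk' i hi⟩ else 0
      have h8 : ∑ i ∈ insert j s, g i • d i = 0 := by
        rw [← h']
        refine Finset.sum_congr rfl fun i hi => ?_
        simp only [g, dif_pos hi]
        rw [IntermediateField.smul_def, smul_eq_mul, mul_comm]
      have h9 := hli (insert j s) g h8 j (Finset.mem_insert_self j s)
      simp only [g, dif_pos (Finset.mem_insert_self j s)] at h9
      have h10 := congrArg Subtype.val h9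
      simp only [hm'j] at h10
      exact one_ne_zero h10

end Pool.Agent.AHU
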