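import Mathlib
import Pool.Agent.AHU.LDr

/-!
# Gluing over `cl S`

Relative form of `AHC.glue` (file `AHC/Glue.lean`), where `S = ∅`.  Proof: copy the proof of
`AHC.glue` with `clF S` in the place of `clF ∅` as base field (`clK`: `cl X` as a subalgebra over
`clF S`, possible because `S ⊆ X`; `productMap_injective` with `linDisj_rel`).
-/

namespace Pool.Agent.AHU

open Pool.Agent.AHC TensorProduct

/-- `cl X` as a subalgebra over `cl S` -/
noncomputable def Gluer_clK {S X : Set ℂ} (hS : S ⊆ X) : Subalgebra (clF S) ℂ where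
  carrier := cl X
  mul_mem' := fun ha hb => (clF X).mul_mem ha hb
  one_mem' := (clF X).one_mem
  add_mem' := fun ha hb => (clF X).add_mem ha hb
  zero_mem' := (clF X).zero_mem
  algebraMap_mem' := fun r => clF_mono hS r.2

/-- injectivity of the map from the tensor product -/
theorem Gluer_productMap_injective {S X B : Set ℂ} (hS : S ⊆ X) (hB : IndOver X B) {P : Type}
    [CommRing P] [Algebra (clF S) P] (g : P →ₐ[clF S] ℂ) (hg : Function.Injective g)
    (hgB : ∀ p, g p ∈ cl (S ∪ B)) :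
    Function.Injective (Algebra.TensorProduct.productMap (Gluer_clK hS).val g) := by
  rw [injective_iff_map_eq_zero]
  intro x hx
  let b := Module.Basis.ofVectorSpace (clF S) (Gluer_clK hS)
  let e := TensorProduct.equivFinsuppOfBasisLeft (N := P) b
  obtain ⟨y, rfl⟩ := e.symm.surjective x
  have h1 : e.symm y = y.sum fun i p => b i ⊗ₜ[clF S] p := by
    simp only [e]
    exact TensorProduct.equivFinsuppOfBasisLeft_symm_apply b y
  rw [h1, Finsupp.sum, map_sum] at hx
  have h2 : ∑ i ∈ y.support, (b i : ℂ) * g (y i) = 0 := by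
    rw [← hx]
    refine Finset.sum_congr rfl fun i _ => ?_
    rw [Algebra.TensorProduct.productMap_apply_tmul]
    rfl
  have hli : LinearIndependent (clF S) (fun i => (b i : ℂ)) := by
    have h3 := b.linearIndependent
    exact h3.map' (Gluer_clK hS).val.toLinearMap (LinearMap.ker_eq_bot.2 Subtype.val_injective)
  have h4 := linDisj_rel hS hB (fun i => (b i : ℂ)) (fun i => (b i).2) hli y.support
    (fun i => g (y i)) (fun i => hgB _) h2
  have h5 : y = 0 := by
    ext i
    by_cases hi : i ∈ y.support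
    · have := h4 i hi
      have h6 : g (y i) = g 0 := by rw [this, map_zero]
      exact hg h6
    · exact Finsupp.notMem_support_iff.1 hi
  rw [h5, map_zero]

theorem glue_rel {S X B B' : Set ℂ} (hS : S ⊆ X) (hB : IndOver X B) (hB' : IndOver X B')
    (Ψ : ℂ ≃+* ℂ) (hΨ : ∀ z ∈ cl S, Ψ z = z) {A : Set ℂ} (hAf : A.Finite)
    (hA : A ⊆ cl (S ∪ B)) (hA' : Ψ '' A ⊆ cl (S ∪ B')) :
    ∃ α : ℂ ≃+* ℂ, (∀ z ∈ cl X, α z = z) ∧ ∀ a ∈ A, α a = Ψ a := by
  let P : Subalgebra (clF S) ℂ := Algebra.adjoin (clF S) A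
  have hft : Algebra.FiniteType (clF S) P := by
    rw [← Subalgebra.fg_iff_finiteType]
    exact ⟨hAf.toFinset, by rw [Set.Finite.coe_toFinset]⟩
  let Ψ' : ℂ →ₐ[clF S] ℂ := AlgHom.mk (Ψ : ℂ →+* ℂ) (fun r => hΨ r.1 r.2)
  have hΨ' : ∀ z, Ψ' z = Ψ z := fun _ => rfl
  have hP : ∀ B : Set ℂ, ∀ A : Set ℂ, A ⊆ cl (S ∪ B) →
      Algebra.adjoin (clF S) A ≤ Gluer_clK (S := S) (X := S ∪ B) Set.subset_union_left :=
    fun B A h => Algebra.adjoin_le h
  let φ := Algebra.TensorProduct.productMap (Gluer_clK hS).val P.val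
  let ψ := Algebra.TensorProduct.productMap (Gluer_clK hS).val (Ψ'.comp P.val)
  have hφ : Function.Injective φ :=
    Gluer_productMap_injective hS hB P.val Subtype.val_injective (fun p => hP B A hA p.2)
  have hψ : Function.Injective ψ := by
    refine Gluer_productMap_injective hS hB' (Ψ'.comp P.val) ?_ (fun p => ?_)
    · intro x y hxy
      exact Subtype.ext (Ψ.injective hxy)
    · have h1 : Ψ' p.1 ∈ P.map Ψ' := ⟨p.1, p.2, rfl⟩
      simp only [P, AlgHom.map_adjoin] at h1
      exact hP B' _ hA' h1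
  obtain ⟨α, hα⟩ := exists_aut (R := Gluer_clK hS) (S := Gluer_clK hS ⊗[clF S] P)
    (by
      intro x y hxy
      have h1 : φ (x ⊗ₜ 1) = φ (y ⊗ₜ 1) := congrArg φ hxy
      simp only [φ, Algebra.TensorProduct.productMap_apply_tmul, map_one, mul_one] at h1
      exact Subtype.ext h1)
    trdeg_lt_aleph0_of_finiteType φ.toRingHom ψ.toRingHom hφ hψ (by
      ext x
      change φ (x ⊗ₜ 1) = ψ (x ⊗ₜ 1)
      simp only [φ, ψ, Algebra.TensorProduct.productMap_apply_tmul, map_one])
  refine ⟨α, fun z hz => ?_, fun a ha => ?_⟩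
  · have h := hα ((⟨z, hz⟩ : Gluer_clK hS) ⊗ₜ 1)
    change α (φ _) = ψ _ at h
    simp only [φ, ψ, Algebra.TensorProduct.productMap_apply_tmul, map_one, mul_one] at h
    exact h
  · have h := hα ((1 : Gluer_clK hS) ⊗ₜ (⟨a, Algebra.subset_adjoin ha⟩ : P))
    change α (φ _) = ψ _ at h
    simp only [φ, ψ, Algebra.TensorProduct.productMap_apply_tmul, map_one, one_mul] at h
    exact h

end Pool.Agent.AHU
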