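import Mathlib

/-!
# A locally constant property on a disc without a countable set is constant

Proof.  The complement of a countable set in an open disc of `ℂ` is path connected: Mathlib has
`Set.Countable.isPathConnected_compl_of_one_lt_rank` for the whole space (`Complex.rank_real_complex`);
the disc is homeomorphic to `ℂ` (`OpenPartialHomeomorph.univBall`, `Homeomorph.unitBall` or similar;
a countable set has countable image), or there is already a version for convex open sets.  So
`Metric.ball c r \ L` is preconnected, and the sets of its points where `P` holds, does not hold, are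
both relatively open.
-/

namespace Pool.Agent.AHU

open OpenPartialHomeomorph in
theorem Conn_preconnected {L : Set ℂ} (hL : L.Countable) {c : ℂ} {r : ℝ} (hr : 0 < r) :
    IsPreconnected (Metric.ball c r \ L) := by
  set e := univBall c r with he
  have hsrc : e.source = Set.univ := univBall_source c r
  have htgt : e.target = Metric.ball c r := univBall_target c hr
  have hinj : Function.Injective e := by
    intro x y hxy
    exact e.injOn (by rw [hsrc]; trivial) (by rw [hsrc]; trivial) hxy
  have hcount : (e ⁻¹' L).Countable := hL.preimage hinj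
  have hrank : 1 < Module.rank ℝ ℂ := by
    rw [Complex.rank_real_complex]
    exact_mod_cast one_lt_two
  have hconn : IsPreconnected (e ⁻¹' L)ᶜ :=
    (hcount.isConnected_compl_of_one_lt_rank hrank).isPreconnected
  have hcont : Continuous e := by
    rw [← continuousOn_univ, ← hsrc]
    exact e.continuousOn
  have himg : e '' (e ⁻¹' L)ᶜ = Metric.ball c r \ L := by
    ext z
    constructor
    · rintro ⟨x, hx, rfl⟩
      refine ⟨?_, hx⟩
      rw [← htgt]
      exact e.map_source (by rw [hsrc]; trivial)
    · rintro ⟨hz, hzL⟩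
      rw [← htgt] at hz
      refine ⟨e.symm z, ?_, e.right_inv hz⟩
      show e (e.symm z) ∉ L
      rw [e.right_inv hz]
      exact hzL
  rw [← himg]
  exact hconn.image e hcont.continuousOn

theorem const_of_loc {L : Set ℂ} (hL : L.Countable) {c : ℂ} {r : ℝ} {P : ℂ → Prop}
    (h : ∀ s ∈ Metric.ball c r, s ∉ L → ∃ ε > 0, ∀ s' ∈ Metric.ball c r, s' ∉ L → ‖s' - s‖ < ε →
      (P s' ↔ P s))
    {s s' : ℂ} (hs : s ∈ Metric.ball c r) (hsL : s ∉ L) (hs' : s' ∈ Metric.ball c r)
    (hs'L : s' ∉ L) : P s ↔ P s' := by
  have hr : 0 < r := Metric.pos_of_mem_ball hs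
  have hpre := Conn_preconnected hL (c := c) hr
  refine hpre.induction₂ (fun x y => P x ↔ P y) ?_ ?_ ?_ ⟨hs, hsL⟩ ⟨hs', hs'L⟩
  · rintro x ⟨hx, hxL⟩
    obtain ⟨ε, hε, hx2⟩ := h x hx hxL
    filter_upwards [self_mem_nhdsWithin, mem_nhdsWithin_of_mem_nhds (Metric.ball_mem_nhds x hε)]
      with y hy hyx
    rw [Metric.mem_ball, dist_eq_norm] at hyx
    exact (hx2 y hy.1 hy.2 hyx).symm
  · intro x y z _ _ _ hxy hyz
    exact hxy.trans hyz
  · intro x y _ _ hxy
    exact hxy.symm

end Pool.Agent.AHU
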