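import Mathlib
import Pool.Agent.AHC.Cl

/-!
# Polynomials in two variables over `cl T`, specialised in the first variable
-/

namespace Pool.Agent.AHU

open Pool.Agent.AHC Polynomial

/-- `M (s, Y)` for a polynomial `M (X, Y)` with coefficients in `cl T` -/
noncomputable def spec {T : Set ℂ} (M : (clF T)[X][X]) (s : ℂ) : ℂ[X] :=
  M.map (eval₂RingHom (algebraMap (clF T) ℂ) s)

theorem spec_monic {T : Set ℂ} {M : (clF T)[X][X]} (hM : M.Monic) (s : ℂ) : (spec M s).Monic :=
  hM.map _

theorem spec_natDegree {T : Set ℂ} {M : (clF T)[X][X]} (hM : M.Monic) (s : ℂ) :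
    (spec M s).natDegree = M.natDegree := hM.natDegree_map _

/-- a zero of a nonzero polynomial with coefficients in `cl T` is in `cl T` -/
theorem mem_cl_of_eval₂ {T : Set ℂ} {D : (clF T)[X]} (hD : D ≠ 0) {s : ℂ}
    (hs : D.eval₂ (algebraMap (clF T) ℂ) s = 0) : s ∈ cl T :=
  mem_cl_of_isAlgebraic ⟨D, hD, hs⟩

end Pool.Agent.AHU
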