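import Mathlib
import Pool.Agent.AHU.PDefs

/-!
# The roots of `M (s, Y)` are distinct for `s` outside a finite subset of `cl T`

Proof.  `M` is monic and irreducible in `K[X][Y]`, `K = clF T`, so it is irreducible over the field
of fractions of `K[X]` (`Polynomial.Monic.irreducible_iff_irreducible_map_fraction_map`), and
separable there (characteristic `0`): `u M + v M' = 1` with `u, v` over the field of fractions;
clear denominators: `U M + V M' = C D` with `U, V ∈ K[X][Y]` and `0 ≠ D ∈ K[X]`.  If
`D (s) ≠ 0` then `spec U s * spec M s + spec V s * (spec M s)' = C (D s)` is a unit, so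
`spec M s` is separable.
-/

namespace Pool.Agent.AHU

open Pool.Agent.AHC Polynomial

private lemma Disc_clear {R S : Type*} [CommRing R] [IsDomain R] [CommRing S] [Algebra R S]
    [IsLocalization (nonZeroDivisors R) S] (p : S[X]) :
    ∃ (b : R) (q : R[X]), b ≠ 0 ∧ q.map (algebraMap R S) = C (algebraMap R S b) * p := by
  obtain ⟨b, hb, h⟩ := IsLocalization.integerNormalization_spec (nonZeroDivisors R) p
  refine ⟨b, _, nonZeroDivisors.ne_zero hb, h.trans ?_⟩
  rw [← algebraMap_smul S b p, smul_eq_C_mul]

theorem exists_disc {T : Set ℂ} {M : (clF T)[X][X]} (hM : M.Monic) (hirr : Irreducible M) :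
    ∃ D : (clF T)[X], D ≠ 0 ∧ ∀ s : ℂ, D.eval₂ (algebraMap (clF T) ℂ) s ≠ 0 →
      (spec M s).Separable := by
  have hφ : Function.Injective (algebraMap (clF T)[X] (FractionRing (clF T)[X])) :=
    IsFractionRing.injective _ _
  have h1 : Irreducible (M.map (algebraMap (clF T)[X] (FractionRing (clF T)[X]))) :=
    (hM.irreducible_iff_irreducible_map_fraction_map).1 hirr
  have : CharZero (FractionRing (clF T)[X]) := charZero_of_injective_algebraMap hφ
  obtain ⟨u, v, huv⟩ := h1.separable
  obtain ⟨b, U, hb0, hb⟩ := Disc_clear (R := (clF T)[X]) u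
  obtain ⟨c, V, hc0, hc⟩ := Disc_clear (R := (clF T)[X]) v
  have key : C c * U * M + C b * V * derivative M = C (b * c) := by
    apply map_injective _ hφ
    rw [Polynomial.map_add, Polynomial.map_mul, Polynomial.map_mul, Polynomial.map_mul, Polynomial.map_mul,
      map_C, map_C, map_C, hb, hc, ← derivative_map, map_mul, C_mul]
    linear_combination (C (algebraMap (clF T)[X] (FractionRing (clF T)[X]) b) *
      C (algebraMap (clF T)[X] (FractionRing (clF T)[X]) c)) * huv
  refine ⟨b * c, mul_ne_zero hb0 hc0, ?_⟩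
  intro s hs
  have key2 := congrArg (Polynomial.map (eval₂RingHom (algebraMap (clF T) ℂ) s)) key
  have e1 := Polynomial.map_mul (p := C c * U) (q := M) (eval₂RingHom (algebraMap (clF T) ℂ) s)
  have e2 := Polynomial.map_mul (p := C b * V) (q := derivative M) (eval₂RingHom (algebraMap (clF T) ℂ) s)
  rw [Polynomial.map_add, e1, e2, ← derivative_map, map_C, coe_eval₂RingHom] at key2
  have hk : C (eval₂ (algebraMap (clF T) ℂ) s (b * c))⁻¹ * C (eval₂ (algebraMap (clF T) ℂ) s (b * c)) = 1 := by
    rw [← C_mul, inv_mul_cancel₀ hs, C_1]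
  rw [← key2, mul_add, ← mul_assoc, ← mul_assoc] at hk
  exact ⟨_, _, hk⟩

end Pool.Agent.AHU
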