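import Mathlib

/-!
# A function which is locally holomorphic and of polynomial growth is a polynomial

Proof.  For `s₀ ∉ Z` the local extension `h` is unique as a germ (the complement of the countable
set `L` is dense), so there is a function `g` on `ℂ`, holomorphic on the open set `Zᶜ`, with
`g = f` on `(L ∪ Z)ᶜ` and `g s₀ = h s₀` for every local extension `h` at `s₀ ∉ Z` (define `g s₀` as
the value at `s₀` of a chosen local extension; near `s₀` it is equal to this extension because two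
continuous functions which agree on a dense set are equal).  By continuity
`‖g s‖ ≤ B (1 + ‖s‖) ^ e` for all `s ∉ Z`; so `g` is bounded near the points of the finite set `Z` and
extends to an entire function (Riemann: `Complex.differentiableOn_update_limUnder_of_bddAbove`).
An entire function with `‖g s‖ ≤ B (1 + ‖s‖) ^ e` is a polynomial by induction on `e` with
`(g s - g 0) / s` (`dslope`) and Liouville's theorem.
-/

namespace Pool.Agent.AHU

open Polynomial Filter
open scoped Topology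

/-- two continuous functions which agree off a countable set agree -/
private theorem Ent_eq {L : Set ℂ} (hL : L.Countable) {U : Set ℂ} (hU : IsOpen U) {h₁ h₂ : ℂ → ℂ}
    (h1 : ContinuousOn h₁ U) (h2 : ContinuousOn h₂ U) (h : ∀ s ∈ U, s ∉ L → h₁ s = h₂ s) :
    ∀ s ∈ U, h₁ s = h₂ s := by
  intro s hs
  have hd : Dense Lᶜ := hL.dense_compl ℝ
  have : NeBot (𝓝[Lᶜ] s) := mem_closure_iff_nhdsWithin_neBot.1 (hd s)
  have t1 : Tendsto h₁ (𝓝[Lᶜ] s) (𝓝 (h₁ s)) :=
    (h1.continuousAt (hU.mem_nhds hs)).tendsto.mono_left nhdsWithin_le_nhds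
  have t2 : Tendsto h₂ (𝓝[Lᶜ] s) (𝓝 (h₂ s)) :=
    (h2.continuousAt (hU.mem_nhds hs)).tendsto.mono_left nhdsWithin_le_nhds
  refine tendsto_nhds_unique_of_eventuallyEq t1 t2 ?_
  filter_upwards [self_mem_nhdsWithin, mem_nhdsWithin_of_mem_nhds (hU.mem_nhds hs)] with u hu1 hu2
  exact h u hu2 hu1

/-- a bound off a countable set holds at the points of continuity -/
private theorem Ent_le {L : Set ℂ} (hL : L.Countable) {g : ℂ → ℂ} {B : ℝ} {e : ℕ}
    (hB : ∀ s ∉ L, ‖g s‖ ≤ B * (1 + ‖s‖) ^ e) {s : ℂ} (hs : ContinuousAt g s) :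
    ‖g s‖ ≤ B * (1 + ‖s‖) ^ e := by
  have hd : Dense Lᶜ := hL.dense_compl ℝ
  have : NeBot (𝓝[Lᶜ] s) := mem_closure_iff_nhdsWithin_neBot.1 (hd s)
  have t1 : Tendsto (fun u => ‖g u‖) (𝓝[Lᶜ] s) (𝓝 ‖g s‖) :=
    (hs.norm.tendsto).mono_left nhdsWithin_le_nhds
  have t2 : Tendsto (fun u : ℂ => B * (1 + ‖u‖) ^ e) (𝓝[Lᶜ] s) (𝓝 (B * (1 + ‖s‖) ^ e)) := by
    have : Continuous fun u : ℂ => B * (1 + ‖u‖) ^ e := by fun_prop
    exact this.continuousAt.tendsto.mono_left nhdsWithin_le_nhds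
  refine le_of_tendsto_of_tendsto t1 t2 ?_
  filter_upwards [self_mem_nhdsWithin] with u hu
  exact hB u hu

/-- an entire function of polynomial growth is a polynomial -/
private theorem Ent_poly (e : ℕ) : ∀ {G : ℂ → ℂ}, Differentiable ℂ G → ∀ {B : ℝ},
    (∀ s, ‖G s‖ ≤ B * (1 + ‖s‖) ^ e) → ∃ p : ℂ[X], ∀ s, G s = p.eval s := by
  induction e with
  | zero =>
    intro G hG B hB
    have hb : Bornology.IsBounded (Set.range G) := by
      rw [isBounded_iff_forall_norm_le]
      refine ⟨B, ?_⟩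
      rintro _ ⟨s, rfl⟩
      simpa using hB s
    obtain ⟨c, hc⟩ := hG.exists_const_forall_eq_of_bounded hb
    exact ⟨C c, fun s => by rw [hc s, eval_C]⟩
  | succ e ih =>
    intro G hG B hB
    have hB0 : 0 ≤ B := by
      have := hB 0
      simp at this
      exact (norm_nonneg _).trans this
    have hd : Differentiable ℂ (dslope G 0) := by
      have h1 : DifferentiableOn ℂ (dslope G 0) Set.univ :=
        (Complex.differentiableOn_dslope Filter.univ_mem).2 hG.differentiableOn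
      exact differentiableOn_univ.1 h1
    obtain ⟨K, hK⟩ := (isCompact_closedBall (0 : ℂ) 1).exists_bound_of_continuousOn
      hd.continuous.continuousOn
    have hK0 : 0 ≤ K := (norm_nonneg _).trans (hK 0 (Metric.mem_closedBall_self zero_le_one))
    obtain ⟨q, hq⟩ := ih hd (B := 3 * B + K) (by
      intro s
      have h1 : (1 : ℝ) ≤ 1 + ‖s‖ := by linarith [norm_nonneg s]
      have h2 : (1 : ℝ) ≤ (1 + ‖s‖) ^ e := one_le_pow₀ h1
      rcases le_total ‖s‖ 1 with hs | hs
      · have h3 := hK s (by simpa using hs)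
        have h4 : K * 1 ≤ K * (1 + ‖s‖) ^ e := mul_le_mul_of_nonneg_left h2 hK0
        have h5 : 0 ≤ 3 * B * (1 + ‖s‖) ^ e := by positivity
        linarith [h3, h4, h5, add_mul (3 * B) K ((1 + ‖s‖) ^ e)]
      · have hs0 : s ≠ 0 := by
          intro h
          rw [h, norm_zero] at hs
          linarith
        have h3 : ‖s‖ * ‖dslope G 0 s‖ ≤ B * (1 + ‖s‖) ^ (e + 1) + B := by
          rw [dslope_of_ne _ hs0, slope_def_field, sub_zero, norm_div,
            mul_div_cancel₀ _ (norm_ne_zero_iff.2 hs0)]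
          have h4 := hB 0
          simp at h4
          exact (norm_sub_le _ _).trans (add_le_add (hB s) h4)
        have h4 : 0 ≤ K * (1 + ‖s‖) ^ e := by positivity
        have h5 : ‖s‖ * ‖dslope G 0 s‖ ≤ ‖s‖ * (3 * B * (1 + ‖s‖) ^ e) := by
          refine h3.trans ?_
          have h6 : (1 + ‖s‖) ^ (e + 1) ≤ 2 * ‖s‖ * (1 + ‖s‖) ^ e := by
            rw [pow_succ, mul_comm]
            refine mul_le_mul_of_nonneg_right (by linarith) (by positivity)
          have h7 : B ≤ B * (‖s‖ * (1 + ‖s‖) ^ e) := by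
            have : 1 ≤ ‖s‖ * (1 + ‖s‖) ^ e := by nlinarith
            nlinarith
          have h8 : B * (1 + ‖s‖) ^ (e + 1) ≤ B * (2 * ‖s‖ * (1 + ‖s‖) ^ e) :=
            mul_le_mul_of_nonneg_left h6 hB0
          linarith [h7, h8]
        have h6 := le_of_mul_le_mul_left h5 (by linarith)
        rw [add_mul]
        linarith)
    refine ⟨C (G 0) + X * q, fun s => ?_⟩
    rw [eval_add, eval_C, eval_mul, eval_X, ← hq s]
    rcases eq_or_ne s 0 with rfl | hs
    · simp
    · rw [dslope_of_ne _ hs, slope_def_field, sub_zero]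
      field_simp
      ring

/-- removable singularities at the points of a finite set -/
private theorem Ent_ext {Z : Set ℂ} (hZ : Z.Finite) {g : ℂ → ℂ} (hg : ∀ s ∉ Z, DifferentiableAt ℂ g s)
    {B : ℝ} {e : ℕ} (hB : ∀ s ∉ Z, ‖g s‖ ≤ B * (1 + ‖s‖) ^ e) :
    ∃ G : ℂ → ℂ, Differentiable ℂ G ∧ ∀ s ∉ Z, G s = g s := by
  classical
  refine ⟨fun s => if s ∈ Z then limUnder (𝓝[≠] s) g else g s, ?_, fun s hs => if_neg hs⟩
  intro c
  by_cases hc : c ∈ Z
  · -- a small ball
    have h1 : (Z \ {c})ᶜ ∈ 𝓝 c :=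
      (hZ.subset Set.sdiff_subset).isClosed.isOpen_compl.mem_nhds (fun h => h.2 rfl)
    obtain ⟨ρ, hρ, hρ1⟩ := Metric.mem_nhds_iff.1 h1
    have hmem : ∀ s ∈ Metric.ball c ρ, s ≠ c → s ∉ Z := by
      intro s hs hsc hsZ
      exact hρ1 hs ⟨hsZ, hsc⟩
    have h2 : DifferentiableOn ℂ (Function.update g c (limUnder (𝓝[≠] c) g)) (Metric.ball c ρ) := by
      refine Complex.differentiableOn_update_limUnder_of_bddAbove (Metric.ball_mem_nhds c hρ) ?_ ?_
      · intro s hs
        exact (hg s (hmem s hs.1 hs.2)).differentiableWithinAt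
      · obtain ⟨K, hK⟩ := (isCompact_closedBall c ρ).exists_bound_of_continuousOn
          (f := fun u : ℂ => B * (1 + ‖u‖) ^ e) (by fun_prop)
        refine ⟨K, ?_⟩
        rintro _ ⟨s, hs, rfl⟩
        refine (hB s (hmem s hs.1 hs.2)).trans ?_
        exact (le_abs_self _).trans (hK s (Metric.ball_subset_closedBall hs.1))
    refine (h2.differentiableAt (Metric.ball_mem_nhds c hρ)).congr_of_eventuallyEq ?_
    filter_upwards [Metric.ball_mem_nhds c hρ] with s hs
    rcases eq_or_ne s c with rfl | hsc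
    · rw [if_pos hc, Function.update_self]
    · rw [if_neg (hmem s hs hsc), Function.update_of_ne hsc]
  · refine (hg c hc).congr_of_eventuallyEq ?_
    filter_upwards [hZ.isClosed.isOpen_compl.mem_nhds hc] with s hs
    exact if_neg hs

/-- A function which is locally holomorphic off a countable set `L` and a finite set `Z ⊆ L`, and
of polynomial growth, is a polynomial. -/
theorem exists_poly {L : Set ℂ} (hL : L.Countable) {Z : Set ℂ} (hZ : Z.Finite) (hZL : Z ⊆ L)
    {f : ℂ → ℂ}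
    (hloc : ∀ s₀ ∉ Z, ∃ r > 0, ∃ h : ℂ → ℂ, DifferentiableOn ℂ h (Metric.ball s₀ r) ∧
      ∀ s ∈ Metric.ball s₀ r, s ∉ L → f s = h s)
    {B : ℝ} {e : ℕ} (hB : ∀ s ∉ L, ‖f s‖ ≤ B * (1 + ‖s‖) ^ e) :
    ∃ p : ℂ[X], (∀ s ∉ L, f s = p.eval s) ∧ ∀ s₀ ∉ Z, ∀ r > 0, ∀ h : ℂ → ℂ,
      DifferentiableOn ℂ h (Metric.ball s₀ r) → (∀ s ∈ Metric.ball s₀ r, s ∉ L → f s = h s) →
        h s₀ = p.eval s₀ := by
  choose! r hr h hd he using hloc
  -- all local extensions agree
  have hK : ∀ (s₀ : ℂ) (r' : ℝ) (h' : ℂ → ℂ), DifferentiableOn ℂ h' (Metric.ball s₀ r') →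
      (∀ s ∈ Metric.ball s₀ r', s ∉ L → f s = h' s) →
      ∀ s ∈ Metric.ball s₀ r', s ∉ Z → h s s = h' s := by
    intro s₀ r' h' hd' he' s hs hsZ
    refine Ent_eq hL (U := Metric.ball s (r s) ∩ Metric.ball s₀ r')
      (Metric.isOpen_ball.inter Metric.isOpen_ball)
      ((hd s hsZ).continuousOn.mono Set.inter_subset_left)
      (hd'.continuousOn.mono Set.inter_subset_right) ?_ s
      ⟨Metric.mem_ball_self (hr s hsZ), hs⟩
    intro u hu huL
    rw [← he s hsZ u hu.1 huL, ← he' u hu.2 huL]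
  have hg : ∀ s ∉ Z, DifferentiableAt ℂ (fun u => h u u) s := by
    intro s hs
    refine ((hd s hs).differentiableAt
      (Metric.ball_mem_nhds s (hr s hs))).congr_of_eventuallyEq ?_
    filter_upwards [Metric.ball_mem_nhds s (hr s hs), hZ.isClosed.isOpen_compl.mem_nhds hs]
      with u hu1 hu2
    exact hK s (r s) (h s) (hd s hs) (he s hs) u hu1 hu2
  have hfg : ∀ s ∉ L, f s = h s s := fun s hs =>
    he s (fun h => hs (hZL h)) s (Metric.mem_ball_self (hr s fun h => hs (hZL h))) hs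
  have hB1 : ∀ s ∉ L, ‖h s s‖ ≤ B * (1 + ‖s‖) ^ e := by
    intro s hs
    rw [← hfg s hs]
    exact hB s hs
  obtain ⟨G, hG, hGg⟩ := Ent_ext hZ hg (B := B) (e := e) fun s hs =>
    Ent_le hL (g := fun u => h u u) hB1 (hg s hs).continuousAt
  obtain ⟨p, hp⟩ := Ent_poly e hG (B := B) fun s =>
    Ent_le hL (fun u hu => by
      rw [hGg u fun h => hu (hZL h)]
      exact hB1 u hu) hG.continuous.continuousAt
  refine ⟨p, fun s hs => ?_, fun s₀ hs₀ r' hr' h' hd' he' => ?_⟩
  · rw [hfg s hs, ← hp s, hGg s fun h => hs (hZL h)]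
  · rw [← hp s₀, hGg s₀ hs₀]
    exact (hK s₀ r' h' hd' he' s₀ (Metric.mem_ball_self hr') hs₀).symm

end Pool.Agent.AHU
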