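import Mathlib
import Pool.Agent.AHU.PDefs

/-!
# Local holomorphic roots of `M (s, Y)`

Proof.  Let `n = M.natDegree`.  `spec M s₀` is separable and monic of degree `n`, so it has `n`
different roots `e j`, `j : Fin n`.  The function `E (s, y) = (spec M s).eval y` is a polynomial
function of `(s, y)`, so analytic, `E (s₀, e j) = 0` and `∂E/∂y (s₀, e j) ≠ 0`.  By the implicit
function theorem (see the proof of `exists_root'` in `AHR/Root.lean`) there are holomorphic
functions `η j` near `s₀` with `η j s₀ = e j`, `E (s, η j s) = 0`.  They are different near `s₀`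
(continuity), so for `s` near `s₀` the monic polynomial `spec M s` of degree `n` has the `n`
different roots `η j s` and is equal to the product.
-/

namespace Pool.Agent.AHU

open Pool.Agent.AHC Polynomial Filter
open scoped Topology ContDiff

private theorem Rts_invertible {f : ℂ →L[ℂ] ℂ} (h : ∀ v, f v = 0 → v = 0) : f.IsInvertible := by
  have hinj : Function.Injective (f : ℂ →ₗ[ℂ] ℂ) := by
    rw [← LinearMap.ker_eq_bot, LinearMap.ker_eq_bot']
    exact h
  refine ⟨(LinearEquiv.ofInjectiveEndo (f : ℂ →ₗ[ℂ] ℂ) hinj).toContinuousLinearEquiv, ?_⟩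
  ext
  rfl

private theorem Rts_coeff {T : Set ℂ} (M : (clF T)[X][X]) (s : ℂ) (i : ℕ) :
    (spec M s).coeff i = ((M.coeff i).map (algebraMap (clF T) ℂ)).eval s := by
  unfold spec
  rw [coeff_map, coe_eval₂RingHom, eval_map]

private theorem Rts_contDiff (q : ℂ[X]) : ContDiff ℂ 1 fun s : ℂ => q.eval s := by
  have h := q.contDiff_aeval (𝕜 := ℂ) (n := 1)
  simpa using h

/-- one root, implicit function theorem -/
private theorem Rts_one {T : Set ℂ} {M : (clF T)[X][X]} (hM : M.Monic) {s₀ e : ℂ}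
    (h0 : (spec M s₀).eval e = 0) (h1 : (spec M s₀).derivative.eval e ≠ 0) :
    ∃ r > 0, ∃ η : ℂ → ℂ, DifferentiableOn ℂ η (Metric.ball s₀ r) ∧ η s₀ = e ∧
      ∀ s ∈ Metric.ball s₀ r, (spec M s).eval (η s) = 0 := by
  set n := M.natDegree with hn
  set E : ℂ × ℂ → ℂ :=
    fun v => ∑ i ∈ Finset.range (n + 1), ((M.coeff i).map (algebraMap (clF T) ℂ)).eval v.1 * v.2 ^ i with hE
  have hEs : ∀ s y, E (s, y) = (spec M s).eval y := by
    intro s y
    rw [eval_eq_sum_range, spec_natDegree hM]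
    refine Finset.sum_congr rfl fun i _ => ?_
    rw [Rts_coeff]
  have hE0 : E (s₀, e) = 0 := by rw [hEs, h0]
  have hc : ContDiff ℂ 1 E := by
    rw [hE]
    refine ContDiff.sum fun i _ => ?_
    exact ((Rts_contDiff _).comp contDiff_fst).mul (contDiff_snd.pow i)
  have cdf : ContDiffAt ℂ 1 E (s₀, e) := hc.contDiffAt
  have pn : (1 : WithTop ℕ∞) ≠ 0 := one_ne_zero
  have hinv : (fderiv ℂ E (s₀, e) ∘L .inr ℂ ℂ ℂ).IsInvertible := by
    have e1 : HasFDerivAt E (fderiv ℂ E (s₀, e)) (s₀, e) :=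
      ((hc.differentiable one_ne_zero) _).hasFDerivAt
    have e2 : HasFDerivAt (fun y : ℂ => (s₀, y)) (.inr ℂ ℂ ℂ) e :=
      hasFDerivAt_prodMk_right s₀ e
    have e3 : HasFDerivAt (fun y : ℂ => E (s₀, y)) (fderiv ℂ E (s₀, e) ∘L .inr ℂ ℂ ℂ) e :=
      HasFDerivAt.comp e e1 e2
    have e4 : HasDerivAt (fun y : ℂ => E (s₀, y)) ((spec M s₀).derivative.eval e) e := by
      have h := (spec M s₀).hasDerivAt e
      exact h.congr_of_eventuallyEq (Eventually.of_forall fun y => hEs s₀ y)
    have e5 := e3.hasDerivAt.unique e4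
    refine Rts_invertible fun v hv => ?_
    have e6 : (fderiv ℂ E (s₀, e) ∘L .inr ℂ ℂ ℂ) v =
        v * (fderiv ℂ E (s₀, e) ∘L .inr ℂ ℂ ℂ) 1 := by
      rw [← smul_eq_mul, ← map_smul, smul_eq_mul, mul_one]
    rw [e6, e5] at hv
    exact (mul_eq_zero.1 hv).resolve_right h1
  have a1 : ∀ᶠ s in 𝓝 s₀, ContDiffAt ℂ 1 (cdf.implicitFunction pn hinv) s :=
    (cdf.contDiffAt_implicitFunction pn hinv).eventually (by simp)
  have a2 : cdf.implicitFunction pn hinv s₀ = e := cdf.implicitFunction_apply_self pn hinv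
  have a3 := cdf.eventually_apply_implicitFunction pn hinv
  rw [hE0] at a3
  obtain ⟨r1, hr1, b1⟩ := Metric.eventually_nhds_iff_ball.1 a1
  obtain ⟨r2, hr2, b2⟩ := Metric.eventually_nhds_iff_ball.1 a3
  refine ⟨min r1 r2, lt_min hr1 hr2, cdf.implicitFunction pn hinv, ?_, a2, ?_⟩
  · intro s hs
    exact ((b1 s (Metric.ball_subset_ball (min_le_left _ _) hs)).differentiableAt
      one_ne_zero).differentiableWithinAt
  · intro s hs
    rw [← hEs]
    exact b2 s (Metric.ball_subset_ball (min_le_right _ _) hs)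

/-- `n` different roots of a monic polynomial of degree `n` give the factorisation -/
private theorem Rts_prod {n : ℕ} {p : ℂ[X]} (hp : p.Monic) (hn : p.natDegree = n) {e : Fin n → ℂ}
    (he : Function.Injective e) (h0 : ∀ j, p.eval (e j) = 0) : p = ∏ j, (X - C (e j)) := by
  classical
  have h1 : (∏ j, (X - C (e j))) ∣ p := by
    refine Finset.prod_dvd_of_coprime ?_ fun j _ => ?_
    · intro i _ j _ hij
      exact isCoprime_X_sub_C_of_isUnit_sub (sub_ne_zero.2 (he.ne hij)).isUnit
    · exact dvd_iff_isRoot.2 (h0 j)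
  have h2 : (∏ j, (X - C (e j))).Monic := monic_prod_of_monic _ _ fun j _ => monic_X_sub_C _
  have h3 : (∏ j, (X - C (e j))).natDegree = n := by
    rw [natDegree_prod_of_monic _ _ fun j _ => monic_X_sub_C _]
    simp
  exact eq_of_monic_of_dvd_of_natDegree_le h2 hp h1 (by rw [h3, hn])

theorem exists_roots {T : Set ℂ} {M : (clF T)[X][X]} (hM : M.Monic) {s₀ : ℂ}
    (hs₀ : (spec M s₀).Separable) :
    ∃ r > 0, ∃ η : Fin M.natDegree → ℂ → ℂ,
      (∀ j, DifferentiableOn ℂ (η j) (Metric.ball s₀ r)) ∧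
      ∀ s ∈ Metric.ball s₀ r, (Function.Injective fun j => η j s) ∧
        spec M s = ∏ j, (X - C (η j s)) := by
  classical
  have hmon := spec_monic hM s₀
  have hdeg := spec_natDegree hM s₀
  have hcard : (spec M s₀).roots.toFinset.card = M.natDegree := by
    rw [Multiset.toFinset_card_of_nodup (nodup_roots hs₀), ← hdeg]
    exact (splits_iff_card_roots.1 (IsAlgClosed.splits _))
  let e : Fin M.natDegree ≃ (spec M s₀).roots.toFinset :=
    (Finset.equivFinOfCardEq hcard).symm
  have heval : ∀ j, (spec M s₀).eval (e j : ℂ) = 0 := by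
    intro j
    have := (e j).2
    rw [Multiset.mem_toFinset, mem_roots hmon.ne_zero] at this
    exact this
  have hder : ∀ j, (spec M s₀).derivative.eval (e j : ℂ) ≠ 0 := by
    intro j
    have := hs₀.eval₂_derivative_ne_zero (RingHom.id ℂ) (x := (e j : ℂ)) (by
      rw [← eval, heval j])
    rwa [← eval] at this
  choose r hr η hη hηe hη0 using fun j => Rts_one hM (heval j) (hder j)
  -- the roots are different near `s₀`
  have hcont : ∀ j, ContinuousAt (η j) s₀ := fun j =>
    ((hη j).differentiableAt (Metric.ball_mem_nhds _ (hr j))).continuousAt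
  have hev : ∀ i j, ∀ᶠ s in 𝓝 s₀, i ≠ j → η i s ≠ η j s := by
    intro i j
    by_cases hij : i = j
    · exact Eventually.of_forall fun s h => absurd hij h
    · have h1 : η i s₀ - η j s₀ ≠ 0 := by
        rw [hηe, hηe, sub_ne_zero]
        exact fun h => hij (e.injective (Subtype.ext h))
      have h2 : ContinuousAt (fun s => η i s - η j s) s₀ := (hcont i).sub (hcont j)
      exact (h2.eventually_ne h1).mono fun s hs _ => sub_ne_zero.1 hs
  have hball : ∀ j, ∀ᶠ s in 𝓝 s₀, s ∈ Metric.ball s₀ (r j) := fun j => Metric.ball_mem_nhds _ (hr j)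
  have hall : ∀ᶠ s in 𝓝 s₀, (∀ i j, i ≠ j → η i s ≠ η j s) ∧ ∀ j, s ∈ Metric.ball s₀ (r j) :=
    (eventually_all.2 fun i => eventually_all.2 fun j => hev i j).and (eventually_all.2 hball)
  obtain ⟨ρ, hρ, hρall⟩ := Metric.eventually_nhds_iff_ball.1 hall
  refine ⟨ρ, hρ, η, fun j s hs => ?_, fun s hs => ?_⟩
  · have h1 := (hρall s hs).2 j
    exact ((hη j).differentiableAt (Metric.isOpen_ball.mem_nhds h1)).differentiableWithinAt
  · obtain ⟨h1, h2⟩ := hρall s hs
    have hinj : Function.Injective fun j => η j s := by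
      intro i j hij
      by_contra h
      exact h1 i j h hij
    exact ⟨hinj, Rts_prod (spec_monic hM s) (spec_natDegree hM s) hinj fun j => hη0 j s (h2 j)⟩

end Pool.Agent.AHU
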