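import Mathlib
import Pool.Agent.AHU.Disc
import Pool.Agent.AHU.Rts
import Pool.Agent.AHU.Ent
import Pool.Agent.AHU.Conn
import Pool.Agent.AHC.Two

/-!
# The product over the roots with a locally constant property has polynomial coefficients

`part M A s` is the product of `Y - η` over the roots `η` of `M (s, Y)` with `(s, η) ∈ A`.

Proof.  Let `D` be as in `exists_disc`, `Z` the finite set of its complex zeros; `Z ⊆ cl T` by
`mem_cl_of_eval₂`.  `L = cl T` is countable (`AHC.cl_countable` or similar, see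
`Pool/Agent/AHR/Two2.lean`, `exists_ball_notMem_cl'`).  Let `s₀ ∉ Z`, and `r, η` as in
`exists_roots`.  For fixed `j` the property `(s, η j s) ∈ A` of `s ∈ ball s₀ r`, `s ∉ L`, is locally
constant by `hA` and the continuity of `η j`, so it is constant (`const_of_loc`).  So there is
`J : Finset (Fin n)` with `part M A s = ∏ j ∈ J, (X - C (η j s))` for all `s ∈ ball s₀ r`,
`s ∉ L` (the roots `η j s` are different), and the coefficients of this product are holomorphic in
`s`.  Growth: the roots of the monic polynomial `spec M s` are bounded by `1 + ∑ |coefficients|`,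
which is at most `B (1 + ‖s‖) ^ e`, so the coefficients of `part M A s` (product of at most `n`
factors) have polynomial growth on the complement of `L`.  By `exists_poly` there is `p : ℂ[X]` with
`(part M A s).coeff i = p.eval s` for `s ∉ L`.

The coefficients of `p` are in `cl T`: for `s₀ ∈ cl T`, `s₀ ∉ Z`, the roots of `spec M s₀` are in
`cl T` (`mem_cl_of_isAlgebraic`: they are algebraic over `clF T`), and by the last statement of
`exists_poly` `p.eval s₀` is the `i`-th coefficient of `∏ j ∈ J, (X - C (η j s₀))`, so it is in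
`cl T`.  So `p` takes values in the field `clF T` at infinitely many elements of `clF T`; by Lagrange
interpolation (`Lagrange.interpolate`, over `clF T`) its coefficients are in `clF T`.
-/

namespace Pool.Agent.AHU

open Pool.Agent.AHC Polynomial

/-- multiplication with a linear factor -/
private theorem Coef_mul (a : ℂ) (P : ℂ[X]) (i : ℕ) :
    ((X - C a) * P).coeff i = (if i = 0 then 0 else P.coeff (i - 1)) - a * P.coeff i := by
  rw [sub_mul, coeff_sub, coeff_C_mul]
  congr 1
  cases i with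
  | zero => simp
  | succ i => simp [coeff_X_mul]

private theorem Coef_diff {ι : Type} (J : Finset ι) (η : ι → ℂ → ℂ) (U : Set ℂ)
    (h : ∀ j, DifferentiableOn ℂ (η j) U) (i : ℕ) :
    DifferentiableOn ℂ (fun s => (∏ j ∈ J, (X - C (η j s))).coeff i) U := by
  classical
  induction J using Finset.induction_on generalizing i with
  | empty =>
    simp only [Finset.prod_empty]
    exact differentiableOn_const _
  | insert a J ha ih =>
    have e : (fun s => (∏ j ∈ insert a J, (X - C (η j s))).coeff i) =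
        fun s => (if i = 0 then 0 else (∏ j ∈ J, (X - C (η j s))).coeff (i - 1)) -
          η a s * (∏ j ∈ J, (X - C (η j s))).coeff i := by
      funext s
      rw [Finset.prod_insert ha, Coef_mul]
    rw [e]
    refine DifferentiableOn.sub ?_ ((h a).mul (ih i))
    by_cases hi : i = 0
    · simp only [hi, if_true]
      exact differentiableOn_const _
    · simp only [hi, if_false]
      exact ih (i - 1)

private theorem Coef_bound (S : Finset ℂ) {R : ℝ} (hR : 0 ≤ R) (h : ∀ η ∈ S, ‖η‖ ≤ R) (i : ℕ) :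
    ‖(∏ η ∈ S, (X - C η)).coeff i‖ ≤ (1 + R) ^ S.card := by
  classical
  induction S using Finset.induction_on generalizing i with
  | empty =>
    rw [Finset.prod_empty, Finset.card_empty, pow_zero, coeff_one]
    split_ifs <;> simp
  | insert a S ha ih =>
    rw [Finset.prod_insert ha, Coef_mul, Finset.card_insert_of_notMem ha, pow_succ]
    have ih' := ih fun η hη => h η (Finset.mem_insert_of_mem hη)
    have h1 : ‖(if i = 0 then 0 else (∏ η ∈ S, (X - C η)).coeff (i - 1) : ℂ)‖ ≤ (1 + R) ^ S.card := by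
      split_ifs
      · rw [norm_zero]; positivity
      · exact ih' (i - 1)
    have h2 : ‖a * (∏ η ∈ S, (X - C η)).coeff i‖ ≤ R * (1 + R) ^ S.card := by
      rw [norm_mul]
      exact mul_le_mul (h a (Finset.mem_insert_self _ _)) (ih' i) (norm_nonneg _) hR
    refine (norm_sub_le _ _).trans ?_
    nlinarith

private theorem Coef_growth {T : Set ℂ} (p : (clF T)[X]) : ∃ B : ℝ, 0 ≤ B ∧ ∃ e : ℕ, ∀ s : ℂ,
    ‖p.eval₂ (algebraMap (clF T) ℂ) s‖ ≤ B * (1 + ‖s‖) ^ e := by
  refine ⟨∑ k ∈ Finset.range (p.natDegree + 1), ‖algebraMap (clF T) ℂ (p.coeff k)‖,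
    Finset.sum_nonneg fun _ _ => norm_nonneg _, p.natDegree, fun s => ?_⟩
  rw [eval₂_eq_sum_range]
  refine (norm_sum_le _ _).trans ?_
  rw [Finset.sum_mul]
  refine Finset.sum_le_sum fun k hk => ?_
  rw [norm_mul, norm_pow]
  refine mul_le_mul_of_nonneg_left ?_ (norm_nonneg _)
  have h1 : (1 : ℝ) ≤ 1 + ‖s‖ := by linarith [norm_nonneg s]
  calc ‖s‖ ^ k ≤ (1 + ‖s‖) ^ k := pow_le_pow_left₀ (norm_nonneg _) (by linarith) _
    _ ≤ _ := pow_le_pow_right₀ h1 (Nat.lt_succ_iff.1 (Finset.mem_range.1 hk))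

private theorem Coef_root {P : ℂ[X]} (hP : P.Monic) {η : ℂ} (h : P.eval η = 0) {K : ℝ}
    (hK : 0 ≤ K) (hc : ∀ k, ‖P.coeff k‖ ≤ K) : ‖η‖ ≤ 1 + P.natDegree * K := by
  by_contra hlt
  rw [not_le] at hlt
  have hn0 : (0 : ℝ) ≤ P.natDegree * K := by positivity
  have h1 : 1 < ‖η‖ := by linarith
  rcases Nat.eq_zero_or_pos P.natDegree with h0 | hpos
  · have hP1 : P = 1 := hP.natDegree_eq_zero.1 h0
    rw [hP1, eval_one] at h
    exact one_ne_zero h
  · have h2 := congrArg (eval η) hP.as_sum
    rw [h, eval_add, eval_pow, eval_X, eval_finsetSum] at h2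
    have h3 : η ^ P.natDegree = -∑ k ∈ Finset.range P.natDegree, eval η (C (P.coeff k) * X ^ k) :=
      eq_neg_of_add_eq_zero_left h2.symm
    have h4 : ‖η‖ ^ P.natDegree ≤ P.natDegree * K * ‖η‖ ^ (P.natDegree - 1) := by
      rw [← norm_pow, h3, norm_neg]
      refine (norm_sum_le _ _).trans ?_
      have h5 : ∀ k ∈ Finset.range P.natDegree, ‖eval η (C (P.coeff k) * X ^ k)‖ ≤
          K * ‖η‖ ^ (P.natDegree - 1) := by
        intro k hk
        rw [eval_mul, eval_C, eval_pow, eval_X, norm_mul, norm_pow]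
        refine mul_le_mul (hc k) (pow_le_pow_right₀ h1.le ?_) (by positivity) hK
        have := Finset.mem_range.1 hk
        omega
      refine (Finset.sum_le_sum h5).trans (le_of_eq ?_)
      rw [Finset.sum_const, Finset.card_range, nsmul_eq_mul]
      ring
    have h6 : ‖η‖ ^ P.natDegree = ‖η‖ * ‖η‖ ^ (P.natDegree - 1) := by
      rw [← pow_succ', Nat.sub_add_cancel hpos]
    rw [h6] at h4
    have h7 : 0 < ‖η‖ ^ (P.natDegree - 1) := by positivity
    have h8 := le_of_mul_le_mul_right h4 h7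
    linarith

/-- a polynomial with values in a subfield at infinitely many points of it -/
private theorem Coef_lift {F : IntermediateField ℚ ℂ} {p : ℂ[X]} {S : Set F} (hS : S.Infinite)
    (h : ∀ s ∈ S, ∃ w : F, p.eval (s : ℂ) = w) : ∃ q : F[X], q.map (algebraMap F ℂ) = p := by
  classical
  obtain ⟨t, htS, htc⟩ := hS.exists_subset_card_eq (p.natDegree + 1)
  choose w hw using h
  let r : F → F := fun s => if hs : s ∈ S then w s hs else 0
  refine ⟨Lagrange.interpolate t id r, ?_⟩
  have hinj : Set.InjOn (fun x : F => (x : ℂ)) (t : Set F) := fun x _ y _ hxy => Subtype.ext hxy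
  refine Polynomial.eq_of_degrees_lt_of_eval_index_eq (v := fun x : F => (x : ℂ)) t hinj ?_ ?_ ?_
  · rw [degree_map]
    exact Lagrange.degree_interpolate_lt r (Set.injOn_id _)
  · rw [htc]
    refine lt_of_le_of_lt degree_le_natDegree ?_
    exact_mod_cast Nat.lt_succ_self _
  · intro s hs
    have hsS : s ∈ S := htS hs
    have h1 : eval (id s) (Lagrange.interpolate t id r) = r s :=
      Lagrange.eval_interpolate_at_node r (Set.injOn_id _) hs
    have h2 : r s = w s hsS := dif_pos hsS
    rw [hw s hsS, ← h2, ← h1, id, eval_map]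
    have h3 := Polynomial.hom_eval₂ (Lagrange.interpolate t id r) (RingHom.id F) (algebraMap F ℂ) s
    rw [RingHom.comp_id] at h3
    exact h3.symm

open Classical in
/-- the product over the roots `η` of `M (s, Y)` with `(s, η) ∈ A` -/
noncomputable def part {T : Set ℂ} (M : (clF T)[X][X]) (A : Set (ℂ × ℂ)) (s : ℂ) : ℂ[X] :=
  ∏ η ∈ (spec M s).roots.toFinset with (s, η) ∈ A, (X - C η)

/-- the property `(s, η) ∈ A` is locally constant on the pairs of `s ∉ cl T` and a root `η` -/
def LocConst {T : Set ℂ} (M : (clF T)[X][X]) (A : Set (ℂ × ℂ)) : Prop :=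
  ∀ s, s ∉ cl T → ∀ η, (spec M s).eval η = 0 → ∃ ε > 0, ∀ s', s' ∉ cl T → ∀ η',
    (spec M s').eval η' = 0 → ‖s' - s‖ < ε → ‖η' - η‖ < ε → ((s', η') ∈ A ↔ (s, η) ∈ A)

theorem part_coeff {T : Set ℂ} (hT : T.Countable) {M : (clF T)[X][X]} (hM : M.Monic)
    (hirr : Irreducible M) {A : Set (ℂ × ℂ)} (hA : LocConst M A) (i : ℕ) :
    ∃ p : (clF T)[X], ∀ s, s ∉ cl T →
      (part M A s).coeff i = p.eval₂ (algebraMap (clF T) ℂ) s := by
  classical
  have hL : (cl T).Countable := cl_countable hT
  obtain ⟨D, hD, hsep⟩ := exists_disc hM hirr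
  -- the exceptional set
  set Z : Set ℂ := {s | D.eval₂ (algebraMap (clF T) ℂ) s = 0} with hZdef
  have hDm : D.map (algebraMap (clF T) ℂ) ≠ 0 :=
    (Polynomial.map_ne_zero_iff (algebraMap (clF T) ℂ).injective).2 hD
  have hZ : Z.Finite := by
    refine (D.map (algebraMap (clF T) ℂ)).roots.toFinset.finite_toSet.subset fun s hs => ?_
    rw [Finset.mem_coe, Multiset.mem_toFinset, mem_roots hDm, IsRoot.def, eval_map]
    exact hs
  -- the roots near a point
  have hloc : ∀ s₀ ∉ Z, ∃ r > 0, ∃ (η : Fin M.natDegree → ℂ → ℂ) (J : Finset (Fin M.natDegree)),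
      (∀ j, DifferentiableOn ℂ (η j) (Metric.ball s₀ r)) ∧
      (∀ j, ∀ s ∈ Metric.ball s₀ r, (spec M s).eval (η j s) = 0) ∧
      ∀ s ∈ Metric.ball s₀ r, s ∉ cl T → part M A s = ∏ j ∈ J, (X - C (η j s)) := by
    intro s₀ hs₀
    obtain ⟨r, hr, η, hη, hprod⟩ := exists_roots hM (hsep s₀ hs₀)
    have hroot : ∀ j, ∀ s ∈ Metric.ball s₀ r, (spec M s).eval (η j s) = 0 := by
      intro j s hs
      rw [(hprod s hs).2, eval_prod]
      refine Finset.prod_eq_zero (Finset.mem_univ j) ?_
      simp
    have hconst : ∀ j, ∀ s ∈ Metric.ball s₀ r, s ∉ cl T → ∀ s' ∈ Metric.ball s₀ r, s' ∉ cl T →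
        ((s, η j s) ∈ A ↔ (s', η j s') ∈ A) := by
      intro j s hs hsL s' hs' hs'L
      refine const_of_loc (P := fun s => (s, η j s) ∈ A) hL ?_ hs hsL hs' hs'L
      intro u hu huL
      obtain ⟨ε, hε, h1⟩ := hA u huL (η j u) (hroot j u hu)
      have hcont : ContinuousAt (η j) u :=
        ((hη j).continuousOn.continuousAt (Metric.isOpen_ball.mem_nhds hu))
      obtain ⟨δ, hδ, h2⟩ := Metric.continuousAt_iff.1 hcont ε hε
      refine ⟨min ε δ, lt_min hε hδ, fun v hv hvL hvu => ?_⟩
      refine h1 v hvL (η j v) (hroot j v hv) (hvu.trans_le (min_le_left _ _)) ?_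
      have h3 := h2 (x := v) (by rw [dist_eq_norm]; exact hvu.trans_le (min_le_right _ _))
      rwa [dist_eq_norm] at h3
    have hpart : ∀ s ∈ Metric.ball s₀ r, part M A s =
        ∏ j ∈ Finset.univ.filter (fun j => (s, η j s) ∈ A), (X - C (η j s)) := by
      intro s hs
      obtain ⟨hinj, hp⟩ := hprod s hs
      have hroots : (spec M s).roots.toFinset = Finset.univ.image (fun j => η j s) := by
        ext x
        rw [Multiset.mem_toFinset, mem_roots (spec_monic hM s).ne_zero, IsRoot.def, hp, eval_prod,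
          Finset.prod_eq_zero_iff, Finset.mem_image]
        refine exists_congr fun j => and_congr_right fun _ => ?_
        rw [eval_sub, eval_X, eval_C, sub_eq_zero]
        exact eq_comm
      unfold part
      rw [hroots, Finset.filter_image, Finset.prod_image]
      intro a _ b _ hab
      exact hinj hab
    by_cases hne : ∃ s₁ ∈ Metric.ball s₀ r, s₁ ∉ cl T
    · obtain ⟨s₁, hs₁, hs₁L⟩ := hne
      refine ⟨r, hr, η, Finset.univ.filter (fun j => (s₁, η j s₁) ∈ A), hη, hroot, ?_⟩
      intro s hs hsL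
      rw [hpart s hs]
      congr 1
      ext j
      rw [Finset.mem_filter, Finset.mem_filter, hconst j s hs hsL s₁ hs₁ hs₁L]
    · refine ⟨r, hr, η, ∅, hη, hroot, ?_⟩
      intro s hs hsL
      exact absurd ⟨s, hs, hsL⟩ hne
  -- growth
  have hgr : ∃ (B : ℝ) (e : ℕ), ∀ s : ℂ, ‖(part M A s).coeff i‖ ≤ B * (1 + ‖s‖) ^ e := by
    choose b hb e he using fun k => Coef_growth (M.coeff k)
    set n := M.natDegree with hn
    set B : ℝ := ∑ k ∈ Finset.range (n + 1), b k with hB
    set E : ℕ := ∑ k ∈ Finset.range (n + 1), e k with hE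
    have hB0 : 0 ≤ B := Finset.sum_nonneg fun k _ => hb k
    have hcoef : ∀ (s : ℂ) (k : ℕ), ‖(spec M s).coeff k‖ ≤ B * (1 + ‖s‖) ^ E := by
      intro s k
      have h1 : (1 : ℝ) ≤ 1 + ‖s‖ := by linarith [norm_nonneg s]
      by_cases hk : k ∈ Finset.range (n + 1)
      · have h2 : (spec M s).coeff k = (M.coeff k).eval₂ (algebraMap (clF T) ℂ) s := by
          unfold spec
          rw [coeff_map]
          rfl
        rw [h2]
        refine (he k s).trans ?_
        refine mul_le_mul (Finset.single_le_sum (fun k _ => hb k) hk)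
          (pow_le_pow_right₀ h1 (Finset.single_le_sum (f := e) (fun _ _ => Nat.zero_le _) hk))
          (by positivity) hB0
      · have h2 : (spec M s).coeff k = 0 := by
          refine coeff_eq_zero_of_natDegree_lt ?_
          rw [spec_natDegree hM]
          rw [Finset.mem_range] at hk
          omega
        rw [h2, norm_zero]
        positivity
    refine ⟨(2 + n * B) ^ n, E * n, fun s => ?_⟩
    have h1 : (1 : ℝ) ≤ 1 + ‖s‖ := by linarith [norm_nonneg s]
    have h1E : (1 : ℝ) ≤ (1 + ‖s‖) ^ E := one_le_pow₀ h1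
    have hR : ∀ η ∈ (spec M s).roots.toFinset.filter (fun η => (s, η) ∈ A),
        ‖η‖ ≤ 1 + n * (B * (1 + ‖s‖) ^ E) := by
      intro η hη
      rw [Finset.mem_filter, Multiset.mem_toFinset, mem_roots (spec_monic hM s).ne_zero] at hη
      have h2 := Coef_root (spec_monic hM s) hη.1 (K := B * (1 + ‖s‖) ^ E) (by positivity) (hcoef s)
      rwa [spec_natDegree hM] at h2
    have h2 := Coef_bound _ (R := 1 + n * (B * (1 + ‖s‖) ^ E)) (by positivity) hR i
    have hcard : ((spec M s).roots.toFinset.filter (fun η => (s, η) ∈ A)).card ≤ n := by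
      refine (Finset.card_filter_le _ _).trans ((Multiset.toFinset_card_le _).trans ?_)
      refine (card_roots' _).trans ?_
      rw [spec_natDegree hM]
    refine h2.trans ?_
    have h3 : 1 + (1 + n * (B * (1 + ‖s‖) ^ E)) ≤ (2 + n * B) * (1 + ‖s‖) ^ E := by
      have : (0 : ℝ) ≤ n * B := by positivity
      nlinarith
    calc (1 + (1 + n * (B * (1 + ‖s‖) ^ E))) ^ _ ≤ (1 + (1 + n * (B * (1 + ‖s‖) ^ E))) ^ n :=
          pow_le_pow_right₀ (by
            have : (0 : ℝ) ≤ n * (B * (1 + ‖s‖) ^ E) := by positivity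
            linarith) hcard
      _ ≤ ((2 + n * B) * (1 + ‖s‖) ^ E) ^ n := pow_le_pow_left₀ (by positivity) h3 _
      _ = (2 + n * B) ^ n * (1 + ‖s‖) ^ (E * n) := by rw [mul_pow, ← pow_mul]
  obtain ⟨B, e, hBe⟩ := hgr
  have hZL : Z ⊆ cl T := fun s hs => mem_cl_of_eval₂ hD hs
  obtain ⟨p, hp1, hp2⟩ := exists_poly hL hZ hZL (f := fun s => (part M A s).coeff i) (by
    intro s₀ hs₀
    obtain ⟨r, hr, η, J, hη, -, hJ⟩ := hloc s₀ hs₀
    refine ⟨r, hr, fun s => (∏ j ∈ J, (X - C (η j s))).coeff i, Coef_diff J η _ hη i, ?_⟩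
    intro s hs hsL
    rw [hJ s hs hsL]) (B := B) (e := e) (fun s _ => hBe s)
  -- the coefficients
  obtain ⟨q, hq⟩ := Coef_lift (F := clF T) (p := p) (S := {s : clF T | (s : ℂ) ∉ Z}) (by
    have h1 : {s : clF T | (s : ℂ) ∈ Z}.Finite := hZ.preimage Subtype.val_injective.injOn
    have h2 := h1.infinite_compl
    exact h2) (by
    intro s hs
    obtain ⟨r, hr, η, J, hη, hroot, hJ⟩ := hloc (s : ℂ) hs
    have h1 := hp2 (s : ℂ) hs r hr (fun s => (∏ j ∈ J, (X - C (η j s))).coeff i)
      (Coef_diff J η _ hη i) (by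
        intro u hu huL
        rw [hJ u hu huL])
    have hmem : ∀ j, η j (s : ℂ) ∈ clF T := by
      intro j
      rw [mem_clF]
      refine mem_cl_of_isAlgebraic ?_
      refine ⟨M.map (evalRingHom s), (hM.map _).ne_zero, ?_⟩
      have h2 := hroot j (s : ℂ) (Metric.mem_ball_self hr)
      have h3 : spec M (s : ℂ) = (M.map (evalRingHom s)).map (algebraMap (clF T) ℂ) := by
        unfold spec
        rw [Polynomial.map_map]
        congr 1
        refine Polynomial.ringHom_ext (fun a => ?_) ?_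
        · simp
        · simp
      rw [h3, eval_map] at h2
      rw [aeval_def]
      exact h2
    refine ⟨(∏ j ∈ J, (X - C (⟨η j (s : ℂ), hmem j⟩ : clF T))).coeff i, ?_⟩
    rw [← h1]
    have h4 : (∏ j ∈ J, (X - C (η j (s : ℂ)))) =
        (∏ j ∈ J, (X - C (⟨η j (s : ℂ), hmem j⟩ : clF T))).map (algebraMap (clF T) ℂ) := by
      rw [Polynomial.map_prod]
      refine Finset.prod_congr rfl fun j _ => ?_
      rw [Polynomial.map_sub, map_X, map_C]
      rfl
    rw [h4, coeff_map]
    rfl)
  refine ⟨q, fun s hs => ?_⟩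
  rw [← eval_map, hq]
  exact hp1 s hs

end Pool.Agent.AHU
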