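import Mathlib
import Pool.Agent.AHU.Coef

/-!
# Connectedness for one variable

Proof.  `part M A s` has degree at most `n = M.natDegree`, so by `part_coeff` there is
`Q : (clF T)[X][X]` with `part M A s = spec Q s` for all `s ∉ cl T` (`Q = ∑ i ≤ n, C (p i) X ^ i`).
The leading coefficient: `part M A s` is monic of some degree `a s ≤ n`; the coefficient polynomials
`p i` take at each `s ∉ cl T` the coefficients of a monic polynomial; for `a = max` of the `i` with
`p i ≠ 0` and infinitely many `s` with `p a (s) ≠ 0` we get `p a (s) = 1` for these `s`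
(`part M A s` is monic and `p i (s) = 0` for `i > a`), so `p a = 1` and `Q` is monic of degree `a`.
`spec Q s = part M A s` divides `spec M s` for all `s ∉ cl T`.  Divide with remainder by the monic
`Q`: `M = Q U + R`, `deg R < deg Q` (`Polynomial.modByMonic`); `spec R s = 0` for the infinitely
many `s ∉ cl T` (`Monic.map_modByMonic`...), so all coefficients of `R` vanish: `Q ∣ M`.  `M` is
irreducible, so `Q` is a unit, then `Q = 1` (monic) and `part M A s = 1` for all `s ∉ cl T`: no root
is in `A`; or `Q` is associated to `M`, then `Q = M` and every root of `spec M s` is in `A`.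
-/

namespace Pool.Agent.AHU

open Pool.Agent.AHC Polynomial

private theorem OneVar_roots {T : Set ℂ} (M : (clF T)[X][X]) (A : Set (ℂ × ℂ)) (s : ℂ) :
    part M A s ∣ spec M s := by
  classical
  unfold part
  have h1 : (((spec M s).roots.toFinset.filter fun η => (s, η) ∈ A).val.map
      fun η => X - C η).prod ∣ ((spec M s).roots.map fun η => X - C η).prod := by
    refine Multiset.prod_dvd_prod_of_le (Multiset.map_le_map ?_)
    refine le_trans (Multiset.filter_le _ _) ?_
    exact Multiset.dedup_le _
  exact h1.trans (prod_multiset_X_sub_C_dvd _)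

private theorem OneVar_eval {T : Set ℂ} {M : (clF T)[X][X]} (hM : M.Monic) (A : Set (ℂ × ℂ))
    {s η : ℂ} (hη : (spec M s).eval η = 0) : (s, η) ∈ A ↔ (part M A s).eval η = 0 := by
  classical
  unfold part
  rw [eval_prod, Finset.prod_eq_zero_iff]
  constructor
  · intro h
    refine ⟨η, Finset.mem_filter.2 ⟨?_, h⟩, by simp⟩
    rw [Multiset.mem_toFinset, mem_roots (spec_monic hM s).ne_zero]
    exact hη
  · rintro ⟨η', h, h0⟩
    rw [eval_sub, eval_X, eval_C, sub_eq_zero] at h0
    rw [h0]
    exact (Finset.mem_filter.1 h).2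

private theorem OneVar_monic {T : Set ℂ} (M : (clF T)[X][X]) (A : Set (ℂ × ℂ)) (s : ℂ) :
    (part M A s).Monic := by
  classical
  unfold part
  exact monic_prod_of_monic _ _ fun η _ => monic_X_sub_C η

private theorem OneVar_inj {T : Set ℂ} {s : ℂ} (hs : s ∉ cl T) :
    Function.Injective (eval₂RingHom (algebraMap (clF T) ℂ) s) := by
  rw [injective_iff_map_eq_zero]
  intro D hD
  by_contra h0
  exact hs (mem_cl_of_eval₂ h0 hD)

theorem oneVar {T : Set ℂ} (hT : T.Countable) {M : (clF T)[X][X]} (hM : M.Monic)
    (hirr : Irreducible M) {A : Set (ℂ × ℂ)} (hA : LocConst M A) {s η s' η' : ℂ}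
    (hs : s ∉ cl T) (hη : (spec M s).eval η = 0) (hs' : s' ∉ cl T)
    (hη' : (spec M s').eval η' = 0) : (s, η) ∈ A ↔ (s', η') ∈ A := by
  choose p hp using fun i => part_coeff hT hM hirr hA i
  obtain ⟨Q, hQ⟩ : ∃ Q : (clF T)[X][X], Q = ∑ i ∈ Finset.range (M.natDegree + 1), C (p i) * X ^ i :=
    ⟨_, rfl⟩
  have hspec : ∀ u, u ∉ cl T → spec Q u = part M A u := by
    intro u hu
    have hdeg : (part M A u).natDegree ≤ M.natDegree := by
      rw [← spec_natDegree hM u]
      exact natDegree_le_of_dvd (OneVar_roots M A u) (spec_monic hM u).ne_zero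
    ext i
    rw [spec, coeff_map, hQ, finsetSum_coeff]
    simp only [coeff_C_mul, coeff_X_pow, mul_ite, mul_one, mul_zero]
    rw [Finset.sum_ite_eq]
    by_cases hi : i ∈ Finset.range (M.natDegree + 1)
    · rw [if_pos hi, hp i u hu]
      rfl
    · rw [if_neg hi, map_zero]
      rw [Finset.mem_range] at hi
      exact (coeff_eq_zero_of_natDegree_lt (by omega)).symm
  have hQm : Q.Monic := by
    have h1 := leadingCoeff_map_of_injective (OneVar_inj hs) Q
    have h2 : (Q.map (eval₂RingHom (algebraMap (clF T) ℂ) s)).leadingCoeff = 1 := by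
      have h3 := hspec s hs
      rw [spec] at h3
      rw [h3]
      exact OneVar_monic M A s
    rw [h2, ← map_one (eval₂RingHom (algebraMap (clF T) ℂ) s)] at h1
    exact (OneVar_inj hs h1).symm
  have hdvd : Q ∣ M := by
    rw [← map_dvd_map _ (OneVar_inj hs) hQm]
    have h1 := OneVar_roots M A s
    rw [← hspec s hs] at h1
    exact h1
  obtain ⟨U, hU⟩ := hdvd
  rw [OneVar_eval hM A hη, OneVar_eval hM A hη', ← hspec s hs, ← hspec s' hs']
  rcases hirr.isUnit_or_isUnit hU with h | h
  · have h1 : Q = 1 := hQm.isUnit_iff.1 h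
    rw [h1]
    simp [spec]
  · have h1 : U.Monic := by
      rw [hU] at hM
      exact hQm.of_mul_monic_left hM
    have h2 : U = 1 := h1.isUnit_iff.1 h
    rw [h2, mul_one] at hU
    rw [← hU]
    simp [hη, hη']

end Pool.Agent.AHU
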