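import Mathlib
import Pool.Agent.AHU.PDefs

/-!
# A primitive element over `cl S (x)`

Proof.  `K = clF S`, `x ∉ cl S`, so `x` is transcendental over `K`; the elements of `Y` are
algebraic over `K (x)` (`Y ⊆ cl (insert x S)`).  `E = K (x, Y) ⊆ ℂ` is a finite separable extension
of `K (x)`, so `E = K (x) (y₀)` (`Field.exists_primitive_element`); multiplying `y₀` by a nonzero
element of `K[x]` we get a primitive element `y` which is integral over `K[x]`.  Its minimal
polynomial over the integrally closed domain `K[x] ≅ K[X]` is monic and irreducible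
(`minpoly.isIntegrallyClosed...`, or `minpoly` over `K (x)` has coefficients in `K[x]`): this is
`M`.  Every `z ∈ Y` is in `K (x) [y]`; with a common denominator `D (x)`: `D (x) z = R_z (x, y)`.
(It may be convenient to work with `Algebra (clF S)[X] ℂ` given by `aeval x`, which is injective, or
with the subalgebra `Algebra.adjoin (clF S) {x}`.)
-/

namespace Pool.Agent.AHU

open Pool.Agent.AHC Polynomial

/-- Abstract form: a domain `A` embedded in a field of characteristic zero. -/
theorem prim_aux {A L : Type*} [CommRing A] [IsDomain A] [CharZero A] [Field L] [Algebra A L]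
    (hinj : Function.Injective (algebraMap A L)) {Y : Finset L} (hY : ∀ z ∈ Y, IsAlgebraic A z) :
    ∃ (y : L), IsIntegral A y ∧ ∀ z ∈ Y, ∃ (D : A) (R : A[X]), D ≠ 0 ∧ algebraMap A L D * z = aeval y R := by
  classical
  let F := FractionRing A
  let ι : F →+* L := IsFractionRing.lift hinj
  let _ : Algebra F L := ι.toAlgebra
  have hcomp : ∀ a : A, algebraMap F L (algebraMap A F a) = algebraMap A L a := fun a =>
    IsFractionRing.lift_algebraMap hinj a
  have _ : IsScalarTower A F L := IsScalarTower.of_algebraMap_eq fun a => (hcomp a).symm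
  have _ : CharZero F := charZero_of_injective_algebraMap (R := A) (IsFractionRing.injective A F)
  have hYF : ∀ z ∈ Y, IsIntegral F z := fun z hz =>
    (IsAlgebraic.extendScalars (IsFractionRing.injective A F) (hY z hz)).isIntegral
  let E := IntermediateField.adjoin F (Y : Set L)
  have _ : FiniteDimensional F E := IntermediateField.finiteDimensional_adjoin (S := (Y : Set L)) hYF
  obtain ⟨α, hα⟩ := Field.exists_primitive_element F E
  have hαA : IsAlgebraic A (α : L) := by
    have h1 : IsAlgebraic F (α : L) := (IsIntegral.of_finite F α).map (IntermediateField.val E) |>.isAlgebraic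
    exact (IsFractionRing.isAlgebraic_iff A F L).2 h1
  obtain ⟨d, hd, hint⟩ := hαA.exists_integral_multiple
  have hy : IsIntegral A (d • (α : L)) := hint
  refine ⟨d • (α : L), hy, ?_⟩
  intro z hz
  -- `z` is a polynomial in `y` with coefficients in `F`
  have hdF : algebraMap A F d ≠ 0 := fun h => hd ((IsFractionRing.injective A F) (by rw [h, map_zero]))
  have hzE : z ∈ E := IntermediateField.subset_adjoin F _ hz
  have hmem : z ∈ Algebra.adjoin F ({d • (α : L)} : Set L) := by
    have hyF : IsIntegral F (d • (α : L)) := hy.tower_top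
    have e1 : (IntermediateField.adjoin F ({d • (α : L)} : Set L)).toSubalgebra =
        Algebra.adjoin F ({d • (α : L)} : Set L) := IntermediateField.adjoin_simple_toSubalgebra_of_isAlgebraic hyF.isAlgebraic
    rw [← e1]
    change z ∈ IntermediateField.adjoin F ({d • (α : L)} : Set L)
    have e2 : (α : L) ∈ IntermediateField.adjoin F ({d • (α : L)} : Set L) := by
      have h2 := IntermediateField.mem_adjoin_simple_self F (d • (α : L))
      have h3 := (IntermediateField.adjoin F ({d • (α : L)} : Set L)).mul_mem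
        ((IntermediateField.adjoin F ({d • (α : L)} : Set L)).algebraMap_mem (algebraMap A F d)⁻¹) h2
      have h4 : algebraMap F L (algebraMap A F d)⁻¹ * (d • (α : L)) = α := by
        rw [Algebra.smul_def, ← hcomp d, ← mul_assoc, ← map_mul, inv_mul_cancel₀ hdF, map_one, one_mul]
      rwa [h4] at h3
    have h5 : (⟨z, hzE⟩ : E) ∈ IntermediateField.adjoin F ({α} : Set E) := by
      rw [hα]; trivial
    have h6 : (IntermediateField.adjoin F ({α} : Set E)).map (IntermediateField.val E) ≤
        IntermediateField.adjoin F ({d • (α : L)} : Set L) := by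
      rw [IntermediateField.adjoin_map, IntermediateField.adjoin_le_iff]
      rintro _ ⟨w, hw, rfl⟩
      rw [Set.mem_singleton_iff] at hw
      rw [hw]
      exact e2
    exact h6 ⟨⟨z, hzE⟩, h5, rfl⟩
  rw [Algebra.adjoin_singleton_eq_range_aeval] at hmem
  obtain ⟨p, hp⟩ := hmem
  obtain ⟨b, hb, hb2⟩ := IsLocalization.integerNormalization_spec (nonZeroDivisors A) p
  refine ⟨b, IsLocalization.integerNormalization (nonZeroDivisors A) p, nonZeroDivisors.ne_zero hb, ?_⟩
  have h7 : aeval (d • (α : L)) (IsLocalization.integerNormalization (nonZeroDivisors A) p) =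
      aeval (d • (α : L)) ((IsLocalization.integerNormalization (nonZeroDivisors A) p).map (algebraMap A F)) := by
    rw [aeval_map_algebraMap]
  have hp' : aeval (d • (α : L)) p = z := hp
  calc algebraMap A L b * z = algebraMap F L (algebraMap A F b) * aeval (d • (α : L)) p := by rw [hcomp, hp']
    _ = aeval (d • (α : L)) (algebraMap A F b • p) := by rw [map_smul, ← Algebra.smul_def]
    _ = aeval (d • (α : L)) (b • p) := by rw [IsScalarTower.algebraMap_smul]
    _ = _ := by rw [h7, hb2]

theorem exists_prim {S : Set ℂ} {x : ℂ} (hx : x ∉ cl S) {Y : Finset ℂ}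
    (hY : (Y : Set ℂ) ⊆ cl (insert x S)) :
    ∃ (M : (clF S)[X][X]) (y : ℂ) (D : (clF S)[X]) (R : ℂ → (clF S)[X][X]),
      M.Monic ∧ Irreducible M ∧ (spec M x).eval y = 0 ∧ D ≠ 0 ∧
      ∀ z ∈ Y, D.eval₂ (algebraMap (clF S) ℂ) x * z = (spec (R z) x).eval y := by
  classical
  have hinj : Function.Injective (aeval x : (clF S)[X] →ₐ[clF S] ℂ) := by
    rw [← transcendental_iff_injective]
    intro h
    exact hx (mem_cl_of_isAlgebraic h)
  let _ : Algebra (clF S)[X] ℂ := (aeval x : (clF S)[X] →ₐ[clF S] ℂ).toRingHom.toAlgebra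
  have hmap : ∀ D : (clF S)[X], algebraMap (clF S)[X] ℂ D = D.eval₂ (algebraMap (clF S) ℂ) x := fun D => rfl
  have hspec : ∀ (P : (clF S)[X][X]) (y : ℂ), aeval y P = (spec P x).eval y := by
    intro P y
    unfold spec
    rw [eval_map, aeval_def]
    rfl
  have hinj' : Function.Injective (algebraMap (clF S)[X] ℂ) := hinj
  have hYA : ∀ z ∈ Y, IsAlgebraic (clF S)[X] z := by
    intro z hz
    have h1 : IsAlgebraic (Algebra.adjoin ℚ (insert x S)) z := hY hz
    let φ : (clF S)[X] →ₐ[ℚ] ℂ := (aeval x : (clF S)[X] →ₐ[clF S] ℂ).restrictScalars ℚ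
    have hle : Algebra.adjoin ℚ (insert x S) ≤ φ.range := by
      rw [Algebra.adjoin_le_iff]
      rintro w hw
      rcases Set.mem_insert_iff.1 hw with rfl | hw
      · exact ⟨X, by simp [φ]⟩
      · refine ⟨C ⟨w, subset_cl S hw⟩, ?_⟩
        have : φ (C ⟨w, subset_cl S hw⟩) = algebraMap (clF S) ℂ ⟨w, subset_cl S hw⟩ := by
          simp [φ]
        exact this
    let e := AlgEquiv.ofInjective φ hinj
    let g : Algebra.adjoin ℚ (insert x S) →ₐ[ℚ] (clF S)[X] :=
      (e.symm : φ.range →ₐ[ℚ] (clF S)[X]).comp (Subalgebra.inclusion hle)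
    have hg : ∀ r, φ (g r) = r := by
      intro r
      have h2 : e (g r) = Subalgebra.inclusion hle r := e.apply_symm_apply _
      have h3 := congrArg Subtype.val h2
      exact h3
    refine IsAlgebraic.ringHom_of_comp_eq (S := (clF S)[X]) (g : Algebra.adjoin ℚ (insert x S) →+* (clF S)[X])
      (RingHom.id ℂ) h1 ?_ ?_
    · intro a b hab
      have h4 : φ (g a) = φ (g b) := congrArg φ hab
      rw [hg, hg] at h4
      exact Subtype.ext h4
    · ext r
      exact hg r
  obtain ⟨y, hy, hall⟩ := prim_aux hinj' hYA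
  choose! D R hD hR using hall
  refine ⟨minpoly (clF S)[X] y, y, ∏ z ∈ Y, D z, fun z => C (∏ w ∈ Y.erase z, D w) * R z, minpoly.monic hy,
    minpoly.irreducible hy, ?_, ?_, ?_⟩
  · rw [← hspec]
    exact minpoly.aeval _ _
  · exact Finset.prod_ne_zero_iff.2 fun z hz => hD z hz
  · intro z hz
    rw [← hspec, ← hmap, map_mul, aeval_C, ← hR z hz, ← mul_assoc, ← map_mul, Finset.prod_erase_mul _ _ hz]

end Pool.Agent.AHU
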