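import Mathlib
import Pool.Agent.AHU.PDefs

/-!
# Transport of polynomials by an automorphism, and realisation of pairs

`mvP β` applies the automorphism `β` to the coefficients: from polynomials over `clF S` to
polynomials over `clF (β '' S)`.

`exists_real`: let `M` be monic and irreducible, `M (x, y) = 0`, `x ∉ cl S`; let `β₀` be an
automorphism, `s ∉ cl (β₀ '' S)` and `η` a root of `(β₀ M) (s, Y)`.  Then there is an automorphism `β`
which is equal to `β₀` on `cl S` and maps `x` to `s` and `y` to `η`.  Proof: let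
`A = (clF S)[X][X] ⧸ (M)`, a domain (`M` is prime: `K[X][Y]` is a UFD).  The ring homomorphism
`φ : (clF S)[X][X] → ℂ`, `P ↦ (spec P x).eval y`, has kernel `(M)`: if `P (x, y) = 0`, divide by the
monic `M`: `P = Q M + R`, `R (x, y) = 0`, `deg R < deg M`; `M` is irreducible over the field of
fractions of `K[X]` and `x` is transcendental over `K`, so `spec M x` mapped to `K (x)[Y]` is the
minimal polynomial of `y` over `K (x)`, so `R = 0`.  In the same way `ψ : P ↦ (spec (mvP β₀ P) s).eval η`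
has kernel `(M)`.  Both induce embeddings of `A` which agree (up to `β₀`) on `clF S`: apply
`AHC.exists_aut` (file `AHC/Ext.lean`) with `R := clF S`, `S := A`, `φ := β₀ ∘ φ`, `ψ := ψ` (finite
transcendence degree: `A` is of finite type over `clF S`, `trdeg_lt_aleph0_of_finiteType`): there is
`α` with `α (β₀ (φ a)) = ψ a`; take `β = β₀.trans α`.
-/

namespace Pool.Agent.AHU

open Pool.Agent.AHC Polynomial

/-- the isomorphism `clF S → clF (β '' S)` given by `β` -/
noncomputable def mvK (β : ℂ ≃+* ℂ) (S : Set ℂ) : clF S →+* clF (β '' S) where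
  toFun := fun z => ⟨β z, map_mem_cl β z.2⟩
  map_one' := Subtype.ext (map_one β)
  map_mul' := fun _ _ => Subtype.ext (map_mul β _ _)
  map_zero' := Subtype.ext (map_zero β)
  map_add' := fun _ _ => Subtype.ext (map_add β _ _)

theorem mvK_apply (β : ℂ ≃+* ℂ) (S : Set ℂ) (z : clF S) : (mvK β S z : ℂ) = β z := rfl

/-- transport of a polynomial in two variables -/
noncomputable def mvP (β : ℂ ≃+* ℂ) {S : Set ℂ} (M : (clF S)[X][X]) : (clF (β '' S))[X][X] :=
  M.map (mapRingHom (mvK β S))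

theorem mvP_monic (β : ℂ ≃+* ℂ) {S : Set ℂ} {M : (clF S)[X][X]} (hM : M.Monic) :
    (mvP β M).Monic := hM.map _

private theorem real_mvK_inj (β : ℂ ≃+* ℂ) (S : Set ℂ) : Function.Injective (mvK β S) := by
  intro a b h
  have h1 : (mvK β S a : ℂ) = mvK β S b := congrArg Subtype.val h
  rw [mvK_apply, mvK_apply] at h1
  exact Subtype.ext (β.injective h1)

private theorem real_mvK_surj (β : ℂ ≃+* ℂ) (S : Set ℂ) : Function.Surjective (mvK β S) := by
  rintro ⟨z, hz⟩
  have h : z ∈ β '' cl S := by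
    rw [image_cl]
    exact mem_clF.1 hz
  obtain ⟨w, hw, rfl⟩ := h
  exact ⟨⟨w, mem_clF.2 hw⟩, Subtype.ext rfl⟩

/-- the transported polynomial is irreducible (`mvK β S` is an isomorphism, because
`β '' cl S = cl (β '' S)`, `AHC.image_cl`) -/
theorem mvP_irreducible (β : ℂ ≃+* ℂ) {S : Set ℂ} {M : (clF S)[X][X]} (hM : Irreducible M) :
    Irreducible (mvP β M) := by
  let e : clF S ≃+* clF (β '' S) := RingEquiv.ofBijective (mvK β S) ⟨real_mvK_inj β S, real_mvK_surj β S⟩
  have h1 : mvP β M = mapEquiv (mapEquiv e) M := rfl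
  rw [h1]
  exact (MulEquiv.irreducible_iff (mapEquiv (mapEquiv e))).2 hM

/-- the two ring homomorphisms `(clF S)[X] → ℂ` -/
private theorem real_comp (β : ℂ ≃+* ℂ) (S : Set ℂ) (s : ℂ) :
    (eval₂RingHom (algebraMap (clF (β '' S)) ℂ) s).comp (mapRingHom (mvK β S)) =
      eval₂RingHom ((β : ℂ →+* ℂ).comp (algebraMap (clF S) ℂ)) s := by
  refine Polynomial.ringHom_ext (fun a => ?_) ?_
  · simp only [RingHom.comp_apply, coe_mapRingHom, map_C, coe_eval₂RingHom, eval₂_C]
    rfl
  · simp only [RingHom.comp_apply, coe_mapRingHom, map_X, coe_eval₂RingHom, eval₂_X]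

private theorem real_spec (β : ℂ ≃+* ℂ) {S : Set ℂ} (M : (clF S)[X][X]) (s η : ℂ) :
    (spec (mvP β M) s).eval η =
      M.eval₂ (eval₂RingHom ((β : ℂ →+* ℂ).comp (algebraMap (clF S) ℂ)) s) η := by
  unfold spec mvP
  rw [Polynomial.map_map, real_comp, eval_map]

/-- values of the transported polynomial -/
theorem mvP_eval (β : ℂ ≃+* ℂ) {S : Set ℂ} (M : (clF S)[X][X]) (x y : ℂ) :
    (spec (mvP β M) (β x)).eval (β y) = β ((spec M x).eval y) := by
  rw [real_spec]
  unfold spec
  rw [eval_map]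
  have h := hom_eval₂ M (eval₂RingHom (algebraMap (clF S) ℂ) x) (β : ℂ →+* ℂ) y
  change _ = (β : ℂ →+* ℂ) _
  rw [h]
  have h2 : (β : ℂ →+* ℂ).comp (eval₂RingHom (algebraMap (clF S) ℂ) x) =
      eval₂RingHom ((β : ℂ →+* ℂ).comp (algebraMap (clF S) ℂ)) (β x) := by
    refine Polynomial.ringHom_ext (fun a => ?_) ?_
    · simp only [RingHom.comp_apply, coe_eval₂RingHom, eval₂_C]
    · simp only [RingHom.comp_apply, coe_eval₂RingHom, eval₂_X]
      rfl
  rw [h2]
  rfl

/-- the kernel of the evaluation at a generic point of the curve `M = 0` -/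
private theorem real_ker {K : Type} [Field K] (i : K →+* ℂ) {s η : ℂ}
    (hs : ∀ D : K[X], D ≠ 0 → D.eval₂ i s ≠ 0) {M : K[X][X]} (hM : M.Monic) (hirr : Irreducible M)
    (hη : M.eval₂ (eval₂RingHom i s) η = 0) {P : K[X][X]}
    (hP : P.eval₂ (eval₂RingHom i s) η = 0) : M ∣ P := by
  have hinj : Function.Injective (eval₂RingHom i s) := by
    rw [injective_iff_map_eq_zero]
    intro D hD
    by_contra h0
    exact hs D h0 hD
  let F := FractionRing K[X]
  let j : F →+* ℂ := IsFractionRing.lift hinj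
  have hj : j.comp (algebraMap K[X] F) = eval₂RingHom i s := by
    refine RingHom.ext fun D => ?_
    exact IsFractionRing.lift_algebraMap hinj D
  let inst : Algebra F ℂ := j.toAlgebra
  have hmap : ∀ Q : K[X][X], aeval η (Q.map (algebraMap K[X] F)) = Q.eval₂ (eval₂RingHom i s) η := by
    intro Q
    rw [aeval_def, eval₂_map]
    change eval₂ (j.comp (algebraMap K[X] F)) η Q = _
    rw [hj]
  have h1 : Irreducible (M.map (algebraMap K[X] F)) :=
    (Monic.irreducible_iff_irreducible_map_fraction_map (K := F) hM).1 hirr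
  have h2 : M.map (algebraMap K[X] F) = minpoly F η :=
    minpoly.eq_of_irreducible_of_monic h1 (by rw [hmap, hη]) (hM.map _)
  have h3 : M.map (algebraMap K[X] F) ∣ P.map (algebraMap K[X] F) := by
    rw [h2]
    exact minpoly.dvd F η (by rw [hmap, hP])
  rw [← modByMonic_eq_zero_iff_dvd hM]
  apply map_injective (algebraMap K[X] F) (IsFractionRing.injective K[X] F)
  rw [map_modByMonic _ hM, Polynomial.map_zero, modByMonic_eq_zero_iff_dvd (hM.map _)]
  exact h3

theorem exists_real {S : Set ℂ} {x y : ℂ} (hx : x ∉ cl S) {M : (clF S)[X][X]} (hM : M.Monic)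
    (hirr : Irreducible M) (hxy : (spec M x).eval y = 0) (β₀ : ℂ ≃+* ℂ) {s η : ℂ}
    (hs : s ∉ cl (β₀ '' S)) (hη : (spec (mvP β₀ M) s).eval η = 0) :
    ∃ β : ℂ ≃+* ℂ, (∀ z ∈ cl S, β z = β₀ z) ∧ β x = s ∧ β y = η := by
  set i : clF S →+* ℂ := algebraMap (clF S) ℂ with hi
  set i' : clF S →+* ℂ := (β₀ : ℂ →+* ℂ).comp i with hi'
  have hxy' : M.eval₂ (eval₂RingHom i x) y = 0 := by
    rw [← eval_map]
    exact hxy
  have hη' : M.eval₂ (eval₂RingHom i' s) η = 0 := by
    rw [← real_spec]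
    exact hη
  have tx : ∀ D : (clF S)[X], D ≠ 0 → D.eval₂ i x ≠ 0 := fun D hD h => hx (mem_cl_of_eval₂ hD h)
  have ts : ∀ D : (clF S)[X], D ≠ 0 → D.eval₂ i' s ≠ 0 := by
    intro D hD h
    refine hs (mem_cl_of_eval₂ (D := D.map (mvK β₀ S)) ?_ ?_)
    · rwa [Ne, Polynomial.map_eq_zero_iff (real_mvK_inj β₀ S)]
    · have h2 := congrArg (fun f : (clF S)[X] →+* ℂ => f D) (real_comp β₀ S s)
      simp only [RingHom.comp_apply, coe_mapRingHom, coe_eval₂RingHom] at h2
      rw [h2]
      exact h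
  -- the two embeddings
  let φ : AdjoinRoot M →+* ℂ := AdjoinRoot.lift (eval₂RingHom i x) y hxy'
  let ψ : AdjoinRoot M →+* ℂ := AdjoinRoot.lift (eval₂RingHom i' s) η hη'
  have hφ : Function.Injective φ := by
    rw [injective_iff_map_eq_zero]
    intro z hz
    obtain ⟨P, rfl⟩ := AdjoinRoot.mk_surjective z
    rw [AdjoinRoot.mk_eq_zero]
    exact real_ker i tx hM hirr hxy' (by rw [← hz]; exact (AdjoinRoot.lift_mk _ _).symm)
  have hψ : Function.Injective ψ := by
    rw [injective_iff_map_eq_zero]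
    intro z hz
    obtain ⟨P, rfl⟩ := AdjoinRoot.mk_surjective z
    rw [AdjoinRoot.mk_eq_zero]
    exact real_ker i' ts hM hirr hη' (by rw [← hz]; exact (AdjoinRoot.lift_mk _ _).symm)
  have hnt : Nontrivial (AdjoinRoot M) := φ.domain_nontrivial
  have hfin : Algebra.FiniteType (clF S) (AdjoinRoot M) := by
    have h1 : Algebra.FiniteType (clF S) (clF S)[X][X] :=
      Algebra.FiniteType.trans (S := (clF S)[X]) inferInstance inferInstance
    exact Algebra.FiniteType.of_surjective (AdjoinRoot.mkₐ (R := (clF S)[X]) M |>.restrictScalars (clF S))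
      AdjoinRoot.mk_surjective
  have halg : ∀ k : clF S, algebraMap (clF S) (AdjoinRoot M) k = AdjoinRoot.of M (C k) := fun k => rfl
  have hφk : ∀ k : clF S, φ (algebraMap (clF S) (AdjoinRoot M) k) = k := by
    intro k
    rw [halg]
    change AdjoinRoot.lift _ _ _ _ = _
    rw [AdjoinRoot.lift_of, coe_eval₂RingHom, eval₂_C]
    rfl
  have hψk : ∀ k : clF S, ψ (algebraMap (clF S) (AdjoinRoot M) k) = β₀ k := by
    intro k
    rw [halg]
    change AdjoinRoot.lift _ _ _ _ = _
    rw [AdjoinRoot.lift_of, coe_eval₂RingHom, eval₂_C]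
    rfl
  obtain ⟨α, hα⟩ := exists_aut (R := clF S) (S := AdjoinRoot M)
    (algebraMap (clF S) (AdjoinRoot M)).injective (trdeg_lt_aleph0_of_finiteType (fin := hfin))
    ((β₀ : ℂ →+* ℂ).comp φ) ψ (β₀.injective.comp hφ) hψ (by
      refine RingHom.ext fun k => ?_
      change β₀ (φ (algebraMap (clF S) (AdjoinRoot M) k)) = ψ (algebraMap (clF S) (AdjoinRoot M) k)
      rw [hφk, hψk])
  refine ⟨β₀.trans α, fun z hz => ?_, ?_, ?_⟩
  · have h := hα (algebraMap (clF S) (AdjoinRoot M) ⟨z, mem_clF.2 hz⟩)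
    rw [hψk] at h
    change α (β₀ (φ _)) = _ at h
    rw [hφk] at h
    exact h
  · have h := hα (AdjoinRoot.of M X)
    change α (β₀ (AdjoinRoot.lift (eval₂RingHom i x) y hxy' (AdjoinRoot.of M X))) =
      AdjoinRoot.lift (eval₂RingHom i' s) η hη' (AdjoinRoot.of M X) at h
    rw [AdjoinRoot.lift_of, AdjoinRoot.lift_of, coe_eval₂RingHom, coe_eval₂RingHom, eval₂_X, eval₂_X] at h
    exact h
  · have h := hα (AdjoinRoot.root M)
    change α (β₀ (AdjoinRoot.lift (eval₂RingHom i x) y hxy' (AdjoinRoot.root M))) =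
      AdjoinRoot.lift (eval₂RingHom i' s) η hη' (AdjoinRoot.root M) at h
    rw [AdjoinRoot.lift_root, AdjoinRoot.lift_root] at h
    exact h

end Pool.Agent.AHU
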