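import Mathlib
import Pool.Agent.AHR.Defs

/-!
# Affine maps between standard simplices
-/

namespace Pool.Agent.AHU

open Pool.Agent.AHC Pool.Agent.AHI
open scoped ContDiff LinearAlgebra.Projectivization

/-- the standard simplex of dimension `q` -/
abbrev Dl (q : ℕ) : Type := stdSimplex ℝ (Fin (q + 1))

/-- the linear map with given values at the basis vectors -/
def alin {q r : ℕ} (v : Fin (r + 1) → Dl q) (t : Fin (r + 1) → ℝ) : Fin (q + 1) → ℝ :=
  fun k => ∑ j, t j * (v j : Fin (q + 1) → ℝ) k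

/-- the affine map with given vertices -/
def amap {q r : ℕ} (v : Fin (r + 1) → Dl q) (t : Dl r) : Dl q :=
  ⟨alin v t, by
    refine ⟨fun k => Finset.sum_nonneg fun j _ => mul_nonneg (t.2.1 j) ((v j).2.1 k), ?_⟩
    unfold alin
    rw [Finset.sum_comm]
    have h : ∀ j, ∑ k, (t : Fin (r + 1) → ℝ) j * (v j : Fin (q + 1) → ℝ) k =
        (t : Fin (r + 1) → ℝ) j := by
      intro j
      rw [← Finset.mul_sum]
      exact (congrArg _ (v j).2.2).trans (mul_one _)
    exact (Finset.sum_congr rfl fun j _ => h j).trans t.2.2⟩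

/-- the vertices of the standard simplex -/
def vtx (q : ℕ) : Fin (q + 1) → Dl q := fun i => ⟨Pi.single i 1, single_mem_stdSimplex ℝ i⟩

/-- the barycentre of the standard simplex -/
noncomputable def ctr (r : ℕ) : Dl r := ⟨fun _ => 1 / (r + 1), by
  refine ⟨fun _ => by positivity, ?_⟩
  rw [Finset.sum_const, Finset.card_univ, Fintype.card_fin, nsmul_eq_mul]
  push_cast
  field_simp⟩

/-- the barycentre of a family of points -/
noncomputable def bcn {q : ℕ} (r : ℕ) (v : Fin (r + 1) → Dl q) : Dl q := amap v (ctr r)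

variable {N m : ℕ}

theorem coe_amap {q r : ℕ} (v : Fin (r + 1) → Dl q) (t : Dl r) :
    (amap v t : Fin (q + 1) → ℝ) = alin v t := rfl

theorem amap_vtx (q : ℕ) (t : Dl q) : amap (vtx q) t = t := by
  refine Subtype.ext (funext fun k => ?_)
  show ∑ j, (t : Fin (q + 1) → ℝ) j * (Pi.single j (1 : ℝ) : Fin (q + 1) → ℝ) k =
    (t : Fin (q + 1) → ℝ) k
  simp [Pi.single_apply]

theorem amap_vertex {q r : ℕ} (v : Fin (r + 1) → Dl q) (i : Fin (r + 1)) :
    amap v (vtx r i) = v i := by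
  refine Subtype.ext (funext fun k => ?_)
  show ∑ j, (Pi.single i (1 : ℝ) : Fin (r + 1) → ℝ) j * (v j : Fin (q + 1) → ℝ) k =
    (v i : Fin (q + 1) → ℝ) k
  simp [Pi.single_apply]

theorem amap_amap {q r l : ℕ} (w : Fin (r + 1) → Dl q) (v : Fin (l + 1) → Dl r) (t : Dl l) :
    amap w (amap v t) = amap (fun j => amap w (v j)) t := by
  refine Subtype.ext (funext fun k => ?_)
  show ∑ j, (∑ i, (t : Fin (l + 1) → ℝ) i * (v i : Fin (r + 1) → ℝ) j) *
      (w j : Fin (q + 1) → ℝ) k =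
    ∑ i, (t : Fin (l + 1) → ℝ) i * ∑ j, (v i : Fin (r + 1) → ℝ) j * (w j : Fin (q + 1) → ℝ) k
  simp only [Finset.sum_mul, Finset.mul_sum]
  rw [Finset.sum_comm]
  refine Finset.sum_congr rfl fun i _ => Finset.sum_congr rfl fun j _ => ?_
  ring

theorem amap_face {q r : ℕ} (v : Fin (r + 2) → Dl q) (i : Fin (r + 2)) (t : Dl r) :
    amap v (face i t) = amap (fun j => v (i.succAbove j)) t := by
  refine Subtype.ext (funext fun k => ?_)
  show ∑ j, (i.insertNth (0 : ℝ) (t : Fin (r + 1) → ℝ) : Fin (r + 2) → ℝ) j *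
      (v j : Fin (q + 1) → ℝ) k =
    ∑ j, (t : Fin (r + 1) → ℝ) j * (v (i.succAbove j) : Fin (q + 1) → ℝ) k
  rw [Fin.sum_univ_succAbove _ i]
  simp

theorem face_eq_amap {q : ℕ} (i : Fin (q + 2)) (t : Dl q) :
    face i t = amap (fun j => vtx (q + 1) (i.succAbove j)) t := by
  rw [← amap_face, amap_vtx]

theorem amap_bcn {q r l : ℕ} (w : Fin (r + 1) → Dl q) (v : Fin (l + 1) → Dl r) :
    amap w (bcn l v) = bcn l fun j => amap w (v j) :=
  amap_amap w v (ctr l)

theorem contDiff_alin {q r : ℕ} (v : Fin (r + 1) → Dl q) : ContDiff ℝ ∞ (alin v) := by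
  rw [contDiff_pi]
  intro k
  refine ContDiff.sum fun j _ => ?_
  exact (contDiff_apply ℝ ℝ j).mul contDiff_const

theorem isLift_amap {F : Fin m → CPoly N} {p : ℕ} {I : Fin (p + 1) → Fin (N + 1)} {q r : ℕ}
    {s : Simplex N q} {g : (Fin (q + 1) → ℝ) → (Fin (N + 1) → ℂ)} (h : IsLift F I s g)
    (v : Fin (r + 1) → Dl q) : IsLift F I (fun t => s (amap v t)) (fun t => g (alin v t)) where
  smooth := h.smooth.comp (contDiff_alin v)
  onCone := fun t ht => h.onCone _ (amap v ⟨t, ht⟩).2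
  inOpen := fun t ht a => h.inOpen _ (amap v ⟨t, ht⟩).2 a
  lifts := fun t => h.lifts (amap v t)

end Pool.Agent.AHU
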