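import Mathlib

/-!
# Barycentric subdivision of affine chains (algebra)

`K` is any type (of points) and `bc` any function which chooses a point for every tuple of points.
Chains of dimension `r` are combinations of `(r+1)`-tuples of points.

Proofs.  Everything is linear, so check on `Finsupp.single v 1`.
* `dd_dd`: usual sign argument (`AHI.sum_dd` in `AHI/Cpx.lean` has the double sum).
* `dd_cone`: `dd (cone b x) = x - cone b (dd x)` for `x` of dimension `≥ 1`; for `x` of dimension `0`: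
  `dd (cone b x) = x - (sum of the coefficients of x) • single (fun _ => b) 1`.
* `dd_Sd`: by induction on `r`.  `dd (Sd v) = dd (cone b (Sd (dd v))) = Sd (dd v) - cone b (dd (Sd (dd v)))`
  and `dd (Sd (dd v)) = Sd (dd (dd v)) = 0` by induction if the dimension of `v` is `≥ 2`; if it is
  `1` then `Sd 0 = id` and the sum of the coefficients of `dd v` is `0`.
* `dd_Td`: by induction on `r`: `dd (Td v) = dd (cone b (v - Td (dd v))) = v - Td (dd v) - cone b
  (dd v - dd (Td (dd v)))` and `dd (Td (dd v)) = dd v - Sd (dd v) - Td (dd (dd v)) = dd v - Sd (dd v)`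
  (for `v` of dimension `1`: `Td 0 = 0`, `Sd 0 = id`).
* naturality: by induction on `r`.
-/

namespace Pool.Agent.AHU

variable {K K' : Type}

/-- combinations of tuples of points -/
abbrev Ch (K : Type) (r : ℕ) : Type := (Fin (r + 1) → K) →₀ ℤ

/-- the boundary -/
noncomputable def dd {r : ℕ} : Ch K (r + 1) →ₗ[ℤ] Ch K r :=
  Finsupp.linearCombination ℤ fun v : Fin (r + 2) → K =>
    ∑ i : Fin (r + 2), Finsupp.single (fun j => v (i.succAbove j)) ((-1) ^ (i : ℕ))

/-- the cone with vertex `b` -/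
noncomputable def cone (b : K) {r : ℕ} : Ch K r →ₗ[ℤ] Ch K (r + 1) :=
  Finsupp.lmapDomain ℤ ℤ fun v => (Fin.cons b v : Fin (r + 2) → K)

/-- barycentric subdivision -/
noncomputable def Sd (bc : ∀ r, (Fin (r + 1) → K) → K) : ∀ r, Ch K r →ₗ[ℤ] Ch K r
  | 0 => LinearMap.id
  | r + 1 => Finsupp.linearCombination ℤ fun v =>
      cone (bc (r + 1) v) (Sd bc r (dd (Finsupp.single v 1)))

/-- the homotopy between the identity and the subdivision -/
noncomputable def Td (bc : ∀ r, (Fin (r + 1) → K) → K) : ∀ r, Ch K r →ₗ[ℤ] Ch K (r + 1)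
  | 0 => 0
  | r + 1 => Finsupp.linearCombination ℤ fun v =>
      cone (bc (r + 1) v) (Finsupp.single v 1 - Td bc r (dd (Finsupp.single v 1)))

/-- the map induced by a map of points -/
noncomputable def mapc (f : K → K') {r : ℕ} : Ch K r →ₗ[ℤ] Ch K' r :=
  Finsupp.lmapDomain ℤ ℤ fun v j => f (v j)

/-- the double sum of the signs vanishes -/
private theorem sum_dd {n : ℕ} {M : Type*} [AddCommGroup M] (f : Fin (n + 2) → Fin (n + 1) → M)
    (hf : ∀ a b a' b', (a.succAbove ∘ b.succAbove : Fin n → Fin (n + 2)) =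
      a'.succAbove ∘ b'.succAbove → f a b = f a' b') :
    ∑ a : Fin (n + 2), ∑ b : Fin (n + 1), ((-1 : ℤ) ^ (a : ℕ) * (-1) ^ (b : ℕ)) • f a b = 0 := by
  rw [← Finset.sum_product']
  let g : Fin (n + 2) × Fin (n + 1) → Fin (n + 2) × Fin (n + 1) := fun x =>
    if h : (x.2 : ℕ) < x.1 then
      (⟨x.2, by omega⟩, ⟨x.1 - 1, by omega⟩)
    else (⟨x.2 + 1, by omega⟩, ⟨x.1, by omega⟩)
  refine Finset.sum_involution (fun x _ => g x) ?_ ?_ (fun _ _ => Finset.mem_univ _) ?_
  · rintro ⟨a, b⟩ -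
    by_cases h : (b : ℕ) < a
    · have hg : g (a, b) = (⟨b, by omega⟩, ⟨a - 1, by omega⟩) := dif_pos h
      rw [hg]
      have h1 : f a b = f ⟨b, by omega⟩ ⟨a - 1, by omega⟩ := by
        apply hf
        funext x
        apply Fin.ext
        simp only [Function.comp_apply, Fin.succAbove, Fin.lt_def, Fin.val_castSucc]
        split_ifs <;> simp_all <;> omega
      simp only [h1]
      have h2 : (-1 : ℤ) ^ (a : ℕ) = -(-1) ^ ((a : ℕ) - 1) := by
        obtain ⟨k, hk⟩ : ∃ k, (a : ℕ) = k + 1 := ⟨a - 1, by omega⟩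
        rw [hk, pow_succ]
        simp
      rw [h2, ← add_smul]
      have h3 : (-(-1 : ℤ) ^ ((a : ℕ) - 1) * (-1) ^ (b : ℕ) +
          (-1) ^ (b : ℕ) * (-1) ^ ((a : ℕ) - 1)) = 0 := by ring
      rw [h3, zero_smul]
    · have hg : g (a, b) = (⟨b + 1, by omega⟩, ⟨a, by omega⟩) := dif_neg h
      rw [hg]
      have h1 : f a b = f ⟨b + 1, by omega⟩ ⟨a, by omega⟩ := by
        apply hf
        funext x
        apply Fin.ext
        simp only [Function.comp_apply, Fin.succAbove, Fin.lt_def, Fin.val_castSucc]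
        split_ifs <;> simp_all <;> omega
      simp only [h1, pow_succ]
      rw [← add_smul]
      have h3 : ((-1 : ℤ) ^ (a : ℕ) * (-1) ^ (b : ℕ) +
          (-1) ^ (b : ℕ) * -1 * (-1) ^ (a : ℕ)) = 0 := by ring
      rw [h3, zero_smul]
  · rintro ⟨a, b⟩ - - h
    by_cases h' : (b : ℕ) < a
    · have hg : g (a, b) = (⟨b, by omega⟩, ⟨a - 1, by omega⟩) := dif_pos h'
      rw [hg] at h
      have h1 := congrArg (fun x => (x.1 : ℕ)) h
      simp only [] at h1
      omega
    · have hg : g (a, b) = (⟨b + 1, by omega⟩, ⟨a, by omega⟩) := dif_neg h'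
      rw [hg] at h
      have h1 := congrArg (fun x => (x.1 : ℕ)) h
      simp only [] at h1
      omega
  · rintro ⟨a, b⟩ -
    by_cases h' : (b : ℕ) < a
    · have hg : g (a, b) = (⟨b, by omega⟩, ⟨a - 1, by omega⟩) := dif_pos h'
      rw [hg]
      have h2 : ¬ (((⟨(a : ℕ) - 1, by omega⟩ : Fin (n + 1)) : ℕ) <
          ((⟨b, by omega⟩ : Fin (n + 2)) : ℕ)) := by
        simp only []
        omega
      simp only [g]
      rw [dif_neg h2]
      ext
      · simp only []
        omega
      · simp only []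
    · have hg : g (a, b) = (⟨b + 1, by omega⟩, ⟨a, by omega⟩) := dif_neg h'
      rw [hg]
      have h2 : (((⟨(a : ℕ), by omega⟩ : Fin (n + 1)) : ℕ) <
          ((⟨b + 1, by omega⟩ : Fin (n + 2)) : ℕ)) := by
        simp only []
        omega
      simp only [g]
      rw [dif_pos h2]
      ext
      · simp only []
      · simp only []
        omega

private theorem lin_ext {r : ℕ} {M : Type*} [AddCommGroup M] {φ ψ : Ch K r →ₗ[ℤ] M}
    (h : ∀ v, φ (Finsupp.single v 1) = ψ (Finsupp.single v 1)) (x : Ch K r) : φ x = ψ x := by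
  have : φ = ψ := by
    apply Finsupp.lhom_ext'
    intro v
    apply LinearMap.ext_ring
    exact h v
  rw [this]

private theorem single_smul' {X : Type} (v : X) (c : ℤ) :
    (Finsupp.single v c : X →₀ ℤ) = c • Finsupp.single v 1 := by
  rw [Finsupp.smul_single, smul_eq_mul, mul_one]

private theorem dd_single {r : ℕ} (v : Fin (r + 2) → K) :
    dd (Finsupp.single v (1 : ℤ)) =
      ∑ i : Fin (r + 2), ((-1 : ℤ) ^ (i : ℕ)) • Finsupp.single (fun j => v (i.succAbove j)) 1 := by
  rw [dd, Finsupp.linearCombination_single, one_smul]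
  exact Finset.sum_congr rfl fun i _ => single_smul' _ _

private theorem cone_single (b : K) {r : ℕ} (v : Fin (r + 1) → K) (c : ℤ) :
    cone b (Finsupp.single v c) = Finsupp.single (Fin.cons b v : Fin (r + 2) → K) c := by
  rw [cone, Finsupp.lmapDomain_apply, Finsupp.mapDomain_single]

private theorem Sd_zero (bc : ∀ r, (Fin (r + 1) → K) → K) (x : Ch K 0) : Sd bc 0 x = x := rfl

private theorem Td_zero (bc : ∀ r, (Fin (r + 1) → K) → K) (x : Ch K 0) : Td bc 0 x = 0 := rfl

private theorem Sd_succ (bc : ∀ r, (Fin (r + 1) → K) → K) {r : ℕ} (v : Fin (r + 2) → K) :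
    Sd bc (r + 1) (Finsupp.single v 1) =
      cone (bc (r + 1) v) (Sd bc r (dd (Finsupp.single v 1))) := by
  rw [Sd, Finsupp.linearCombination_single, one_smul]

private theorem Td_succ (bc : ∀ r, (Fin (r + 1) → K) → K) {r : ℕ} (v : Fin (r + 2) → K) :
    Td bc (r + 1) (Finsupp.single v 1) =
      cone (bc (r + 1) v) (Finsupp.single v 1 - Td bc r (dd (Finsupp.single v 1))) := by
  rw [Td, Finsupp.linearCombination_single, one_smul]

private theorem mapc_single (f : K → K') {r : ℕ} (v : Fin (r + 1) → K) (c : ℤ) :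
    mapc f (Finsupp.single v c) = Finsupp.single (fun j => f (v j)) c := by
  rw [mapc, Finsupp.lmapDomain_apply, Finsupp.mapDomain_single]

theorem dd_dd {r : ℕ} (x : Ch K (r + 2)) : dd (dd x) = 0 := by
  have key : ∀ v : Fin (r + 3) → K,
      (dd ∘ₗ dd : Ch K (r + 2) →ₗ[ℤ] Ch K r) (Finsupp.single v 1) =
        (0 : Ch K (r + 2) →ₗ[ℤ] Ch K r) (Finsupp.single v 1) := by
    intro v
    rw [LinearMap.comp_apply, dd_single, map_sum, LinearMap.zero_apply]
    have : ∀ i : Fin (r + 3), dd (((-1 : ℤ) ^ (i : ℕ)) •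
        (Finsupp.single (fun j => v (i.succAbove j)) 1 : Ch K (r + 1))) =
        ∑ k : Fin (r + 2), ((-1 : ℤ) ^ (i : ℕ) * (-1) ^ (k : ℕ)) •
          (Finsupp.single (fun j => v (i.succAbove (k.succAbove j))) 1 : Ch K r) := by
      intro i
      rw [map_smul, dd_single, Finset.smul_sum]
      exact Finset.sum_congr rfl fun k _ => smul_smul _ _ _
    rw [Finset.sum_congr rfl fun i _ => this i]
    refine sum_dd (fun (i : Fin (r + 1 + 2)) (k : Fin (r + 1 + 1)) =>
      (Finsupp.single (fun j => v (i.succAbove (k.succAbove j))) 1 : Ch K r)) ?_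
    intro a b a' b' h
    have : (fun j => v (a.succAbove (b.succAbove j))) = fun j => v (a'.succAbove (b'.succAbove j)) := by
      funext j
      exact congrArg v (congrFun h j)
    rw [this]
  exact lin_ext key x

/-- the faces of a cone -/
private theorem cons_succ (b : K) {r : ℕ} (v : Fin (r + 2) → K) (i : Fin (r + 2)) :
    (fun j : Fin (r + 2) => (Fin.cons b v : Fin (r + 3) → K) (i.succ.succAbove j)) =
      (Fin.cons b (fun j => v (i.succAbove j)) : Fin (r + 2) → K) := by
  funext j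
  refine Fin.cases ?_ (fun j => ?_) j
  · simp
  · simp [Fin.succ_succAbove_succ]

theorem dd_cone (b : K) {r : ℕ} (x : Ch K (r + 1)) : dd (cone b x) = x - cone b (dd x) := by
  have key : ∀ v : Fin (r + 2) → K,
      (dd ∘ₗ cone b : Ch K (r + 1) →ₗ[ℤ] Ch K (r + 1)) (Finsupp.single v 1) =
        (LinearMap.id - cone b ∘ₗ dd : Ch K (r + 1) →ₗ[ℤ] Ch K (r + 1)) (Finsupp.single v 1) := by
    intro v
    rw [LinearMap.comp_apply, LinearMap.sub_apply, LinearMap.id_apply, LinearMap.comp_apply,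
      cone_single, dd_single, dd_single, Fin.sum_univ_succ, map_sum, sub_eq_add_neg,
      ← Finset.sum_neg_distrib]
    congr 1
    · simp
    · refine Finset.sum_congr rfl fun i _ => ?_
      rw [cons_succ, map_smul, cone_single, Fin.val_succ, pow_succ, mul_neg, mul_one, neg_smul]
  exact lin_ext key x

/-- the sum of the coefficients -/
private noncomputable def tot {r : ℕ} : Ch K r →ₗ[ℤ] ℤ :=
  Finsupp.linearCombination ℤ fun _ => (1 : ℤ)

private theorem tot_single {r : ℕ} (v : Fin (r + 1) → K) : tot (Finsupp.single v (1 : ℤ)) = 1 := by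
  rw [tot, Finsupp.linearCombination_single, one_smul]

private theorem tot_dd (x : Ch K 1) : tot (dd x) = 0 := by
  have key : ∀ v : Fin 2 → K, (tot ∘ₗ dd : Ch K 1 →ₗ[ℤ] ℤ) (Finsupp.single v 1) =
      (0 : Ch K 1 →ₗ[ℤ] ℤ) (Finsupp.single v 1) := by
    intro v
    rw [LinearMap.comp_apply, dd_single, map_sum, LinearMap.zero_apply, Fin.sum_univ_two,
      map_smul, map_smul, tot_single, tot_single]
    simp
  exact lin_ext key x

private theorem dd_cone_zero (b : K) (x : Ch K 0) :
    dd (cone b x) = x - tot x • Finsupp.single (fun _ => b) 1 := by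
  have key : ∀ v : Fin 1 → K,
      (dd ∘ₗ cone b : Ch K 0 →ₗ[ℤ] Ch K 0) (Finsupp.single v 1) =
        (LinearMap.id - (LinearMap.toSpanSingleton ℤ (Ch K 0) (Finsupp.single (fun _ => b) 1)) ∘ₗ
          tot : Ch K 0 →ₗ[ℤ] Ch K 0) (Finsupp.single v 1) := by
    intro v
    rw [LinearMap.comp_apply, LinearMap.sub_apply, LinearMap.id_apply, LinearMap.comp_apply,
      cone_single, dd_single, tot_single, LinearMap.toSpanSingleton_apply, one_smul,
      Fin.sum_univ_two, sub_eq_add_neg]
    have h1 : (fun j : Fin 1 => (Fin.cons b v : Fin 2 → K) ((0 : Fin 2).succAbove j)) = v := by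
      funext j
      simp
    have h2 : (fun j : Fin 1 => (Fin.cons b v : Fin 2 → K) ((1 : Fin 2).succAbove j)) =
        fun _ => b := by
      funext j
      have hj : j = 0 := Subsingleton.elim _ _
      subst hj
      rfl
    rw [h1, h2]
    simp
  exact lin_ext key x

theorem dd_Sd (bc : ∀ r, (Fin (r + 1) → K) → K) {r : ℕ} (x : Ch K (r + 1)) :
    dd (Sd bc (r + 1) x) = Sd bc r (dd x) := by
  induction r with
  | zero =>
    have key : ∀ v : Fin 2 → K,
        (dd ∘ₗ Sd bc 1 : Ch K 1 →ₗ[ℤ] Ch K 0) (Finsupp.single v 1) =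
          (Sd bc 0 ∘ₗ dd : Ch K 1 →ₗ[ℤ] Ch K 0) (Finsupp.single v 1) := by
      intro v
      rw [LinearMap.comp_apply, LinearMap.comp_apply, Sd_succ, Sd_zero, dd_cone_zero, tot_dd,
        zero_smul, sub_zero]
    exact lin_ext key x
  | succ r ih =>
    have key : ∀ v : Fin (r + 3) → K,
        (dd ∘ₗ Sd bc (r + 2) : Ch K (r + 2) →ₗ[ℤ] Ch K (r + 1)) (Finsupp.single v 1) =
          (Sd bc (r + 1) ∘ₗ dd : Ch K (r + 2) →ₗ[ℤ] Ch K (r + 1)) (Finsupp.single v 1) := by
      intro v
      rw [LinearMap.comp_apply, LinearMap.comp_apply, Sd_succ, dd_cone, ih, dd_dd, map_zero,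
        map_zero, sub_zero]
    exact lin_ext key x

theorem dd_Td (bc : ∀ r, (Fin (r + 1) → K) → K) {r : ℕ} (x : Ch K (r + 1)) :
    dd (Td bc (r + 1) x) + Td bc r (dd x) = x - Sd bc (r + 1) x := by
  induction r with
  | zero =>
    have key : ∀ v : Fin 2 → K,
        (dd ∘ₗ Td bc 1 + Td bc 0 ∘ₗ dd : Ch K 1 →ₗ[ℤ] Ch K 1) (Finsupp.single v 1) =
          (LinearMap.id - Sd bc 1 : Ch K 1 →ₗ[ℤ] Ch K 1) (Finsupp.single v 1) := by
      intro v
      rw [LinearMap.add_apply, LinearMap.sub_apply, LinearMap.comp_apply, LinearMap.comp_apply,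
        LinearMap.id_apply, Sd_succ, Td_succ, Td_zero, Sd_zero, sub_zero, add_zero, dd_cone]
    exact lin_ext key x
  | succ r ih =>
    have key : ∀ v : Fin (r + 3) → K,
        (dd ∘ₗ Td bc (r + 2) + Td bc (r + 1) ∘ₗ dd : Ch K (r + 2) →ₗ[ℤ] Ch K (r + 2))
          (Finsupp.single v 1) =
          (LinearMap.id - Sd bc (r + 2) : Ch K (r + 2) →ₗ[ℤ] Ch K (r + 2))
            (Finsupp.single v 1) := by
      intro v
      have h1 := ih (dd (Finsupp.single v 1))
      rw [dd_dd, map_zero, add_zero] at h1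
      rw [LinearMap.add_apply, LinearMap.sub_apply, LinearMap.comp_apply, LinearMap.comp_apply,
        LinearMap.id_apply, Sd_succ, Td_succ, dd_cone, map_sub dd, h1, sub_sub_cancel]
      abel
    exact lin_ext key x

theorem mapc_dd (f : K → K') {r : ℕ} (x : Ch K (r + 1)) : mapc f (dd x) = dd (mapc f x) := by
  have key : ∀ v : Fin (r + 2) → K,
      (mapc f ∘ₗ dd : Ch K (r + 1) →ₗ[ℤ] Ch K' r) (Finsupp.single v 1) =
        (dd ∘ₗ mapc f : Ch K (r + 1) →ₗ[ℤ] Ch K' r) (Finsupp.single v 1) := by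
    intro v
    rw [LinearMap.comp_apply, LinearMap.comp_apply, mapc_single, dd_single, dd_single, map_sum]
    refine Finset.sum_congr rfl fun i _ => ?_
    rw [map_smul, mapc_single]
  exact lin_ext key x

private theorem mapc_cone (f : K → K') (b : K) {r : ℕ} (x : Ch K r) :
    mapc f (cone b x) = cone (f b) (mapc f x) := by
  have key : ∀ v : Fin (r + 1) → K,
      (mapc f ∘ₗ cone b : Ch K r →ₗ[ℤ] Ch K' (r + 1)) (Finsupp.single v 1) =
        (cone (f b) ∘ₗ mapc f : Ch K r →ₗ[ℤ] Ch K' (r + 1)) (Finsupp.single v 1) := by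
    intro v
    rw [LinearMap.comp_apply, LinearMap.comp_apply, mapc_single, cone_single, cone_single,
      mapc_single]
    congr 1
    funext j
    refine Fin.cases ?_ (fun j => ?_) j
    · simp
    · simp
  exact lin_ext key x

theorem mapc_Sd {bc : ∀ r, (Fin (r + 1) → K) → K} {bc' : ∀ r, (Fin (r + 1) → K') → K'}
    {f : K → K'} (hf : ∀ r v, f (bc r v) = bc' r fun j => f (v j)) {r : ℕ} (x : Ch K r) :
    mapc f (Sd bc r x) = Sd bc' r (mapc f x) := by
  induction r with
  | zero => rw [Sd_zero, Sd_zero]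
  | succ r ih =>
    have key : ∀ v : Fin (r + 2) → K,
        (mapc f ∘ₗ Sd bc (r + 1) : Ch K (r + 1) →ₗ[ℤ] Ch K' (r + 1)) (Finsupp.single v 1) =
          (Sd bc' (r + 1) ∘ₗ mapc f : Ch K (r + 1) →ₗ[ℤ] Ch K' (r + 1)) (Finsupp.single v 1) := by
      intro v
      rw [LinearMap.comp_apply, LinearMap.comp_apply, mapc_single, Sd_succ, Sd_succ, mapc_cone, ih,
        mapc_dd, mapc_single, hf]
    exact lin_ext key x

theorem mapc_Td {bc : ∀ r, (Fin (r + 1) → K) → K} {bc' : ∀ r, (Fin (r + 1) → K') → K'}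
    {f : K → K'} (hf : ∀ r v, f (bc r v) = bc' r fun j => f (v j)) {r : ℕ} (x : Ch K r) :
    mapc f (Td bc r x) = Td bc' r (mapc f x) := by
  induction r with
  | zero => rw [Td_zero, Td_zero, map_zero]
  | succ r ih =>
    have key : ∀ v : Fin (r + 2) → K,
        (mapc f ∘ₗ Td bc (r + 1) : Ch K (r + 1) →ₗ[ℤ] Ch K' (r + 2)) (Finsupp.single v 1) =
          (Td bc' (r + 1) ∘ₗ mapc f : Ch K (r + 1) →ₗ[ℤ] Ch K' (r + 2)) (Finsupp.single v 1) := by
      intro v
      rw [LinearMap.comp_apply, LinearMap.comp_apply, mapc_single, Td_succ, Td_succ, mapc_cone,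
        map_sub, ih, mapc_dd, mapc_single, hf]
    exact lin_ext key x

end Pool.Agent.AHU
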