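import Mathlib
import Pool.Agent.AHU.Aff
import Pool.Agent.AHU.Sd

/-!
# The simplices of the iterated barycentric subdivision are small

Distances in `Dl q` are those of `Fin (q + 1) → ℝ` (sup norm).

Proof of `mesh`.  (1) If all points `v i` (`i ≤ r`) have mutual distances `≤ D`, then
`dist (bcn r v) (amap v t) ≤ r / (r + 1) * D` for every `t` (the function is convex in `t`, and
`v i - bcn r v = (1 / (r + 1)) ∑ j (v i - v j)` with `r` non-zero terms).  (2) By induction on `r`:
every vertex of a tuple in the support of `Sd bcn r (single v 1)` is of the form `amap v t`, and the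
mutual distances of the vertices are `≤ r / (r + 1) * D`: the tuple is `Fin.cons (bcn v) u` with
`u` in the support of `Sd bcn (r - 1)` of a face of `v`; distances to `bcn v` by (1), distances in
`u` are `≤ (r - 1) / r * D ≤ r / (r + 1) * D` by induction.

Proof of `exists_fine`.  By induction on `m`, all vertex distances of the tuples in the support of
`(Sd bcn q)^[m] (single (vtx q) 1)` are `≤ (q / (q + 1)) ^ m` (those of `vtx q` are `≤ 1`), and
`dist (amap v t) (amap v t') ≤ ` the maximal distance of the vertices (convexity; a constant factor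
like `2` would not matter).
-/

namespace Pool.Agent.AHU

open Pool.Agent.AHC Pool.Agent.AHI

/-- a point of the support of the image of a chain comes from the image of a point of its support -/
theorem Mesh_support {A B : Type} (f : (A →₀ ℤ) →ₗ[ℤ] (B →₀ ℤ)) (x : A →₀ ℤ) {u : B}
    (hu : u ∈ (f x).support) : ∃ v ∈ x.support, u ∈ (f (Finsupp.single v 1)).support := by
  by_contra hcon
  push Not at hcon
  rw [Finsupp.mem_support_iff] at hu
  apply hu
  have hx : x = ∑ v ∈ x.support, x v • Finsupp.single v (1 : ℤ) := by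
    conv_lhs => rw [← Finsupp.sum_single x]
    unfold Finsupp.sum
    refine Finset.sum_congr rfl fun v _ => ?_
    rw [Finsupp.smul_single, smul_eq_mul, mul_one]
  rw [hx, map_sum, Finsupp.finset_sum_apply]
  refine Finset.sum_eq_zero fun v hv => ?_
  have h := hcon v hv
  rw [Finsupp.notMem_support_iff] at h
  rw [map_zsmul, Finsupp.smul_apply, h, smul_zero]

/-- coordinates of distances -/
theorem Mesh_dist_le {q : ℕ} {x y : Dl q} {c : ℝ} (hc : 0 ≤ c)
    (h : ∀ k, |(x : Fin (q + 1) → ℝ) k - (y : Fin (q + 1) → ℝ) k| ≤ c) : dist x y ≤ c := by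
  rw [Subtype.dist_eq, dist_pi_le_iff hc]
  intro k
  rw [Real.dist_eq]
  exact h k

theorem Mesh_coord {q : ℕ} {x y : Dl q} {c : ℝ} (h : dist x y ≤ c) (k : Fin (q + 1)) :
    |(x : Fin (q + 1) → ℝ) k - (y : Fin (q + 1) → ℝ) k| ≤ c := by
  rw [← Real.dist_eq]
  exact (dist_le_pi_dist (x : Fin (q + 1) → ℝ) (y : Fin (q + 1) → ℝ) k).trans
    ((le_of_eq (Subtype.dist_eq x y).symm).trans h)

/-- the distance to a point is convex -/
theorem Mesh_conv {q r : ℕ} {v : Fin (r + 1) → Dl q} {w : Dl q} {c : ℝ}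
    (h : ∀ j, dist w (v j) ≤ c) (t : Dl r) : dist w (amap v t) ≤ c := by
  have hc : 0 ≤ c := dist_nonneg.trans (h 0)
  have ht1 : ∑ j, (t : Fin (r + 1) → ℝ) j = 1 := t.2.2
  have ht0 : ∀ j, 0 ≤ (t : Fin (r + 1) → ℝ) j := t.2.1
  refine Mesh_dist_le hc fun k => ?_
  have e : (w : Fin (q + 1) → ℝ) k - (amap v t : Fin (q + 1) → ℝ) k =
      ∑ j, (t : Fin (r + 1) → ℝ) j * ((w : Fin (q + 1) → ℝ) k - (v j : Fin (q + 1) → ℝ) k) := by
    rw [coe_amap]
    unfold alin
    simp only [mul_sub]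
    rw [Finset.sum_sub_distrib, ← Finset.sum_mul, ht1, one_mul]
  rw [e]
  refine (Finset.abs_sum_le_sum_abs _ _).trans ?_
  have e2 : ∑ j, |(t : Fin (r + 1) → ℝ) j * ((w : Fin (q + 1) → ℝ) k - (v j : Fin (q + 1) → ℝ) k)| ≤
      ∑ j, (t : Fin (r + 1) → ℝ) j * c := by
    refine Finset.sum_le_sum fun j _ => ?_
    rw [abs_mul, abs_of_nonneg (ht0 j)]
    exact mul_le_mul_of_nonneg_left (Mesh_coord (h j) k) (ht0 j)
  refine e2.trans ?_
  rw [← Finset.sum_mul, ht1, one_mul]

/-- the distances of the barycentre to the vertices -/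
theorem Mesh_bcn {q r : ℕ} {v : Fin (r + 1) → Dl q} {D : ℝ} (hv : ∀ i j, dist (v i) (v j) ≤ D)
    (i : Fin (r + 1)) : dist (bcn r v) (v i) ≤ r / (r + 1) * D := by
  have hD : 0 ≤ D := dist_nonneg.trans (hv 0 0)
  have hr : (0 : ℝ) < (r : ℝ) + 1 := by positivity
  refine Mesh_dist_le (by positivity) fun k => ?_
  have e : (bcn r v : Fin (q + 1) → ℝ) k - (v i : Fin (q + 1) → ℝ) k =
      (1 / ((r : ℝ) + 1)) * ∑ j, ((v j : Fin (q + 1) → ℝ) k - (v i : Fin (q + 1) → ℝ) k) := by
    have e1 : (bcn r v : Fin (q + 1) → ℝ) k =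
        ∑ j, (1 / ((r : ℝ) + 1)) * (v j : Fin (q + 1) → ℝ) k := rfl
    rw [e1, ← Finset.mul_sum, Finset.sum_sub_distrib, Finset.sum_const, Finset.card_univ,
      Fintype.card_fin, nsmul_eq_mul]
    push_cast
    field_simp
  rw [e, abs_mul, abs_of_pos (by positivity : (0 : ℝ) < 1 / ((r : ℝ) + 1))]
  have e2 : |∑ j, ((v j : Fin (q + 1) → ℝ) k - (v i : Fin (q + 1) → ℝ) k)| ≤ r * D := by
    rw [Fin.sum_univ_succAbove _ i, sub_self, zero_add]
    refine (Finset.abs_sum_le_sum_abs _ _).trans ?_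
    refine (Finset.sum_le_sum fun j _ => Mesh_coord (hv (i.succAbove j) i) k).trans ?_
    rw [Finset.sum_const, Finset.card_univ, Fintype.card_fin, nsmul_eq_mul]
  calc 1 / ((r : ℝ) + 1) * |∑ j, ((v j : Fin (q + 1) → ℝ) k - (v i : Fin (q + 1) → ℝ) k)|
      ≤ 1 / ((r : ℝ) + 1) * (r * D) := mul_le_mul_of_nonneg_left e2 (by positivity)
    _ = r / (r + 1) * D := by ring

theorem Mesh_main : ∀ {r q : ℕ} {v : Fin (r + 1) → Dl q} {D : ℝ}
    (_ : ∀ i j, dist (v i) (v j) ≤ D) {u : Fin (r + 1) → Dl q}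
    (_ : u ∈ (Sd bcn r (Finsupp.single v 1)).support),
    (∀ i, ∃ t, u i = amap v t) ∧ ∀ i j, dist (u i) (u j) ≤ r / (r + 1) * D := by
  intro r
  induction r with
  | zero =>
    intro q v D hv u hu
    have hu' : u = v := by
      have h1 : u ∈ (Finsupp.single v (1 : ℤ)).support := hu
      have h2 := Finsupp.support_single_subset h1
      exact Finset.mem_singleton.1 h2
    subst hu'
    refine ⟨fun i => ⟨vtx 0 i, (amap_vertex u i).symm⟩, fun i j => ?_⟩
    have hij : i = j := Fin.ext (by omega)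
    rw [hij, dist_self]
    simp
  | succ r ih =>
    intro q v D hv u hu
    have hD : 0 ≤ D := dist_nonneg.trans (hv 0 0)
    have h1 : Sd bcn (r + 1) (Finsupp.single v 1) =
        cone (bcn (r + 1) v) (Sd bcn r (dd (Finsupp.single v 1))) := by
      change Finsupp.linearCombination ℤ _ (Finsupp.single v 1) = _
      rw [Finsupp.linearCombination_single, one_smul]
    rw [h1] at hu
    obtain ⟨u', hu', hu2⟩ := Mesh_support _ _ hu
    have h2 : u = Fin.cons (bcn (r + 1) v) u' := by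
      unfold cone at hu2
      rw [Finsupp.lmapDomain_apply, Finsupp.mapDomain_single] at hu2
      exact Finset.mem_singleton.1 (Finsupp.support_single_subset hu2)
    obtain ⟨w, hw, hw2⟩ := Mesh_support _ _ hu'
    have h3 : ∃ i : Fin (r + 2), w = fun j => v (i.succAbove j) := by
      unfold dd at hw
      rw [Finsupp.linearCombination_single, one_smul, Finsupp.mem_support_iff,
        Finsupp.finset_sum_apply] at hw
      obtain ⟨i, _, hi⟩ := Finset.exists_ne_zero_of_sum_ne_zero hw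
      refine ⟨i, ?_⟩
      by_contra hne
      exact hi (Finsupp.single_eq_of_ne hne)
    obtain ⟨i, rfl⟩ := h3
    obtain ⟨ih1, ih2⟩ := ih (v := fun j => v (i.succAbove j)) (D := D) (fun a b => hv _ _) hw2
    have hb : ∀ t, dist (bcn (r + 1) v) (amap v t) ≤ ((r + 1 : ℕ) : ℝ) / (((r + 1 : ℕ) : ℝ) + 1) * D :=
      fun t => Mesh_conv (fun j => Mesh_bcn hv j) t
    have ha : ∀ j, ∃ t, u' j = amap v t := by
      intro j
      obtain ⟨t, ht⟩ := ih1 j
      exact ⟨face i t, by rw [ht, amap_face]⟩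
    have hpos : (0 : ℝ) ≤ ((r + 1 : ℕ) : ℝ) / (((r + 1 : ℕ) : ℝ) + 1) * D := by positivity
    have hle : (r : ℝ) / (r + 1) * D ≤ ((r + 1 : ℕ) : ℝ) / (((r + 1 : ℕ) : ℝ) + 1) * D := by
      refine mul_le_mul_of_nonneg_right ?_ hD
      push_cast
      rw [div_le_div_iff₀ (by positivity) (by positivity)]
      nlinarith
    refine ⟨fun j => ?_, fun a b => ?_⟩
    · rw [h2]
      refine Fin.cases ?_ (fun j => ?_) j
      · exact ⟨ctr (r + 1), rfl⟩
      · rw [Fin.cons_succ]
        exact ha j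
    · rw [h2]
      refine Fin.cases ?_ (fun a => ?_) a
      · refine Fin.cases ?_ (fun b => ?_) b
        · rw [dist_self]
          exact hpos
        · rw [Fin.cons_zero, Fin.cons_succ]
          obtain ⟨t, ht⟩ := ha b
          rw [ht]
          exact hb t
      · refine Fin.cases ?_ (fun b => ?_) b
        · rw [Fin.cons_zero, Fin.cons_succ, dist_comm]
          obtain ⟨t, ht⟩ := ha a
          rw [ht]
          exact hb t
        · rw [Fin.cons_succ, Fin.cons_succ]
          exact (ih2 a b).trans hle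

theorem mesh {q r : ℕ} {v : Fin (r + 1) → Dl q} {D : ℝ} (hv : ∀ i j, dist (v i) (v j) ≤ D)
    {u : Fin (r + 1) → Dl q} (hu : u ∈ (Sd bcn r (Finsupp.single v 1)).support) (i j : Fin (r + 1)) :
    dist (u i) (u j) ≤ r / (r + 1) * D :=
  (Mesh_main hv hu).2 i j

theorem Mesh_vtx (q : ℕ) (i j : Fin (q + 1)) : dist (vtx q i) (vtx q j) ≤ 1 := by
  refine Mesh_dist_le zero_le_one fun k => ?_
  change |(Pi.single i (1 : ℝ) : Fin (q + 1) → ℝ) k - (Pi.single j (1 : ℝ) : Fin (q + 1) → ℝ) k| ≤ 1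
  rw [Pi.single_apply, Pi.single_apply]
  split_ifs <;> simp

theorem exists_fine (q : ℕ) {ε : ℝ} (hε : 0 < ε) :
    ∃ m₀ : ℕ, ∀ m ≥ m₀, ∀ v ∈ (((Sd bcn q)^[m]) (Finsupp.single (vtx q) 1)).support,
      ∀ t t' : Dl q, dist (amap v t) (amap v t') < ε := by
  have hq0 : (0 : ℝ) ≤ (q : ℝ) / (q + 1) := by positivity
  have hq1 : (q : ℝ) / (q + 1) < 1 := by
    rw [div_lt_one (by positivity)]
    linarith
  have key : ∀ m : ℕ, ∀ v ∈ (((Sd bcn q)^[m]) (Finsupp.single (vtx q) 1)).support,
      ∀ i j, dist (v i) (v j) ≤ ((q : ℝ) / (q + 1)) ^ m := by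
    intro m
    induction m with
    | zero =>
      intro v hv i j
      rw [Function.iterate_zero_apply] at hv
      have hv' := Finset.mem_singleton.1 (Finsupp.support_single_subset hv)
      rw [hv', pow_zero]
      exact Mesh_vtx q i j
    | succ m ih =>
      intro v hv i j
      rw [Function.iterate_succ_apply'] at hv
      obtain ⟨w, hw, hw2⟩ := Mesh_support _ _ hv
      rw [pow_succ']
      exact mesh (ih w hw) hw2 i j
  obtain ⟨m₀, hm₀⟩ := exists_pow_lt_of_lt_one hε hq1
  refine ⟨m₀, fun m hm v hv t t' => ?_⟩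
  refine lt_of_le_of_lt ?_ hm₀
  refine le_trans ?_ (pow_le_pow_of_le_one hq0 hq1.le hm)
  refine Mesh_conv (fun j => ?_) t'
  rw [dist_comm]
  exact Mesh_conv (fun i => key m v hv j i) t

end Pool.Agent.AHU
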