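import Mathlib
import Pool.Agent.AHU.Aff
import Pool.Agent.AHU.Sd

/-!
# Barycentric subdivision in the Čech–singular complex

Proofs.  `toG I s` is the map which sends a tuple `v` of points of `Dl q` to the generator
`(p, r, I, s ∘ amap v)`.  For `x : Ch (Dl q) (r + 1)`: the Čech part of `bdL (toG I s x)` is
`∑ a (-1)^a toG (I ∘ succAbove a) s x`, the singular part is `(-1)^p toG I s (dd x)` (`amap_face`).
Naturality: `toG I (s ∘ face i) x = toG I s (mapc (face i) x)` (`amap_amap`, `face_eq_amap`:
`s (face i (amap v t)) = s (amap (fun j => face i (v j)) t)`), and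
`Sd (single (fun j => face i (vtx q j))) = mapc (face i) (Sd (single (vtx q)))` by `mapc_Sd`,
`amap_bcn`; the same for `Td`; `face i (vtx q j) = vtx (q + 1) (i.succAbove j)`.

`bdL_bdL`: `bd` squares to zero (from `AHI.totD_totD`, or `AHR.evc_evc_bd_bd` applied to indicator
functions, or directly).

`bdL_TG` on a generator `x = (p, q, I, s)`: the Čech parts of `bdL (TG x)` and `TG (bd x)` are
opposite (sign `(-1)^p` against `(-1)^(p-1)`); the singular parts are, for `q ≥ 1`,
`(-1)^p (-1)^p toG I s (dd (Td (vtx)))` and `(-1)^p (-1)^p ∑ i (-1)^i toG I (s ∘ face i) (Td (vtx)) =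
toG I s (Td (dd (vtx)))`; their sum is `toG I s (vtx - Sd (vtx)) = x - SdG x` by `dd_Td` and
`amap_vtx`.  For `q = 0` everything is `0` (`Td 0 = 0`, `Sd 0 = id`).

`SdG_iter`: by induction on `m`, `SdG (toG I s x) = toG I s (Sd x)` for all `x : Ch (Dl q) r`
(on `single v 1`: `toG I (s ∘ amap v) (Sd (single (vtx r))) = toG I s (mapc (amap v) (Sd ..)) =
toG I s (Sd (single v))` by `mapc_Sd`, `amap_vertex`).
-/

namespace Pool.Agent.AHU

open Pool.Agent.AHC Pool.Agent.AHI

variable {N : ℕ}

/-- the boundary of chains -/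
noncomputable def bdL : (Gen N →₀ ℤ) →ₗ[ℤ] (Gen N →₀ ℤ) :=
  Finsupp.linearCombination ℤ (AHI.bd : Gen N → (Gen N →₀ ℤ))

/-- affine chains in the simplex, mapped by `s` -/
noncomputable def toG {p q r : ℕ} (I : Fin (p + 1) → Fin (N + 1)) (s : Simplex N q) :
    Ch (Dl q) r →ₗ[ℤ] (Gen N →₀ ℤ) :=
  Finsupp.lmapDomain ℤ ℤ fun v => (⟨p, r, I, fun t => s (amap v t)⟩ : Gen N)

/-- barycentric subdivision -/
noncomputable def SdG : (Gen N →₀ ℤ) →ₗ[ℤ] (Gen N →₀ ℤ) :=
  Finsupp.linearCombination ℤ fun x : Gen N =>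
    toG x.2.2.1 x.2.2.2 (Sd bcn x.2.1 (Finsupp.single (vtx x.2.1) 1))

/-- the homotopy -/
noncomputable def TG : (Gen N →₀ ℤ) →ₗ[ℤ] (Gen N →₀ ℤ) :=
  Finsupp.linearCombination ℤ fun x : Gen N =>
    (-1 : ℤ) ^ x.1 • toG x.2.2.1 x.2.2.2 (Td bcn x.2.1 (Finsupp.single (vtx x.2.1) 1))

theorem SdG_bdL_single (x : Gen N) (c : ℤ) : bdL (Finsupp.single x c) = c • bd x := by
  unfold bdL
  rw [Finsupp.linearCombination_single]

theorem SdG_toG_single {p q r : ℕ} (I : Fin (p + 1) → Fin (N + 1)) (s : Simplex N q)
    (v : Fin (r + 1) → Dl q) (c : ℤ) : toG I s (Finsupp.single v c) =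
      Finsupp.single (⟨p, r, I, fun t => s (amap v t)⟩ : Gen N) c := by
  unfold toG
  rw [Finsupp.lmapDomain_apply, Finsupp.mapDomain_single]

theorem SdG_single (x : Gen N) (c : ℤ) : SdG (Finsupp.single x c) =
    c • toG x.2.2.1 x.2.2.2 (Sd bcn x.2.1 (Finsupp.single (vtx x.2.1) 1)) := by
  unfold SdG
  rw [Finsupp.linearCombination_single]

theorem SdG_TG_single (x : Gen N) (c : ℤ) : TG (Finsupp.single x c) =
    c • ((-1 : ℤ) ^ x.1 • toG x.2.2.1 x.2.2.2 (Td bcn x.2.1 (Finsupp.single (vtx x.2.1) 1))) := by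
  unfold TG
  rw [Finsupp.linearCombination_single]

theorem SdG_toG_comp {p q r l : ℕ} (I : Fin (p + 1) → Fin (N + 1)) (s : Simplex N q)
    (w : Fin (r + 1) → Dl q) (x : Ch (Dl r) l) :
    toG I (fun t => s (amap w t)) x = toG I s (mapc (amap w) x) := by
  induction x using Finsupp.induction_linear with
  | zero => rw [map_zero, map_zero, map_zero]
  | add x y hx hy => rw [map_add, map_add, map_add, hx, hy]
  | single v c =>
    unfold mapc
    rw [Finsupp.lmapDomain_apply, Finsupp.mapDomain_single, SdG_toG_single, SdG_toG_single]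
    congr 4
    funext t
    rw [amap_amap]

theorem SdG_mapc_vtx {q r : ℕ} (w : Fin (r + 1) → Dl q) :
    mapc (amap w) (Finsupp.single (vtx r) (1 : ℤ)) = Finsupp.single w 1 := by
  unfold mapc
  rw [Finsupp.lmapDomain_apply, Finsupp.mapDomain_single]
  congr 1
  funext j
  exact amap_vertex w j

theorem SdG_face {q r : ℕ} (s : Simplex N q) (v : Fin (r + 2) → Dl q) (i : Fin (r + 2)) :
    ((fun t => s (amap v t)) ∘ face i : Simplex N r) = fun t => s (amap (fun j => v (i.succAbove j)) t) := by
  funext t
  rw [Function.comp_apply, amap_face]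

theorem SdG_S {p q r : ℕ} (I : Fin (p + 1) → Fin (N + 1)) (s : Simplex N q)
    (x : Ch (Dl q) (r + 1)) :
    Finsupp.linearCombination ℤ (AHI.bdS : Gen N → (Gen N →₀ ℤ)) (toG I s x) = toG I s (dd x) := by
  induction x using Finsupp.induction_linear with
  | zero => rw [map_zero, map_zero, map_zero, map_zero]
  | add x y hx hy => rw [map_add, map_add, map_add, map_add, hx, hy]
  | single v c =>
    rw [SdG_toG_single, Finsupp.linearCombination_single]
    unfold dd
    rw [Finsupp.linearCombination_single, map_zsmul, map_sum]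
    congr 1
    simp only [AHI.bdS]
    refine Finset.sum_congr rfl fun i _ => ?_
    rw [SdG_toG_single, SdG_face]

theorem SdG_S0 {p q : ℕ} (I : Fin (p + 1) → Fin (N + 1)) (s : Simplex N q)
    (x : Ch (Dl q) 0) :
    Finsupp.linearCombination ℤ (AHI.bdS : Gen N → (Gen N →₀ ℤ)) (toG I s x) = 0 := by
  induction x using Finsupp.induction_linear with
  | zero => rw [map_zero, map_zero]
  | add x y hx hy => rw [map_add, map_add, hx, hy, add_zero]
  | single v c =>
    rw [SdG_toG_single, Finsupp.linearCombination_single]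
    simp only [AHI.bdS]
    rw [smul_zero]

theorem SdG_C {p q r : ℕ} (I : Fin (p + 2) → Fin (N + 1)) (s : Simplex N q)
    (x : Ch (Dl q) r) :
    Finsupp.linearCombination ℤ (AHI.bdC : Gen N → (Gen N →₀ ℤ)) (toG I s x) =
      ∑ a : Fin (p + 2), (-1 : ℤ) ^ (a : ℕ) • toG (I ∘ a.succAbove) s x := by
  induction x using Finsupp.induction_linear with
  | zero => simp
  | add x y hx hy =>
    rw [map_add, map_add, hx, hy, ← Finset.sum_add_distrib]
    exact Finset.sum_congr rfl fun a _ => by rw [map_add, smul_add]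
  | single v c =>
    rw [SdG_toG_single, Finsupp.linearCombination_single]
    simp only [AHI.bdC]
    rw [Finset.smul_sum]
    refine Finset.sum_congr rfl fun a _ => ?_
    rw [SdG_toG_single, Finsupp.smul_single, Finsupp.smul_single, smul_eq_mul, smul_eq_mul, mul_comm]

theorem SdG_C0 {q r : ℕ} (I : Fin (0 + 1) → Fin (N + 1)) (s : Simplex N q)
    (x : Ch (Dl q) r) :
    Finsupp.linearCombination ℤ (AHI.bdC : Gen N → (Gen N →₀ ℤ)) (toG I s x) = 0 := by
  induction x using Finsupp.induction_linear with
  | zero => rw [map_zero, map_zero]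
  | add x y hx hy => rw [map_add, map_add, hx, hy, add_zero]
  | single v c =>
    rw [SdG_toG_single, Finsupp.linearCombination_single]
    simp only [AHI.bdC]
    rw [smul_zero]

theorem SdG_bdL_toG {p q r : ℕ} (I : Fin (p + 1) → Fin (N + 1)) (s : Simplex N q)
    (x : Ch (Dl q) r) :
    bdL (toG I s x) = Finsupp.linearCombination ℤ (AHI.bdC : Gen N → (Gen N →₀ ℤ)) (toG I s x) +
      (-1 : ℤ) ^ p • Finsupp.linearCombination ℤ (AHI.bdS : Gen N → (Gen N →₀ ℤ)) (toG I s x) := by
  induction x using Finsupp.induction_linear with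
  | zero => simp
  | add x y hx hy =>
    rw [map_add, map_add, map_add, map_add, hx, hy, smul_add]
    abel
  | single v c =>
    rw [SdG_toG_single, SdG_bdL_single, Finsupp.linearCombination_single,
      Finsupp.linearCombination_single]
    unfold AHI.bd
    rw [smul_add, smul_comm]

theorem bdL_bdL (z : Gen N →₀ ℤ) : bdL (bdL z) = 0 := by
  classical
  induction z using Finsupp.induction_linear with
  | zero => rw [map_zero, map_zero]
  | add x y hx hy => rw [map_add, map_add, hx, hy, add_zero]
  | single x c =>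
    rw [SdG_bdL_single, map_zsmul]
    have key : bdL (bd x) = 0 := by
      ext y
      obtain ⟨b, hb⟩ : ∃ b : SingCochain N ℤ, b = fun p q I s => if (⟨p, q, I, s⟩ : Gen N) = y then 1 else 0 :=
        ⟨_, rfl⟩
      have h1 : ∀ z : Gen N →₀ ℤ, evc (cg b) z = z y := by
        intro z
        induction z using Finsupp.induction_linear with
        | zero => rw [map_zero, Finsupp.zero_apply]
        | add z z' h h' => rw [map_add, h, h', Finsupp.add_apply]
        | single x c =>
          rw [evc_single, Finsupp.single_apply, hb]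
          obtain ⟨p, q, I, s⟩ := x
          simp only [cg]
          split_ifs <;> simp
      have h2 : ∀ z : Gen N →₀ ℤ, evc (cg b) (bdL z) = evc (fun x => evc (cg b) (bd x)) z := by
        intro z
        induction z using Finsupp.induction_linear with
        | zero => rw [map_zero, map_zero, map_zero]
        | add z z' h h' => rw [map_add, map_add, map_add, h, h']
        | single x c =>
          rw [SdG_bdL_single, map_zsmul, evc_single, smul_eq_mul]
          rfl
      rw [← h1, h2, Finsupp.zero_apply]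
      have h3 : (fun x : Gen N => evc (cg b) (bd x)) =
          cg (fun p q I (s : Simplex N q) => totD b p q I s) := by
        funext x
        exact evc_bd b x
      rw [h3, evc_bd]
      exact totD_totD b x.1 x.2.1 x.2.2.1 x.2.2.2
    rw [key, smul_zero]

theorem bdL_TG (z : Gen N →₀ ℤ) : bdL (TG z) + TG (bdL z) = z - SdG z := by
  induction z using Finsupp.induction_linear with
  | zero => simp
  | add x y hx hy =>
    rw [map_add TG, map_add bdL, map_add bdL, map_add TG, map_add SdG]
    have h : bdL (TG x) + bdL (TG y) + (TG (bdL x) + TG (bdL y)) =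
        (bdL (TG x) + TG (bdL x)) + (bdL (TG y) + TG (bdL y)) := by abel
    rw [h, hx, hy]
    abel
  | single x c =>
    have hc : Finsupp.single x c = c • Finsupp.single x (1 : ℤ) := by
      rw [Finsupp.smul_single, smul_eq_mul, mul_one]
    rw [hc, map_zsmul TG, map_zsmul bdL, map_zsmul bdL, map_zsmul TG, map_zsmul SdG, ← smul_add, ← smul_sub]
    congr 1
    obtain ⟨p, q, I, s⟩ := x
    have hneg : (-1 : ℤ) ^ p * (-1 : ℤ) ^ p = 1 := by
      rw [← mul_pow]
      norm_num
    have hx0 : Finsupp.single (⟨p, q, I, s⟩ : Gen N) (1 : ℤ) = toG I s (Finsupp.single (vtx q) 1) := by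
      rw [SdG_toG_single]
      congr 4
      funext t
      rw [amap_vtx]
    obtain ⟨y, hy⟩ : ∃ y : Ch (Dl q) (q + 1), y = Td bcn q (Finsupp.single (vtx q) 1) := ⟨_, rfl⟩
    have hC : (-1 : ℤ) ^ p • Finsupp.linearCombination ℤ (AHI.bdC : Gen N → (Gen N →₀ ℤ)) (toG I s y) +
        TG (AHI.bdC (⟨p, q, I, s⟩ : Gen N)) = 0 := by
      cases p with
      | zero =>
        rw [SdG_C0]
        simp only [AHI.bdC]
        rw [map_zero, smul_zero, add_zero]
      | succ p =>
        rw [SdG_C]
        simp only [AHI.bdC]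
        rw [map_sum, Finset.smul_sum, ← Finset.sum_add_distrib]
        refine Finset.sum_eq_zero fun a _ => ?_
        rw [SdG_TG_single]
        change (-1 : ℤ) ^ (p + 1) • (-1 : ℤ) ^ (a : ℕ) • toG (I ∘ a.succAbove) s y +
          (-1 : ℤ) ^ (a : ℕ) • ((-1 : ℤ) ^ p • toG (I ∘ a.succAbove) s
            (Td bcn q (Finsupp.single (vtx q) 1))) = 0
        rw [← hy, smul_smul, smul_smul, ← add_smul]
        have h0 : (-1 : ℤ) ^ (p + 1) * (-1 : ℤ) ^ (a : ℕ) + (-1 : ℤ) ^ (a : ℕ) * (-1 : ℤ) ^ p = 0 := by
          rw [pow_succ]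
          ring
        rw [h0, zero_smul]
    have hS : toG I s (dd y) + (-1 : ℤ) ^ p • TG (AHI.bdS (⟨p, q, I, s⟩ : Gen N)) =
        Finsupp.single (⟨p, q, I, s⟩ : Gen N) (1 : ℤ) - SdG (Finsupp.single (⟨p, q, I, s⟩ : Gen N) (1 : ℤ)) := by
      rw [SdG_single, one_smul]
      change _ = _ - toG I s (Sd bcn q (Finsupp.single (vtx q) 1))
      rw [hx0]
      cases q with
      | zero =>
        have hy0 : y = 0 := by
          rw [hy]
          rfl
        simp only [AHI.bdS]
        rw [hy0, map_zero, map_zero, map_zero, smul_zero, add_zero]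
        change 0 = toG I s (Finsupp.single (vtx 0) 1) - toG I s (Finsupp.single (vtx 0) 1)
        rw [sub_self]
      | succ q =>
        have h1 : TG (AHI.bdS (⟨p, q + 1, I, s⟩ : Gen N)) =
            (-1 : ℤ) ^ p • toG I s (Td bcn q (dd (Finsupp.single (vtx (q + 1)) 1))) := by
          simp only [AHI.bdS]
          rw [map_sum]
          have h2 : dd (Finsupp.single (vtx (q + 1)) (1 : ℤ)) =
              ∑ i : Fin (q + 2), (-1 : ℤ) ^ (i : ℕ) •
                Finsupp.single (fun j => vtx (q + 1) (i.succAbove j)) (1 : ℤ) := by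
            unfold dd
            rw [Finsupp.linearCombination_single, one_smul]
            refine Finset.sum_congr rfl fun i _ => ?_
            rw [Finsupp.smul_single, smul_eq_mul, mul_one]
          rw [h2, map_sum, map_sum, Finset.smul_sum]
          refine Finset.sum_congr rfl fun i _ => ?_
          rw [SdG_TG_single, map_zsmul, map_zsmul, smul_comm]
          congr 2
          have h3 : (s ∘ face i : Simplex N q) =
              fun t => s (amap (fun j => vtx (q + 1) (i.succAbove j)) t) := by
            funext t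
            rw [Function.comp_apply, face_eq_amap]
          change toG I (s ∘ face i : Simplex N q) (Td bcn q (Finsupp.single (vtx q) 1)) = _
          rw [h3, SdG_toG_comp, mapc_Td (bc' := bcn) (fun l u => amap_bcn _ u), SdG_mapc_vtx]
        rw [h1, smul_smul, hneg, one_smul, ← map_add, hy, dd_Td, map_sub]
    have hTG : TG (Finsupp.single (⟨p, q, I, s⟩ : Gen N) (1 : ℤ)) = (-1 : ℤ) ^ p • toG I s y := by
      rw [SdG_TG_single, one_smul, hy]
    rw [hTG, map_zsmul, SdG_bdL_toG, SdG_S, smul_add, smul_smul, hneg, one_smul, SdG_bdL_single, one_smul]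
    unfold AHI.bd
    rw [map_add TG, map_zsmul TG, ← hS]
    change _ + _ + (_ + (-1 : ℤ) ^ p • TG (AHI.bdS (⟨p, q, I, s⟩ : Gen N))) = _
    rw [add_add_add_comm, hC, zero_add]

theorem SdG_iter {p q : ℕ} (I : Fin (p + 1) → Fin (N + 1)) (s : Simplex N q) (m : ℕ) :
    (SdG^[m]) (Finsupp.single (⟨p, q, I, s⟩ : Gen N) 1) =
      toG I s (((Sd bcn q)^[m]) (Finsupp.single (vtx q) 1)) := by
  have h1 : ∀ {r : ℕ} (x : Ch (Dl q) r), SdG (toG I s x) = toG I s (Sd bcn r x) := by
    intro r x
    induction x using Finsupp.induction_linear with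
    | zero => rw [map_zero, map_zero, map_zero, map_zero]
    | add x y hx hy => rw [map_add, map_add, map_add, map_add, hx, hy]
    | single v c =>
      have hc : Finsupp.single v c = c • Finsupp.single v (1 : ℤ) := by
        rw [Finsupp.smul_single, smul_eq_mul, mul_one]
      rw [SdG_toG_single, SdG_single, hc, map_zsmul, map_zsmul]
      congr 1
      change toG I (fun t => s (amap v t)) (Sd bcn r (Finsupp.single (vtx r) 1)) = _
      rw [SdG_toG_comp, mapc_Sd (bc' := bcn) (fun l u => amap_bcn v u), SdG_mapc_vtx]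
  induction m with
  | zero =>
    rw [Function.iterate_zero_apply, Function.iterate_zero_apply, SdG_toG_single]
    congr 4
    funext t
    rw [amap_vtx]
  | succ m ih =>
    rw [Function.iterate_succ_apply', Function.iterate_succ_apply', ih, h1]

end Pool.Agent.AHU
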