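import Mathlib
import Pool.Agent.AHU.Mesh
import Pool.Agent.AHU.SdG

/-!
# Every cycle is homologous to a cycle of small simplices

`GG c j` is the set of the points of projective space with `|x_j| ≥ c |x|` (Euclidean norm).

Proof of `exists_small`.  For `y` in the support of `z` let `v` be a lift.  The open sets
`{t | c * en (v t) < ‖v t j‖}`, `j ≤ N`, cover the compact simplex, because
`(N + 1) max |v_j|² ≥ sq v > (N + 1) c² sq v` (and `v t ≠ 0`, `v` continuous).  Let `ε` be a Lebesgue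
number (`lebesgue_number_lemma_of_metric` on `Dl q`) for all `y` in the support, and `m` a number
which is good for `ε` and all dimensions `q ≤ 2 k` (`exists_fine`).  Let `z' = SdG^[m] z`.  Its
support consists of generators `(p, q, I, s ∘ amap u)` with `(p, q, I, s)` in the support of `z` and
`u` in the support of `(Sd bcn q)^[m] (single (vtx q) 1)` (`SdG_iter`), so they are small, they are
liftable (`isLift_amap`) and of degree `2k`.  `z'` is a cycle: `bdL (SdG z) = SdG (bdL z)` follows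
from `bdL_TG` (applied to `z` and to `bdL z`) and `bdL_bdL`.  `evc W (SdG y) = evc W y` for every
cycle `y` (of liftable generators of degree `2k`): `y - SdG y = bdL (TG y)`, and `TG y` is a
combination of liftable generators of degree `2k+1`, so `evc W (bdL (TG y)) = 0` by `IsPer.bd`.
-/

namespace Pool.Agent.AHU

open Pool.Agent.AHC Pool.Agent.AHI Pool.Agent.AHR
open scoped LinearAlgebra.Projectivization

variable {N m : ℕ}

/-- the points with `|x_j| ≥ c |x|` -/
def GG (c : ℝ) (j : Fin (N + 1)) : Set (ℙ ℂ (Fin (N + 1) → ℂ)) :=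
  {y | c * en y.rep ≤ ‖y.rep j‖}

theorem mk_mem_GG {c : ℝ} {j : Fin (N + 1)} {v : Fin (N + 1) → ℂ} (hv : v ≠ 0) :
    Projectivization.mk ℂ v hv ∈ GG c j ↔ c * en v ≤ ‖v j‖ := by
  obtain ⟨a, ha⟩ := Projectivization.exists_smul_eq_mk_rep ℂ v hv
  have h1 : en ((a : ℂ) • v) = ‖(a : ℂ)‖ * en v := by
    unfold en
    rw [sq_smul, Real.sqrt_mul (Complex.normSq_nonneg _), Complex.normSq_eq_norm_sq, Real.sqrt_sq (norm_nonneg _)]
  have h2 : 0 < ‖(a : ℂ)‖ := norm_pos_iff.2 a.ne_zero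
  show c * en (Projectivization.mk ℂ v hv).rep ≤ ‖(Projectivization.mk ℂ v hv).rep j‖ ↔ _
  rw [← ha, Units.smul_def, h1, Pi.smul_apply, smul_eq_mul, norm_mul, mul_left_comm]
  exact mul_le_mul_iff_right₀ h2

/-- the simplex of the generator is contained in one of the sets `GG c j` -/
def SmallG (c : ℝ) (y : Gen N) : Prop := ∃ j, ∀ t, y.2.2.2 t ∈ GG c j

/-- liftable generators of degree `d` -/
private def Small_L (F : Fin m → CPoly N) (d : ℕ) : Set (Gen N) := {x | Liftable F x ∧ x.1 + x.2.1 = d}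

private lemma Small_lc {α A : Type*} [AddCommGroup A] {S : Set α} (M : Submodule ℤ A) (f : α → A)
    (hf : ∀ x ∈ S, f x ∈ M) {z : α →₀ ℤ} (hz : z ∈ Finsupp.supported ℤ ℤ S) :
    Finsupp.linearCombination ℤ f z ∈ M := by
  rw [Finsupp.linearCombination_apply, Finsupp.sum]
  exact M.sum_mem fun x hx => M.smul_mem _ (hf x (hz hx))

private lemma Small_toG {p q r : ℕ} (I : Fin (p + 1) → Fin (N + 1)) (s : Simplex N q) (x : Ch (Dl q) r)
    {S : Set (Gen N)} (h : ∀ v ∈ x.support, (⟨p, r, I, fun t => s (amap v t)⟩ : Gen N) ∈ S) :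
    toG I s x ∈ Finsupp.supported ℤ ℤ S := by
  classical
  unfold toG
  rw [Finsupp.lmapDomain_apply, Finsupp.mem_supported]
  intro y hy
  obtain ⟨v, hv, rfl⟩ := Finset.mem_image.1 (Finsupp.mapDomain_support hy)
  exact h v hv

private lemma Small_SdG {F : Fin m → CPoly N} {d : ℕ} {z : Gen N →₀ ℤ}
    (hz : z ∈ Finsupp.supported ℤ ℤ (Small_L F d)) : SdG z ∈ Finsupp.supported ℤ ℤ (Small_L F d) := by
  unfold SdG
  refine Small_lc _ _ ?_ hz
  rintro ⟨p, q, I, s⟩ ⟨⟨g, hg⟩, hd⟩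
  exact Small_toG I s _ fun v _ => ⟨⟨_, isLift_amap hg v⟩, hd⟩

private lemma Small_TG {F : Fin m → CPoly N} {d : ℕ} {z : Gen N →₀ ℤ}
    (hz : z ∈ Finsupp.supported ℤ ℤ (Small_L F d)) : TG z ∈ Finsupp.supported ℤ ℤ (Small_L F (d + 1)) := by
  unfold TG
  refine Small_lc _ _ ?_ hz
  rintro ⟨p, q, I, s⟩ ⟨⟨g, hg⟩, hd⟩
  refine Submodule.smul_mem _ _ (Small_toG I s _ fun v _ => ⟨⟨_, isLift_amap hg v⟩, ?_⟩)
  show p + (q + 1) = d + 1
  have hd' : p + q = d := hd
  omega

private lemma Small_iff {F : Fin m → CPoly N} {k : ℕ} {z : Gen N →₀ ℤ} :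
    IsCyc F k z ↔ z ∈ Finsupp.supported ℤ ℤ (Small_L F (2 * k)) ∧ bdL z = 0 :=
  ⟨fun h => ⟨fun x hx => h.lift x hx, h.bd⟩, fun h => ⟨fun x hx => h.1 hx, h.2⟩⟩

private lemma Small_step {F : Fin m → CPoly N} {k : ℕ} {z : Gen N →₀ ℤ} (hz : IsCyc F k z) :
    IsCyc F k (SdG z) ∧ ∀ (w : FormCochain N) (W : Gen N → ℂ), IsPer F k w W → evc W (SdG z) = evc W z := by
  rw [Small_iff] at hz
  have h1 : bdL (TG z) = z - SdG z := by
    have := bdL_TG z
    rwa [hz.2, map_zero, add_zero] at this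
  refine ⟨Small_iff.2 ⟨Small_SdG hz.1, ?_⟩, ?_⟩
  · have := congrArg bdL h1
    rw [bdL_bdL, map_sub, hz.2, zero_sub, eq_comm, neg_eq_zero] at this
    exact this
  · intro w W hW
    have h2 : bdL (TG z) ∈ LinearMap.ker (evc W) := by
      unfold bdL
      refine Small_lc _ _ ?_ (Small_TG hz.1)
      intro x hx
      exact hW.bd x hx.1 hx.2
    rw [h1, LinearMap.mem_ker, map_sub, sub_eq_zero] at h2
    exact h2.symm

private lemma Small_iterate {F : Fin m → CPoly N} {k : ℕ} {z : Gen N →₀ ℤ} (hz : IsCyc F k z) (l : ℕ) :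
    IsCyc F k ((SdG^[l]) z) ∧
      ∀ (w : FormCochain N) (W : Gen N → ℂ), IsPer F k w W → evc W ((SdG^[l]) z) = evc W z := by
  induction l with
  | zero => exact ⟨hz, fun _ _ _ => rfl⟩
  | succ l ih =>
    rw [Function.iterate_succ_apply']
    obtain ⟨h1, h2⟩ := Small_step ih.1
    exact ⟨h1, fun w W hW => (h2 w W hW).trans (ih.2 w W hW)⟩

private lemma Small_leb {F : Fin m → CPoly N} {c : ℝ} (hc : 0 < c) (hc' : c ^ 2 * (N + 1) < 1) {p q : ℕ}
    {I : Fin (p + 1) → Fin (N + 1)} {s : Simplex N q} {g : (Fin (q + 1) → ℝ) → (Fin (N + 1) → ℂ)}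
    (h : IsLift F I s g) : ∃ ε > 0, ∀ A : Dl q → Prop, (∀ t t', A t → A t' → dist t t' < ε) →
      ∃ j, ∀ t, A t → s t ∈ GG c j := by
  have hg : Continuous fun t : Dl q => g t := h.smooth.continuous.comp continuous_subtype_val
  have hen : Continuous fun t : Dl q => en (g t) := Real.continuous_sqrt.comp (continuous_sq.comp hg)
  obtain ⟨ε, hε, hL⟩ := lebesgue_number_lemma_of_metric (s := (Set.univ : Set (Dl q)))
    (c := fun j : Fin (N + 1) => {t : Dl q | c * en (g t) < ‖g t j‖}) isCompact_univ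
    (fun j => isOpen_lt (continuous_const.mul hen) ((continuous_apply j).comp hg).norm) (by
      intro t _
      rw [Set.mem_iUnion]
      by_contra hcon
      push Not at hcon
      obtain ⟨h0, -⟩ := h.lifts t
      have hpos := sq_pos h0
      have h1 : ∀ j, Complex.normSq (g t j) ≤ c ^ 2 * AHI.sq (g t) := by
        intro j
        have h2 : ‖g t j‖ ≤ c * en (g t) := not_lt.1 (hcon j)
        rw [Complex.normSq_eq_norm_sq, ← en_sq, ← mul_pow]
        exact pow_le_pow_left₀ (norm_nonneg _) h2 2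
      have h3 : AHI.sq (g t) ≤ (N + 1) * (c ^ 2 * AHI.sq (g t)) := by
        refine (Finset.sum_le_card_nsmul Finset.univ _ _ fun j _ => h1 j).trans (le_of_eq ?_)
        rw [Finset.card_univ, Fintype.card_fin, nsmul_eq_mul]
        push_cast
        ring
      have h4 : c ^ 2 * (N + 1) * AHI.sq (g t) < 1 * AHI.sq (g t) := mul_lt_mul_of_pos_right hc' hpos
      linarith)
  refine ⟨ε, hε, fun A hA => ?_⟩
  by_cases hne : ∃ t, A t
  · obtain ⟨t0, ht0⟩ := hne
    obtain ⟨j, hj⟩ := hL t0 (Set.mem_univ _)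
    refine ⟨j, fun t ht => ?_⟩
    obtain ⟨h0, h1⟩ := h.lifts t
    rw [h1, mk_mem_GG]
    have h2 : t ∈ Metric.ball t0 ε := hA t t0 ht ht0
    exact le_of_lt (hj h2)
  · exact ⟨0, fun t ht => absurd ⟨t, ht⟩ hne⟩

private lemma Small_gen {F : Fin m → CPoly N} {c : ℝ} (hc : 0 < c) (hc' : c ^ 2 * (N + 1) < 1) (y : Gen N)
    (hy : Liftable F y) : ∃ m₀ : ℕ, ∀ l ≥ m₀,
      (SdG^[l]) (Finsupp.single y 1) ∈ Finsupp.supported ℤ ℤ {x : Gen N | SmallG c x} := by
  obtain ⟨p, q, I, s⟩ := y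
  obtain ⟨g, hg⟩ := hy
  obtain ⟨ε, hε, h⟩ := Small_leb hc hc' hg
  obtain ⟨m₀, hm⟩ := exists_fine q hε
  refine ⟨m₀, fun l hl => ?_⟩
  rw [SdG_iter]
  refine Small_toG I s _ fun v hv => ?_
  obtain ⟨j, hj⟩ := h (fun t => ∃ u, amap v u = t) (by
    rintro _ _ ⟨u, rfl⟩ ⟨u', rfl⟩
    exact hm l hl v hv u u')
  exact ⟨j, fun t => hj _ ⟨t, rfl⟩⟩

theorem exists_small {F : Fin m → CPoly N} {k : ℕ} {c : ℝ} (hc : 0 < c)
    (hc' : c ^ 2 * (N + 1) < 1) {z : Gen N →₀ ℤ} (hz : IsCyc F k z) :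
    ∃ z' : Gen N →₀ ℤ, IsCyc F k z' ∧ (∀ y ∈ z'.support, SmallG c y) ∧
      ∀ (w : FormCochain N) (W : Gen N → ℂ), IsPer F k w W → evc W z' = evc W z := by
  choose! M hM using fun (y : Gen N) (hy : Liftable F y) => Small_gen hc hc' y hy
  refine ⟨(SdG^[z.support.sup M]) z, (Small_iterate hz _).1, ?_, (Small_iterate hz _).2⟩
  have key : (SdG^[z.support.sup M]) z ∈ Finsupp.supported ℤ ℤ {x : Gen N | SmallG c x} := by
    have h1 : ∀ l : ℕ, (SdG^[l]) z = Finsupp.linearCombination ℤ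
        (fun y => (SdG^[l]) (Finsupp.single y 1)) z := by
      intro l
      rw [← Module.End.pow_apply]
      simp only [← Module.End.pow_apply]
      conv_lhs => rw [← Finsupp.sum_single z]
      rw [Finsupp.linearCombination_apply, Finsupp.sum, Finsupp.sum, map_sum]
      refine Finset.sum_congr rfl fun y _ => ?_
      rw [← map_smul, Finsupp.smul_single_one]
    rw [h1]
    refine Small_lc (S := z.support) _ _ ?_ (by
      rw [Finsupp.mem_supported])
    intro y hy
    exact hM y (hz.lift y hy).1 _ (Finset.le_sup (f := M) hy)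
  exact fun y hy => key hy

end Pool.Agent.AHU
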