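import Mathlib
import Pool.Agent.AHR.Fam

/-!
# Normal vectors from a conjugate variety to another one: local existence and uniqueness

Version of `AHI.local_exists`, `AHI.local_unique` (file `AHI/Nrm.lean`) and of the private
`Fam_local_exists` (file `AHR/Fam.lean`) in which the base variety is also a conjugate:
`RN2 F β β' z n`: `n` is normal to the cone of `β F` at `z` and `z + n` is on the cone of `β' F`.

Proof.  As in `AHI/Impl.lean`, with the function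
`H (((θ₀, θ), z), c) b = ev (P b) (ext X θ) (z + nw X P θ₀ z c)`, `P = C.P`: at
`((inc X, inc X), z₀), 0)` its value is `0` and its derivative in `c` is injective (it is the one of
`AHI.fderiv_Hf`: `nw X P (inc X) = nv P`; `conj_mul_nv`, `nv_injective`), so there is `κ`, analytic
near `((inc X, inc X), z₀)`, with `H = 0 ↔ c = κ` near the point.  `ν x = nw X P θ₀ z (κ x)`.
Complex differentiability in `θ` for fixed `θ₀, z`: as `Fam_kappa` in `AHR/Fam.lean` (for fixed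
`θ₀, z` the function `H` is holomorphic in `(θ, c)`).
If `res X β = θ₀` then `nw X P θ₀ z c ∈ Nrm (conjEqs β F) z`, because
`ev (pderiv l (P a)) (ext X (res X β)) z = eval z (pderiv l (map β (P a)))` (`ev_res`,
`MvPolynomial.pderiv_map`, `Covers2.d`).  Conversely for `z` near `z₀` on the cone of `β F` every
`n ∈ Nrm (conjEqs β F) z` is `nw X P θ₀ z c` with `‖c‖ ≤ K ‖n‖`: `AHI.grad_eq`,
`AHI.exists_nv_of_mem` for the certificate `C` conjugated by `β` (`h ↦ map β h`, `A ↦ map β A`; its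
denominator does not vanish at `z` because it does not vanish near `(inc X, z₀)`), and `nv_bound`
extended to `θ₀` near `inc X` (the bound `‖c‖ ≤ K ‖nw X P θ₀ z c‖` is open in `(θ₀, z)`).
`onCone_of_chosen` as in `local_exists`.
-/

namespace Pool.Agent.AHU

open MvPolynomial Pool.Agent.AHC Pool.Agent.AHI Pool.Agent.AHR Filter
open scoped ContDiff ComplexConjugate Topology

variable {N m r : ℕ}

/-- a combination of the conjugate gradients with varying coefficients -/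
noncomputable def nw (X : Finset ℂ) (P : Fin r → CPoly N) (θ₀ : X → ℂ) (z : Fin (N + 1) → ℂ)
    (c : Fin r → ℂ) : Fin (N + 1) → ℂ :=
  fun l => ∑ a, c a * conj (ev (pderiv l (P a)) (AHI.ext X θ₀) z)

/-- `n` is normal at `z` to the cone of `β F` and `z + n` lies on the cone of `β' F` -/
def RN2 (F : Fin m → CPoly N) (β β' : ℂ ≃+* ℂ) (z n : Fin (N + 1) → ℂ) : Prop :=
  n ∈ Nrm (conjEqs β F) z ∧ OnCone (conjEqs β' F) (fun l => z l + n l)

/-- the coefficients which matter -/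
structure Covers2 (X : Finset ℂ) (F : Fin m → CPoly N) (C : Cert F) : Prop where
  f : ∀ i, (F i).coeffs ⊆ X
  h : C.h.coeffs ⊆ X
  d : ∀ i l, (pderiv l (F i)).coeffs ⊆ X

private theorem Kap_contDiff_nw {k : WithTop ℕ∞} (X : Finset ℂ) (P : Fin r → CPoly N) :
    ContDiff ℝ k fun x : ((X → ℂ) × (Fin (N + 1) → ℂ)) × (Fin r → ℂ) =>
      nw X P x.1.1 x.1.2 x.2 := by
  unfold nw
  rw [contDiff_pi]
  intro l
  refine ContDiff.sum fun a _ => ?_
  refine ContDiff.mul ((contDiff_apply ℝ ℂ a).comp contDiff_snd) ?_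
  exact Complex.conjCLE.contDiff.comp ((contDiff_ev X _).comp contDiff_fst)

private theorem Kap_contDiffAt_nu (X : Finset ℂ) (P : Fin r → CPoly N)
    {κ : ((X → ℂ) × (X → ℂ)) × (Fin (N + 1) → ℂ) → (Fin r → ℂ)}
    {x : ((X → ℂ) × (X → ℂ)) × (Fin (N + 1) → ℂ)} (hx : ContDiffAt ℝ ω κ x) :
    ContDiffAt ℝ ω (fun x => nw X P x.1.1 x.2 (κ x)) x := by
  unfold nw
  rw [contDiffAt_pi]
  intro l
  rw [contDiffAt_pi] at hx
  refine ContDiffAt.sum fun a _ => ?_
  refine ContDiffAt.mul (hx a) ?_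
  refine ContDiff.contDiffAt ?_
  have h1 : ContDiff ℝ ω (fun x : ((X → ℂ) × (X → ℂ)) × (Fin (N + 1) → ℂ) =>
      ((x.1.1, x.2) : (X → ℂ) × (Fin (N + 1) → ℂ))) :=
    (contDiff_fst.comp contDiff_fst).prodMk contDiff_snd
  exact Complex.conjCLE.contDiff.comp ((contDiff_ev X (pderiv l (P a))).comp h1)

private theorem Kap_nw_inc (X : Finset ℂ) (P : Fin r → CPoly N) (z : Fin (N + 1) → ℂ)
    (c : Fin r → ℂ) : nw X P (inc X) z c = nv P z c := by
  funext l
  simp only [nw, nv, ev_inc]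

private theorem Kap_nw_zero (X : Finset ℂ) (P : Fin r → CPoly N) (θ₀ : X → ℂ)
    (z : Fin (N + 1) → ℂ) : nw X P θ₀ z 0 = 0 := by
  funext l
  simp [nw]

/-- the equations in the normal directions -/
private noncomputable def Kap_H (X : Finset ℂ) (P : Fin r → CPoly N) :
    (((X → ℂ) × (X → ℂ)) × (Fin (N + 1) → ℂ)) × (Fin r → ℂ) → (Fin r → ℂ) :=
  fun x b => ev (P b) (AHI.ext X x.1.1.2) (fun l => x.1.2 l + nw X P x.1.1.1 x.1.2 x.2 l)

private theorem Kap_contDiff_H {k : WithTop ℕ∞} (X : Finset ℂ) (P : Fin r → CPoly N) :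
    ContDiff ℝ k (Kap_H X P) := by
  unfold Kap_H
  rw [contDiff_pi]
  intro b
  have h1 : ContDiff ℝ k fun x : (((X → ℂ) × (X → ℂ)) × (Fin (N + 1) → ℂ)) × (Fin r → ℂ) =>
      (fun l => x.1.2 l + nw X P x.1.1.1 x.1.2 x.2 l) := by
    rw [contDiff_pi]
    intro l
    refine ContDiff.add ?_ ?_
    · exact (contDiff_apply ℝ ℂ l).comp (contDiff_snd.comp contDiff_fst)
    · exact (contDiff_apply ℝ ℂ l).comp ((Kap_contDiff_nw X P).comp
        (((contDiff_fst.comp (contDiff_fst.comp contDiff_fst)).prodMk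
          (contDiff_snd.comp contDiff_fst)).prodMk contDiff_snd))
  exact (contDiff_ev X (P b)).comp ((contDiff_snd.comp (contDiff_fst.comp contDiff_fst)).prodMk h1)

/-- the derivative of the equations in the direction of the coefficients -/
private theorem Kap_fderiv_H (X : Finset ℂ) (P : Fin r → CPoly N) (z : Fin (N + 1) → ℂ)
    (c : Fin r → ℂ) (b : Fin r) :
    fderiv ℝ (Kap_H X P) (((inc X, inc X), z), 0) (0, c) b =
      ∑ l, eval z (pderiv l (P b)) * nv P z c l := by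
  have h1 : HasFDerivAt (Kap_H X P) (fderiv ℝ (Kap_H X P) (((inc X, inc X), z), 0))
      (((inc X, inc X), z), 0) :=
    (((Kap_contDiff_H (k := 1) X P).differentiable (by norm_num)) _).hasFDerivAt
  have h2 : HasDerivAt (fun s : ℝ => ((((inc X, inc X), z), (0 : Fin r → ℂ)) + s • ((0, c) :
      (((X → ℂ) × (X → ℂ)) × (Fin (N + 1) → ℂ)) × (Fin r → ℂ)))) ((0, c) :
      (((X → ℂ) × (X → ℂ)) × (Fin (N + 1) → ℂ)) × (Fin r → ℂ)) 0 := by
    have := ((hasDerivAt_id (0 : ℝ)).smul_const ((0, c) :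
      (((X → ℂ) × (X → ℂ)) × (Fin (N + 1) → ℂ)) × (Fin r → ℂ))).const_add
        (((inc X, inc X), z), (0 : Fin r → ℂ))
    simpa using this
  have h3 : HasFDerivAt (Kap_H X P) (fderiv ℝ (Kap_H X P) (((inc X, inc X), z), 0))
      ((((inc X, inc X), z), (0 : Fin r → ℂ)) + (0 : ℝ) • ((0, c) :
      (((X → ℂ) × (X → ℂ)) × (Fin (N + 1) → ℂ)) × (Fin r → ℂ))) := by
    simpa using h1
  have h4 := h3.comp_hasDerivAt (0 : ℝ) h2
  have h5 := (hasDerivAt_pi.1 h4) b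
  have h6 := hasDerivAt_eval_line (P b) z (nv P z c) 0
  have h7 : (fun s : ℝ => (Kap_H X P ∘ fun s : ℝ => ((((inc X, inc X), z), (0 : Fin r → ℂ)) +
      s • ((0, c) : (((X → ℂ) × (X → ℂ)) × (Fin (N + 1) → ℂ)) × (Fin r → ℂ)))) s b) =
      fun s : ℝ => eval (fun i => z i + s * nv P z c i) (P b) := by
    funext s
    simp only [Function.comp_apply, Kap_H, Prod.fst_add, Prod.snd_add, Prod.smul_fst,
      Prod.smul_snd, smul_zero, add_zero, zero_add]
    rw [ev_inc]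
    simp only [Kap_nw_inc, nv_smul]
  rw [h7] at h5
  have h8 := h5.unique h6
  simpa using h8

private theorem Kap_hinv (X : Finset ℂ) (P : Fin r → CPoly N) (z : Fin (N + 1) → ℂ)
    (hli : LinearIndependent ℂ (fun (a : Fin r) (l : Fin (N + 1)) => eval z (pderiv l (P a)))) :
    (fderiv ℝ (Kap_H X P) (((inc X, inc X), z), 0) ∘L
      .inr ℝ (((X → ℂ) × (X → ℂ)) × (Fin (N + 1) → ℂ)) (Fin r → ℂ)).IsInvertible := by
  refine isInvertible_of_injective _ fun c hc => ?_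
  refine nv_injective hli (conj_mul_nv P z c fun b => ?_)
  rw [← Kap_fderiv_H X P z c b]
  have := congrFun hc b
  simpa using this

/-- the implicit function theorem for the equations in the normal directions -/
private theorem Kap_exists_kappa (X : Finset ℂ) (P : Fin r → CPoly N) (z : Fin (N + 1) → ℂ)
    (hli : LinearIndependent ℂ (fun (a : Fin r) (l : Fin (N + 1)) => eval z (pderiv l (P a))))
    (h0 : ∀ a, eval z (P a) = 0) :
    ∃ κ : ((X → ℂ) × (X → ℂ)) × (Fin (N + 1) → ℂ) → (Fin r → ℂ),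
      (∀ᶠ x in 𝓝 ((inc X, inc X), z), ContDiffAt ℝ ω κ x) ∧ κ ((inc X, inc X), z) = 0 ∧
      (∀ᶠ x in 𝓝 ((inc X, inc X), z), Kap_H X P (x, κ x) = 0) ∧
      ∀ᶠ y in 𝓝 (((inc X, inc X), z), (0 : Fin r → ℂ)), Kap_H X P y = 0 ↔ κ y.1 = y.2 := by
  have hu : Kap_H X P (((inc X, inc X), z), 0) = 0 := by
    funext b
    simp only [Kap_H, Kap_nw_zero, Pi.zero_apply, add_zero]
    rw [ev_inc]
    exact h0 b
  have cdf : ContDiffAt ℝ ω (Kap_H X P) (((inc X, inc X), z), 0) :=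
    (Kap_contDiff_H X P).contDiffAt
  have pn : (ω : WithTop ℕ∞) ≠ 0 := by simp
  have hinv := Kap_hinv X P z hli
  refine ⟨cdf.implicitFunction pn hinv, ?_, ?_, ?_, ?_⟩
  · exact (cdf.contDiffAt_implicitFunction pn hinv).eventually (by simp)
  · exact cdf.implicitFunction_apply_self pn hinv
  · have h := cdf.eventually_apply_implicitFunction pn hinv
    rw [hu] at h
    exact h
  · have h := cdf.eventually_apply_eq_iff_implicitFunction pn hinv
    rw [hu] at h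
    exact h

/-- the equations as a function of the coefficients and of `c`, for a fixed point -/
private noncomputable def Kap_G (X : Finset ℂ) (P : Fin r → CPoly N) (θ₀ : X → ℂ)
    (z : Fin (N + 1) → ℂ) :
    (X → ℂ) × (Fin r → ℂ) → (Fin r → ℂ) := fun y => Kap_H X P (((θ₀, y.1), z), y.2)

private theorem Kap_contDiff_ext {k : WithTop ℕ∞} (X : Finset ℂ) (c : ℂ) :
    ContDiff ℂ k fun θ : X → ℂ => AHI.ext X θ c := by
  unfold AHI.ext
  split_ifs with h
  · exact contDiff_apply ℂ ℂ (⟨c, h⟩ : X)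
  · exact contDiff_const

private theorem Kap_contDiff_G {k : WithTop ℕ∞} (X : Finset ℂ) (P : Fin r → CPoly N)
    (θ₀ : X → ℂ) (z : Fin (N + 1) → ℂ) : ContDiff ℂ k (Kap_G X P θ₀ z) := by
  have h0 : Kap_G X P θ₀ z = fun y b => ∑ u ∈ (P b).support, AHI.ext X y.1 (coeff u (P b)) *
      ∏ i, (z i + ∑ a, y.2 a * conj (ev (pderiv i (P a)) (AHI.ext X θ₀) z)) ^ u i := rfl
  rw [h0, contDiff_pi]
  intro b
  refine ContDiff.sum fun u _ => ?_
  refine ContDiff.mul ((Kap_contDiff_ext X _).comp contDiff_fst) ?_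
  refine contDiff_prod fun i _ => ?_
  refine ContDiff.pow ?_ _
  refine ContDiff.add contDiff_const ?_
  refine ContDiff.sum fun a _ => ?_
  exact ((contDiff_apply ℂ ℂ a).comp contDiff_snd).mul
    (contDiff_const (c := conj (ev (pderiv i (P a)) (AHI.ext X θ₀) z)))

private theorem Kap_fderiv_G (X : Finset ℂ) (P : Fin r → CPoly N) (θ₀ : X → ℂ)
    (z : Fin (N + 1) → ℂ) (θ : X → ℂ) (c c' : Fin r → ℂ) :
    fderiv ℂ (Kap_G X P θ₀ z) (θ, c) (0, c') =
      fderiv ℝ (Kap_H X P) (((θ₀, θ), z), c) (0, c') := by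
  have h1 : HasFDerivAt (Kap_G X P θ₀ z) (fderiv ℂ (Kap_G X P θ₀ z) (θ, c)) (θ, c) :=
    ((Kap_contDiff_G (k := 1) X P θ₀ z).differentiable (by norm_num) _).hasFDerivAt
  have h2 := h1.restrictScalars ℝ
  have h3 : HasFDerivAt (Kap_H X P) (fderiv ℝ (Kap_H X P) (((θ₀, θ), z), c))
      (((θ₀, θ), z), c) :=
    ((Kap_contDiff_H (k := 1) X P).differentiable (by norm_num) _).hasFDerivAt
  have h4 : HasFDerivAt (fun y : (X → ℂ) × (Fin r → ℂ) => (((θ₀, y.1), z), y.2))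
      ((((0 : ((X → ℂ) × (Fin r → ℂ)) →L[ℝ] (X → ℂ)).prod
        (ContinuousLinearMap.fst ℝ (X → ℂ) (Fin r → ℂ))).prod
        (0 : ((X → ℂ) × (Fin r → ℂ)) →L[ℝ] (Fin (N + 1) → ℂ))).prod
        (ContinuousLinearMap.snd ℝ (X → ℂ) (Fin r → ℂ))) (θ, c) :=
    (((hasFDerivAt_const θ₀ _).prodMk hasFDerivAt_fst).prodMk (hasFDerivAt_const z _)).prodMk
      hasFDerivAt_snd
  have h5 : HasFDerivAt (Kap_G X P θ₀ z) ((fderiv ℝ (Kap_H X P) (((θ₀, θ), z), c)).comp
      ((((0 : ((X → ℂ) × (Fin r → ℂ)) →L[ℝ] (X → ℂ)).prod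
        (ContinuousLinearMap.fst ℝ (X → ℂ) (Fin r → ℂ))).prod
        (0 : ((X → ℂ) × (Fin r → ℂ)) →L[ℝ] (Fin (N + 1) → ℂ))).prod
        (ContinuousLinearMap.snd ℝ (X → ℂ) (Fin r → ℂ)))) (θ, c) :=
    HasFDerivAt.comp (g := Kap_H X P) (θ, c) h3 h4
  have h6 := h2.unique h5
  have h7 := congrArg (fun L : ((X → ℂ) × (Fin r → ℂ)) →L[ℝ] (Fin r → ℂ) => L (0, c')) h6
  exact h7

private theorem Kap_isInvertible {V : Type} [NormedAddCommGroup V] [NormedSpace ℂ V]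
    [FiniteDimensional ℂ V] (f : V →L[ℂ] V) (h : ∀ v, f v = 0 → v = 0) : f.IsInvertible := by
  have hinj : Function.Injective (f : V →ₗ[ℂ] V) := by
    rw [← LinearMap.ker_eq_bot, LinearMap.ker_eq_bot']
    exact h
  refine ⟨(LinearEquiv.ofInjectiveEndo (f : V →ₗ[ℂ] V) hinj).toContinuousLinearEquiv, ?_⟩
  ext v
  rfl

/-- the solution of the equations is holomorphic in the coefficients -/
private theorem Kap_kappa (X : Finset ℂ) (P : Fin r → CPoly N) (z : Fin (N + 1) → ℂ)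
    (hli : LinearIndependent ℂ (fun (a : Fin r) (l : Fin (N + 1)) => eval z (pderiv l (P a))))
    {κ : ((X → ℂ) × (X → ℂ)) × (Fin (N + 1) → ℂ) → (Fin r → ℂ)}
    (h1 : ∀ᶠ x in 𝓝 ((inc X, inc X), z), ContDiffAt ℝ ω κ x)
    (h2 : κ ((inc X, inc X), z) = 0)
    (h3 : ∀ᶠ x in 𝓝 ((inc X, inc X), z), Kap_H X P (x, κ x) = 0) :
    ∀ᶠ x in 𝓝 ((inc X, inc X), z),
      DifferentiableAt ℂ (fun θ => κ ((x.1.1, θ), x.2)) x.1.2 := by
  have hinv := Kap_hinv X P z hli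
  have hcont : Continuous fun y : (((X → ℂ) × (X → ℂ)) × (Fin (N + 1) → ℂ)) × (Fin r → ℂ) =>
      fderiv ℝ (Kap_H X P) y ∘L
        .inr ℝ (((X → ℂ) × (X → ℂ)) × (Fin (N + 1) → ℂ)) (Fin r → ℂ) :=
    ((Kap_contDiff_H (k := 1) X P).continuous_fderiv (by norm_num)).clm_comp continuous_const
  have hκc : ContinuousAt κ ((inc X, inc X), z) := h1.self_of_nhds.continuousAt
  have ht : Tendsto (fun x : ((X → ℂ) × (X → ℂ)) × (Fin (N + 1) → ℂ) => (x, κ x))
      (𝓝 ((inc X, inc X), z)) (𝓝 (((inc X, inc X), z), (0 : Fin r → ℂ))) := by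
    have h4 : Tendsto κ (𝓝 ((inc X, inc X), z)) (𝓝 0) := by
      have := hκc.tendsto
      rwa [h2] at this
    exact tendsto_id.prodMk_nhds h4
  have hopen : ∀ᶠ x in 𝓝 ((inc X, inc X), z), (fderiv ℝ (Kap_H X P) (x, κ x) ∘L
      .inr ℝ (((X → ℂ) × (X → ℂ)) × (Fin (N + 1) → ℂ)) (Fin r → ℂ)).IsInvertible := by
    have h5 : {f : (Fin r → ℂ) →L[ℝ] (Fin r → ℂ) | f.IsInvertible} ∈
        𝓝 (fderiv ℝ (Kap_H X P) (((inc X, inc X), z), 0) ∘L
          .inr ℝ (((X → ℂ) × (X → ℂ)) × (Fin (N + 1) → ℂ)) (Fin r → ℂ)) :=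
      ContinuousLinearEquiv.isOpen.mem_nhds hinv
    exact (hcont.continuousAt.tendsto.comp ht).eventually h5
  filter_upwards [h1, h3.eventually_nhds, hopen] with x hx1 hx2 hx3
  obtain ⟨⟨θ₀, θ⟩, z'⟩ := x
  have hcd : ContDiffAt ℂ 1 (Kap_G X P θ₀ z') (θ, κ ((θ₀, θ), z')) :=
    (Kap_contDiff_G X P θ₀ z').contDiffAt
  have pn : (1 : WithTop ℕ∞) ≠ 0 := by norm_num
  have hinv' : (fderiv ℂ (Kap_G X P θ₀ z') (θ, κ ((θ₀, θ), z')) ∘L
      .inr ℂ (X → ℂ) (Fin r → ℂ)).IsInvertible := by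
    refine Kap_isInvertible _ fun c hc => ?_
    obtain ⟨e, he⟩ := hx3
    have h6 : (e : (Fin r → ℂ) →L[ℝ] (Fin r → ℂ)) c = 0 := by
      rw [he]
      have h7 : fderiv ℂ (Kap_G X P θ₀ z') (θ, κ ((θ₀, θ), z')) (0, c) = 0 := by simpa using hc
      rw [Kap_fderiv_G] at h7
      simpa using h7
    simpa using h6
  have hG0 : Kap_G X P θ₀ z' (θ, κ ((θ₀, θ), z')) = 0 := hx2.self_of_nhds
  have hpt : Tendsto (fun θ' : X → ℂ => ((θ₀, θ'), z')) (𝓝 θ) (𝓝 ((θ₀, θ), z')) :=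
    (tendsto_const_nhds.prodMk_nhds tendsto_id).prodMk_nhds tendsto_const_nhds
  have hpt2 : Tendsto (fun θ' : X → ℂ => (θ', κ ((θ₀, θ'), z'))) (𝓝 θ)
      (𝓝 (θ, κ ((θ₀, θ), z'))) :=
    tendsto_id.prodMk_nhds (hx1.continuousAt.tendsto.comp hpt)
  have h8 := hpt2.eventually (hcd.eventually_apply_eq_iff_implicitFunction pn hinv')
  have h9 := hpt.eventually hx2
  have h10 : (fun θ' => κ ((θ₀, θ'), z')) =ᶠ[𝓝 θ] hcd.implicitFunction pn hinv' := by
    filter_upwards [h8, h9] with θ' h11 h12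
    have h13 : Kap_G X P θ₀ z' (θ', κ ((θ₀, θ'), z')) =
        Kap_G X P θ₀ z' (θ, κ ((θ₀, θ), z')) := by
      rw [hG0]
      exact h12
    exact (h11.1 h13).symm
  have h14 : DifferentiableAt ℂ (hcd.implicitFunction pn hinv') θ :=
    (hcd.contDiffAt_implicitFunction pn hinv').differentiableAt (by norm_num)
  exact h14.congr_of_eventuallyEq h10

private theorem Kap_nw_diff (X : Finset ℂ) (P : Fin r → CPoly N) (θ₀ : X → ℂ)
    (z : Fin (N + 1) → ℂ) {f : (X → ℂ) → (Fin r → ℂ)} {θ : X → ℂ}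
    (hf : DifferentiableAt ℂ f θ) :
    DifferentiableAt ℂ (fun θ => nw X P θ₀ z (f θ)) θ := by
  rw [differentiableAt_pi] at hf ⊢
  intro l
  unfold nw
  have h : ∀ a ∈ (Finset.univ : Finset (Fin r)), DifferentiableAt ℂ
      (fun θ => f θ a * conj (ev (pderiv l (P a)) (AHI.ext X θ₀) z)) θ :=
    fun a _ => (hf a).mul_const _
  exact DifferentiableAt.fun_sum h

/-- the conjugate certificate -/
private noncomputable def Kap_cert {F : Fin m → CPoly N} (C : Cert F) (β : ℂ ≃+* ℂ) :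
    Cert (conjEqs β F) where
  r := C.r
  j := C.j
  h := MvPolynomial.map (β : ℂ →+* ℂ) C.h
  A := fun i a => MvPolynomial.map (β : ℂ →+* ℂ) (C.A i a)
  eq := fun i => by
    have h1 := congrArg (MvPolynomial.map (β : ℂ →+* ℂ)) (C.eq i)
    simp only [map_sum, map_mul] at h1
    exact h1

private theorem Kap_nw_res {F : Fin m → CPoly N} (C : Cert F) {X : Finset ℂ}
    (hX : Covers2 X F C) (β : ℂ ≃+* ℂ) (z : Fin (N + 1) → ℂ) (c : Fin C.r → ℂ) :
    nw X C.P (res X β) z c = nv (Kap_cert C β).P z c := by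
  funext l
  simp only [nw, nv, Kap_cert, Cert.P, conjEqs]
  refine Finset.sum_congr rfl fun a _ => ?_
  rw [ev_res β (hX.d _ _), pderiv_map]

/-- small normal vectors have small coefficients -/
private theorem Kap_nw_bound (X : Finset ℂ) {P : Fin r → CPoly N} {z : Fin (N + 1) → ℂ}
    (hli : LinearIndependent ℂ (fun (a : Fin r) (l : Fin (N + 1)) => eval z (pderiv l (P a)))) :
    ∃ K : ℝ, 0 < K ∧ ∀ᶠ y : (X → ℂ) × (Fin (N + 1) → ℂ) in 𝓝 (inc X, z),
      ∀ c : Fin r → ℂ, ‖c‖ ≤ K * ‖nw X P y.1 y.2 c‖ := by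
  let L : (Fin r → ℂ) →ₗ[ℂ] (Fin (N + 1) → ℂ) :=
    { toFun := nv P z
      map_add' := fun c d => by
        funext l
        simp only [nv, Pi.add_apply, add_mul, Finset.sum_add_distrib]
      map_smul' := fun a c => by
        funext l
        simp only [nv, Pi.smul_apply, smul_eq_mul, Finset.mul_sum, mul_assoc, RingHom.id_apply] }
  have hL : LinearMap.ker L = ⊥ := by
    rw [LinearMap.ker_eq_bot']
    intro c hc
    exact nv_injective hli hc
  obtain ⟨K, hK0, hK⟩ := L.exists_antilipschitzWith hL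
  have hK' : ∀ c, ‖c‖ ≤ K * ‖nv P z c‖ := by
    intro c
    have := hK.le_mul_dist c 0
    simpa [L, nv_zero] using this
  have hKpos : (0 : ℝ) < K := hK0
  have hc : ∀ (l : Fin (N + 1)) (a : Fin r), ∀ᶠ y : (X → ℂ) × (Fin (N + 1) → ℂ) in
      𝓝 (inc X, z),
      ‖conj (ev (pderiv l (P a)) (AHI.ext X y.1) y.2) - conj (eval z (pderiv l (P a)))‖ <
        1 / (2 * K * (r + 1)) := by
    intro l a
    have h1 : ContinuousAt (fun y : (X → ℂ) × (Fin (N + 1) → ℂ) =>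
        conj (ev (pderiv l (P a)) (AHI.ext X y.1) y.2)) (inc X, z) :=
      (Complex.continuous_conj.comp (contDiff_ev (k := 0) X _).continuous).continuousAt
    have h2 := Metric.tendsto_nhds.1 h1 (1 / (2 * K * (r + 1))) (by positivity)
    simpa [dist_eq_norm, ev_inc] using h2
  refine ⟨2 * K, by positivity, ?_⟩
  have hc' : ∀ᶠ y : (X → ℂ) × (Fin (N + 1) → ℂ) in 𝓝 (inc X, z),
      ∀ (l : Fin (N + 1)) (a : Fin r),
      ‖conj (ev (pderiv l (P a)) (AHI.ext X y.1) y.2) - conj (eval z (pderiv l (P a)))‖ <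
        1 / (2 * K * (r + 1)) := by
    rw [Filter.eventually_all]
    intro l
    rw [Filter.eventually_all]
    exact hc l
  filter_upwards [hc'] with y hy c
  have h3 : ‖nw X P y.1 y.2 c - nv P z c‖ ≤ 1 / (2 * K) * ‖c‖ := by
    rw [pi_norm_le_iff_of_nonneg (by positivity)]
    intro l
    have h4 : (nw X P y.1 y.2 c - nv P z c) l =
        ∑ a, c a * (conj (ev (pderiv l (P a)) (AHI.ext X y.1) y.2) -
          conj (eval z (pderiv l (P a)))) := by
      simp only [nw, nv, Pi.sub_apply, mul_sub, Finset.sum_sub_distrib]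
    rw [h4]
    calc ‖∑ a, c a * (conj (ev (pderiv l (P a)) (AHI.ext X y.1) y.2) -
          conj (eval z (pderiv l (P a))))‖
        ≤ ∑ a : Fin r, ‖c‖ * (1 / (2 * K * (r + 1))) := by
          refine (norm_sum_le _ _).trans (Finset.sum_le_sum fun a _ => ?_)
          rw [norm_mul]
          exact mul_le_mul (norm_le_pi_norm c a) (hy l a).le (norm_nonneg _) (norm_nonneg _)
      _ = ‖c‖ * (r / (2 * K * (r + 1))) := by
          rw [Finset.sum_const, Finset.card_univ, Fintype.card_fin, nsmul_eq_mul]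
          ring
      _ ≤ 1 / (2 * K) * ‖c‖ := by
          rw [mul_comm]
          refine mul_le_mul_of_nonneg_right ?_ (norm_nonneg _)
          rw [div_le_div_iff₀ (by positivity) (by positivity)]
          nlinarith
  have h5 : ‖nv P z c‖ ≤ ‖nw X P y.1 y.2 c‖ + 1 / (2 * K) * ‖c‖ := by
    have h6 : ‖nv P z c‖ ≤ ‖nw X P y.1 y.2 c‖ + ‖nw X P y.1 y.2 c - nv P z c‖ := by
      have := norm_sub_norm_le (nv P z c) (nw X P y.1 y.2 c)
      rw [norm_sub_rev] at this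
      linarith
    linarith
  have h7 : K * ‖nv P z c‖ ≤ K * ‖nw X P y.1 y.2 c‖ + 1 / 2 * ‖c‖ := by
    have h8 := mul_le_mul_of_nonneg_left h5 hKpos.le
    have h9 : (K : ℝ) * (‖nw X P y.1 y.2 c‖ + 1 / (2 * K) * ‖c‖) =
        K * ‖nw X P y.1 y.2 c‖ + 1 / 2 * ‖c‖ := by
      field_simp
    linarith
  have h10 := hK' c
  linarith

theorem RN2_iff {F : Fin m → CPoly N} {β β' : ℂ ≃+* ℂ} {z n : Fin (N + 1) → ℂ} :
    RN2 F β β' z n ↔ RN (conjEqs β F) (β.symm.trans β') z n := by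
  have h1 : conjEqs (β.symm.trans β') (conjEqs β F) = conjEqs β' F := by
    funext i
    unfold conjEqs
    rw [MvPolynomial.map_map]
    congr 1
    refine congrArg MvPolynomial.map (RingHom.ext fun x => ?_)
    change β' (β.symm (β x)) = β' x
    rw [β.symm_apply_apply]
  unfold RN2 RN
  rw [h1]

theorem local_exists2 {F : Fin m → CPoly N} (C : Cert F) {X : Finset ℂ} (hX : Covers2 X F C)
    {z₀ : Fin (N + 1) → ℂ} (hz : OnCone F z₀) (hC : C.Valid z₀) {ρ : ℝ} (hρ : 0 < ρ) :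
    ∃ ν : ((X → ℂ) × (X → ℂ)) × (Fin (N + 1) → ℂ) → (Fin (N + 1) → ℂ),
      ∀ᶠ x in 𝓝 ((inc X, inc X), z₀), ContDiffAt ℝ ω ν x ∧
        DifferentiableAt ℂ (fun θ => ν ((x.1.1, θ), x.2)) x.1.2 ∧
        ∀ β β' : ℂ ≃+* ℂ, res X β = x.1.1 → res X β' = x.1.2 → OnCone (conjEqs β F) x.2 →
          RN2 F β β' x.2 (ν x) ∧ ‖ν x‖ < ρ := by
  obtain ⟨κ, hκ1, hκ2, hκ3, -⟩ := Kap_exists_kappa X C.P z₀ hC.li (fun a => hz (C.j a))
  have hκ4 := Kap_kappa X C.P z₀ hC.li hκ1 hκ2 hκ3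
  let ν : ((X → ℂ) × (X → ℂ)) × (Fin (N + 1) → ℂ) → (Fin (N + 1) → ℂ) :=
    fun x => nw X C.P x.1.1 x.2 (κ x)
  have hν : ∀ᶠ x in 𝓝 ((inc X, inc X), z₀), ContDiffAt ℝ ω ν x := by
    filter_upwards [hκ1] with x hx
    exact Kap_contDiffAt_nu X C.P hx
  have hνz : ν ((inc X, inc X), z₀) = 0 := by
    simp only [ν, hκ2, Kap_nw_zero]
  have hcont : ContinuousAt ν ((inc X, inc X), z₀) := hν.self_of_nhds.continuousAt
  have h1 : ∀ᶠ x in 𝓝 ((inc X, inc X), z₀), ‖ν x‖ < ρ := by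
    have := Metric.tendsto_nhds.1 hcont ρ hρ
    rw [hνz] at this
    simpa [dist_zero_right] using this
  have h2 : ∀ᶠ x in 𝓝 ((inc X, inc X), z₀),
      ev C.h (AHI.ext X x.1.2) (fun l => x.2 l + ν x l) ≠ 0 := by
    have h3 : ContinuousAt (fun x : ((X → ℂ) × (X → ℂ)) × (Fin (N + 1) → ℂ) =>
        ev C.h (AHI.ext X x.1.2) (fun l => x.2 l + ν x l)) ((inc X, inc X), z₀) := by
      have h4 : ContinuousAt (fun x : ((X → ℂ) × (X → ℂ)) × (Fin (N + 1) → ℂ) =>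
          (x.1.2, (fun l => x.2 l + ν x l : Fin (N + 1) → ℂ))) ((inc X, inc X), z₀) := by
        refine (continuous_snd.comp continuous_fst).continuousAt.prodMk ?_
        exact continuousAt_snd.add hcont
      have h5 : Continuous (fun y : (X → ℂ) × (Fin (N + 1) → ℂ) =>
        ev C.h (AHI.ext X y.1) y.2) := (contDiff_ev (k := 0) X C.h).continuous
      have h6 := ContinuousAt.comp (x := ((inc X, inc X), z₀))
        (g := fun y : (X → ℂ) × (Fin (N + 1) → ℂ) => ev C.h (AHI.ext X y.1) y.2)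
        (f := fun x : ((X → ℂ) × (X → ℂ)) × (Fin (N + 1) → ℂ) =>
          (x.1.2, (fun l => x.2 l + ν x l : Fin (N + 1) → ℂ))) h5.continuousAt h4
      exact h6
    refine h3.eventually_ne ?_
    simp only [hνz, Pi.zero_apply, add_zero]
    rw [ev_inc]
    exact hC.ne
  refine ⟨ν, ?_⟩
  filter_upwards [hν, hκ4, hκ3, h1, h2] with x hx0 hx1 hx2 hx3 hx4
  refine ⟨hx0, Kap_nw_diff X C.P x.1.1 x.2 hx1, fun β β' hβ hβ' _ => ⟨⟨?_, ?_⟩, hx3⟩⟩
  · have h5 : ν x = nv (Kap_cert C β).P x.2 (κ x) := by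
      simp only [ν]
      rw [← hβ]
      exact Kap_nw_res C hX β x.2 (κ x)
    rw [h5]
    exact nv_mem_Nrm (Kap_cert C β) x.2 (κ x)
  · refine onCone_of_chosen C β' ?_ fun a => ?_
    · rw [← ev_res β' hX.h, hβ']
      exact hx4
    · rw [← ev_res β' (hX.f _), hβ']
      exact congrFun hx2 a

theorem local_unique2 {F : Fin m → CPoly N} (C : Cert F) {X : Finset ℂ} (hX : Covers2 X F C)
    {z₀ : Fin (N + 1) → ℂ} (hz : OnCone F z₀) (hC : C.Valid z₀) :
    ∀ᶠ x : (((X → ℂ) × (X → ℂ)) × ((Fin (N + 1) → ℂ) × (Fin (N + 1) → ℂ))) ×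
      (Fin (N + 1) → ℂ) in 𝓝 (((inc X, inc X), (0, 0)), z₀), ∀ β β' : ℂ ≃+* ℂ,
        res X β = x.1.1.1 → res X β' = x.1.1.2 → OnCone (conjEqs β F) x.2 →
        RN2 F β β' x.2 x.1.2.1 → RN2 F β β' x.2 x.1.2.2 → x.1.2.1 = x.1.2.2 := by
  obtain ⟨κ, -, -, -, hκ⟩ := Kap_exists_kappa X C.P z₀ hC.li (fun a => hz (C.j a))
  obtain ⟨K, hK, hKe⟩ := Kap_nw_bound X (P := C.P) hC.li
  have hne : ∀ᶠ y : (X → ℂ) × (Fin (N + 1) → ℂ) in 𝓝 (inc X, z₀),
      ev C.h (AHI.ext X y.1) y.2 ≠ 0 := by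
    refine (contDiff_ev (k := 0) X C.h).continuous.continuousAt.eventually_ne ?_
    change ev C.h (AHI.ext X (inc X)) z₀ ≠ 0
    rw [ev_inc]
    exact hC.ne
  obtain ⟨ε, hε, hκε⟩ := Metric.eventually_nhds_iff.1 hκ
  have e1 : ∀ᶠ x : (((X → ℂ) × (X → ℂ)) × ((Fin (N + 1) → ℂ) × (Fin (N + 1) → ℂ))) ×
      (Fin (N + 1) → ℂ) in 𝓝 (((inc X, inc X), (0, 0)), z₀), dist x.1.1 (inc X, inc X) < ε :=
    (continuous_fst.comp continuous_fst).continuousAt.eventually (Metric.ball_mem_nhds _ hε)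
  have e2 : ∀ᶠ x : (((X → ℂ) × (X → ℂ)) × ((Fin (N + 1) → ℂ) × (Fin (N + 1) → ℂ))) ×
      (Fin (N + 1) → ℂ) in 𝓝 (((inc X, inc X), (0, 0)), z₀), dist x.2 z₀ < ε :=
    continuous_snd.continuousAt.eventually (Metric.ball_mem_nhds _ hε)
  have e3 : ∀ᶠ x : (((X → ℂ) × (X → ℂ)) × ((Fin (N + 1) → ℂ) × (Fin (N + 1) → ℂ))) ×
      (Fin (N + 1) → ℂ) in 𝓝 (((inc X, inc X), (0, 0)), z₀), dist x.1.2.1 0 < ε / K :=
    (continuous_fst.comp (continuous_snd.comp continuous_fst)).continuousAt.eventually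
      (Metric.ball_mem_nhds _ (by positivity))
  have e4 : ∀ᶠ x : (((X → ℂ) × (X → ℂ)) × ((Fin (N + 1) → ℂ) × (Fin (N + 1) → ℂ))) ×
      (Fin (N + 1) → ℂ) in 𝓝 (((inc X, inc X), (0, 0)), z₀), dist x.1.2.2 0 < ε / K :=
    (continuous_snd.comp (continuous_snd.comp continuous_fst)).continuousAt.eventually
      (Metric.ball_mem_nhds _ (by positivity))
  have e5 : ∀ᶠ x : (((X → ℂ) × (X → ℂ)) × ((Fin (N + 1) → ℂ) × (Fin (N + 1) → ℂ))) ×
      (Fin (N + 1) → ℂ) in 𝓝 (((inc X, inc X), (0, 0)), z₀),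
      ev C.h (AHI.ext X x.1.1.1) x.2 ≠ 0 ∧ ∀ c : Fin C.r → ℂ,
        ‖c‖ ≤ K * ‖nw X C.P x.1.1.1 x.2 c‖ := by
    have ht : Tendsto (fun x : (((X → ℂ) × (X → ℂ)) × ((Fin (N + 1) → ℂ) × (Fin (N + 1) → ℂ))) ×
        (Fin (N + 1) → ℂ) => (x.1.1.1, x.2)) (𝓝 (((inc X, inc X), (0, 0)), z₀))
        (𝓝 (inc X, z₀)) :=
      ((continuous_fst.comp (continuous_fst.comp continuous_fst)).prodMk
        continuous_snd).continuousAt
    exact ht.eventually (hne.and hKe)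
  filter_upwards [e1, e2, e3, e4, e5] with x h1 h2 h3 h4 h5 β β' hβ hβ' hx hn hn'
  have h6 : eval x.2 (Kap_cert C β).h ≠ 0 := by
    have h7 := h5.1
    rw [← hβ, ev_res β hX.h] at h7
    exact h7
  have key : ∀ n, dist n 0 < ε / K → RN2 F β β' x.2 n →
      n = nw X C.P x.1.1.1 x.2 (κ (x.1.1, x.2)) := by
    intro n hnε hn
    obtain ⟨c, hc⟩ : ∃ c : Fin C.r → ℂ, n = nw X C.P x.1.1.1 x.2 c := by
      obtain ⟨c, hc0⟩ := exists_nv_of_mem (Kap_cert C β) hx h6 hn.1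
      refine ⟨c, ?_⟩
      rw [hc0, ← hβ]
      exact (Kap_nw_res C hX β x.2 c).symm
    have hcn : ‖c‖ < ε := by
      rw [dist_zero_right] at hnε
      calc ‖c‖ ≤ K * ‖nw X C.P x.1.1.1 x.2 c‖ := h5.2 c
        _ = K * ‖n‖ := by rw [hc]
        _ < K * (ε / K) := mul_lt_mul_of_pos_left hnε hK
        _ = ε := by field_simp
    have hH : Kap_H X C.P ((x.1.1, x.2), c) = 0 := by
      funext b
      simp only [Kap_H, Pi.zero_apply, Cert.P]
      have h8 := hn.2 (C.j b)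
      rw [hc] at h8
      rw [← hβ', ev_res β' (hX.f _)]
      exact h8
    have hd : dist ((x.1.1, x.2), c) (((inc X, inc X), z₀), (0 : Fin C.r → ℂ)) < ε := by
      rw [Prod.dist_eq, Prod.dist_eq]
      refine max_lt (max_lt h1 h2) ?_
      rw [dist_zero_right]
      exact hcn
    rw [(hκε hd).1 hH, ← hc]
  rw [key _ h3 hn, key _ h4 hn']

end Pool.Agent.AHU
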