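import Mathlib
import Pool.Agent.AHU.Kap

/-!
# Uniform data for the canonical maps between nearby conjugates

Proof of `exists_UD`.  As `AHI.exists_X`: there is a finite `X ⊇ Y` such that every `z₀ ∈ Sph F` has
a certificate `C` with `C.Valid z₀` and `Covers2 X F C` (add the coefficients of `pderiv l (F i)`).
Let `S = {z | sq z = 1}`, a compact set.

Uniqueness: for every `z₀ ∈ S` the property of `local_unique2` holds near
`(((inc X, inc X), (0, 0)), z₀)`: by `local_unique2` if `OnCone F z₀`; otherwise some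
`ev (F i) (ext X θ₀) z ≠ 0` for `(θ₀, z)` near `(inc X, z₀)`, so `z` is not on the cone of `β F` if
`res X β = θ₀` (`ev_res`).  By `IsCompact.eventually_forall_of_forall_eventually` there is
`ρ₀ > 0` such that uniqueness holds for all `β, β'` in the `ρ₀`-ball, `n, n'` of norm `< ρ₀`,
and all `z ∈ Sph (conjEqs β F)`.  Put `ρ = min ρ₀ (min (1 / (N + 1)) (c / 2))`.

Existence: for every `z₀ ∈ S`, for `((θ₀, θ₁), z)` near `((inc X, inc X), z₀)`: for all `β` with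
`res X β = θ₀` and `OnCone (conjEqs β F) z` there are `ε, ν` as in `ex` (take `ν (θ, z') := ν₂ ((θ₀, θ), z')`
with `ν₂` from `local_exists2` for this `ρ`; the property of `local_exists2` holds in an open
neighbourhood of `((θ₀, θ₁), z)`).  By compactness it holds for all `z ∈ S` and all `θ₀, θ₁` in a
`δ₀`-ball.  Put `δ = min δ₀ ρ₀`.
-/

namespace Pool.Agent.AHU

open MvPolynomial Pool.Agent.AHC Pool.Agent.AHI Pool.Agent.AHR Filter
open scoped ContDiff ComplexConjugate Topology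

variable {N m : ℕ}

/-- uniform data: normal vectors of norm `< ρ` exist, depend smoothly on the point and
holomorphically on the coefficients, and are unique, between all conjugates in the `δ`-ball -/
structure UD (F : Fin m → CPoly N) (X : Finset ℂ) (c ρ δ : ℝ) : Prop where
  smooth : IsSmoothProjective F
  pos : 0 < ρ
  small : ρ ≤ 1 / (N + 1)
  le : ρ ≤ c / 2
  δpos : 0 < δ
  ex : ∀ β : ℂ ≃+* ℂ, dist (res X β) (inc X) < δ → ∀ z ∈ Sph (conjEqs β F),
    ∀ θ₁ ∈ Metric.ball (inc X) δ, ∃ ε > 0,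
      ∃ ν : (X → ℂ) × (Fin (N + 1) → ℂ) → (Fin (N + 1) → ℂ),
        ∀ θ ∈ Metric.ball θ₁ ε, ∀ z' ∈ Metric.ball z ε, ContDiffAt ℝ ω ν (θ, z') ∧
          DifferentiableAt ℂ (fun θ => ν (θ, z')) θ ∧
          ∀ β' : ℂ ≃+* ℂ, res X β' = θ → OnCone (conjEqs β F) z' →
            RN2 F β β' z' (ν (θ, z')) ∧ ‖ν (θ, z')‖ < ρ
  uniq : ∀ β β' : ℂ ≃+* ℂ, dist (res X β) (inc X) < δ → dist (res X β') (inc X) < δ →
    ∀ z ∈ Sph (conjEqs β F), ∀ n n', ‖n‖ < ρ → ‖n'‖ < ρ → RN2 F β β' z n → RN2 F β β' z n' →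
      n = n'

private theorem Uni_X {F : Fin m → CPoly N} (hF : IsSmoothProjective F) (Y : Finset ℂ) :
    ∃ X : Finset ℂ, Y ⊆ X ∧ ∀ z ∈ Sph F, ∃ C : Cert F, C.Valid z ∧ Covers2 X F C := by
  classical
  refine (isCompact_Sph F).induction_on (p := fun s => ∃ X : Finset ℂ, Y ⊆ X ∧
      ∀ z ∈ s, ∃ C : Cert F, C.Valid z ∧ Covers2 X F C) ?_ ?_ ?_ ?_
  · exact ⟨Y, subset_rfl, by simp⟩
  · rintro s t hst ⟨X, h1, h2⟩
    exact ⟨X, h1, fun z hz => h2 z (hst hz)⟩
  · rintro s t ⟨X, h1, h2⟩ ⟨X', h1', h2'⟩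
    refine ⟨X ∪ X', h1.trans Finset.subset_union_left, ?_⟩
    rintro z (hz | hz)
    · obtain ⟨C, hC, hX⟩ := h2 z hz
      exact ⟨C, hC, fun i => (hX.f i).trans Finset.subset_union_left,
        hX.h.trans Finset.subset_union_left, fun i l => (hX.d i l).trans Finset.subset_union_left⟩
    · obtain ⟨C, hC, hX⟩ := h2' z hz
      exact ⟨C, hC, fun i => (hX.f i).trans Finset.subset_union_right,
        hX.h.trans Finset.subset_union_right, fun i l => (hX.d i l).trans Finset.subset_union_right⟩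
  · intro z hz
    obtain ⟨C, hC⟩ := exists_cert hF (ne_zero_of_sq hz.1) hz.2
    refine ⟨{y | C.Valid y}, mem_nhdsWithin_of_mem_nhds hC.eventually,
      Y ∪ (Finset.univ.biUnion fun i => (F i).coeffs) ∪ C.h.coeffs ∪
        (Finset.univ.biUnion fun i => Finset.univ.biUnion fun l => (pderiv l (F i)).coeffs), ?_, ?_⟩
    · exact (Finset.subset_union_left.trans Finset.subset_union_left).trans Finset.subset_union_left
    · intro y hy
      refine ⟨C, hy, fun i => ?_, Finset.subset_union_right.trans Finset.subset_union_left, fun i l => ?_⟩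
      · refine Finset.Subset.trans ?_ Finset.subset_union_left
        refine Finset.Subset.trans ?_ Finset.subset_union_left
        refine Finset.Subset.trans ?_ Finset.subset_union_right
        exact Finset.subset_biUnion_of_mem (fun i => (F i).coeffs) (Finset.mem_univ i)
      · refine Finset.Subset.trans ?_ Finset.subset_union_right
        refine Finset.Subset.trans ?_ (Finset.subset_biUnion_of_mem
          (fun i => Finset.univ.biUnion fun l => (pderiv l (F i)).coeffs) (Finset.mem_univ i))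
        exact Finset.subset_biUnion_of_mem (fun l => (pderiv l (F i)).coeffs) (Finset.mem_univ l)

private theorem Uni_off {F : Fin m → CPoly N} {X : Finset ℂ} (hX : ∀ i, (F i).coeffs ⊆ X)
    {z₀ : Fin (N + 1) → ℂ} (hz : ¬ OnCone F z₀) :
    ∀ᶠ x : (X → ℂ) × (Fin (N + 1) → ℂ) in 𝓝 (inc X, z₀), ∀ β : ℂ ≃+* ℂ, res X β = x.1 →
      ¬ OnCone (conjEqs β F) x.2 := by
  rw [OnCone, not_forall] at hz
  obtain ⟨i, hi⟩ := hz
  have hne : ∀ᶠ x : (X → ℂ) × (Fin (N + 1) → ℂ) in 𝓝 (inc X, z₀), ev (F i) (AHI.ext X x.1) x.2 ≠ 0 := by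
    refine (contDiff_ev (k := 0) X (F i)).continuous.continuousAt.eventually_ne ?_
    show ev (F i) (AHI.ext X (inc X)) z₀ ≠ 0
    rw [ev_inc]
    exact hi
  filter_upwards [hne] with x hx β hβ hcone
  apply hx
  rw [← hβ, ev_res β (hX i)]
  exact hcone i

private theorem Uni_compact : IsCompact {z : Fin (N + 1) → ℂ | AHI.sq z = 1} := by
  refine Metric.isCompact_of_isClosed_isBounded (isClosed_eq continuous_sq continuous_const) ?_
  refine (Metric.isBounded_closedBall (x := (0 : Fin (N + 1) → ℂ)) (r := 1)).subset ?_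
  intro z hz
  rw [mem_closedBall_zero_iff]
  exact norm_le_one_of_sq hz

/-- the existence part at `x = ((θ₀, θ₁), z)` -/
private def Uni_Q (F : Fin m → CPoly N) (X : Finset ℂ) (ρ : ℝ)
    (x : ((X → ℂ) × (X → ℂ)) × (Fin (N + 1) → ℂ)) : Prop :=
  ∀ β : ℂ ≃+* ℂ, res X β = x.1.1 → OnCone (conjEqs β F) x.2 → ∃ ε > 0,
    ∃ ν : (X → ℂ) × (Fin (N + 1) → ℂ) → (Fin (N + 1) → ℂ),
      ∀ θ ∈ Metric.ball x.1.2 ε, ∀ z' ∈ Metric.ball x.2 ε, ContDiffAt ℝ ω ν (θ, z') ∧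
        DifferentiableAt ℂ (fun θ => ν (θ, z')) θ ∧
        ∀ β' : ℂ ≃+* ℂ, res X β' = θ → OnCone (conjEqs β F) z' →
          RN2 F β β' z' (ν (θ, z')) ∧ ‖ν (θ, z')‖ < ρ

private theorem Uni_ex {F : Fin m → CPoly N} {X : Finset ℂ} (hX : ∀ i, (F i).coeffs ⊆ X)
    (hXC : ∀ z ∈ Sph F, ∃ C : Cert F, C.Valid z ∧ Covers2 X F C) {ρ : ℝ} (hρ : 0 < ρ)
    {z₀ : Fin (N + 1) → ℂ} (hz₀ : AHI.sq z₀ = 1) :
    ∀ᶠ x : ((X → ℂ) × (X → ℂ)) × (Fin (N + 1) → ℂ) in 𝓝 ((inc X, inc X), z₀), Uni_Q F X ρ x := by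
  by_cases hc : OnCone F z₀
  · obtain ⟨C, hC, hCX⟩ := hXC z₀ ⟨hz₀, hc⟩
    obtain ⟨ν₂, hν⟩ := local_exists2 C hCX hc hC hρ
    filter_upwards [eventually_eventually_nhds.2 hν] with x hx β hβ _
    obtain ⟨ε, hε, hball⟩ := Metric.eventually_nhds_iff.1 hx
    refine ⟨ε, hε, fun y => ν₂ ((x.1.1, y.1), y.2), fun θ hθ z' hz' => ?_⟩
    have hd : dist ((x.1.1, θ), z') x < ε := by
      rw [Prod.dist_eq, Prod.dist_eq]
      refine max_lt (max_lt ?_ hθ) hz'
      show dist x.1.1 x.1.1 < ε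
      rw [dist_self]
      exact hε
    obtain ⟨h1, h2, h3⟩ := hball hd
    refine ⟨?_, h2, fun β' hβ' hcone => h3 β β' hβ hβ' hcone⟩
    have h4 : ContDiffAt ℝ ω (fun y : (X → ℂ) × (Fin (N + 1) → ℂ) =>
        (((x.1.1, y.1), y.2) : ((X → ℂ) × (X → ℂ)) × (Fin (N + 1) → ℂ))) (θ, z') :=
      ((contDiff_const.prodMk contDiff_fst).prodMk contDiff_snd).contDiffAt
    exact ContDiffAt.comp (θ, z') h1 h4
  · have h1 := Uni_off hX hc
    have h2 : Tendsto (fun x : ((X → ℂ) × (X → ℂ)) × (Fin (N + 1) → ℂ) => (x.1.1, x.2))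
        (𝓝 ((inc X, inc X), z₀)) (𝓝 (inc X, z₀)) := by
      have h3 : Continuous fun x : ((X → ℂ) × (X → ℂ)) × (Fin (N + 1) → ℂ) => (x.1.1, x.2) := by
        fun_prop
      exact h3.tendsto ((inc X, inc X), z₀)
    filter_upwards [h2.eventually h1] with x hx β hβ hcone
    exact absurd hcone (hx β hβ)

private theorem Uni_un {F : Fin m → CPoly N} {X : Finset ℂ} (hX : ∀ i, (F i).coeffs ⊆ X)
    (hXC : ∀ z ∈ Sph F, ∃ C : Cert F, C.Valid z ∧ Covers2 X F C)
    {z₀ : Fin (N + 1) → ℂ} (hz₀ : AHI.sq z₀ = 1) :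
    ∀ᶠ x : (((X → ℂ) × (X → ℂ)) × ((Fin (N + 1) → ℂ) × (Fin (N + 1) → ℂ))) ×
      (Fin (N + 1) → ℂ) in 𝓝 (((inc X, inc X), (0, 0)), z₀), ∀ β β' : ℂ ≃+* ℂ,
        res X β = x.1.1.1 → res X β' = x.1.1.2 → OnCone (conjEqs β F) x.2 →
        RN2 F β β' x.2 x.1.2.1 → RN2 F β β' x.2 x.1.2.2 → x.1.2.1 = x.1.2.2 := by
  by_cases hc : OnCone F z₀
  · obtain ⟨C, hC, hCX⟩ := hXC z₀ ⟨hz₀, hc⟩
    exact local_unique2 C hCX hc hC
  · have h1 := Uni_off hX hc
    have h2 : Tendsto (fun x : (((X → ℂ) × (X → ℂ)) × ((Fin (N + 1) → ℂ) × (Fin (N + 1) → ℂ))) ×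
        (Fin (N + 1) → ℂ) => (x.1.1.1, x.2))
        (𝓝 (((inc X, inc X), (0, 0)), z₀)) (𝓝 (inc X, z₀)) := by
      have h3 : Continuous fun x : (((X → ℂ) × (X → ℂ)) × ((Fin (N + 1) → ℂ) × (Fin (N + 1) → ℂ))) ×
          (Fin (N + 1) → ℂ) => (x.1.1.1, x.2) := by
        fun_prop
      exact h3.tendsto (((inc X, inc X), (0, 0)), z₀)
    filter_upwards [h2.eventually h1] with x hx β β' hβ _ hcone
    exact absurd hcone (hx β hβ)

theorem exists_UD {F : Fin m → CPoly N} (hF : IsSmoothProjective F) (Y : Finset ℂ) {c : ℝ}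
    (hc : 0 < c) : ∃ (X : Finset ℂ) (ρ δ : ℝ), Y ⊆ X ∧ UD F X c ρ δ := by
  classical
  obtain ⟨X, hY, hXC⟩ := Uni_X hF (Y ∪ Finset.univ.biUnion fun i => (F i).coeffs)
  have hX : ∀ i, (F i).coeffs ⊆ X := fun i =>
    (Finset.subset_biUnion_of_mem (fun i => (F i).coeffs) (Finset.mem_univ i)).trans
      (Finset.subset_union_right.trans hY)
  have hu := (Uni_compact (N := N)).eventually_forall_of_forall_eventually
    (x₀ := ((inc X, inc X), ((0 : Fin (N + 1) → ℂ), (0 : Fin (N + 1) → ℂ))))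
    (P := fun (a : ((X → ℂ) × (X → ℂ)) × ((Fin (N + 1) → ℂ) × (Fin (N + 1) → ℂ)))
      (z : Fin (N + 1) → ℂ) => ∀ β β' : ℂ ≃+* ℂ,
        res X β = a.1.1 → res X β' = a.1.2 → OnCone (conjEqs β F) z →
        RN2 F β β' z a.2.1 → RN2 F β β' z a.2.2 → a.2.1 = a.2.2)
    (fun z hz => Uni_un hX hXC hz)
  obtain ⟨ρ₀, hρ₀, hu⟩ := Metric.eventually_nhds_iff.1 hu
  set ρ : ℝ := min ρ₀ (min (1 / (N + 1)) (c / 2)) with hρdef
  have hρ : 0 < ρ := lt_min hρ₀ (lt_min (by positivity) (half_pos hc))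
  have he := (Uni_compact (N := N)).eventually_forall_of_forall_eventually (x₀ := (inc X, inc X))
    (P := fun (a : (X → ℂ) × (X → ℂ)) (z : Fin (N + 1) → ℂ) => Uni_Q F X ρ (a, z))
    (fun z hz => Uni_ex hX hXC hρ hz)
  obtain ⟨δ₀, hδ₀, he⟩ := Metric.eventually_nhds_iff.1 he
  refine ⟨X, ρ, min δ₀ ρ₀, Finset.subset_union_left.trans hY, hF, hρ,
    (min_le_right _ _).trans (min_le_left _ _), (min_le_right _ _).trans (min_le_right _ _),
    lt_min hδ₀ hρ₀, ?_, ?_⟩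
  · intro β hβ z hz θ₁ hθ₁
    have hd : dist (res X β, θ₁) (inc X, inc X) < δ₀ := by
      rw [Prod.dist_eq]
      exact max_lt (hβ.trans_le (min_le_left _ _)) (lt_of_lt_of_le hθ₁ (min_le_left _ _))
    exact he hd z hz.1 β rfl hz.2
  · intro β β' hβ hβ' z hz n n' hn hn' h1 h2
    refine hu (y := ((res X β, res X β'), (n, n'))) ?_ z hz.1 β β' rfl rfl hz.2 h1 h2
    rw [Prod.dist_eq, Prod.dist_eq, Prod.dist_eq]
    refine max_lt (max_lt (hβ.trans_le (min_le_right _ _)) (hβ'.trans_le (min_le_right _ _)))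
      (max_lt ?_ ?_)
    · show dist n 0 < ρ₀
      rw [dist_zero_right]
      exact hn.trans_le (min_le_left _ _)
    · show dist n' 0 < ρ₀
      rw [dist_zero_right]
      exact hn'.trans_le (min_le_left _ _)

end Pool.Agent.AHU
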