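import Mathlib
import Pool.Agent.AHU.Small

/-!
# Every cycle is homologous to a cycle of good generators

A generator `(p, q, I, s)` is `c`-good if `|x_(I a)| ≥ c |x|` on the simplex `s`, for all `a`.

Proof.  Let `z` be a cycle of small generators (`exists_small`).  For every simplex `s` choose
`lam s : Fin (N + 1)` such that `s t ∈ GG c (lam s)` for all `t` if `s` is contained in some `GG c j`
(a function of `q` and `s`).  Let `hh (p, q, I, s) = (p + 1, q, Fin.cons (lam s) I, s)` (linear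
extension to chains), `P = id - (bdL ∘ hh + hh ∘ bdL)`.  Computation (Čech part: `bdC (hh x) + hh (bdC x)
= x` for `p ≥ 1` and `= x - (0, q, lam s, s)` for `p = 0`; singular part: signs `(-1)^(p+1)` and
`(-1)^p`):

  `P (p, q, I, s) = [p = 0] (0, q, ![lam s], s) +
     (-1)^p ∑ i (-1)^i ((p+1, q-1, Fin.cons (lam s) I, s ∘ face i) -
                       (p+1, q-1, Fin.cons (lam (s ∘ face i)) I, s ∘ face i))`

(second term only for `q ≥ 1`).  The faces of a small simplex are small, `s ∘ face i` is contained in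
`GG c (lam s)` and in `GG c (lam (s ∘ face i))`; so `P` maps good generators (with small simplex) to
combinations of good generators.  A generator with `p = 0` goes to a good one plus generators with
`p = 1` and `q` smaller by one, a generator with `p ≥ 1` goes to generators with `p` larger and `q`
smaller by one, and to `0` if `q = 0`.  By induction on `q`: for small `x` with `p ≥ 1`,
`P^[q+1] x` is a combination of good generators (even: `P^[n] x = 0` for `n > q`), and for small `x`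
with `p = 0` `P^[n] x` is a combination of good generators for all `n > q`.  (It may be simplest to
prove: every small `x` with `q < n` has `P^[n] x` good, by induction on `n`, from: `P x` is a
combination of good generators with small simplices and of small generators with smaller `q`, and
`P` preserves the combinations of good generators with small simplices.)
So `z' = P^[2k+1] z` is a cycle (`P` commutes with `bdL`, by `bdL_bdL`), and its generators are good,
of degree `2k`, liftable (if `(p, q, I, s)` is liftable and `s` is contained in `GG c j` with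
`c > 0` then `Fin.cons j I` is also liftable; faces are liftable: `Liftable.bd` or `isLift_amap`,
`face_eq_amap`).  `evc W (P y) = evc W y` for a cycle `y` of small liftable generators of degree
`2k`: `y - P y = bdL (hh y)` and `hh y` consists of liftable generators of degree `2k + 1`
(`IsPer.bd`).
-/

namespace Pool.Agent.AHU

open Pool.Agent.AHC Pool.Agent.AHI Pool.Agent.AHR
open scoped LinearAlgebra.Projectivization

variable {N m : ℕ}

/-- all coordinates of the label are large on the simplex -/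
def CGood (c : ℝ) (y : Gen N) : Prop := ∀ t a, y.2.2.2 t ∈ GG c (y.2.2.1 a)

open Classical in
/-- a label for the simplices which are contained in one of the sets `GG c j` -/
private noncomputable def Label_lam (c : ℝ) (q : ℕ) (s : Simplex N q) : Fin (N + 1) :=
  if h : ∃ j, ∀ t, s t ∈ GG c j then h.choose else 0

private theorem Label_lam_spec {c : ℝ} {q : ℕ} {s : Simplex N q} (h : ∃ j, ∀ t, s t ∈ GG c j) (t : _) :
    s t ∈ GG c (Label_lam c q s) := by
  unfold Label_lam
  rw [dif_pos h]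
  exact h.choose_spec t

private noncomputable def Label_hh (c : ℝ) (x : Gen N) : Gen N →₀ ℤ :=
  Finsupp.single (⟨x.1 + 1, x.2.1, Fin.cons (Label_lam c x.2.1 x.2.2.2) x.2.2.1, x.2.2.2⟩ : Gen N) 1

private noncomputable def Label_hL (c : ℝ) : (Gen N →₀ ℤ) →ₗ[ℤ] (Gen N →₀ ℤ) :=
  Finsupp.linearCombination ℤ (Label_hh c)

private noncomputable def Label_P (c : ℝ) : (Gen N →₀ ℤ) →ₗ[ℤ] (Gen N →₀ ℤ) :=
  LinearMap.id - (bdL.comp (Label_hL c) + (Label_hL c).comp bdL)

private noncomputable def Label_A (c : ℝ) : Gen N → (Gen N →₀ ℤ)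
  | ⟨0, q, _, s⟩ => Finsupp.single (⟨0, q, fun _ => Label_lam c q s, s⟩ : Gen N) 1
  | ⟨_ + 1, _, _, _⟩ => 0

private noncomputable def Label_B (c : ℝ) : Gen N → (Gen N →₀ ℤ)
  | ⟨_, 0, _, _⟩ => 0
  | ⟨p, q + 1, I, s⟩ => ∑ i : Fin (q + 2),
      (Finsupp.single (⟨p + 1, q, Fin.cons (Label_lam c (q + 1) s) I, s ∘ face i⟩ : Gen N) ((-1) ^ (i : ℕ)) -
        Finsupp.single (⟨p + 1, q, Fin.cons (Label_lam c q (s ∘ face i)) I, s ∘ face i⟩ : Gen N)
          ((-1) ^ (i : ℕ)))

private theorem Label_hL_single (c : ℝ) (x : Gen N) (n : ℤ) :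
    Label_hL c (Finsupp.single x n) =
      Finsupp.single (⟨x.1 + 1, x.2.1, Fin.cons (Label_lam c x.2.1 x.2.2.2) x.2.2.1, x.2.2.2⟩ : Gen N) n := by
  unfold Label_hL Label_hh
  rw [Finsupp.linearCombination_single, Finsupp.smul_single, smul_eq_mul, mul_one]

private theorem Label_C (c : ℝ) (p q : ℕ) (I : Fin (p + 1) → Fin (N + 1)) (s : Simplex N q) :
    bdC (⟨p + 1, q, Fin.cons (Label_lam c q s) I, s⟩ : Gen N) + Label_hL c (bdC ⟨p, q, I, s⟩) =
      Finsupp.single (⟨p, q, I, s⟩ : Gen N) 1 - Label_A c ⟨p, q, I, s⟩ := by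
  cases p with
  | zero =>
    simp only [bdC, Label_A, map_zero, add_zero]
    rw [Fin.sum_univ_succ, Fin.sum_univ_one]
    have h1 : (Fin.cons (Label_lam c q s) I : Fin 2 → Fin (N + 1)) ∘ (0 : Fin 2).succAbove = I := by
      funext a
      simp
    have h2 : (Fin.cons (Label_lam c q s) I : Fin 2 → Fin (N + 1)) ∘ (Fin.succ 0 : Fin 2).succAbove =
        fun _ => Label_lam c q s := by
      funext a
      rw [Subsingleton.elim a 0]
      rfl
    rw [h1, h2]
    simp [sub_eq_add_neg]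
  | succ p =>
    simp only [bdC, Label_A, sub_zero, map_sum, Label_hL_single]
    rw [Fin.sum_univ_succ]
    have h1 : (Fin.cons (Label_lam c q s) I : Fin (p + 3) → Fin (N + 1)) ∘ (0 : Fin (p + 3)).succAbove = I := by
      funext a
      simp
    have h2 : ∀ b : Fin (p + 2), (Fin.cons (Label_lam c q s) I : Fin (p + 3) → Fin (N + 1)) ∘ b.succ.succAbove =
        Fin.cons (Label_lam c q s) (I ∘ b.succAbove) := by
      intro b
      funext a
      refine Fin.cases ?_ (fun a => ?_) a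
      · simp
      · simp
    simp only [h1, h2]
    rw [add_assoc, ← Finset.sum_add_distrib]
    simp only [← Finsupp.single_add]
    have h3 : ∀ b : Fin (p + 2), ((-1 : ℤ) ^ (b.succ : ℕ)) + (-1) ^ (b : ℕ) = 0 := by
      intro b
      rw [Fin.val_succ, pow_succ]
      ring
    simp only [h3, Finsupp.single_zero, Finset.sum_const_zero, add_zero]
    simp

private theorem Label_S (c : ℝ) (p q : ℕ) (I : Fin (p + 1) → Fin (N + 1)) (s : Simplex N q) :
    (-1 : ℤ) ^ (p + 1) • bdS (⟨p + 1, q, Fin.cons (Label_lam c q s) I, s⟩ : Gen N) +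
      (-1 : ℤ) ^ p • Label_hL c (bdS ⟨p, q, I, s⟩) = -((-1 : ℤ) ^ p • Label_B c ⟨p, q, I, s⟩) := by
  cases q with
  | zero =>
    simp only [bdS, Label_B, map_zero, smul_zero, add_zero, neg_zero]
  | succ q =>
    simp only [bdS, Label_B, map_sum, Label_hL_single]
    rw [Finset.sum_sub_distrib, smul_sub, pow_succ]
    simp only [mul_neg, mul_one, neg_smul]
    abel

private theorem Label_P_single (c : ℝ) (x : Gen N) :
    Label_P c (Finsupp.single x 1) = Label_A c x + (-1 : ℤ) ^ x.1 • Label_B c x := by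
  obtain ⟨p, q, I, s⟩ := x
  have h1 : bdL (Label_hL c (Finsupp.single (⟨p, q, I, s⟩ : Gen N) 1)) =
      bdC (⟨p + 1, q, Fin.cons (Label_lam c q s) I, s⟩ : Gen N) +
        (-1 : ℤ) ^ (p + 1) • bdS (⟨p + 1, q, Fin.cons (Label_lam c q s) I, s⟩ : Gen N) := by
    rw [Label_hL_single]
    unfold bdL
    rw [Finsupp.linearCombination_single, one_smul]
    rfl
  have h2 : Label_hL c (bdL (Finsupp.single (⟨p, q, I, s⟩ : Gen N) 1)) =
      Label_hL c (bdC ⟨p, q, I, s⟩) + (-1 : ℤ) ^ p • Label_hL c (bdS ⟨p, q, I, s⟩) := by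
    unfold bdL
    rw [Finsupp.linearCombination_single, one_smul]
    unfold AHI.bd
    rw [map_add, map_smul]
  have h3 := Label_C c p q I s
  have h4 := Label_S c p q I s
  change Finsupp.single _ 1 - (bdL (Label_hL c _) + Label_hL c (bdL _)) = _
  rw [h1, h2]
  have h5 : bdC (⟨p + 1, q, Fin.cons (Label_lam c q s) I, s⟩ : Gen N) +
        (-1 : ℤ) ^ (p + 1) • bdS (⟨p + 1, q, Fin.cons (Label_lam c q s) I, s⟩ : Gen N) +
      (Label_hL c (bdC ⟨p, q, I, s⟩) + (-1 : ℤ) ^ p • Label_hL c (bdS ⟨p, q, I, s⟩)) =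
      (Finsupp.single (⟨p, q, I, s⟩ : Gen N) 1 - Label_A c ⟨p, q, I, s⟩) +
        -((-1 : ℤ) ^ p • Label_B c ⟨p, q, I, s⟩) := by
    rw [← h3, ← h4]
    abel
  rw [h5]
  abel

/-- what has to be checked for the terms of `P x` -/
private theorem Label_mem {c : ℝ} {T : Set (Gen N)} (x : Gen N)
    (hA : ∀ q (I : Fin 1 → Fin (N + 1)) (s : Simplex N q), x = ⟨0, q, I, s⟩ →
      (⟨0, q, fun _ => Label_lam c q s, s⟩ : Gen N) ∈ T)
    (hB : ∀ p q (I : Fin (p + 1) → Fin (N + 1)) (s : Simplex N (q + 1)) (i : Fin (q + 2)),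
      x = ⟨p, q + 1, I, s⟩ →
      (⟨p + 1, q, Fin.cons (Label_lam c (q + 1) s) I, s ∘ face i⟩ : Gen N) ∈ T ∧
      (⟨p + 1, q, Fin.cons (Label_lam c q (s ∘ face i)) I, s ∘ face i⟩ : Gen N) ∈ T) :
    Label_P c (Finsupp.single x 1) ∈ Finsupp.supported ℤ ℤ T := by
  rw [Label_P_single]
  obtain ⟨p, q, I, s⟩ := x
  refine Submodule.add_mem _ ?_ (Submodule.smul_mem _ _ ?_)
  · cases p with
    | zero =>
      simp only [Label_A]
      exact Finsupp.single_mem_supported ℤ _ (hA q I s rfl)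
    | succ p => exact Submodule.zero_mem _
  · cases q with
    | zero => exact Submodule.zero_mem _
    | succ q =>
      simp only [Label_B]
      refine Submodule.sum_mem _ fun i _ => Submodule.sub_mem _ ?_ ?_
      · exact Finsupp.single_mem_supported ℤ _ (hB p q I s i rfl).1
      · exact Finsupp.single_mem_supported ℤ _ (hB p q I s i rfl).2

private theorem Label_map {f : (Gen N →₀ ℤ) →ₗ[ℤ] (Gen N →₀ ℤ)} {S T : Set (Gen N)}
    (h : ∀ x ∈ S, f (Finsupp.single x 1) ∈ Finsupp.supported ℤ ℤ T) {z : Gen N →₀ ℤ}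
    (hz : z ∈ Finsupp.supported ℤ ℤ S) : f z ∈ Finsupp.supported ℤ ℤ T := by
  rw [Finsupp.supported_eq_span_single] at hz
  induction hz using Submodule.span_induction with
  | mem y hy =>
    obtain ⟨x, hx, rfl⟩ := hy
    exact h x hx
  | zero => rw [map_zero]; exact Submodule.zero_mem _
  | add a b _ _ ha hb => rw [map_add]; exact Submodule.add_mem _ ha hb
  | smul a b _ hb => rw [map_smul]; exact Submodule.smul_mem _ _ hb

private theorem Label_good {c : ℝ} {z : Gen N →₀ ℤ} (n : ℕ) :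
    z ∈ Finsupp.supported ℤ ℤ {y : Gen N | CGood c y ∨ (SmallG c y ∧ y.2.1 < n)} →
      ((Label_P c : (Gen N →₀ ℤ) → (Gen N →₀ ℤ))^[n]) z ∈
        Finsupp.supported ℤ ℤ {y : Gen N | CGood c y} := by
  induction n generalizing z with
  | zero =>
    intro h
    refine Finsupp.supported_mono (fun y hy => ?_) h
    rcases hy with hy | ⟨-, hy⟩
    · exact hy
    · exact absurd hy (Nat.not_lt_zero _)
  | succ n ih =>
    intro h
    rw [Function.iterate_succ_apply]
    refine ih (Label_map (fun x hx => ?_) h)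
    refine Label_mem x ?_ ?_
    · rintro q I s rfl
      left
      intro t a
      refine Label_lam_spec ?_ t
      rcases hx with hx | ⟨hx, -⟩
      · exact ⟨I 0, fun t => hx t 0⟩
      · exact hx
    · rintro p q I s i rfl
      rcases hx with hx | ⟨hx, hq⟩
      · have h1 : ∃ j, ∀ t, s t ∈ GG c j := ⟨I 0, fun t => hx t 0⟩
        constructor
        · left
          intro t a
          refine Fin.cases ?_ (fun a => ?_) a
          · exact Label_lam_spec h1 (face i t)
          · exact hx (face i t) a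
        · left
          intro t a
          refine Fin.cases ?_ (fun a => ?_) a
          · exact Label_lam_spec (s := s ∘ face i) ⟨I 0, fun t => hx (face i t) 0⟩ t
          · exact hx (face i t) a
      · obtain ⟨j, hj⟩ := hx
        have h2 : q < n := by
          have : q + 1 < n + 1 := hq
          omega
        exact ⟨Or.inr ⟨⟨j, fun t => hj (face i t)⟩, h2⟩, Or.inr ⟨⟨j, fun t => hj (face i t)⟩, h2⟩⟩

private theorem Label_lift {F : Fin m → CPoly N} {c : ℝ} (hc : 0 < c) {p p' q : ℕ}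
    {I : Fin (p + 1) → Fin (N + 1)} {s : Simplex N q} {v : (Fin (q + 1) → ℝ) → (Fin (N + 1) → ℂ)}
    (h : IsLift F I s v) {J : Fin (p' + 1) → Fin (N + 1)}
    (hJ : ∀ a, (∃ b, J a = I b) ∨ ∀ t, s t ∈ GG c (J a)) : IsLift F J s v := by
  refine ⟨h.smooth, h.onCone, fun t ht a => ?_, h.lifts⟩
  rcases hJ a with ⟨b, hb⟩ | h1
  · rw [hb]
    exact h.inOpen t ht b
  · obtain ⟨h2, h3⟩ := h.lifts ⟨t, ht⟩
    have h4 := h1 ⟨t, ht⟩
    rw [h3, mk_mem_GG] at h4
    intro h5
    have h6 : ‖v (⟨t, ht⟩ : stdSimplex ℝ (Fin (q + 1))) (J a)‖ = 0 := by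
      rw [norm_eq_zero]
      exact h5
    rw [h6] at h4
    have := mul_pos hc (en_pos h2)
    linarith

private theorem Label_Pl {F : Fin m → CPoly N} {k : ℕ} {c : ℝ} (hc : 0 < c) {z : Gen N →₀ ℤ}
    (hz : z ∈ Finsupp.supported ℤ ℤ {y : Gen N | (Liftable F y ∧ y.1 + y.2.1 = 2 * k) ∧ SmallG c y}) :
    Label_P c z ∈
      Finsupp.supported ℤ ℤ {y : Gen N | (Liftable F y ∧ y.1 + y.2.1 = 2 * k) ∧ SmallG c y} := by
  refine Label_map (fun x hx => ?_) hz
  refine Label_mem x ?_ ?_
  · rintro q I s rfl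
    obtain ⟨⟨⟨v, hv⟩, h1⟩, h2⟩ := hx
    refine ⟨⟨⟨v, Label_lift hc hv fun a => Or.inr ?_⟩, h1⟩, h2⟩
    exact Label_lam_spec h2
  · rintro p q I s i rfl
    obtain ⟨⟨⟨v, hv⟩, h1⟩, h2⟩ := hx
    obtain ⟨j, hj⟩ := h2
    have h3 : p + 1 + q = 2 * k := by
      have : p + (q + 1) = 2 * k := h1
      omega
    refine ⟨⟨⟨⟨_, Label_lift hc (AHI.IsLift.face hv i) fun a => ?_⟩, h3⟩, ⟨j, fun t => hj (face i t)⟩⟩,
      ⟨⟨⟨_, Label_lift hc (AHI.IsLift.face hv i) fun a => ?_⟩, h3⟩, ⟨j, fun t => hj (face i t)⟩⟩⟩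
    · refine Fin.cases ?_ (fun a => ?_) a
      · right
        intro t
        exact Label_lam_spec (s := s) ⟨j, hj⟩ (face i t)
      · left
        exact ⟨a, rfl⟩
    · refine Fin.cases ?_ (fun a => ?_) a
      · right
        intro t
        exact Label_lam_spec (s := s ∘ face i) ⟨j, fun t => hj (face i t)⟩ t
      · left
        exact ⟨a, rfl⟩

private theorem Label_hl {F : Fin m → CPoly N} {k : ℕ} {c : ℝ} (hc : 0 < c) {w : FormCochain N}
    {W : Gen N → ℂ} (hW : IsPer F k w W) {z : Gen N →₀ ℤ}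
    (hz : z ∈ Finsupp.supported ℤ ℤ {y : Gen N | (Liftable F y ∧ y.1 + y.2.1 = 2 * k) ∧ SmallG c y}) :
    evc W (bdL (Label_hL c z)) = 0 := by
  rw [Finsupp.supported_eq_span_single] at hz
  induction hz using Submodule.span_induction with
  | mem y hy =>
    obtain ⟨⟨p, q, I, s⟩, hx, rfl⟩ := hy
    obtain ⟨⟨⟨v, hv⟩, h1⟩, h2⟩ := hx
    rw [Label_hL_single]
    unfold bdL
    rw [Finsupp.linearCombination_single, one_smul]
    refine hW.bd _ ⟨v, Label_lift hc hv fun a => ?_⟩ ?_
    · refine Fin.cases ?_ (fun a => ?_) a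
      · right
        exact Label_lam_spec h2
      · left
        exact ⟨a, rfl⟩
    · have h3 : p + q = 2 * k := h1
      change p + 1 + q = 2 * k + 1
      omega
  | zero => simp
  | add a b _ _ ha hb => rw [map_add, map_add, map_add, ha, hb, add_zero]
  | smul a b _ hb => rw [map_smul, map_smul, map_smul, hb, smul_zero]

private theorem Label_iter {F : Fin m → CPoly N} {k : ℕ} {c : ℝ} (hc : 0 < c) (n : ℕ) {z : Gen N →₀ ℤ}
    (hz : z ∈ Finsupp.supported ℤ ℤ {y : Gen N | (Liftable F y ∧ y.1 + y.2.1 = 2 * k) ∧ SmallG c y})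
    (hz0 : bdL z = 0) :
    ((Label_P c : (Gen N →₀ ℤ) → (Gen N →₀ ℤ))^[n]) z ∈
      Finsupp.supported ℤ ℤ {y : Gen N | (Liftable F y ∧ y.1 + y.2.1 = 2 * k) ∧ SmallG c y} ∧
    bdL (((Label_P c : (Gen N →₀ ℤ) → (Gen N →₀ ℤ))^[n]) z) = 0 ∧
    ∀ (w : FormCochain N) (W : Gen N → ℂ), IsPer F k w W →
      evc W (((Label_P c : (Gen N →₀ ℤ) → (Gen N →₀ ℤ))^[n]) z) = evc W z := by
  induction n generalizing z with
  | zero => exact ⟨hz, hz0, fun _ _ _ => rfl⟩
  | succ n ih =>
    have hP : Label_P c z = z - bdL (Label_hL c z) := by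
      change z - (bdL (Label_hL c z) + Label_hL c (bdL z)) = _
      rw [hz0, map_zero, add_zero]
    have h1 := Label_Pl hc hz
    have h2 : bdL (Label_P c z) = 0 := by
      rw [hP, map_sub, hz0, bdL_bdL, sub_zero]
    obtain ⟨h3, h4, h5⟩ := ih h1 h2
    rw [Function.iterate_succ_apply]
    refine ⟨h3, h4, fun w W hW => ?_⟩
    rw [h5 w W hW, hP, map_sub, Label_hl hc hW hz, sub_zero]

theorem exists_good_cycle {F : Fin m → CPoly N} {k : ℕ} {c : ℝ} (hc : 0 < c)
    (hc' : c ^ 2 * (N + 1) < 1) {z : Gen N →₀ ℤ} (hz : IsCyc F k z) :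
    ∃ z' : Gen N →₀ ℤ, IsCyc F k z' ∧ (∀ y ∈ z'.support, CGood c y) ∧
      ∀ (w : FormCochain N) (W : Gen N → ℂ), IsPer F k w W → evc W z' = evc W z := by
  obtain ⟨z₁, h1, h2, h3⟩ := exists_small hc hc' hz
  have hs : z₁ ∈ Finsupp.supported ℤ ℤ
      {y : Gen N | (Liftable F y ∧ y.1 + y.2.1 = 2 * k) ∧ SmallG c y} := by
    rw [Finsupp.mem_supported]
    exact fun y hy => ⟨h1.lift y hy, h2 y hy⟩
  have hg : z₁ ∈ Finsupp.supported ℤ ℤ {y : Gen N | CGood c y ∨ (SmallG c y ∧ y.2.1 < 2 * k + 1)} := by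
    rw [Finsupp.mem_supported]
    intro y hy
    have := (h1.lift y hy).2
    exact Or.inr ⟨h2 y hy, by omega⟩
  obtain ⟨h4, h5, h6⟩ := Label_iter hc (2 * k + 1) hs h1.bd
  have h7 := Label_good (2 * k + 1) hg
  refine ⟨_, ⟨fun y hy => ?_, h5⟩, fun y hy => ?_, fun w W hW => ?_⟩
  · exact ((Finsupp.mem_supported ℤ _).1 h4 hy).1
  · exact (Finsupp.mem_supported ℤ _).1 h7 hy
  · rw [h6 w W hW, h3 w W hW]

end Pool.Agent.AHU
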