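import Mathlib
import Pool.Agent.AHU.Uni
import Pool.Agent.AHU.Label

/-!
# Families of lifts over a ball which does not depend on the simplex

Proofs.  `exists_V2`: adaptation of `AHI.local_lift` and `AHI.exists_V` (file `AHI/Lft.lean`); the
local existence of a smooth `g` on `ball θ₁ ε ×ˢ ball t ε`, for `θ₁` in the `δ`-ball and `t` in the
simplex, is `UD.ex` at the point `unit (v t) ∈ Sph (conjEqs β F)`; the gluing by
`exists_contMDiffMap_forall_mem_convex_of_local` with the constraint sets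
`T (θ, t) = {y | ∀ β', res X β' = θ → θ ∈ closedBall (inc X) (δ / 2) → t ∈ K → ∀ n, ‖n‖ < ρ →
RN2 F β β' (unit (v t)) n → y = v t + en (v t) • n}`; `UD.uniq` gives the consistency.  The local
holomorphy is `UD.ex` again, as at the end of `AHR.exists_family2` (file `AHR/Fam.lean`).

`Phi2_mk`: as `AHI.Good.Phi_mk` (file `AHI/Can.lean`) for the variety `conjEqs β F` and the
automorphism `β.symm.trans β'` (`RN2_iff`); the proof of `Good.Phi_mk` only uses `hG.small`, the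
homogeneity of the equations and the uniqueness; here the uniqueness is `UD.uniq`.

`exists_family3`: as `AHI.exists_family`.  `V (res X β', t) (I a) ≠ 0` because
`‖n‖ < ρ ≤ c / 2` and `c * en (v t) ≤ ‖v t (I a)‖` (`mk_mem_GG`).  `V (res X β, t) = v t` because `n = 0`
is normal and `RN2 F β β`, by uniqueness.
-/

namespace Pool.Agent.AHU

open MvPolynomial Pool.Agent.AHC Pool.Agent.AHI Pool.Agent.AHR Filter
open scoped ContDiff ComplexConjugate Topology LinearAlgebra.Projectivization Manifold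

variable {N m : ℕ}

/-- the canonical map from the conjugate by `β` to the conjugate by `β'` -/
noncomputable def Phi2 (F : Fin m → CPoly N) (ρ : ℝ) (β β' : ℂ ≃+* ℂ) :
    ℙ ℂ (Fin (N + 1) → ℂ) → ℙ ℂ (Fin (N + 1) → ℂ) :=
  Phi (conjEqs β F) ρ (β.symm.trans β')

theorem Phi2_mk {F : Fin m → CPoly N} {X : Finset ℂ} {c ρ δ : ℝ} (hU : UD F X c ρ δ)
    {β β' : ℂ ≃+* ℂ} (hβ : dist (res X β) (inc X) < δ) (hβ' : dist (res X β') (inc X) < δ)
    {v n : Fin (N + 1) → ℂ} (hv : v ≠ 0) (hvc : OnCone (conjEqs β F) v) (hn : ‖n‖ < ρ)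
    (h : RN2 F β β' (unit v) n) :
    ∃ h' : v + (en v : ℂ) • n ≠ 0, Phi2 F ρ β β' (Projectivization.mk ℂ v hv) =
      Projectivization.mk ℂ (v + (en v : ℂ) • n) h' := by
  classical
  have hhom := homogeneous_conjEqs hU.smooth.homogeneous β
  have henv : (en v : ℂ) ≠ 0 := by exact_mod_cast (en_pos hv).ne'
  have h1 : v + (en v : ℂ) • n = (en v : ℂ) • (unit v + n) := by
    rw [smul_add, smul_unit hv]
  have h2 : unit v + n ≠ 0 := add_ne_zero hU.small (sq_unit hv) hn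
  have h3 : v + (en v : ℂ) • n ≠ 0 := by
    rw [h1]
    exact smul_ne_zero henv h2
  refine ⟨h3, ?_⟩
  set y := Projectivization.mk ℂ v hv with hy
  have hrep0 : y.rep ≠ 0 := y.rep_nonzero
  obtain ⟨a, ha⟩ := Projectivization.exists_smul_eq_mk_rep ℂ v hv
  have ha' : (a : ℂ) • v = y.rep := ha
  have ha0 : (a : ℂ) ≠ 0 := a.ne_zero
  -- the unit representative
  have henr : (en y.rep : ℂ) ≠ 0 := by exact_mod_cast (en_pos hrep0).ne'
  let u : ℂ := (en y.rep : ℂ)⁻¹ * a * en v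
  have hu : unit y.rep = u • unit v := by
    unfold unit
    rw [← ha', smul_smul, smul_smul]
    congr 1
    simp only [u]
    rw [← ha']
    field_simp
  have hu0 : u ≠ 0 := mul_ne_zero (mul_ne_zero (inv_ne_zero henr) ha0) henv
  have hun : ‖u‖ = 1 := by
    have h4 := sq_unit hrep0
    rw [hu, sq_smul, sq_unit hv, mul_one, Complex.normSq_eq_norm_sq] at h4
    nlinarith [norm_nonneg u]
  have hS : u • unit v ∈ Sph (conjEqs β F) := by
    refine ⟨?_, OnCone.smul hhom _ (OnCone.smul hhom _ hvc)⟩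
    rw [← hu]
    exact sq_unit hrep0
  have hnb : nb (conjEqs β F) ρ (β.symm.trans β') (unit y.rep) = u • n := by
    rw [hu]
    have hRN := RN.smul hhom hu0 (RN2_iff.1 h)
    have hsm : ‖u • n‖ < ρ := by
      rw [norm_smul, hun, one_mul]
      exact hn
    have hex : ∃ n, ‖n‖ < ρ ∧ RN (conjEqs β F) (β.symm.trans β') (u • unit v) n :=
      ⟨u • n, hsm, hRN⟩
    unfold nb
    rw [dif_pos hex]
    exact hU.uniq β β' hβ hβ' _ hS _ _ hex.choose_spec.1 hsm (RN2_iff.2 hex.choose_spec.2)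
      (RN2_iff.2 hRN)
  have h5 : unit y.rep + nb (conjEqs β F) ρ (β.symm.trans β') (unit y.rep) =
      (u * (en v : ℂ)⁻¹) • (v + (en v : ℂ) • n) := by
    rw [hnb, hu, h1, smul_smul, mul_assoc, inv_mul_cancel₀ henv, mul_one, smul_add]
  have h6 : u * (en v : ℂ)⁻¹ ≠ 0 := mul_ne_zero hu0 (inv_ne_zero henv)
  have h7 : unit y.rep + nb (conjEqs β F) ρ (β.symm.trans β') (unit y.rep) ≠ 0 := by
    rw [h5]
    exact smul_ne_zero h6 h3
  unfold Phi2 Phi
  rw [dif_pos h7, Projectivization.mk_eq_mk_iff']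
  exact ⟨u * (en v : ℂ)⁻¹, h5.symm⟩

/-- local form of the family of lifts -/
private theorem Fm_local {F : Fin m → CPoly N} {X : Finset ℂ} {c ρ δ : ℝ} (hU : UD F X c ρ δ)
    {β : ℂ ≃+* ℂ} (hβ : dist (res X β) (inc X) < δ) {q : ℕ}
    {v : (Fin (q + 1) → ℝ) → (Fin (N + 1) → ℂ)} (hv : ContDiff ℝ ∞ v) {θ₁ : X → ℂ}
    (hθ₁ : θ₁ ∈ Metric.ball (inc X) δ)
    {t : Fin (q + 1) → ℝ} (hvt : v t ≠ 0) (hvc : OnCone (conjEqs β F) (v t)) :
    ∃ ε > 0, ∃ g : (X → ℂ) × (Fin (q + 1) → ℝ) → (Fin (N + 1) → ℂ),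
      ContDiffOn ℝ ∞ g (Metric.ball θ₁ ε ×ˢ Metric.ball t ε) ∧
      ∀ θ ∈ Metric.ball θ₁ ε, ∀ t' ∈ Metric.ball t ε,
        DifferentiableAt ℂ (fun θ => g (θ, t')) θ ∧
        ∀ β' : ℂ ≃+* ℂ, res X β' = θ → OnCone (conjEqs β F) (v t') →
          ∃ n, ‖n‖ < ρ ∧ RN2 F β β' (unit (v t')) n ∧
            g (θ, t') = v t' + (en (v t') : ℂ) • n := by
  have hhom := homogeneous_conjEqs hU.smooth.homogeneous β
  have hS := unit_mem_Sph hhom hvt hvc
  obtain ⟨ε₀, hε₀, ν, hν⟩ := hU.ex β hβ _ hS θ₁ hθ₁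
  have hvcont : ContinuousAt v t := hv.continuous.continuousAt
  have hucont : ContinuousAt (fun t' => unit (v t')) t :=
    ContinuousAt.comp (x := t) (g := unit) (contDiffAt_unit (k := 0) hvt).continuousAt hvcont
  have h2 : ∀ᶠ t' in 𝓝 t, unit (v t') ∈ Metric.ball (unit (v t)) ε₀ :=
    hucont.eventually (Metric.ball_mem_nhds _ hε₀)
  have h3 : ∀ᶠ t' in 𝓝 t, v t' ≠ 0 := hvcont.eventually_ne hvt
  obtain ⟨ε₁, hε₁, h4⟩ := Metric.eventually_nhds_iff.1 (h2.and h3)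
  refine ⟨min ε₀ ε₁, lt_min hε₀ hε₁, fun x => v x.2 + (en (v x.2) : ℂ) • ν (x.1, unit (v x.2)),
    ?_, ?_⟩
  · rintro x ⟨hx1, hx2⟩
    obtain ⟨h5, h6⟩ := h4 (Metric.ball_subset_ball (min_le_right _ _) hx2 : x.2 ∈ Metric.ball t ε₁)
    have h7 := (hν x.1 (Metric.ball_subset_ball (min_le_left _ _) hx1) _ h5).1
    refine ContDiffAt.contDiffWithinAt ?_
    have hv2 : ContDiffAt ℝ ∞ (fun x : (X → ℂ) × (Fin (q + 1) → ℝ) => v x.2) x :=
      hv.contDiffAt.comp x contDiffAt_snd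
    refine ContDiffAt.add hv2 ?_
    have hen : ContDiffAt ℝ ∞ (fun x : (X → ℂ) × (Fin (q + 1) → ℝ) => (en (v x.2) : ℂ)) x :=
      ContDiffAt.comp (g := fun z : Fin (N + 1) → ℂ => (en z : ℂ)) x (contDiffAt_en h6) hv2
    have hun : ContDiffAt ℝ ∞ (fun x : (X → ℂ) × (Fin (q + 1) → ℝ) => unit (v x.2)) x :=
      ContDiffAt.comp (g := unit) x (contDiffAt_unit h6) hv2
    have hνx : ContDiffAt ℝ ∞ (fun x : (X → ℂ) × (Fin (q + 1) → ℝ) => ν (x.1, unit (v x.2))) x :=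
      ContDiffAt.comp (g := ν) x (h7.of_le (by simp)) (contDiffAt_fst.prodMk hun)
    rw [contDiffAt_pi] at hνx ⊢
    intro l
    simp only [Pi.smul_apply, smul_eq_mul]
    exact hen.mul (hνx l)
  · intro θ hθ t' ht'
    obtain ⟨h5, h6⟩ := h4 (Metric.ball_subset_ball (min_le_right _ _) ht' : t' ∈ Metric.ball t ε₁)
    obtain ⟨-, h8, h9⟩ := hν θ (Metric.ball_subset_ball (min_le_left _ _) hθ) _ h5
    refine ⟨(h8.const_smul (en (v t') : ℂ)).const_add (v t'), fun β' hβ' hc =>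
      ⟨ν (θ, unit (v t')), ?_⟩⟩
    have h10 := h9 β' hβ' (OnCone.smul hhom _ hc)
    exact ⟨h10.2, h10.1, rfl⟩

theorem exists_V2 {F : Fin m → CPoly N} {X : Finset ℂ} {c ρ δ : ℝ} (hU : UD F X c ρ δ)
    {β : ℂ ≃+* ℂ} (hβ : dist (res X β) (inc X) < δ) {q : ℕ}
    {v : (Fin (q + 1) → ℝ) → (Fin (N + 1) → ℂ)} (hv : ContDiff ℝ ∞ v)
    (hv0 : ∀ t ∈ stdSimplex ℝ (Fin (q + 1)), v t ≠ 0)
    (hvc : ∀ t ∈ stdSimplex ℝ (Fin (q + 1)), OnCone (conjEqs β F) (v t)) :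
    ∃ V : (X → ℂ) × (Fin (q + 1) → ℝ) → (Fin (N + 1) → ℂ), ContDiff ℝ ∞ V ∧
      (∀ β' : ℂ ≃+* ℂ, dist (res X β') (inc X) < δ / 2 → ∀ t ∈ stdSimplex ℝ (Fin (q + 1)),
        ∃ n, ‖n‖ < ρ ∧ RN2 F β β' (unit (v t)) n ∧
          V (res X β', t) = v t + (en (v t) : ℂ) • n) ∧
      ∀ t ∈ stdSimplex ℝ (Fin (q + 1)), LocHol X (δ / 2) fun θ => V (θ, t) := by
  set K := stdSimplex ℝ (Fin (q + 1)) with hK
  have hδ := hU.δpos
  have hhom := homogeneous_conjEqs hU.smooth.homogeneous β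
  have hS : ∀ t ∈ K, unit (v t) ∈ Sph (conjEqs β F) := fun t ht =>
    unit_mem_Sph hhom (hv0 t ht) (hvc t ht)
  -- the constraint sets
  let T : (X → ℂ) × (Fin (q + 1) → ℝ) → Set (Fin (N + 1) → ℂ) := fun x =>
    {y | ∀ β' : ℂ ≃+* ℂ, res X β' = x.1 → x.1 ∈ Metric.closedBall (inc X) (δ / 2) → x.2 ∈ K →
      ∀ n, ‖n‖ < ρ → RN2 F β β' (unit (v x.2)) n → y = v x.2 + (en (v x.2) : ℂ) • n}
  have hT : ∀ x, Convex ℝ (T x) := by
    intro x y hy y' hy' a b _ _ hab β' h1 h2 h3 n h4 h5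
    rw [hy β' h1 h2 h3 n h4 h5, hy' β' h1 h2 h3 n h4 h5, ← add_smul, hab, one_smul]
  have hHloc : ∀ x : (X → ℂ) × (Fin (q + 1) → ℝ), ∃ U ∈ 𝓝 x,
      ∃ g : (X → ℂ) × (Fin (q + 1) → ℝ) → (Fin (N + 1) → ℂ),
        ContMDiffOn 𝓘(ℝ, (X → ℂ) × (Fin (q + 1) → ℝ)) 𝓘(ℝ, Fin (N + 1) → ℂ)
          ((⊤ : ℕ∞) : WithTop ℕ∞) g U ∧ ∀ y ∈ U, g y ∈ T y := by
    intro x
    by_cases hx : x.1 ∈ Metric.closedBall (inc X) (δ / 2) ∧ x.2 ∈ K
    · have hx1 : x.1 ∈ Metric.ball (inc X) δ := by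
        rw [Metric.mem_ball]
        have := Metric.mem_closedBall.1 hx.1
        linarith
      obtain ⟨ε, hε, g, h1, h2⟩ := Fm_local hU hβ hv hx1 (hv0 _ hx.2) (hvc _ hx.2)
      refine ⟨Metric.ball x.1 ε ×ˢ Metric.ball x.2 ε, ?_, g, ?_, ?_⟩
      · exact prod_mem_nhds (Metric.ball_mem_nhds _ hε) (Metric.ball_mem_nhds _ hε)
      · rw [contMDiffOn_iff_contDiffOn]
        exact h1
      · rintro ⟨θ, t⟩ ⟨hθ, ht⟩ β' hβ' hθc htK n hn hRN
        have hβ'θ : res X β' = θ := hβ'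
        obtain ⟨n', h3, h4, h5⟩ := (h2 θ hθ t ht).2 β' hβ'θ (hvc t htK)
        have hd : dist (res X β') (inc X) < δ := by
          rw [hβ'θ]
          have := Metric.mem_closedBall.1 hθc
          have h7 : dist θ (inc X) ≤ δ / 2 := this
          linarith
        have h6 : n = n' := hU.uniq β β' hβ hd _ (hS t htK) n n' hn h3 hRN h4
        rw [h6]
        exact h5
    · refine ⟨{y | ¬ (y.1 ∈ Metric.closedBall (inc X) (δ / 2) ∧ y.2 ∈ K)}, ?_, fun _ => 0,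
        contMDiffOn_const, ?_⟩
      · refine IsOpen.mem_nhds ?_ hx
        have : IsClosed {y : (X → ℂ) × (Fin (q + 1) → ℝ) |
            y.1 ∈ Metric.closedBall (inc X) (δ / 2) ∧ y.2 ∈ K} :=
          (Metric.isClosed_closedBall.preimage continuous_fst).inter
            ((isClosed_stdSimplex ℝ (Fin (q + 1))).preimage continuous_snd)
        exact this.isOpen_compl
      · rintro y hy β' _ h1 h2
        exact absurd ⟨h1, h2⟩ hy
  obtain ⟨V, hV⟩ := exists_contMDiffMap_forall_mem_convex_of_local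
    (I := 𝓘(ℝ, (X → ℂ) × (Fin (q + 1) → ℝ))) (F := Fin (N + 1) → ℂ) (n := (⊤ : ℕ∞)) hT hHloc
  have hprop : ∀ β' : ℂ ≃+* ℂ, dist (res X β') (inc X) < δ / 2 → ∀ t ∈ K,
      ∃ n, ‖n‖ < ρ ∧ RN2 F β β' (unit (v t)) n ∧
        V (res X β', t) = v t + (en (v t) : ℂ) • n := by
    intro β' hβ' t ht
    have hd : res X β' ∈ Metric.ball (inc X) δ := Metric.mem_ball.2 (by linarith)
    obtain ⟨ε, hε, g, -, h2⟩ := Fm_local hU hβ hv hd (hv0 t ht) (hvc t ht)
    obtain ⟨n, h3, h4, -⟩ := (h2 _ (Metric.mem_ball_self hε) t (Metric.mem_ball_self hε)).2 β' rfl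
      (hvc t ht)
    exact ⟨n, h3, h4, hV (res X β', t) β' rfl (Metric.mem_closedBall.2 hβ'.le) ht n h3 h4⟩
  refine ⟨V, ?_, hprop, ?_⟩
  · have h1 := V.contMDiff
    rw [contMDiff_iff_contDiff] at h1
    exact h1
  · intro t ht θ hθ
    have hθδ : θ ∈ Metric.ball (inc X) δ := Metric.ball_subset_ball (by linarith) hθ
    obtain ⟨ε, hε, g, -, h2⟩ := Fm_local hU hβ hv hθδ (hv0 t ht) (hvc t ht)
    refine ⟨fun θ => g (θ, t),
      (h2 θ (Metric.mem_ball_self hε) t (Metric.mem_ball_self hε)).1, ?_⟩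
    filter_upwards [Metric.isOpen_ball.mem_nhds hθ, Metric.ball_mem_nhds θ hε] with θ' h3 h4 β' hβ'
    have hd2 : dist (res X β') (inc X) < δ / 2 := by
      rw [hβ']
      exact h3
    obtain ⟨n, h5, h6, h7⟩ := hprop β' hd2 t ht
    obtain ⟨n', h8, h9, h10⟩ := (h2 θ' h4 t (Metric.mem_ball_self hε)).2 β' hβ' (hvc t ht)
    have h11 : n = n' := hU.uniq β β' hβ (by linarith) _ (hS t ht) n n' h5 h8 h6 h9
    rw [hβ'] at h7
    rw [h7, h10, h11]

theorem exists_family3 {F : Fin m → CPoly N} {X : Finset ℂ} {c ρ δ : ℝ} (hU : UD F X c ρ δ)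
    (hc : 0 < c) {β : ℂ ≃+* ℂ} (hβ : dist (res X β) (inc X) < δ / 2) {p : ℕ}
    {I : Fin (p + 1) → Fin (N + 1)} {q : ℕ} {s : Simplex N q}
    {v : (Fin (q + 1) → ℝ) → (Fin (N + 1) → ℂ)} (hv : IsLift (conjEqs β F) I s v)
    (hg : ∀ t a, s t ∈ GG c (I a)) :
    ∃ V : (X → ℂ) × (Fin (q + 1) → ℝ) → (Fin (N + 1) → ℂ), ContDiff ℝ ∞ V ∧
      (∀ t ∈ stdSimplex ℝ (Fin (q + 1)), V (res X β, t) = v t) ∧
      (∀ β' : ℂ ≃+* ℂ, dist (res X β') (inc X) < δ / 2 →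
        IsLift (conjEqs β' F) I (fun t => Phi2 F ρ β β' (s t)) (fun t => V (res X β', t)) ∧
        ∀ t ∈ stdSimplex ℝ (Fin (q + 1)), ‖V (res X β', t) - v t‖ ≤ ρ * en (v t)) ∧
      (∀ t ∈ stdSimplex ℝ (Fin (q + 1)), LocHol X (δ / 2) fun θ => V (θ, t)) ∧
      ∀ t ∈ stdSimplex ℝ (Fin (q + 1)), ∀ a, c * en (v t) ≤ ‖v t (I a)‖ := by
  have hδ := hU.δpos
  have hβδ : dist (res X β) (inc X) < δ := by linarith
  have hhom := homogeneous_conjEqs hU.smooth.homogeneous β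
  have hv0 : ∀ t ∈ stdSimplex ℝ (Fin (q + 1)), v t ≠ 0 := fun t ht =>
    (hv.lifts ⟨t, ht⟩).1
  obtain ⟨V, hV, h1, hhol⟩ := exists_V2 hU hβδ hv.smooth hv0 hv.onCone
  have hbig : ∀ t ∈ stdSimplex ℝ (Fin (q + 1)), ∀ a, c * en (v t) ≤ ‖v t (I a)‖ := by
    intro t ht a
    obtain ⟨h2, h3⟩ := hv.lifts ⟨t, ht⟩
    have h4 := hg ⟨t, ht⟩ a
    rw [h3] at h4
    exact (mk_mem_GG h2).1 h4
  have hcoord : ∀ (t : Fin (q + 1) → ℝ) (n : Fin (N + 1) → ℂ),
      ‖(en (v t) : ℂ) • n‖ = en (v t) * ‖n‖ := by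
    intro t n
    have h0 : 0 ≤ en (v t) := Real.sqrt_nonneg _
    rw [norm_smul, Complex.norm_real, Real.norm_eq_abs, abs_of_nonneg h0]
  refine ⟨V, hV, ?_, ?_, hhol, hbig⟩
  · intro t ht
    obtain ⟨n, h2, h3, h4⟩ := h1 β hβ t ht
    have hS := unit_mem_Sph hhom (hv0 t ht) (hv.onCone t ht)
    have h0 : RN2 F β β (unit (v t)) 0 := by
      refine ⟨Submodule.zero_mem _, ?_⟩
      have h6 : (fun l => unit (v t) l + (0 : Fin (N + 1) → ℂ) l) = unit (v t) := by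
        funext l
        rw [Pi.zero_apply, add_zero]
      rw [h6]
      exact hS.2
    have h5 : n = 0 := hU.uniq β β hβδ hβδ _ hS n 0 h2 (by rw [norm_zero]; exact hU.pos) h3 h0
    rw [h4, h5, smul_zero, add_zero]
  · intro β' hβ'
    have hβ'δ : dist (res X β') (inc X) < δ := by linarith
    refine ⟨⟨?_, ?_, ?_, ?_⟩, ?_⟩
    · exact hV.comp (contDiff_const.prodMk contDiff_id)
    · intro t ht
      obtain ⟨n, h6, h7, h8⟩ := h1 β' hβ' t ht
      rw [h8]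
      have h9 : v t + (en (v t) : ℂ) • n = (en (v t) : ℂ) • fun l => unit (v t) l + n l := by
        have h10 : (fun l => unit (v t) l + n l) = unit (v t) + n := rfl
        rw [h10, smul_add, smul_unit (hv0 t ht)]
      rw [h9]
      exact OnCone.smul (homogeneous_conjEqs hU.smooth.homogeneous β') _ h7.2
    · intro t ht a h0
      obtain ⟨n, h6, -, h8⟩ := h1 β' hβ' t ht
      have h9 : V (res X β', t) (I a) = v t (I a) + ((en (v t) : ℂ) • n) (I a) := by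
        rw [h8]
        rfl
      have h0' : V (res X β', t) (I a) = 0 := h0
      rw [h0'] at h9
      have h10 : v t (I a) = -((en (v t) : ℂ) • n) (I a) := by
        rw [eq_neg_iff_add_eq_zero]
        exact h9.symm
      have h11 : ‖v t (I a)‖ ≤ en (v t) * ‖n‖ := by
        rw [h10, norm_neg, ← hcoord t n]
        exact norm_le_pi_norm _ _
      have h12 := hbig t ht a
      have h13 := en_pos (hv0 t ht)
      have h14 : ‖n‖ < c / 2 := h6.trans_le hU.le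
      have h15 : en (v t) * ‖n‖ < en (v t) * (c / 2) := mul_lt_mul_of_pos_left h14 h13
      nlinarith
    · intro t
      obtain ⟨n, h6, h7, h8⟩ := h1 β' hβ' t t.2
      obtain ⟨h9, h10⟩ := hv.lifts t
      obtain ⟨h11, h12⟩ := Phi2_mk hU hβδ hβ'δ h9 (hv.onCone t t.2) h6 h7
      simp only [h8, h10]
      exact ⟨h11, h12⟩
    · intro t ht
      obtain ⟨n, h6, -, h8⟩ := h1 β' hβ' t ht
      rw [h8, add_sub_cancel_left, hcoord, mul_comm]
      exact mul_le_mul_of_nonneg_right h6.le (Real.sqrt_nonneg _)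

end Pool.Agent.AHU
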