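import Mathlib
import Pool.Agent.AHU.Fm
import Pool.Agent.AHR.Flat

/-!
# The periods over all cycles of all nearby conjugates are holomorphic on one ball

Proof (compare the proof of `AHR.flat` in `AHR/Flat.lean`).  Let `c = 1 / (N + 2)`,
`A₂` the coefficients of the forms (`exists_coeffs`), `X, ρ, δ₀` from `exists_UD` with `Y := Y ∪ A₂`,
`δ = δ₀ / 2`.  Let `β₂, W, z` be given, `z₁` the good cycle of `exists_good_cycle` (for
`conjEqs β₂ F` and this `c`), with `evc W z₁ = evc W z`.  For `y` in its support take a lift `v y` and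
`V y` from `exists_family3`, and `Q θ = ∑ y (z₁ y) GI X (w ..) θ (V y (θ, ·))`.  For `β'` in the
`δ`-ball `z' = mapDomain (push (Phi2 F ρ β₂ β')) z₁` is a cycle (`IsCyc.push`) and
`evc W' z' = Q (res X β')` (`GI_res`, `IsPer.int`), for `β' = β₂` also `Q (res X β₂) = evc W z₁`
(`formIntegral_congr`).  Holomorphy along `γ`: `hol_GI` and `hol_V`; here
`V y (γ s, t) (I a) ≠ 0` for all `s` in the disc: for the `s` with `γ s = res X β'` we have
`‖V y (γ s, t) - v y t‖ ≤ ρ * en (v y t)`; these `s` are dense and `V y` and `γ` are continuous, so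
this holds for all `s`, and `ρ * en (v y t) ≤ c / 2 * en (v y t) < ‖v y t (I a)‖`.
-/

namespace Pool.Agent.AHU

open MvPolynomial Pool.Agent.AHC Pool.Agent.AHI Pool.Agent.AHR Filter
open scoped ContDiff Topology LinearAlgebra.Projectivization

variable {N m : ℕ}

theorem up {F : Fin m → CPoly N} {k : ℕ} {w : FormCochain N} (hsm : IsSmoothProjective F)
    (hh : IsHodgeCochain k w) (Y : Finset ℂ) :
    ∃ (X : Finset ℂ) (δ : ℝ), Y ⊆ X ∧ 0 < δ ∧ ∀ β₂ : ℂ ≃+* ℂ, dist (res X β₂) (inc X) < δ →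
      ∀ W, IsPer (conjEqs β₂ F) k (w.conj β₂) W → ∀ z, IsCyc (conjEqs β₂ F) k z →
      ∃ Q : (X → ℂ) → ℂ,
        (∀ β' : ℂ ≃+* ℂ, dist (res X β') (inc X) < δ → ∃ z', IsCyc (conjEqs β' F) k z' ∧
          ∀ W', IsPer (conjEqs β' F) k (w.conj β') W' → evc W' z' = Q (res X β')) ∧
        Q (res X β₂) = evc W z ∧
        ∀ γ : ℂ → (X → ℂ), DifferentiableOn ℂ γ (Metric.ball 0 2) →
          (∀ s ∈ Metric.ball (0 : ℂ) 2, γ s ∈ Metric.ball (inc X) δ) →
          Metric.ball 0 2 ⊆ closure {s : ℂ | s ∈ Metric.ball 0 2 ∧ ∃ β ∈ GA, res X β = γ s} →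
          DifferentiableOn ℂ (fun s => Q (γ s)) (Metric.ball 0 2) := by
  classical
  obtain ⟨A2, hA2⟩ := exists_coeffs k w
  set c : ℝ := 1 / (N + 2) with hcdef
  have hc : 0 < c := by rw [hcdef]; positivity
  have hc' : c ^ 2 * (N + 1) < 1 := by
    rw [hcdef, div_pow, one_pow, div_mul_eq_mul_div, one_mul, div_lt_one (by positivity)]
    have : (0 : ℝ) ≤ N := Nat.cast_nonneg N
    nlinarith
  obtain ⟨X, ρ, δ₀, hYX, hU⟩ := exists_UD hsm (Y ∪ A2) hc
  have hcoef : ∀ p q, p + q = 2 * k → ∀ I, ∀ x ∈ w p q I,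
      x.1.num.coeffs ⊆ X ∧ ∀ b, (x.2 b).num.coeffs ⊆ X := fun p q hpq I x hx =>
    ⟨((hA2 p q hpq I x hx).1.trans Finset.subset_union_right).trans hYX,
      fun b => (((hA2 p q hpq I x hx).2 b).trans Finset.subset_union_right).trans hYX⟩
  refine ⟨X, δ₀ / 2, Finset.subset_union_left.trans hYX, half_pos hU.δpos, ?_⟩
  intro β₂ hβ₂ W hW z hz
  obtain ⟨z₁, hz₁, hgood, hev⟩ := exists_good_cycle hc hc' hz
  have hevz := hev _ W hW
  choose v hv using fun y : z₁.support => (hz₁.lift y y.2).1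
  choose V hVs hVi hVl hVh hVc using fun y : z₁.support =>
    exists_family3 hU hc hβ₂ (hv y) (hgood y.1 y.2)
  have hdeg : ∀ y : z₁.support, y.1.1 + y.1.2.1 = 2 * k := fun y => (hz₁.lift y y.2).2
  refine ⟨fun θ => ∑ y : z₁.support,
    (z₁ y.1 : ℂ) * GI X (w y.1.1 y.1.2.1 y.1.2.2.1) θ fun t => V y (θ, t), ?_, ?_, ?_⟩
  · intro β' hβ'
    have hl : ∀ y : z₁.support, IsLift (conjEqs β' F) y.1.2.2.1
        (AHI.push (Phi2 F ρ β₂ β') y.1).2.2.2 (fun t => V y (res X β', t)) :=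
      fun y => (hVl y β' hβ').1
    refine ⟨_, hz₁.push (Φ := Phi2 F ρ β₂ β') fun y hy => ⟨_, hl ⟨y, hy⟩⟩, ?_⟩
    intro W' hW'
    rw [evc_mapDomain, evc_eq_sum]
    rw [← Finset.sum_coe_sort]
    refine Finset.sum_congr rfl fun y _ => ?_
    congr 1
    rw [GI_res (hcoef _ _ (hdeg y) _) β']
    exact (hW'.int (AHI.push (Phi2 F ρ β₂ β') y.1) (hdeg y) _ (hl y)).symm
  · rw [← hevz, evc_eq_sum, ← Finset.sum_coe_sort]
    refine Finset.sum_congr rfl fun y _ => ?_
    congr 1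
    rw [GI_res (hcoef _ _ (hdeg y) _) β₂, formIntegral_congr (hVi y)]
    exact hW.int y.1 (hdeg y) _ (hv y)
  · intro γ hγd hγδ hγD
    refine DifferentiableOn.fun_sum fun y _ => DifferentiableOn.const_mul ?_ _
    have hdif : ∀ t ∈ stdSimplex ℝ (Fin (y.1.2.1 + 1)),
        DifferentiableOn ℂ (fun s => V y (γ s, t)) (Metric.ball 0 2) := by
      intro t ht
      refine hol_V (f := fun θ => V y (θ, t)) ?_ (hVh y t ht) hγd hγδ hγD
      exact (hVs y).continuous.comp (Continuous.prodMk continuous_id continuous_const)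
    refine hol_GI (hh.1 _ _ (hdeg y) _) (hVs y) hγd ?_ hdif
    intro s hs t ht a
    have hcont : ContinuousOn (fun s => ‖V y (γ s, t) - v y t‖) (Metric.ball 0 2) :=
      ((hdif t ht).continuousOn.sub continuousOn_const).norm
    have h2 : ∃ᶠ x in 𝓝[Metric.ball 0 2] s, x ∈ Metric.ball (0 : ℂ) 2 ∧
        ∃ β ∈ GA, res X β = γ x := by
      have h3 := mem_closure_iff_frequently.1 (hγD hs)
      have h4 : 𝓝[Metric.ball 0 2] s = 𝓝 s := Metric.isOpen_ball.nhdsWithin_eq hs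
      rw [h4]
      exact h3
    have h3 : Tendsto (fun s => ‖V y (γ s, t) - v y t‖) (𝓝[Metric.ball 0 2] s)
        (𝓝 ‖V y (γ s, t) - v y t‖) := hcont s hs
    have h4 : ‖V y (γ s, t) - v y t‖ ≤ ρ * en (v y t) :=
      isClosed_Iic.mem_of_frequently_of_tendsto
        (h2.mono fun x hx => by
          obtain ⟨hx1, β, -, hβ⟩ := hx
          have h5 : dist (res X β) (inc X) < δ₀ / 2 := by
            rw [hβ]
            exact hγδ x hx1
          have h6 := (hVl y β h5).2 t ht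
          rw [hβ] at h6
          exact h6) h3
    have h5 := hVc y t ht a
    have h6 : 0 < en (v y t) := en_pos (by
      have h7 := (hv y).lifts ⟨t, ht⟩
      exact h7.1)
    have h8 : ‖(V y (γ s, t) - v y t) (y.1.2.2.1 a)‖ ≤ ‖V y (γ s, t) - v y t‖ :=
      norm_le_pi_norm _ _
    intro h9
    rw [Pi.sub_apply, h9, zero_sub, norm_neg] at h8
    have h10 : ρ * en (v y t) ≤ c / 2 * en (v y t) :=
      mul_le_mul_of_nonneg_right hU.le h6.le
    have h11 : 0 < c * en (v y t) := mul_pos hc h6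
    linarith

end Pool.Agent.AHU
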