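import Mathlib
import Pool.Agent.AHU.UP
import Pool.Agent.AHU.Crv
import Pool.Agent.AHU.Ext

/-!
# Local dichotomy: real periods near one conjugate give real constant periods on the whole ball

Proof.  Let `X, δ` be from `up` (with `Y` the union of the coefficients of the equations `F` and of
the forms, `exists_coeffs`), and `ε` from `exists_curve2` for `U = ball (inc X) δ`; make
`ε < δ`.  Let `β₁` be as in the statement, `β₂ ∈ GA` near the identity, `W` the period function of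
the conjugate by `β₂` (hypothesis `hcl`), `z` a cycle, `Q` from `up`, and `γ` a curve with
`γ 0 = res X β₁`, `γ 1 = res X β₂`.  `f s = ((2πi)^k)⁻¹ Q (γ s)` is holomorphic on the disc.  By
`near_ext` (for `X`, `X₂`, `β₁`, `ε₂`) there is `ε' > 0` such that for every `β ∈ GA` within `ε'` of `β₁` on
`X` there is `β₃ ∈ GA` with `β₃ = β` on `X`, near `β₁` on `X₂`; so `PerIn A` holds for `β₃`, and for
`β` (the conjugates by `β` and `β₃` are equal, because they agree on the coefficients).  So for `s`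
near `0` with `γ s = res X β`, `β ∈ GA`: `f s ∈ A`, so it is real; these `s` are dense near `0`, so
`f` is constant on a small disc around `0` (`const_of_real`, after rescaling) and then on the whole
disc (identity theorem: `AnalyticOnNhd.eqOn_of_preconnected_of_eventuallyEq`).  So
`f 1 = f 0 ∈ A`: the value at `0` is the one of `β₁` itself.
-/

namespace Pool.Agent.AHU

open MvPolynomial Pool.Agent.AHC Pool.Agent.AHI Pool.Agent.AHR Filter
open scoped Topology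

variable {N m : ℕ}

/-- the conjugate of a rational function depends only on the values at the coefficients -/
private theorem Loc_ratFun {σ τ : ℂ ≃+* ℂ} {f : RatFun N}
    (h : ∀ c ∈ f.num.coeffs, σ c = τ c) : f.conj σ = f.conj τ := by
  unfold RatFun.conj
  rw [map_congr_coeffs h]

private theorem Loc_form {X : Finset ℂ} {p q : ℕ} {I : Fin (p + 1) → Fin (N + 1)}
    {w : FormCochain N} (h : ∀ x ∈ w p q I, x.1.num.coeffs ⊆ X ∧ ∀ b, (x.2 b).num.coeffs ⊆ X)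
    {σ τ : ℂ ≃+* ℂ} (hst : ∀ x ∈ X, σ x = τ x) : (w.conj σ) p q I = (w.conj τ) p q I := by
  unfold FormCochain.conj
  refine List.map_congr_left fun x hx => ?_
  obtain ⟨h1, h2⟩ := h x hx
  rw [Loc_ratFun fun c hc => hst c (h1 hc)]
  congr 1
  funext b
  exact Loc_ratFun fun c hc => hst c (h2 b hc)

/-- `PerIn` for two automorphisms which agree on the coefficients -/
private theorem Loc_perIn {X : Finset ℂ} {F : Fin m → CPoly N} {k : ℕ} {w : FormCochain N}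
    {A : Set ℂ} (hF : ∀ i, (F i).coeffs ⊆ X)
    (hcoef : ∀ p q, p + q = 2 * k → ∀ I, ∀ x ∈ w p q I,
      x.1.num.coeffs ⊆ X ∧ ∀ b, (x.2 b).num.coeffs ⊆ X)
    {σ τ : ℂ ≃+* ℂ} (hst : ∀ x ∈ X, σ x = τ x) (h : PerIn A (conjEqs σ F) k (w.conj σ)) :
    PerIn A (conjEqs τ F) k (w.conj τ) := by
  have hE : conjEqs σ F = conjEqs τ F := by
    funext i
    exact map_congr_coeffs fun c hc => hst c (hF i hc)
  rw [← hE]
  obtain ⟨W, hW, hz⟩ := h
  refine ⟨W, ⟨fun x hx v hv => ?_, hW.bd⟩, hz⟩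
  rw [← Loc_form (hcoef _ _ hx _) hst]
  exact hW.int x hx v hv

/-- if the periods are real near one conjugate `β₁`, and the periods of the conjugate `β₁` are in `B`, then the periods
of all nearby conjugates are in `B` -/
theorem local_dich2 {F : Fin m → CPoly N} {k : ℕ} {w : FormCochain N} (hsm : IsSmoothProjective F)
    (hh : IsHodgeCochain k w)
    (hcl : ∀ σ : ℂ ≃+* ℂ, ∃ W, IsPer (conjEqs σ F) k (w.conj σ) W) {A B : Set ℂ} (hA : A ⊆ RC) :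
    ∃ (X : Finset ℂ) (ε : ℝ), 0 < ε ∧ ∀ β₁ ∈ GA, (∀ x ∈ X, ‖β₁ x - x‖ < ε) →
      (∃ (X₂ : Finset ℂ) (ε₂ : ℝ), 0 < ε₂ ∧ ∀ β ∈ GA, (∀ x ∈ X₂, ‖β x - β₁ x‖ < ε₂) →
        PerIn A (conjEqs β F) k (w.conj β)) → PerIn B (conjEqs β₁ F) k (w.conj β₁) →
      ∀ β₂ ∈ GA, (∀ x ∈ X, ‖β₂ x - x‖ < ε) → PerIn B (conjEqs β₂ F) k (w.conj β₂) := by
  classical
  obtain ⟨A2, hA2⟩ := exists_coeffs k w
  let Y : Finset ℂ := (Finset.univ.biUnion fun i => (F i).coeffs) ∪ A2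
  obtain ⟨X, δ, hYX, hδ, hup⟩ := up hsm hh Y
  have hF : ∀ i, (F i).coeffs ⊆ X := fun i =>
    ((Finset.subset_biUnion_of_mem (fun i => (F i).coeffs) (Finset.mem_univ i)).trans
      Finset.subset_union_left).trans hYX
  have hcoef : ∀ p q, p + q = 2 * k → ∀ I, ∀ x ∈ w p q I,
      x.1.num.coeffs ⊆ X ∧ ∀ b, (x.2 b).num.coeffs ⊆ X := fun p q hpq I x hx =>
    ⟨((hA2 p q hpq I x hx).1.trans Finset.subset_union_right).trans hYX,
      fun b => (((hA2 p q hpq I x hx).2 b).trans Finset.subset_union_right).trans hYX⟩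
  obtain ⟨ε₁, hε₁, hcur⟩ := exists_curve2 X (Metric.ball_mem_nhds (inc X) hδ)
  refine ⟨X, min ε₁ δ, lt_min hε₁ hδ, ?_⟩
  intro β₁ hβ₁ hb₁ hX₂ hB β₂ hβ₂ hb₂
  obtain ⟨X₂, ε₂, hε₂, hper⟩ := hX₂
  have hdist : ∀ β : ℂ ≃+* ℂ, (∀ x ∈ X, ‖β x - x‖ < min ε₁ δ) → dist (res X β) (inc X) < δ := by
    intro β hβ
    rw [dist_pi_lt_iff hδ]
    intro x
    rw [dist_eq_norm]
    exact (hβ x x.2).trans_le (min_le_right _ _)
  have hd₁ := hdist β₁ hb₁
  have hd₂ := hdist β₂ hb₂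
  have hpi : (2 * (Real.pi : ℂ) * Complex.I) ^ k ≠ 0 :=
    pow_ne_zero _ (by simp [Real.pi_ne_zero])
  set c := (2 * (Real.pi : ℂ) * Complex.I) ^ k with hc
  obtain ⟨W, hW⟩ := hcl β₂
  refine ⟨W, hW, fun z hz => ?_⟩
  obtain ⟨Q, hQ1, hQ2, hQ3⟩ := hup β₂ hd₂ W hW z hz
  obtain ⟨γ, hγd, hγ0, hγ1, hγU, hγD⟩ := hcur β₁ β₂
    (fun x hx => (hb₁ x hx).trans_le (min_le_left _ _))
    (fun x hx => (hb₂ x hx).trans_le (min_le_left _ _))
  have hmem0 : (0 : ℂ) ∈ Metric.ball (0 : ℂ) 2 := by simp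
  have hmem1 : (1 : ℂ) ∈ Metric.ball (0 : ℂ) 2 := by simp
  -- the values of `Q` at the automorphisms with `PerIn`
  have hval : ∀ (A' : Set ℂ) (β : ℂ ≃+* ℂ), dist (res X β) (inc X) < δ →
      PerIn A' (conjEqs β F) k (w.conj β) → ∃ a ∈ A', Q (res X β) = c * a := by
    intro A' β hβ hp
    obtain ⟨W', hW', hz'⟩ := hp
    obtain ⟨z', hcyc, hev⟩ := hQ1 β hβ
    obtain ⟨a, ha, he⟩ := hz' z' hcyc
    exact ⟨a, ha, by rw [← hev W' hW', he]⟩
  have hhol : DifferentiableOn ℂ (fun s => c⁻¹ * Q (γ s)) (Metric.ball 0 2) :=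
    (hQ3 γ hγd hγU hγD).const_mul _
  -- the small disc
  obtain ⟨ε', hε', hext⟩ := near_ext X X₂ β₁ hε₂
  obtain ⟨r, hr0, hr2, hr⟩ : ∃ r : ℝ, 0 < r ∧ r ≤ 2 ∧ ∀ s ∈ Metric.ball (0 : ℂ) r,
      dist (γ s) (γ 0) < ε' := by
    have h1 : ContinuousAt γ 0 :=
      (hγd.differentiableAt (Metric.isOpen_ball.mem_nhds hmem0)).continuousAt
    obtain ⟨r, hr, h2⟩ := Metric.continuousAt_iff.1 h1 ε' hε'
    refine ⟨min r 2, lt_min hr two_pos, min_le_right _ _, fun s hs => ?_⟩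
    exact h2 ((Metric.mem_ball.1 hs).trans_le (min_le_left _ _))
  have hsub : Metric.ball (0 : ℂ) r ⊆ Metric.ball 0 2 := Metric.ball_subset_ball hr2
  have hreal : ∀ s ∈ Metric.ball (0 : ℂ) r, s ∈ {s : ℂ | ∃ β ∈ GA, res X β = γ s} →
      (c⁻¹ * Q (γ s)).im = 0 := by
    rintro s hs ⟨β, hβ, hβs⟩
    have hd : dist (res X β) (inc X) < δ := by
      rw [hβs]
      exact hγU s (hsub hs)
    obtain ⟨β₃, e1, e2, e3⟩ := hext β (fun z hz => by rw [hβ z hz, hβ₁ z hz]) (by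
      have h1 := hr s hs
      rw [hγ0, ← hβs, dist_pi_lt_iff hε'] at h1
      intro x hx
      have h2 := h1 ⟨x, hx⟩
      rw [dist_eq_norm] at h2
      exact h2)
    have hβ₃ : β₃ ∈ GA := fun z hz => by rw [e2 z hz, hβ₁ z hz]
    obtain ⟨a, ha, he⟩ := hval A β hd (Loc_perIn hF hcoef e1 (hper β₃ hβ₃ e3))
    obtain ⟨a', rfl⟩ := hA ha
    rw [← hβs, he, inv_mul_cancel_left₀ hpi]
    exact Complex.ofReal_im a'
  have hdense : Metric.ball (0 : ℂ) r ⊆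
      closure {s | s ∈ Metric.ball (0 : ℂ) r ∧ s ∈ {s : ℂ | ∃ β ∈ GA, res X β = γ s}} := by
    intro s hs
    have h1 := Metric.isOpen_ball.inter_closure ⟨hs, hγD (hsub hs)⟩
    refine closure_mono ?_ h1
    rintro x ⟨hx1, hx2, hx3⟩
    exact ⟨hx1, hx3⟩
  have hconst : ∀ s ∈ Metric.ball (0 : ℂ) r, c⁻¹ * Q (γ s) = c⁻¹ * Q (γ 0) := fun s hs =>
    const_of_real (hhol.mono hsub) hdense hreal hs (by simpa using hr0)
  have heq : Set.EqOn (fun s => c⁻¹ * Q (γ s)) (fun _ => c⁻¹ * Q (γ 0)) (Metric.ball 0 2) :=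
    (hhol.analyticOnNhd Metric.isOpen_ball).eqOn_of_preconnected_of_eventuallyEq
      analyticOnNhd_const (convex_ball 0 2).isPreconnected hmem0
      (Filter.eventuallyEq_of_mem (Metric.ball_mem_nhds 0 hr0) hconst)
  have h01 : Q (γ 1) = Q (γ 0) := mul_left_cancel₀ (inv_ne_zero hpi) (heq hmem1)
  rw [hγ0, hγ1] at h01
  obtain ⟨a, ha, he⟩ := hval B β₁ hd₁ hB
  exact ⟨a, ha, by rw [← hQ2, h01, he]⟩

theorem local_dich {F : Fin m → CPoly N} {k : ℕ} {w : FormCochain N} (hsm : IsSmoothProjective F)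
    (hh : IsHodgeCochain k w)
    (hcl : ∀ σ : ℂ ≃+* ℂ, ∃ W, IsPer (conjEqs σ F) k (w.conj σ) W) {A : Set ℂ} (hA : A ⊆ RC) :
    ∃ (X : Finset ℂ) (ε : ℝ), 0 < ε ∧ ∀ β₁ ∈ GA, (∀ x ∈ X, ‖β₁ x - x‖ < ε) →
      (∃ (X₂ : Finset ℂ) (ε₂ : ℝ), 0 < ε₂ ∧ ∀ β ∈ GA, (∀ x ∈ X₂, ‖β x - β₁ x‖ < ε₂) →
        PerIn A (conjEqs β F) k (w.conj β)) →
      ∀ β₂ ∈ GA, (∀ x ∈ X, ‖β₂ x - x‖ < ε) → PerIn A (conjEqs β₂ F) k (w.conj β₂) := by
  obtain ⟨X, ε, hε, h⟩ := local_dich2 (B := A) hsm hh hcl hA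
  refine ⟨X, ε, hε, fun β₁ hβ₁ hb₁ hX₂ => h β₁ hβ₁ hb₁ hX₂ ?_⟩
  obtain ⟨X₂, ε₂, hε₂, hper⟩ := hX₂
  exact hper β₁ hβ₁ fun x _ => by
    rw [sub_self, norm_zero]
    exact hε₂

end Pool.Agent.AHU
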