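import Mathlib
import Pool.Agent.AHU.Loc
import Pool.Agent.AHR.Main

/-!
# The status of a conjugate is locally constant

`St d A β`: the periods of all conjugates of the datum `d` by automorphisms near `β` (with the same
action on the algebraic numbers) are in `A`.

Proof.  `X₀` = all coefficients of the equations and forms of `d`.
`St_dep`: let `β = β'` on `X₀` and `St d A β` with `X₂, ε₂`.  Put `g z = β.symm (β' z)`; `g` fixes `X₀`.
If `β''` is equal to `β'` on `cl ∅` and near `β'` on `g.symm '' X₂`, then `β''' z = β'' (g.symm z)`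
is equal to `β''` on `X₀`, to `β` on `cl ∅` and is near `β` on `X₂`, so `PerIn A` holds for `β'''` and for
`β''` (same conjugate).
`St_loc`: apply `local_dich` to the conjugate datum `d.conj β₀` (`Datum.conj_conj`; the closedness
hypothesis passes to conjugates): `X, ε`.  Let `X' = β₀.symm '' X`.  For `β₁, β₂` equal to `β₀` on
`cl ∅` and within `ε` of `β₀` on `X'`: if `St d A β₁` then `PerIn A` holds at `β₂` (write
`βᵢ = β₀.trans γᵢ`, `γᵢ ∈ GA`); applied to all `β` near `β₂`: `St d A β₂`.  So `St d A` is constant on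
this neighbourhood.  By `near_ext` (with `X := X₀`, `X₂ := X'`, `β₁ := β₀`, `ε₂ := ε`) every `β` near `β₀` on
`X₀` agrees on `X₀` with some `β₃` in this neighbourhood: `St d A β ↔ St d A β₃ ↔ St d A β₀`.
-/

namespace Pool.Agent.AHU

open MvPolynomial Pool.Agent.AHC Pool.Agent.AHI Pool.Agent.AHR Filter
open scoped Topology

/-- all conjugates of the cochain are cocycles -/
def AllClosed (d : Datum) : Prop :=
  ∀ σ : ℂ ≃+* ℂ, ∃ W, IsPer (d.conj σ).F (d.conj σ).k (d.conj σ).w W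

/-- the periods of the conjugates near `β` are in `A` -/
def St (d : Datum) (A : Set ℂ) (β : ℂ ≃+* ℂ) : Prop :=
  ∃ (X₂ : Finset ℂ) (ε₂ : ℝ), 0 < ε₂ ∧ ∀ β' : ℂ ≃+* ℂ, (∀ z ∈ cl ∅, β' z = β z) →
    (∀ x ∈ X₂, ‖β' x - β x‖ < ε₂) → PerIn A (d.conj β').F (d.conj β').k (d.conj β').w

/-- the condition on the periods depends only on the values of the automorphism on the
coefficients -/
theorem sta_perIn (d : Datum) : ∃ X₀ : Finset ℂ, ∀ (A : Set ℂ) (σ τ : ℂ ≃+* ℂ),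
    (∀ x ∈ X₀, σ x = τ x) → PerIn A (d.conj σ).F (d.conj σ).k (d.conj σ).w →
      PerIn A (d.conj τ).F (d.conj τ).k (d.conj τ).w := by
  classical
  obtain ⟨A2, hA2⟩ := exists_coeffs d.k d.w
  refine ⟨A2 ∪ Finset.univ.biUnion fun i => (d.F i).coeffs, fun A σ τ h hP => ?_⟩
  have h1 : conjEqs σ d.F = conjEqs τ d.F := by
    funext i
    refine map_congr_coeffs fun c hc => h c (Finset.mem_union_right _ ?_)
    exact Finset.mem_biUnion.2 ⟨i, Finset.mem_univ _, hc⟩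
  have h2 : ∀ p q, p + q = 2 * d.k → ∀ I, d.w.conj σ p q I = d.w.conj τ p q I := by
    intro p q hpq I
    simp only [FormCochain.conj]
    refine List.map_congr_left fun y hy => ?_
    have h3 : y.1.conj σ = y.1.conj τ := by
      simp only [RatFun.conj]
      rw [map_congr_coeffs fun c hc =>
        h c (Finset.mem_union_left _ ((hA2 p q hpq I y hy).1 hc))]
    have h4 : ∀ b, (y.2 b).conj σ = (y.2 b).conj τ := by
      intro b
      simp only [RatFun.conj]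
      rw [map_congr_coeffs fun c hc =>
        h c (Finset.mem_union_left _ ((hA2 p q hpq I y hy).2 b hc))]
    rw [h3]
    simp only [h4]
  change PerIn A (conjEqs τ d.F) d.k (d.w.conj τ)
  have hP' : PerIn A (conjEqs σ d.F) d.k (d.w.conj σ) := hP
  rw [h1] at hP'
  obtain ⟨W, hW, hr⟩ := hP'
  refine ⟨W, ⟨fun x hx v hv => ?_, hW.bd⟩, hr⟩
  rw [← h2 x.1 x.2.1 hx]
  exact hW.int x hx v hv

private theorem sta_symm {β β₀ : ℂ ≃+* ℂ} (h : ∀ z ∈ cl ∅, β z = β₀ z) {z : ℂ} (hz : z ∈ cl ∅) :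
    β (β₀.symm z) = z := by
  rw [h _ (map_cl_empty β₀.symm hz), RingEquiv.apply_symm_apply]

private theorem sta_dep (d : Datum) {X₀ : Finset ℂ} {A : Set ℂ}
    (hX : ∀ σ τ : ℂ ≃+* ℂ, (∀ x ∈ X₀, σ x = τ x) → PerIn A (d.conj σ).F (d.conj σ).k (d.conj σ).w →
      PerIn A (d.conj τ).F (d.conj τ).k (d.conj τ).w) {β β' : ℂ ≃+* ℂ}
    (h : ∀ x ∈ X₀, β x = β' x) (hβ : St d A β) : St d A β' := by
  classical
  obtain ⟨X₂, ε₂, hε₂, h2⟩ := hβ
  refine ⟨X₂.image fun x => β'.symm (β x), ε₂, hε₂, fun β'' hcl hnear => ?_⟩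
  have h3 := h2 ((β.trans β'.symm).trans β'') (fun z hz => ?_) (fun x hx => ?_)
  · refine hX _ _ (fun x hx => ?_) h3
    change β'' (β'.symm (β x)) = β'' x
    rw [h x hx, RingEquiv.symm_apply_apply]
  · change β'' (β'.symm (β z)) = β z
    exact sta_symm hcl (map_cl_empty β hz)
  · change ‖β'' (β'.symm (β x)) - β x‖ < ε₂
    have h4 := hnear (β'.symm (β x)) (Finset.mem_image_of_mem _ hx)
    rwa [RingEquiv.apply_symm_apply] at h4

theorem exists_St (d : Datum) (hd : AllClosed d) {A : Set ℂ} (hA : A ⊆ RC) :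
    ∃ X₀ : Finset ℂ, (∀ β β' : ℂ ≃+* ℂ, (∀ x ∈ X₀, β x = β' x) → (St d A β ↔ St d A β')) ∧
      ∀ β₀ : ℂ ≃+* ℂ, ∃ ε > 0, ∀ β : ℂ ≃+* ℂ, (∀ x ∈ X₀, ‖β x - β₀ x‖ < ε) →
        (∀ z ∈ cl ∅, β z = β₀ z) → (St d A β ↔ St d A β₀) := by
  classical
  obtain ⟨X₀, hX⟩ := sta_perIn d
  have hdep : ∀ β β' : ℂ ≃+* ℂ, (∀ x ∈ X₀, β x = β' x) → (St d A β ↔ St d A β') :=
    fun β β' h => ⟨sta_dep d (hX A) h, sta_dep d (hX A) fun x hx => (h x hx).symm⟩
  refine ⟨X₀, hdep, fun β₀ => ?_⟩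
  obtain ⟨X, ε, hε, H⟩ := local_dich (d.conj β₀).smooth (d.conj β₀).hodge (fun σ => by
    have h := hd (β₀.trans σ)
    rw [← Datum.conj_conj] at h
    exact h) hA
  -- the neighbourhood
  let Nb : (ℂ ≃+* ℂ) → Prop := fun β =>
    (∀ z ∈ cl ∅, β z = β₀ z) ∧ ∀ x ∈ X.image β₀.symm, ‖β x - β₀ x‖ < ε
  have key : ∀ β₁ β₂ : ℂ ≃+* ℂ, Nb β₁ → Nb β₂ → St d A β₁ →
      PerIn A (d.conj β₂).F (d.conj β₂).k (d.conj β₂).w := by
    intro β₁ β₂ h1 h2 hSt
    have hGA : ∀ β : ℂ ≃+* ℂ, Nb β → β₀.symm.trans β ∈ GA := fun β hβ z hz =>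
      sta_symm hβ.1 hz
    have hnr : ∀ β : ℂ ≃+* ℂ, Nb β → ∀ x ∈ X, ‖(β₀.symm.trans β) x - x‖ < ε := by
      intro β hβ x hx
      have h3 := hβ.2 (β₀.symm x) (Finset.mem_image_of_mem _ hx)
      rwa [RingEquiv.apply_symm_apply] at h3
    obtain ⟨X₂, ε₂, hε₂, h3⟩ := hSt
    have h4 := H (β₀.symm.trans β₁) (hGA β₁ h1) (hnr β₁ h1)
      ⟨X₂.image β₀, ε₂, hε₂, fun β hβ hβX => ?_⟩ (β₀.symm.trans β₂) (hGA β₂ h2) (hnr β₂ h2)
    · have h5 : PerIn A ((d.conj β₀).conj (β₀.symm.trans β₂)).F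
          ((d.conj β₀).conj (β₀.symm.trans β₂)).k ((d.conj β₀).conj (β₀.symm.trans β₂)).w := h4
      have h6 : β₀.trans (β₀.symm.trans β₂) = β₂ := by
        ext z
        simp
      rwa [Datum.conj_conj, h6] at h5
    · have h5 := h3 (β₀.trans β) (fun z hz => ?_) (fun x hx => ?_)
      · rw [← Datum.conj_conj] at h5
        exact h5
      · change β (β₀ z) = β₁ z
        rw [hβ _ (map_cl_empty β₀ hz), h1.1 z hz]
      · have h6 := hβX (β₀ x) (Finset.mem_image_of_mem _ hx)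
        change ‖β (β₀ x) - β₁ (β₀.symm (β₀ x))‖ < ε₂ at h6
        rwa [RingEquiv.symm_apply_apply] at h6
  have hst : ∀ β₁ β₂ : ℂ ≃+* ℂ, Nb β₁ → Nb β₂ → St d A β₁ → St d A β₂ := by
    intro β₁ β₂ h1 h2 hSt
    obtain ⟨ε', hε', h3⟩ : ∃ ε' > 0, ∀ x ∈ X.image β₀.symm, ε' ≤ ε - ‖β₂ x - β₀ x‖ := by
      obtain ⟨a, ha, h4⟩ := exists_pos_le (fun x : (X.image β₀.symm : Finset ℂ) =>
        ε - ‖β₂ x - β₀ x‖) fun x => sub_pos.2 (h2.2 x x.2)
      exact ⟨a, ha, fun x hx => h4 ⟨x, hx⟩⟩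
    refine ⟨X.image β₀.symm, ε', hε', fun β' hcl hnear => key β₁ β' h1 ⟨fun z hz => ?_,
      fun x hx => ?_⟩ hSt⟩
    · rw [hcl z hz, h2.1 z hz]
    · have h4 := hnear x hx
      have h5 := h3 x hx
      have h6 : ‖β' x - β₀ x‖ ≤ ‖β' x - β₂ x‖ + ‖β₂ x - β₀ x‖ := by
        have h7 : β' x - β₀ x = (β' x - β₂ x) + (β₂ x - β₀ x) := by ring
        rw [h7]
        exact norm_add_le _ _
      linarith
  have h0 : Nb β₀ := ⟨fun _ _ => rfl, fun x _ => by simpa using hε⟩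
  obtain ⟨ε', hε', h1⟩ := near_ext X₀ (X.image β₀.symm) β₀ hε
  refine ⟨ε', hε', fun β hβX hβ => ?_⟩
  obtain ⟨β₃, h2, h3, h4⟩ := h1 β hβ hβX
  have h5 : Nb β₃ := ⟨h3, h4⟩
  rw [← hdep β₃ β h2]
  exact ⟨hst β₃ β₀ h5 h0, hst β₀ β₃ h0 h5⟩

end Pool.Agent.AHU
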