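import Mathlib
import Pool.Agent.AHR.Defs

/-!
# Pointwise closedness of a cochain of algebraic forms

`dvf g z ξ` is the derivative of the rational function `g` at `z` in the direction `ξ`, `fval w z ξ` the
value of the form `w = ∑ f dg_1 ... dg_q` at the vectors `ξ`, `dfval` the value of `dw = ∑ df dg_1 ... dg_q`,
`tval` the value of the total differential (Čech differential plus `(-1)^p` times the exterior
derivative).

`PtClosed.conj`: all these values are given by algebraic formulas: `dvf (g.conj σ) (σ z) (σ ξ) =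
σ (dvf g z ξ)` etc. (`RatFun.conj`, `MvPolynomial.pderiv_map`, `eval_map`; `σ (det M) = det (σ M)`:
`RingHom.map_det`); apply the hypothesis to `σ.symm z`, `σ.symm ξ` (see `AHC/Conj.lean` for the same
argument for cones).
-/

namespace Pool.Agent.AHU

open MvPolynomial Pool.Agent.AHC Pool.Agent.AHI

variable {N m : ℕ}

/-- the derivative of a rational function -/
noncomputable def dvf (g : RatFun N) (z ξ : Fin (N + 1) → ℂ) : ℂ :=
  ∑ l, (eval z (pderiv l g.num) / (∏ i, z i ^ g.den i) - g.val z * (g.den l / z l)) * ξ l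

/-- the value of a form -/
noncomputable def fval {q : ℕ} (w : AlgForm N q) (z : Fin (N + 1) → ℂ)
    (ξ : Fin q → Fin (N + 1) → ℂ) : ℂ :=
  (w.map fun x => x.1.val z * Matrix.det (Matrix.of fun a b : Fin q => dvf (x.2 b) z (ξ a))).sum

/-- the value of the exterior derivative -/
noncomputable def dfval {q : ℕ} (w : AlgForm N q) (z : Fin (N + 1) → ℂ)
    (ξ : Fin (q + 1) → Fin (N + 1) → ℂ) : ℂ :=
  (w.map fun x => Matrix.det (Matrix.of fun a b : Fin (q + 1) =>
    dvf ((Fin.cons x.1 x.2 : Fin (q + 1) → RatFun N) b) z (ξ a))).sum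

/-- the value of the Čech differential -/
noncomputable def cval (w : FormCochain N) : ∀ p q : ℕ, (Fin (p + 1) → Fin (N + 1)) →
    (Fin (N + 1) → ℂ) → (Fin q → Fin (N + 1) → ℂ) → ℂ
  | 0, _, _, _, _ => 0
  | p + 1, q, I, z, ξ => ∑ a : Fin (p + 2), (-1) ^ (a : ℕ) * fval (w p q (I ∘ a.succAbove)) z ξ

/-- the value of the exterior derivative -/
noncomputable def sval (w : FormCochain N) : ∀ p q : ℕ, (Fin (p + 1) → Fin (N + 1)) →
    (Fin (N + 1) → ℂ) → (Fin q → Fin (N + 1) → ℂ) → ℂ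
  | _, 0, _, _, _ => 0
  | p, q + 1, I, z, ξ => dfval (w p q I) z ξ

/-- the value of the total differential -/
noncomputable def tval (w : FormCochain N) (p q : ℕ) (I : Fin (p + 1) → Fin (N + 1))
    (z : Fin (N + 1) → ℂ) (ξ : Fin q → Fin (N + 1) → ℂ) : ℂ :=
  cval w p q I z ξ + (-1) ^ p * sval w p q I z ξ

/-- `ξ` is tangent to the cone at `z` -/
def Tan (F : Fin m → CPoly N) (z ξ : Fin (N + 1) → ℂ) : Prop :=
  ∀ i, ∑ l, eval z (pderiv l (F i)) * ξ l = 0

/-- the total differential of the cochain vanishes at every point of the cone on tangent vectors -/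
def PtClosed (F : Fin m → CPoly N) (k : ℕ) (w : FormCochain N) : Prop :=
  ∀ p q, p + q = 2 * k + 1 → ∀ (I : Fin (p + 1) → Fin (N + 1)) (z : Fin (N + 1) → ℂ),
    OnCone F z → (∀ a, z (I a) ≠ 0) → ∀ ξ : Fin q → Fin (N + 1) → ℂ, (∀ a, Tan F z (ξ a)) →
      tval w p q I z ξ = 0

private theorem ClD_val (g : RatFun N) (σ : ℂ ≃+* ℂ) (z : Fin (N + 1) → ℂ) :
    (g.conj σ).val (fun i => σ (z i)) = σ (g.val z) := by
  simp only [RatFun.val, RatFun.conj]
  rw [eval_conj, map_div₀, map_prod]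
  simp only [map_pow]

private theorem ClD_dvf (g : RatFun N) (σ : ℂ ≃+* ℂ) (z ξ : Fin (N + 1) → ℂ) :
    dvf (g.conj σ) (fun i => σ (z i)) (fun i => σ (ξ i)) = σ (dvf g z ξ) := by
  rw [dvf, dvf, map_sum]
  refine Finset.sum_congr rfl fun l _ => ?_
  rw [ClD_val]
  simp only [RatFun.conj]
  rw [pderiv_map, eval_conj, map_mul, map_sub, map_div₀, map_prod, map_mul, map_div₀, map_natCast]
  simp only [map_pow]

private theorem ClD_det {q : ℕ} (σ : ℂ ≃+* ℂ) (M M' : Matrix (Fin q) (Fin q) ℂ)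
    (h : ∀ a b, M' a b = σ (M a b)) : M'.det = σ M.det := by
  have h1 : M' = (σ : ℂ →+* ℂ).mapMatrix M := by
    ext a b
    exact h a b
  rw [h1, ← RingHom.map_det]
  rfl

private theorem ClD_fval {q : ℕ} (w : AlgForm N q) (σ : ℂ ≃+* ℂ) (z : Fin (N + 1) → ℂ)
    (ξ : Fin q → Fin (N + 1) → ℂ) :
    fval (w.map fun x => (x.1.conj σ, fun b => (x.2 b).conj σ)) (fun i => σ (z i))
      (fun a i => σ (ξ a i)) = σ (fval w z ξ) := by
  rw [fval, fval, map_list_sum, List.map_map, List.map_map]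
  refine congrArg List.sum (List.map_congr_left fun x _ => ?_)
  simp only [Function.comp_apply]
  rw [map_mul, ClD_val]
  congr 1
  exact ClD_det σ _ _ fun a b => ClD_dvf (x.2 b) σ z (ξ a)

private theorem ClD_dfval {q : ℕ} (w : AlgForm N q) (σ : ℂ ≃+* ℂ) (z : Fin (N + 1) → ℂ)
    (ξ : Fin (q + 1) → Fin (N + 1) → ℂ) :
    dfval (w.map fun x => (x.1.conj σ, fun b => (x.2 b).conj σ)) (fun i => σ (z i))
      (fun a i => σ (ξ a i)) = σ (dfval w z ξ) := by
  rw [dfval, dfval, map_list_sum, List.map_map, List.map_map]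
  refine congrArg List.sum (List.map_congr_left fun x _ => ?_)
  simp only [Function.comp_apply]
  refine ClD_det σ _ _ fun a b => ?_
  have h1 : (Fin.cons (x.1.conj σ) (fun b => (x.2 b).conj σ) : Fin (q + 1) → RatFun N) b =
      ((Fin.cons x.1 x.2 : Fin (q + 1) → RatFun N) b).conj σ := by
    refine Fin.cases ?_ (fun c => ?_) b
    · rfl
    · rfl
  rw [Matrix.of_apply, Matrix.of_apply, h1]
  exact ClD_dvf _ σ z (ξ a)

private theorem ClD_cval (w : FormCochain N) (σ : ℂ ≃+* ℂ) (p q : ℕ)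
    (I : Fin (p + 1) → Fin (N + 1)) (z : Fin (N + 1) → ℂ) (ξ : Fin q → Fin (N + 1) → ℂ) :
    cval (w.conj σ) p q I (fun i => σ (z i)) (fun a i => σ (ξ a i)) = σ (cval w p q I z ξ) := by
  cases p with
  | zero =>
    rw [cval, cval, map_zero]
  | succ p =>
    rw [cval, cval, map_sum]
    refine Finset.sum_congr rfl fun a _ => ?_
    rw [map_mul, map_pow, map_neg, map_one, FormCochain.conj, ClD_fval]

private theorem ClD_sval (w : FormCochain N) (σ : ℂ ≃+* ℂ) (p q : ℕ)
    (I : Fin (p + 1) → Fin (N + 1)) (z : Fin (N + 1) → ℂ) (ξ : Fin q → Fin (N + 1) → ℂ) :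
    sval (w.conj σ) p q I (fun i => σ (z i)) (fun a i => σ (ξ a i)) = σ (sval w p q I z ξ) := by
  cases q with
  | zero =>
    rw [sval, sval, map_zero]
  | succ q =>
    rw [sval, sval, FormCochain.conj, ClD_dfval]

private theorem ClD_tval (w : FormCochain N) (σ : ℂ ≃+* ℂ) (p q : ℕ)
    (I : Fin (p + 1) → Fin (N + 1)) (z : Fin (N + 1) → ℂ) (ξ : Fin q → Fin (N + 1) → ℂ) :
    tval (w.conj σ) p q I (fun i => σ (z i)) (fun a i => σ (ξ a i)) = σ (tval w p q I z ξ) := by
  rw [tval, tval, ClD_cval, ClD_sval, map_add, map_mul, map_pow, map_neg, map_one]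

private theorem ClD_tan {F : Fin m → CPoly N} (σ : ℂ ≃+* ℂ) {z ξ : Fin (N + 1) → ℂ}
    (h : Tan (conjEqs σ F) (fun i => σ (z i)) (fun i => σ (ξ i))) : Tan F z ξ := by
  intro i
  have h1 := h i
  have h2 : ∑ l, eval (fun i => σ (z i)) (pderiv l (conjEqs σ F i)) * σ (ξ l) =
      σ (∑ l, eval z (pderiv l (F i)) * ξ l) := by
    rw [map_sum]
    refine Finset.sum_congr rfl fun l _ => ?_
    rw [conjEqs, pderiv_map, eval_conj, map_mul]
  rw [h2, map_eq_zero_iff σ σ.injective] at h1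
  exact h1

theorem PtClosed.conj {F : Fin m → CPoly N} {k : ℕ} {w : FormCochain N} (h : PtClosed F k w)
    (σ : ℂ ≃+* ℂ) : PtClosed (conjEqs σ F) k (w.conj σ) := by
  intro p q hpq I z hz hI ξ hξ
  have hz' : (fun i => σ (σ.symm (z i))) = z := by
    funext i
    exact σ.apply_symm_apply _
  have hξ' : (fun a i => σ (σ.symm (ξ a i))) = ξ := by
    funext a i
    exact σ.apply_symm_apply _
  have h1 := h p q hpq I (fun i => σ.symm (z i)) (onCone_conj'.1 hz) (fun a h0 => hI a
    ((map_eq_zero_iff σ.symm σ.symm.injective).1 h0)) (fun a i => σ.symm (ξ a i)) (fun a => by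
      refine ClD_tan σ ?_
      have h2 := hξ a
      have h3 : (fun i => σ (σ.symm (ξ a i))) = ξ a := by
        funext i
        exact σ.apply_symm_apply _
      rw [hz', h3]
      exact h2)
  have h4 := ClD_tval w σ p q I (fun i => σ.symm (z i)) (fun a i => σ.symm (ξ a i))
  rw [hz', hξ', h1, map_zero] at h4
  exact h4

end Pool.Agent.AHU
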