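import Mathlib

/-!
# The divergence of the minors vanishes (`d (dγ_1 ∧ ... ∧ dγ_q) = 0`)

Proof.  Let `M_a (t)` be the determinant of the matrix `∂_c γ_b (t)`, `c ≠ a`.  Then `∂_a M_a` is the
sum over the columns `b` of the determinants with the column `b` replaced by `∂_a ∂_c γ_b`; expand in
this column: `∑ a (-1)^a ∂_a M_a = ∑_b ∑_{a ≠ c} ± ∂_a ∂_c γ_b · (minor without the rows a, c and the
column b)`, and the signs for `(a, c)` and `(c, a)` are opposite, the second derivatives are
symmetric (`ContDiffAt.isSymmSndFDerivAt`).  Alternatives: (1) Mathlib's exterior derivative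
(`extDeriv_extDeriv`); (2) for each `b` and fixed other data the expression is the determinant of a
`(q+1) x (q+1)` matrix of the form `∑_{a,c} S_{ac} (e_a, e_c, ...)` with `S` symmetric, which vanishes
because the determinant is alternating.
-/

namespace Pool.Agent.AHU

open scoped ContDiff

/-- the algebraic identity: alternating determinant against symmetric second derivatives -/
private theorem Piola_alg {q : ℕ} (J : Fin (q + 1) → Fin q → ℂ) (b : Fin q)
    (S : Fin (q + 1) → Fin (q + 1) → ℂ) (hS : ∀ a c, S a c = S c a) :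
    ∑ a : Fin (q + 1), (-1) ^ (a : ℕ) * Matrix.det (Matrix.of fun c b' : Fin q =>
      if b' = b then S a (a.succAbove c) else J (a.succAbove c) b') = 0 := by
  classical
  let f : (Fin (q + 1) → ℂ) [⋀^Fin (q + 1)]→ₗ[ℂ] ℂ := Matrix.detRowAlternating
  let R0 : Fin (q + 1) → Fin (q + 1) → ℂ := Fin.cons 0 (fun b' a => J a b')
  let B : (Fin (q + 1) → ℂ) → (Fin (q + 1) → ℂ) → ℂ := fun u w =>
    f (Function.update (Function.update R0 0 u) b.succ w)
  have hne : (0 : Fin (q + 1)) ≠ b.succ := (Fin.succ_ne_zero b).symm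
  have hswap : ∀ u w, B w u = -B u w := by
    intro u w
    have h := f.map_swap (Function.update (Function.update R0 0 u) b.succ w) hne
    change f (Function.update (Function.update R0 0 w) b.succ u) =
      -f (Function.update (Function.update R0 0 u) b.succ w)
    rw [← h]
    congr 1
    funext i
    rw [Function.comp_apply]
    by_cases hi : i = 0
    · subst hi
      rw [Equiv.swap_apply_left, Function.update_of_ne hne, Function.update_self,
        Function.update_self]
    · by_cases hi' : i = b.succ
      · subst hi'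
        rw [Equiv.swap_apply_right, Function.update_self, Function.update_of_ne hne,
          Function.update_self]
      · rw [Equiv.swap_apply_of_ne_of_ne hi hi', Function.update_of_ne hi', Function.update_of_ne hi,
          Function.update_of_ne hi', Function.update_of_ne hi]
  have hval : ∀ (a : Fin (q + 1)) (w : Fin (q + 1) → ℂ), B (Pi.single a 1) w =
      (-1) ^ (a : ℕ) * Matrix.det (Matrix.of fun c b' : Fin q =>
        if b' = b then w (a.succAbove c) else J (a.succAbove c) b') := by
    intro a w
    change Matrix.det (Function.update (Function.update R0 0 (Pi.single a 1)) b.succ w :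
      Matrix (Fin (q + 1)) (Fin (q + 1)) ℂ) = _
    have h0 : (Function.update (Function.update R0 0 (Pi.single a 1)) b.succ w) 0 =
        Pi.single a 1 := by
      rw [Function.update_of_ne hne, Function.update_self]
    rw [Matrix.det_succ_row_zero, Finset.sum_eq_single a]
    · rw [h0, Pi.single_eq_same, mul_one, ← Matrix.det_transpose]
      congr 2
      ext c b'
      simp only [Matrix.transpose_apply, Matrix.submatrix_apply, Matrix.of_apply]
      by_cases hb : b' = b
      · subst hb
        rw [Function.update_self, if_pos rfl]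
      · rw [Function.update_of_ne (fun h => hb (Fin.succ_injective _ h)),
          Function.update_of_ne (Fin.succ_ne_zero b'), if_neg hb]
        rfl
    · intro j _ hj
      rw [h0, Pi.single_eq_of_ne hj, mul_zero, zero_mul]
    · intro h
      exact absurd (Finset.mem_univ a) h
  have hsum : ∀ a, B (Pi.single a 1) (S a) =
      ∑ c, S a c * B (Pi.single a 1) (Pi.single c 1) := by
    intro a
    have hS' : S a = ∑ c, S a c • (Pi.single c (1 : ℂ) : Fin (q + 1) → ℂ) := by
      funext i
      rw [Finset.sum_apply, Finset.sum_eq_single i]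
      · rw [Pi.smul_apply, Pi.single_eq_same, smul_eq_mul, mul_one]
      · intro j _ hj
        rw [Pi.smul_apply, Pi.single_eq_of_ne hj.symm, smul_zero]
      · intro h
        exact absurd (Finset.mem_univ i) h
    change f (Function.update (Function.update R0 0 (Pi.single a 1)) b.succ (S a)) = _
    conv_lhs => rw [hS']
    rw [f.map_update_sum]
    refine Finset.sum_congr rfl fun c _ => ?_
    rw [f.map_update_smul, smul_eq_mul]
  have h1 : ∑ a : Fin (q + 1), (-1) ^ (a : ℕ) * Matrix.det (Matrix.of fun c b' : Fin q =>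
      if b' = b then S a (a.succAbove c) else J (a.succAbove c) b') =
      ∑ a, ∑ c, S a c * B (Pi.single a 1) (Pi.single c 1) :=
    Finset.sum_congr rfl fun a _ => by rw [← hval, hsum]
  have h2 : ∑ a, ∑ c, S a c * B (Pi.single a 1) (Pi.single c 1) =
      -∑ a, ∑ c, S a c * B (Pi.single a 1) (Pi.single c 1) := by
    conv_lhs => rw [Finset.sum_comm]
    rw [← Finset.sum_neg_distrib]
    refine Finset.sum_congr rfl fun c _ => ?_
    rw [← Finset.sum_neg_distrib]
    refine Finset.sum_congr rfl fun a _ => ?_
    rw [hS a c, hswap (Pi.single c 1) (Pi.single a 1), mul_neg]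
  rw [h1]
  exact self_eq_neg.mp h2

/-- derivative of a determinant -/
private theorem Piola_det {q : ℕ} {E : Type*} [NormedAddCommGroup E] [NormedSpace ℝ E]
    {g : Fin q → Fin q → E → ℂ} {g' : Fin q → Fin q → E →L[ℝ] ℂ} {t : E}
    (hg : ∀ c b, HasFDerivAt (g c b) (g' c b) t) (v : E) :
    fderiv ℝ (fun s => Matrix.det (Matrix.of fun c b : Fin q => g c b s)) t v =
      ∑ b, Matrix.det (Matrix.of fun c b' : Fin q => if b' = b then g' c b v else g c b' t) := by
  classical
  have h1 : HasFDerivAt (fun s => Matrix.det (Matrix.of fun c b : Fin q => g c b s))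
      (∑ σ : Equiv.Perm (Fin q), ((Equiv.Perm.sign σ : ℤ) : ℂ) •
        ∑ b, (∏ j ∈ Finset.univ.erase b, g (σ j) j t) • g' (σ b) b) t := by
    have h2 : (fun s => Matrix.det (Matrix.of fun c b : Fin q => g c b s)) =
        fun s => ∑ σ : Equiv.Perm (Fin q), ((Equiv.Perm.sign σ : ℤ) : ℂ) * ∏ i, g (σ i) i s := by
      funext s
      rw [Matrix.det_apply']
      rfl
    rw [h2]
    refine HasFDerivAt.fun_sum fun σ _ => ?_
    exact (HasFDerivAt.finsetProd fun i _ => hg (σ i) i).const_mul _
  rw [h1.fderiv]
  have h3 : ∀ b : Fin q, Matrix.det (Matrix.of fun c b' : Fin q =>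
      if b' = b then g' c b v else g c b' t) =
      ∑ σ : Equiv.Perm (Fin q), ((Equiv.Perm.sign σ : ℤ) : ℂ) *
        (g' (σ b) b v * ∏ j ∈ Finset.univ.erase b, g (σ j) j t) := by
    intro b
    rw [Matrix.det_apply']
    refine Finset.sum_congr rfl fun σ _ => ?_
    congr 1
    rw [← Finset.mul_prod_erase Finset.univ _ (Finset.mem_univ b)]
    simp only [Matrix.of_apply, if_true]
    congr 1
    refine Finset.prod_congr rfl fun j hj => ?_
    rw [if_neg (Finset.ne_of_mem_erase hj)]
  simp only [h3]
  rw [Finset.sum_comm, ContinuousLinearMap.sum_apply]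
  refine Finset.sum_congr rfl fun σ _ => ?_
  rw [ContinuousLinearMap.smul_apply, ContinuousLinearMap.sum_apply, smul_eq_mul, Finset.mul_sum]
  refine Finset.sum_congr rfl fun b _ => ?_
  rw [ContinuousLinearMap.smul_apply, smul_eq_mul, mul_comm (g' (σ b) b v)]

theorem piola {q : ℕ} {γ : Fin q → (Fin (q + 1) → ℝ) → ℂ} {O : Set (Fin (q + 1) → ℝ)}
    (hO : IsOpen O) (hγ : ∀ b, ContDiffOn ℝ 2 (γ b) O) {t : Fin (q + 1) → ℝ} (ht : t ∈ O) :
    ∑ a : Fin (q + 1), (-1) ^ (a : ℕ) * fderiv ℝ (fun s => Matrix.det (Matrix.of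
      fun c b : Fin q => fderiv ℝ (γ b) s (Pi.single (a.succAbove c) 1))) t (Pi.single a 1) = 0 := by
  classical
  have hC : ∀ b, ContDiffAt ℝ 2 (γ b) t := fun b => (hγ b).contDiffAt (hO.mem_nhds ht)
  have hD : ∀ b, DifferentiableAt ℝ (fderiv ℝ (γ b)) t := fun b => by
    apply ContDiffAt.differentiableAt _ one_ne_zero
    exact (hC b).fderiv_right (by norm_num)
  have hJ : ∀ c b, HasFDerivAt (fun s => fderiv ℝ (γ b) s (Pi.single c 1))
      (fderiv ℝ (fun s => fderiv ℝ (γ b) s (Pi.single c 1)) t) t := fun c b =>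
    ((hD b).clm_apply (differentiableAt_const _)).hasFDerivAt
  have hH : ∀ (a c : Fin (q + 1)) (b : Fin q),
      fderiv ℝ (fun s => fderiv ℝ (γ b) s (Pi.single c 1)) t (Pi.single a 1) =
        fderiv ℝ (fderiv ℝ (γ b)) t (Pi.single a 1) (Pi.single c 1) := by
    intro a c b
    rw [fderiv_clm_apply (hD b) (differentiableAt_const _)]
    simp
  have hsymm : ∀ (a c : Fin (q + 1)) (b : Fin q),
      fderiv ℝ (fun s => fderiv ℝ (γ b) s (Pi.single c 1)) t (Pi.single a 1) =
        fderiv ℝ (fun s => fderiv ℝ (γ b) s (Pi.single a 1)) t (Pi.single c 1) := by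
    intro a c b
    rw [hH, hH]
    exact (hC b).isSymmSndFDerivAt (by simp) _ _
  have hder : ∀ a : Fin (q + 1), fderiv ℝ (fun s => Matrix.det (Matrix.of
      fun c b : Fin q => fderiv ℝ (γ b) s (Pi.single (a.succAbove c) 1))) t (Pi.single a 1) =
      ∑ b : Fin q, Matrix.det (Matrix.of fun c b' : Fin q => if b' = b then
        fderiv ℝ (fun s => fderiv ℝ (γ b) s (Pi.single (a.succAbove c) 1)) t (Pi.single a 1)
        else fderiv ℝ (γ b') t (Pi.single (a.succAbove c) 1)) := fun a =>
    Piola_det (fun c b => hJ (a.succAbove c) b) (Pi.single a 1)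
  simp only [hder, Finset.mul_sum]
  rw [Finset.sum_comm]
  refine Finset.sum_eq_zero fun b _ => ?_
  exact Piola_alg (fun c b' => fderiv ℝ (γ b') t (Pi.single c 1)) b
    (fun a c => fderiv ℝ (fun s => fderiv ℝ (γ b) s (Pi.single c 1)) t (Pi.single a 1))
    (fun a c => hsymm a c b)

end Pool.Agent.AHU
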