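import Mathlib
import Pool.Agent.AHU.Stk
import Pool.Agent.AHU.Piola

/-!
# Stokes' theorem on the simplex for forms `φ dγ_1 ∧ ... ∧ dγ_q`

`fc i` is the `i`-th face in the coordinates of `simplexDomain`: `bary (fc i t) = i.insertNth 0 (bary t)`.

Proof of `stokes_form`.  Expand the determinant in the column `b = 0` (`Matrix.det_succ_column_zero`):
it is `∑ a (-1)^a ∂_a φ M_a`, `M_a` the minor of the `γ_b` without the row `a`.  By `piola`
it is `∑ a ∂_a ((-1)^a φ M_a)`.  Apply `stokes_simplex` to `a_a = (-1)^a φ M_a` (of class `C¹`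
on `O`).  The face `t_a = 0` contributes `-(-1)^a ∫ (φ M_a) (a.insertNth 0 t)`, and
`M_a (a.insertNth 0 t)` is the determinant of the derivatives of `γ_b ∘ fc (a.succ)`.  The slanted face:
`fc 0 t = Fin.cons (1 - ∑ t) t`, the derivative of `γ_b ∘ fc 0` in the direction `e_j` is
`∂_{j+1} γ_b - ∂_0 γ_b`, and `det (∂_{j+1} γ_b - ∂_0 γ_b) = ∑ a (-1)^a M_a` (multilinearity and
alternation; or: the `(q+1) x (q+1)` matrix with first column `1` and the columns `∂ γ_b`, expanded
in the first column, and with the row `0` subtracted from the other rows).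
-/

namespace Pool.Agent.AHU

open Pool.Agent.AHC MeasureTheory
open scoped ContDiff

/-- the faces in the coordinates of `simplexDomain` -/
def fc {q : ℕ} (i : Fin (q + 2)) (t : Fin q → ℝ) : Fin (q + 1) → ℝ :=
  (Fin.cases (Fin.cons (1 - ∑ j, t j) t) (fun j => j.insertNth 0 t) i :
    Fin (q + 1) → ℝ)

theorem Stf_fc_zero {q : ℕ} (t : Fin q → ℝ) : fc 0 t = Fin.cons (1 - ∑ j, t j) t := rfl

theorem Stf_fc_succ {q : ℕ} (j : Fin (q + 1)) (t : Fin q → ℝ) :
    fc j.succ t = j.insertNth 0 t := rfl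

theorem bary_fc {q : ℕ} (i : Fin (q + 2)) (t : Fin q → ℝ) :
    bary (fc i t) = i.insertNth 0 (bary t) := by
  refine Fin.cases ?_ (fun j => ?_) i
  · rw [Stf_fc_zero, Fin.insertNth_zero']
    unfold bary
    congr 1
    rw [Fin.sum_univ_succ]
    simp
  · rw [Stf_fc_succ]
    unfold bary
    funext k
    refine Fin.cases ?_ (fun l => ?_) k
    · rw [Fin.cons_zero, Fin.sum_univ_succAbove _ j]
      have h : (0 : Fin (q + 2)) = (j.succ).succAbove 0 := by
        rw [Fin.succ_succAbove_zero]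
      rw [h, Fin.insertNth_apply_succAbove]
      simp
    · rw [Fin.cons_succ]
      refine j.succAboveCases ?_ (fun m => ?_) l
      · simp
      · rw [Fin.insertNth_apply_succAbove, ← Fin.succ_succAbove_succ,
          Fin.insertNth_apply_succAbove, Fin.cons_succ]

private theorem Stf_closed {q : ℕ} : IsClosed (simplexDomain q) := by
  have h1 : simplexDomain q = (⋂ i, {t : Fin q → ℝ | 0 ≤ t i}) ∩ {t | ∑ i, t i ≤ 1} := by
    ext t
    simp [simplexDomain]
  rw [h1]
  refine IsClosed.inter (isClosed_iInter fun i => isClosed_le continuous_const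
    (continuous_apply i)) ?_
  exact isClosed_le (continuous_finsetSum _ fun i _ => continuous_apply i) continuous_const

private theorem Stf_compact {q : ℕ} : IsCompact (simplexDomain q) := by
  refine Metric.isCompact_of_isClosed_isBounded Stf_closed ?_
  refine (Metric.isBounded_closedBall (x := (0 : Fin q → ℝ)) (r := 1)).subset ?_
  intro t ht
  rw [mem_closedBall_zero_iff, pi_norm_le_iff_of_nonneg zero_le_one]
  intro i
  rw [Real.norm_eq_abs, abs_of_nonneg (ht.1 i)]
  exact (Finset.single_le_sum (f := t) (fun j _ => ht.1 j) (Finset.mem_univ i)).trans ht.2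

/-- the faces of the simplex are in the simplex -/
private theorem Stf_fc_mem {q : ℕ} (i : Fin (q + 2)) {t : Fin q → ℝ} (ht : t ∈ simplexDomain q) :
    fc i t ∈ simplexDomain (q + 1) := by
  refine Fin.cases ?_ (fun j => ?_) i
  · rw [Stf_fc_zero]
    constructor
    · intro k
      refine Fin.cases ?_ (fun l => ?_) k
      · rw [Fin.cons_zero]
        linarith [ht.2]
      · rw [Fin.cons_succ]
        exact ht.1 l
    · rw [Fin.sum_univ_succ]
      simp
  · rw [Stf_fc_succ]
    constructor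
    · intro k
      refine j.succAboveCases ?_ (fun m => ?_) k
      · simp
      · rw [Fin.insertNth_apply_succAbove]
        exact ht.1 m
    · rw [Fin.sum_univ_succAbove _ j]
      simpa using ht.2

/-- the linear part of `fc 0` -/
private def StfL0 (q : ℕ) : (Fin q → ℝ) →L[ℝ] (Fin (q + 1) → ℝ) :=
  ContinuousLinearMap.pi (Fin.cons (-(∑ j, ContinuousLinearMap.proj (R := ℝ) j))
    (fun j => ContinuousLinearMap.proj (R := ℝ) j))

private theorem Stf_hasFDerivAt_zero {q : ℕ} (t : Fin q → ℝ) :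
    HasFDerivAt (fc (0 : Fin (q + 2))) (StfL0 q) t := by
  rw [hasFDerivAt_pi']
  intro k
  refine Fin.cases ?_ (fun l => ?_) k
  · have e1 : (fun s : Fin q → ℝ => fc (0 : Fin (q + 2)) s 0) =
        fun s => 1 - (∑ j, ContinuousLinearMap.proj (R := ℝ) (φ := fun _ : Fin q => ℝ) j) s := by
      funext s
      rw [Stf_fc_zero, Fin.cons_zero, sum_apply]
      rfl
    have e2 : (ContinuousLinearMap.proj (R := ℝ) 0).comp (StfL0 q) =
        -(∑ j, ContinuousLinearMap.proj (R := ℝ) (φ := fun _ : Fin q => ℝ) j) := rfl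
    rw [e1, e2]
    exact ((∑ j, ContinuousLinearMap.proj (R := ℝ) (φ := fun _ : Fin q => ℝ) j).hasFDerivAt
      (x := t)).const_sub 1
  · exact (ContinuousLinearMap.proj (R := ℝ) (φ := fun _ : Fin q => ℝ) l).hasFDerivAt

private theorem StfL0_single {q : ℕ} (a : Fin q) :
    StfL0 q (Pi.single a 1) = Pi.single a.succ 1 - Pi.single 0 1 := by
  funext k
  refine Fin.cases ?_ (fun l => ?_) k
  · show (-(∑ j, ContinuousLinearMap.proj (R := ℝ) (φ := fun _ : Fin q => ℝ) j)) (Pi.single a 1) = _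
    rw [neg_apply, sum_apply]
    simp [Pi.single_apply, Fin.succ_ne_zero]
  · show (Pi.single a 1 : Fin q → ℝ) l = _
    simp [Pi.single_apply, Fin.succ_ne_zero]

/-- the linear part of `fc j.succ` -/
private def StfL {q : ℕ} (j : Fin (q + 1)) : (Fin q → ℝ) →L[ℝ] (Fin (q + 1) → ℝ) :=
  ContinuousLinearMap.pi (j.insertNth (α := fun _ => (Fin q → ℝ) →L[ℝ] ℝ) 0
    (fun l => ContinuousLinearMap.proj (R := ℝ) l))

private theorem Stf_hasFDerivAt_succ {q : ℕ} (j : Fin (q + 1)) (t : Fin q → ℝ) :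
    HasFDerivAt (fc j.succ) (StfL j) t := by
  rw [hasFDerivAt_pi']
  intro k
  refine j.succAboveCases ?_ (fun m => ?_) k
  · have e1 : (fun s : Fin q → ℝ => fc j.succ s j) = fun _ => (0 : ℝ) := by
      funext s
      rw [Stf_fc_succ, Fin.insertNth_apply_same]
    have e2 : (ContinuousLinearMap.proj (R := ℝ) j).comp (StfL j) = 0 := by
      ext v
      simp [StfL]
    rw [e1, e2]
    exact hasFDerivAt_const 0 t
  · have e1 : (fun s : Fin q → ℝ => fc j.succ s (j.succAbove m)) = fun s => s m := by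
      funext s
      rw [Stf_fc_succ, Fin.insertNth_apply_succAbove]
    have e2 : (ContinuousLinearMap.proj (R := ℝ) (j.succAbove m)).comp (StfL j) =
        ContinuousLinearMap.proj (R := ℝ) (φ := fun _ : Fin q => ℝ) m := by
      ext v
      simp [StfL]
    rw [e1, e2]
    exact (ContinuousLinearMap.proj (R := ℝ) (φ := fun _ : Fin q => ℝ) m).hasFDerivAt

private theorem StfL_single {q : ℕ} (j : Fin (q + 1)) (a : Fin q) :
    StfL j (Pi.single a 1) = Pi.single (j.succAbove a) 1 := by
  funext k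
  refine j.succAboveCases ?_ (fun m => ?_) k
  · simp [StfL, (Fin.succAbove_ne j a).symm]
  · simp [StfL, Pi.single_apply]

private theorem Stf_fc_cont {q : ℕ} (i : Fin (q + 2)) : Continuous (fc (q := q) i) := by
  refine Fin.cases ?_ (fun j => ?_) i
  · exact continuous_iff_continuousAt.2 fun t => (Stf_hasFDerivAt_zero t).continuousAt
  · exact continuous_iff_continuousAt.2 fun t => (Stf_hasFDerivAt_succ j t).continuousAt

/-- the minor of the derivatives without the row `a` -/
private noncomputable def StfM {q : ℕ} (γ : Fin q → (Fin (q + 1) → ℝ) → ℂ) (a : Fin (q + 1))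
    (s : Fin (q + 1) → ℝ) : ℂ :=
  Matrix.det (Matrix.of fun c b : Fin q => fderiv ℝ (γ b) s (Pi.single (a.succAbove c) 1))

private theorem StfM_contDiffOn {q : ℕ} {γ : Fin q → (Fin (q + 1) → ℝ) → ℂ}
    {O : Set (Fin (q + 1) → ℝ)} (hO : IsOpen O) (hγ : ∀ b, ContDiffOn ℝ 2 (γ b) O)
    (a : Fin (q + 1)) : ContDiffOn ℝ 1 (StfM γ a) O := by
  have h1 : ∀ b v, ContDiffOn ℝ 1 (fun s => fderiv ℝ (γ b) s v) O := by
    intro b v
    exact ((hγ b).fderiv_of_isOpen hO (by norm_num)).clm_apply contDiffOn_const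
  have h2 : StfM γ a = fun s => ∑ σ : Equiv.Perm (Fin q), ((Equiv.Perm.sign σ : ℤ) : ℂ) *
      ∏ i, fderiv ℝ (γ i) s (Pi.single (a.succAbove (σ i)) 1) := by
    funext s
    rw [StfM, Matrix.det_apply']
    rfl
  rw [h2]
  refine ContDiffOn.sum fun σ _ => ?_
  refine contDiffOn_const.mul ?_
  exact contDiffOn_prod fun i _ => h1 i _

/-- the determinant of the slanted face -/
private theorem Stf_det {q : ℕ} (D : Fin (q + 1) → Fin q → ℂ) :
    Matrix.det (Matrix.of fun a b : Fin q => D a.succ b - D 0 b) =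
      ∑ a : Fin (q + 1), (-1) ^ (a : ℕ) * Matrix.det (Matrix.of fun c b : Fin q =>
        D (a.succAbove c) b) := by
  let B : Matrix (Fin (q + 1)) (Fin (q + 1)) ℂ := Matrix.of fun a b =>
    (Fin.cons 1 (D a) : Fin (q + 1) → ℂ) b
  let B' : Matrix (Fin (q + 1)) (Fin (q + 1)) ℂ := Matrix.of fun a b =>
    B a b + (Fin.cons 0 (fun _ => -1) : Fin (q + 1) → ℂ) a * B 0 b
  have h1 : B'.det = B.det :=
    Matrix.det_eq_of_forall_row_eq_smul_add_const (Fin.cons 0 (fun _ => -1)) 0 rfl
      (fun i j => rfl)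
  have h2 : B.det = ∑ a : Fin (q + 1), (-1) ^ (a : ℕ) * Matrix.det (Matrix.of fun c b : Fin q =>
        D (a.succAbove c) b) := by
    rw [Matrix.det_succ_column_zero]
    refine Finset.sum_congr rfl fun a _ => ?_
    have h3 : B a 0 = 1 := rfl
    rw [h3, mul_one]
    rfl
  have h4 : B'.det = Matrix.det (Matrix.of fun a b : Fin q => D a.succ b - D 0 b) := by
    rw [Matrix.det_succ_column_zero, Fin.sum_univ_succ]
    have h5 : B' 0 0 = 1 := by
      show (1 : ℂ) + 0 * 1 = 1
      ring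
    have h6 : ∀ a : Fin q, B' a.succ 0 = 0 := by
      intro a
      show (1 : ℂ) + (-1) * 1 = 0
      ring
    rw [Finset.sum_eq_zero (fun a _ => by rw [h6]; ring), h5, add_zero]
    have h7 : B'.submatrix (Fin.succAbove 0) Fin.succ =
        Matrix.of fun a b : Fin q => D a.succ b - D 0 b := by
      ext a b
      show D (Fin.succAbove 0 a) b + (Fin.cons 0 (fun _ => -1) : Fin (q + 1) → ℂ)
        (Fin.succAbove 0 a) * D 0 b = D a.succ b - D 0 b
      rw [Fin.zero_succAbove, Fin.cons_succ]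
      ring
    rw [h7]
    simp
  rw [← h4, h1, h2]

theorem stokes_form {q : ℕ} {φ : (Fin (q + 1) → ℝ) → ℂ} {γ : Fin q → (Fin (q + 1) → ℝ) → ℂ}
    {O : Set (Fin (q + 1) → ℝ)} (hO : IsOpen O) (hs : simplexDomain (q + 1) ⊆ O)
    (hφ : ContDiffOn ℝ 2 φ O) (hγ : ∀ b, ContDiffOn ℝ 2 (γ b) O) :
    ∫ t in simplexDomain (q + 1), Matrix.det (Matrix.of fun a b : Fin (q + 1) =>
        fderiv ℝ ((Fin.cons φ γ : Fin (q + 1) → (Fin (q + 1) → ℝ) → ℂ) b) t (Pi.single a 1)) =
      ∑ i : Fin (q + 2), (-1) ^ (i : ℕ) * ∫ t in simplexDomain q, φ (fc i t) *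
        Matrix.det (Matrix.of fun a b : Fin q =>
          fderiv ℝ (fun s => γ b (fc i s)) t (Pi.single a 1)) := by
  have hM := StfM_contDiffOn hO hγ
  have hφ1 : ContDiffOn ℝ 1 φ O := hφ.of_le (by norm_num)
  set A : Fin (q + 1) → (Fin (q + 1) → ℝ) → ℂ := fun a s => (-1) ^ (a : ℕ) * (φ s * StfM γ a s)
    with hA
  have hA1 : ∀ a, ContDiffOn ℝ 1 (A a) O := fun a => contDiffOn_const.mul (hφ1.mul (hM a))
  -- the integrand
  have h1 : ∀ t ∈ simplexDomain (q + 1), Matrix.det (Matrix.of fun a b : Fin (q + 1) =>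
        fderiv ℝ ((Fin.cons φ γ : Fin (q + 1) → (Fin (q + 1) → ℝ) → ℂ) b) t (Pi.single a 1)) =
      ∑ a, fderiv ℝ (A a) t (Pi.single a 1) := by
    intro t ht
    have hnh : O ∈ nhds t := hO.mem_nhds (hs ht)
    have hdφ : DifferentiableAt ℝ φ t := (hφ1.contDiffAt hnh).differentiableAt (by norm_num)
    have hdM : ∀ a, DifferentiableAt ℝ (StfM γ a) t := fun a =>
      ((hM a).contDiffAt hnh).differentiableAt (by norm_num)
    have hp := piola hO hγ (hs ht)
    have h2 : ∀ a : Fin (q + 1), fderiv ℝ (A a) t (Pi.single a 1) =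
        (-1) ^ (a : ℕ) * fderiv ℝ φ t (Pi.single a 1) * StfM γ a t +
        φ t * ((-1) ^ (a : ℕ) * fderiv ℝ (StfM γ a) t (Pi.single a 1)) := by
      intro a
      have h3 : HasFDerivAt (A a) ((-1 : ℂ) ^ (a : ℕ) • (φ t • fderiv ℝ (StfM γ a) t +
          StfM γ a t • fderiv ℝ φ t)) t :=
        (hdφ.hasFDerivAt.mul (hdM a).hasFDerivAt).const_mul _
      rw [h3.fderiv]
      simp only [smul_apply, add_apply, smul_eq_mul]
      ring
    rw [Finset.sum_congr rfl fun a _ => h2 a, Finset.sum_add_distrib, ← Finset.mul_sum]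
    have h4 : ∑ a : Fin (q + 1), (-1 : ℂ) ^ (a : ℕ) * fderiv ℝ (StfM γ a) t (Pi.single a 1) = 0 :=
      hp
    rw [h4, mul_zero, add_zero, Matrix.det_succ_column_zero]
    refine Finset.sum_congr rfl fun a _ => ?_
    rfl
  rw [setIntegral_congr_fun Stf_closed.measurableSet h1, stokes_simplex hO hs hA1]
  -- the faces
  have hcont : ∀ (i : Fin (q + 2)) (a : Fin (q + 1)),
      IntegrableOn (fun t => A a (fc i t)) (simplexDomain q) := by
    intro i a
    refine ContinuousOn.integrableOn_compact Stf_compact ?_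
    exact (hA1 a).continuousOn.comp (Stf_fc_cont i).continuousOn
      fun t ht => hs (Stf_fc_mem i ht)
  have h5 : ∫ t in simplexDomain q, ((∑ i, A i (Fin.cons (1 - ∑ j, t j) t)) -
        ∑ i : Fin (q + 1), A i (i.insertNth 0 t)) =
      (∫ t in simplexDomain q, ∑ i, A i (fc 0 t)) -
        ∑ i : Fin (q + 1), ∫ t in simplexDomain q, A i (fc i.succ t) := by
    have e1 : ∑ i : Fin (q + 1), ∫ t in simplexDomain q, A i (fc i.succ t) =
        ∫ t in simplexDomain q, ∑ i : Fin (q + 1), A i (fc i.succ t) :=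
      (integral_finsetSum _ fun i _ => (hcont i.succ i).integrable).symm
    have e2 : Integrable (fun t => ∑ i, A i (fc 0 t)) (volume.restrict (simplexDomain q)) :=
      integrable_finsetSum _ fun i _ => (hcont 0 i).integrable
    have e3 : Integrable (fun t => ∑ i : Fin (q + 1), A i (fc i.succ t))
        (volume.restrict (simplexDomain q)) :=
      integrable_finsetSum _ fun i _ => (hcont i.succ i).integrable
    rw [e1, ← integral_sub e2 e3]
    rfl
  rw [h5, Fin.sum_univ_succ (n := q + 1), sub_eq_add_neg, ← Finset.sum_neg_distrib]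
  congr 1
  · rw [Fin.val_zero, pow_zero, one_mul]
    refine setIntegral_congr_fun Stf_closed.measurableSet fun t ht => ?_
    have hnh : O ∈ nhds (fc 0 t) := hO.mem_nhds (hs (Stf_fc_mem 0 ht))
    have h6 : ∀ (b : Fin q) (a : Fin q), fderiv ℝ (fun s => γ b (fc 0 s)) t (Pi.single a 1) =
        fderiv ℝ (γ b) (fc 0 t) (Pi.single a.succ 1) - fderiv ℝ (γ b) (fc 0 t) (Pi.single 0 1) := by
      intro b a
      have h7 : DifferentiableAt ℝ (γ b) (fc 0 t) :=
        ((hγ b).contDiffAt hnh).differentiableAt (by norm_num)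
      have h8 := h7.hasFDerivAt.comp t (Stf_hasFDerivAt_zero t)
      have h9 : fderiv ℝ (fun s => γ b (fc 0 s)) t = _ := h8.fderiv
      rw [h9, ContinuousLinearMap.comp_apply, StfL0_single, map_sub]
    show ∑ i, A i (fc 0 t) = φ (fc 0 t) * Matrix.det (Matrix.of fun a b : Fin q =>
          fderiv ℝ (fun s => γ b (fc 0 s)) t (Pi.single a 1))
    simp only [h6]
    rw [Stf_det (fun c b => fderiv ℝ (γ b) (fc 0 t) (Pi.single c 1)), Finset.mul_sum]
    refine Finset.sum_congr rfl fun a _ => ?_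
    show (-1) ^ (a : ℕ) * (φ (fc 0 t) * StfM γ a (fc 0 t)) = _
    rw [StfM]
    ring
  · refine Finset.sum_congr rfl fun j _ => ?_
    rw [Fin.val_succ, pow_succ, ← integral_const_mul, ← integral_neg]
    refine setIntegral_congr_fun Stf_closed.measurableSet fun t ht => ?_
    have hnh : O ∈ nhds (fc j.succ t) := hO.mem_nhds (hs (Stf_fc_mem j.succ ht))
    have h6 : ∀ (b : Fin q) (a : Fin q), fderiv ℝ (fun s => γ b (fc j.succ s)) t (Pi.single a 1) =
        fderiv ℝ (γ b) (fc j.succ t) (Pi.single (j.succAbove a) 1) := by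
      intro b a
      have h7 : DifferentiableAt ℝ (γ b) (fc j.succ t) :=
        ((hγ b).contDiffAt hnh).differentiableAt (by norm_num)
      have h8 := h7.hasFDerivAt.comp t (Stf_hasFDerivAt_succ j t)
      have h9 : fderiv ℝ (fun s => γ b (fc j.succ s)) t = _ := h8.fderiv
      rw [h9, ContinuousLinearMap.comp_apply, StfL_single]
    show -A j (fc j.succ t) = (-1) ^ (j : ℕ) * -1 * (φ (fc j.succ t) *
      Matrix.det (Matrix.of fun a b : Fin q =>
          fderiv ℝ (fun s => γ b (fc j.succ s)) t (Pi.single a 1)))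
    simp only [h6]
    show -((-1) ^ (j : ℕ) * (φ (fc j.succ t) * StfM γ j (fc j.succ t))) = _
    rw [StfM]
    ring

end Pool.Agent.AHU
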