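import Mathlib
import Pool.Agent.AHU.ClD
import Pool.Agent.AHU.Stf

/-!
# The integral over the boundary is the integral of the total differential

Proofs.
* `fderiv_val`: chain rule; `g.val z = eval z g.num / ∏ z_i ^ den_i` and `den_i ≠ 0` only for
  `i ∈ range I`, where `z_i ≠ 0` (see `AHI/Conv.lean`, `contDiffAt_valE`, for the smoothness of such
  compositions).
* `formIntegral_eq`: `formIntegral w v` is the integral of `fval w (v (bary t)) (∂_a (v ∘ bary) (t))` over
  `simplexDomain q`; by `fderiv_val` the integrands are equal at every point of the simplex.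
* `formIntegral_lift`: two lifts of the same simplex are proportional at every point of the simplex
  and regular rational functions are homogeneous of degree `0`, so the functions `f.val (v (bary t))`
  agree on the simplex, and their derivatives agree in the interior; the boundary has measure zero
  (`AHI.ae_mem_interior`; compare `AHI.formIntegral_congr`).
* `evc_bd_eq`: by `hW` the Čech part of `evc W (bd ⟨p, q, I, s⟩)` is the integral of `cval` (the same lift
  `v` is a lift for the index sets `I ∘ a.succAbove`), and the singular part is, for `q = q' + 1`,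
  `(-1)^p ∑ i (-1)^i formIntegral (w p q' I) (v ∘ i.insertNth 0)`, where `t ↦ v (i.insertNth 0 t)` is
  a lift of `s ∘ face i`, which is by `stokes_form` (with `φ = f.val ∘ v ∘ bary`,
  `γ_b = g_b.val ∘ v ∘ bary`, smooth on the open set where the `v (bary t) (I a)` do not vanish;
  `bary_fc`) the integral of `(-1)^p dfval (w p q' I)`.
-/

namespace Pool.Agent.AHU

open MvPolynomial Pool.Agent.AHC Pool.Agent.AHI Pool.Agent.AHR MeasureTheory
open scoped ContDiff

variable {N m : ℕ}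

/-- the differential of the coordinate `l` -/
private noncomputable def Bnd_L {n : ℕ} (u : (Fin n → ℝ) → (Fin (N + 1) → ℂ)) (t : Fin n → ℝ)
    (l : Fin (N + 1)) : (Fin n → ℝ) →L[ℝ] ℂ :=
  (ContinuousLinearMap.proj (R := ℝ) (φ := fun _ : Fin (N + 1) => ℂ) l).comp (fderiv ℝ u t)

private theorem Bnd_L_apply {n : ℕ} (u : (Fin n → ℝ) → (Fin (N + 1) → ℂ)) (t : Fin n → ℝ)
    (l : Fin (N + 1)) (e : Fin n → ℝ) : Bnd_L u t l e = fderiv ℝ u t e l := rfl

private theorem Bnd_coord {n : ℕ} {u : (Fin n → ℝ) → (Fin (N + 1) → ℂ)} {t : Fin n → ℝ}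
    (hu : DifferentiableAt ℝ u t) (l : Fin (N + 1)) :
    HasFDerivAt (fun s => u s l) (Bnd_L u t l) t := by
  have h1 := hasFDerivAt_pi'.mp hu.hasFDerivAt l
  exact h1

private theorem Bnd_poly (P : CPoly N) {n : ℕ} {u : (Fin n → ℝ) → (Fin (N + 1) → ℂ)} {t : Fin n → ℝ}
    (hu : DifferentiableAt ℝ u t) :
    HasFDerivAt (fun s => eval (u s) P) (∑ l, eval (u t) (pderiv l P) • Bnd_L u t l) t := by
  induction P using MvPolynomial.induction_on with
  | C a =>
    have h1 : (fun s => eval (u s) (C a : CPoly N)) = fun _ => a := by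
      funext s
      rw [eval_C]
    rw [h1]
    refine (hasFDerivAt_const a t).congr_fderiv ?_
    ext e
    simp only [sum_apply, smul_apply, pderiv_C, map_zero, smul_eq_mul, zero_mul,
      Finset.sum_const_zero, zero_apply]
  | add p q hp hq =>
    have h1 : (fun s => eval (u s) (p + q)) = (fun s => eval (u s) p) + fun s => eval (u s) q := by
      funext s
      rw [map_add, Pi.add_apply]
    rw [h1]
    refine (hp.add hq).congr_fderiv ?_
    ext e
    simp only [add_apply, sum_apply, smul_apply, map_add, smul_eq_mul, add_mul,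
      Finset.sum_add_distrib]
  | mul_X p i hp =>
    have h1 : (fun s => eval (u s) (p * X i)) = (fun s => eval (u s) p) * fun s => u s i := by
      funext s
      rw [map_mul, eval_X, Pi.mul_apply]
    rw [h1]
    refine (hp.mul (Bnd_coord hu i)).congr_fderiv ?_
    ext e
    simp only [add_apply, sum_apply, smul_apply, smul_eq_mul]
    have h2 : ∀ l, eval (u t) (pderiv l (p * X i)) * Bnd_L u t l e =
        u t i * (eval (u t) (pderiv l p) * Bnd_L u t l e) +
          eval (u t) p * ((Pi.single i 1 : Fin (N + 1) → ℂ) l * Bnd_L u t l e) := by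
      intro l
      rw [pderiv_mul, map_add, map_mul, map_mul, eval_X, pderiv_X]
      by_cases hl : l = i
      · subst hl
        simp only [Pi.single_eq_same, map_one]
        ring
      · rw [Pi.single_eq_of_ne hl, Pi.single_eq_of_ne (Ne.symm hl), map_zero]
        ring
    simp only [h2]
    rw [Finset.sum_add_distrib, ← Finset.mul_sum, ← Finset.mul_sum, add_comm]
    congr 2
    rw [Finset.sum_eq_single i]
    · rw [Pi.single_eq_same, one_mul]
    · intro j _ hj
      rw [Pi.single_eq_of_ne hj, zero_mul]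
    · intro h
      exact absurd (Finset.mem_univ i) h

private theorem Bnd_den_ne {g : RatFun N} {p : ℕ} {I : Fin (p + 1) → Fin (N + 1)} (hg : g.IsRegularOn I)
    {z : Fin (N + 1) → ℂ} (hz : ∀ a, z (I a) ≠ 0) (i : Fin (N + 1)) : g.den i = 0 ∨ z i ≠ 0 := by
  by_cases hi : g.den i = 0
  · exact Or.inl hi
  · obtain ⟨a, rfl⟩ := hg.2 i hi
    exact Or.inr (hz a)

private theorem Bnd_prod_ne {g : RatFun N} {p : ℕ} {I : Fin (p + 1) → Fin (N + 1)} (hg : g.IsRegularOn I)
    {z : Fin (N + 1) → ℂ} (hz : ∀ a, z (I a) ≠ 0) : ∏ i, z i ^ g.den i ≠ 0 := by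
  rw [Finset.prod_ne_zero_iff]
  intro i _
  rcases Bnd_den_ne hg hz i with hi | hi
  · rw [hi, pow_zero]
    exact one_ne_zero
  · exact pow_ne_zero _ hi

private theorem Bnd_den {g : RatFun N} {p : ℕ} {I : Fin (p + 1) → Fin (N + 1)} (hg : g.IsRegularOn I)
    {n : ℕ} {u : (Fin n → ℝ) → (Fin (N + 1) → ℂ)} {t : Fin n → ℝ} (hu : DifferentiableAt ℝ u t)
    (hne : ∀ a, u t (I a) ≠ 0) :
    HasFDerivAt (fun s => ∏ i, u s i ^ g.den i)
      (∑ l, ((∏ i, u t i ^ g.den i) * (g.den l / u t l)) • Bnd_L u t l) t := by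
  classical
  have h1 : ∀ i ∈ (Finset.univ : Finset (Fin (N + 1))), HasFDerivAt (fun s => u s i ^ g.den i)
      (((g.den i : ℂ) * u t i ^ (g.den i - 1)) • Bnd_L u t i) t := by
    intro i _
    have h2 := (Bnd_coord hu i).pow (g.den i)
    refine h2.congr_fderiv ?_
    rw [nsmul_eq_mul]
  refine (HasFDerivAt.finsetProd h1).congr_fderiv ?_
  refine Finset.sum_congr rfl fun l _ => ?_
  rw [smul_smul]
  congr 1
  rcases Bnd_den_ne hg hne l with hl | hl
  · rw [hl]
    simp
  · rw [← Finset.mul_prod_erase _ _ (Finset.mem_univ l)]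
    rcases Nat.eq_zero_or_pos (g.den l) with h0 | h0
    · rw [h0]
      simp
    · have h3 : u t l ^ g.den l = u t l ^ (g.den l - 1) * u t l := by
        rw [← pow_succ, Nat.sub_add_cancel h0]
      rw [h3]
      field_simp

theorem fderiv_val {g : RatFun N} {p : ℕ} {I : Fin (p + 1) → Fin (N + 1)} (hg : g.IsRegularOn I)
    {n : ℕ} {u : (Fin n → ℝ) → (Fin (N + 1) → ℂ)} {t : Fin n → ℝ} (hu : DifferentiableAt ℝ u t)
    (hne : ∀ a, u t (I a) ≠ 0) (e : Fin n → ℝ) :
    fderiv ℝ (fun s => g.val (u s)) t e = dvf g (u t) (fderiv ℝ u t e) := by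
  have h1 := Bnd_poly g.num hu
  have h2 := Bnd_den hg hu hne
  have h3 := Bnd_prod_ne hg hne
  have h4 : HasFDerivAt (fun s => (∏ i, u s i ^ g.den i)⁻¹)
      (-((∏ i, u t i ^ g.den i) ^ 2)⁻¹ •
        ∑ l, ((∏ i, u t i ^ g.den i) * (g.den l / u t l)) • Bnd_L u t l) t := by
    exact (hasDerivAt_inv h3).comp_hasFDerivAt t h2
  have h5 := h1.mul h4
  have h6 : (fun s => g.val (u s)) = (fun s => eval (u s) g.num) * fun s => (∏ i, u s i ^ g.den i)⁻¹ := by
    funext s
    rw [Pi.mul_apply, RatFun.val, div_eq_mul_inv]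
  rw [h6, h5.fderiv]
  unfold dvf RatFun.val
  simp only [add_apply, smul_apply, sum_apply, Bnd_L_apply, smul_eq_mul, Finset.mul_sum]
  rw [← Finset.sum_add_distrib]
  refine Finset.sum_congr rfl fun l _ => ?_
  set D := ∏ i, u t i ^ g.den i with hD
  field_simp
  ring

private theorem Bnd_smooth (P : CPoly N) : ContDiff ℝ ∞ (fun z : Fin (N + 1) → ℂ => eval z P) := by
  induction P using MvPolynomial.induction_on with
  | C a =>
    simp only [eval_C]
    exact contDiff_const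
  | add p q hp hq =>
    simp only [map_add]
    exact hp.add hq
  | mul_X p i hp =>
    simp only [map_mul, eval_X]
    exact hp.mul (contDiff_apply ℝ ℂ i)

private def Bnd_O {q : ℕ} (v : (Fin (q + 1) → ℝ) → (Fin (N + 1) → ℂ)) {p : ℕ}
    (I : Fin (p + 1) → Fin (N + 1)) : Set (Fin q → ℝ) := {t | ∀ a, v (bary t) (I a) ≠ 0}

private theorem Bnd_vb {q : ℕ} {v : (Fin (q + 1) → ℝ) → (Fin (N + 1) → ℂ)} (hv : ContDiff ℝ ∞ v) :
    ContDiff ℝ ∞ (fun t : Fin q → ℝ => v (bary t)) := hv.comp contDiff_bary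

private theorem Bnd_O_open {q : ℕ} {v : (Fin (q + 1) → ℝ) → (Fin (N + 1) → ℂ)} (hv : ContDiff ℝ ∞ v)
    {p : ℕ} (I : Fin (p + 1) → Fin (N + 1)) : IsOpen (Bnd_O v I) := by
  have h1 : Bnd_O v I = ⋂ a, {t | v (bary t) (I a) ≠ 0} := by
    ext t
    simp [Bnd_O]
  rw [h1]
  exact isOpen_iInter_of_finite fun a =>
    isOpen_ne_fun ((continuous_apply (I a)).comp (Bnd_vb hv).continuous) continuous_const

private theorem Bnd_O_sub {q : ℕ} {v : (Fin (q + 1) → ℝ) → (Fin (N + 1) → ℂ)}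
    {p : ℕ} {I : Fin (p + 1) → Fin (N + 1)}
    (hne : ∀ t ∈ stdSimplex ℝ (Fin (q + 1)), ∀ a, v t (I a) ≠ 0) : simplexDomain q ⊆ Bnd_O v I :=
  fun _ ht a => hne _ (bary_mem ht) a

private theorem Bnd_val_smooth {g : RatFun N} {p : ℕ} {I : Fin (p + 1) → Fin (N + 1)}
    (hg : g.IsRegularOn I) {q : ℕ} {v : (Fin (q + 1) → ℝ) → (Fin (N + 1) → ℂ)} (hv : ContDiff ℝ ∞ v) :
    ContDiffOn ℝ ∞ (fun t : Fin q → ℝ => g.val (v (bary t))) (Bnd_O v I) := by
  intro t ht
  have h1 : ContDiff ℝ ∞ fun t : Fin q → ℝ => eval (v (bary t)) g.num :=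
    (Bnd_smooth g.num).comp (Bnd_vb hv)
  have h2 : ContDiff ℝ ∞ fun t : Fin q → ℝ => ∏ i, v (bary t) i ^ g.den i :=
    contDiff_prod fun i _ => ((contDiff_apply ℝ ℂ i).comp (Bnd_vb hv)).pow _
  have h3 : ∏ i, v (bary t) i ^ g.den i ≠ 0 := Bnd_prod_ne hg ht
  unfold RatFun.val
  simp only [div_eq_mul_inv]
  exact (h1.contDiffAt.mul (h2.contDiffAt.inv h3)).contDiffWithinAt

private theorem Bnd_fd {g : RatFun N} {p : ℕ} {I : Fin (p + 1) → Fin (N + 1)}
    (hg : g.IsRegularOn I) {q : ℕ} {v : (Fin (q + 1) → ℝ) → (Fin (N + 1) → ℂ)} (hv : ContDiff ℝ ∞ v)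
    {t : Fin q → ℝ} (ht : t ∈ Bnd_O v I) (e : Fin q → ℝ) :
    fderiv ℝ (fun s : Fin q → ℝ => g.val (v (bary s))) t e =
      dvf g (v (bary t)) (fderiv ℝ (fun s => v (bary s)) t e) :=
  fderiv_val hg ((Bnd_vb hv).differentiable (by simp) t) ht e

private theorem Bnd_cont_dvf {g : RatFun N} {p : ℕ} {I : Fin (p + 1) → Fin (N + 1)}
    (hg : g.IsRegularOn I) {q : ℕ} {v : (Fin (q + 1) → ℝ) → (Fin (N + 1) → ℂ)} (hv : ContDiff ℝ ∞ v)
    (e : Fin q → ℝ) :
    ContinuousOn (fun t => dvf g (v (bary t)) (fderiv ℝ (fun s => v (bary s)) t e)) (Bnd_O v I) := by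
  have h1 : ContinuousOn (fun t => fderiv ℝ (fun s : Fin q → ℝ => g.val (v (bary s))) t)
      (Bnd_O v I) := (Bnd_val_smooth hg hv).continuousOn_fderiv_of_isOpen (Bnd_O_open hv I) (by simp)
  refine (h1.clm_apply (continuousOn_const (c := e))).congr fun t ht => ?_
  exact (Bnd_fd hg hv ht e).symm

private theorem Bnd_cont_det {n : ℕ} {X : Type*} [TopologicalSpace X] {S : Set X}
    {M : Fin n → Fin n → X → ℂ} (hM : ∀ a b, ContinuousOn (M a b) S) :
    ContinuousOn (fun t => Matrix.det (Matrix.of fun a b => M a b t)) S := by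
  simp only [Matrix.det_apply]
  refine continuousOn_finsetSum _ fun σ _ => ?_
  refine ContinuousOn.const_smul ?_ _
  exact continuousOn_finsetProd _ fun i _ => hM _ _

private theorem Bnd_list {α : Type*} {q : ℕ} (w : List α) (f : α → (Fin q → ℝ) → ℂ)
    (hf : ∀ x ∈ w, ContinuousOn (f x) (simplexDomain q)) :
    ContinuousOn (fun t => (w.map fun x => f x t).sum) (simplexDomain q) ∧
      ∫ t in simplexDomain q, (w.map fun x => f x t).sum =
        (w.map fun x => ∫ t in simplexDomain q, f x t).sum := by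
  induction w with
  | nil =>
    refine ⟨?_, ?_⟩
    · simpa using continuousOn_const
    · simp
  | cons x w ih =>
    have h1 := hf x List.mem_cons_self
    obtain ⟨h2, h3⟩ := ih fun y hy => hf y (List.mem_cons_of_mem _ hy)
    simp only [List.map_cons, List.sum_cons]
    refine ⟨h1.add h2, ?_⟩
    rw [integral_add (h1.integrableOn_compact isCompact_simplexDomain)
      (h2.integrableOn_compact isCompact_simplexDomain), h3]

/-- the integrand of `formIntegral` -/
private noncomputable def Bnd_xi {q : ℕ} (v : (Fin (q + 1) → ℝ) → (Fin (N + 1) → ℂ)) (t : Fin q → ℝ)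
    (a : Fin q) : Fin (N + 1) → ℂ := fderiv ℝ (fun s => v (bary s)) t (Pi.single a 1)

private theorem Bnd_cont_fterm {p : ℕ} {I : Fin (p + 1) → Fin (N + 1)} {q : ℕ}
    {v : (Fin (q + 1) → ℝ) → (Fin (N + 1) → ℂ)} (hv : ContDiff ℝ ∞ v)
    {f : RatFun N} (hf : f.IsRegularOn I) {g : Fin q → RatFun N} (hg : ∀ b, (g b).IsRegularOn I) :
    ContinuousOn (fun t => f.val (v (bary t)) *
      Matrix.det (Matrix.of fun a b : Fin q => dvf (g b) (v (bary t)) (Bnd_xi v t a))) (Bnd_O v I) := by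
  refine (Bnd_val_smooth hf hv).continuousOn.mul ?_
  exact Bnd_cont_det fun a b => Bnd_cont_dvf (hg b) hv _

private theorem Bnd_cont_dterm {p : ℕ} {I : Fin (p + 1) → Fin (N + 1)} {q : ℕ}
    {v : (Fin (q + 2) → ℝ) → (Fin (N + 1) → ℂ)} (hv : ContDiff ℝ ∞ v)
    {g : Fin (q + 1) → RatFun N} (hg : ∀ b, (g b).IsRegularOn I) :
    ContinuousOn (fun t =>
      Matrix.det (Matrix.of fun a b : Fin (q + 1) => dvf (g b) (v (bary t)) (Bnd_xi v t a)))
        (Bnd_O v I) :=
  Bnd_cont_det fun a b => Bnd_cont_dvf (hg b) hv _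

private theorem Bnd_term {p : ℕ} {I : Fin (p + 1) → Fin (N + 1)} {q : ℕ}
    {v : (Fin (q + 1) → ℝ) → (Fin (N + 1) → ℂ)} (hv : ContDiff ℝ ∞ v)
    (hne : ∀ t ∈ stdSimplex ℝ (Fin (q + 1)), ∀ a, v t (I a) ≠ 0)
    {f : RatFun N} {g : Fin q → RatFun N} (hg : ∀ b, (g b).IsRegularOn I) :
    termIntegral f g v = ∫ t in simplexDomain q, f.val (v (bary t)) *
      Matrix.det (Matrix.of fun a b : Fin q => dvf (g b) (v (bary t)) (Bnd_xi v t a)) := by
  unfold termIntegral
  refine setIntegral_congr_fun isClosed_simplexDomain.measurableSet fun t ht => ?_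
  congr 2
  ext a b
  simp only [Matrix.of_apply]
  exact Bnd_fd (hg b) hv (Bnd_O_sub hne ht) _

theorem formIntegral_eq {q : ℕ} {w : AlgForm N q} {p : ℕ} {I : Fin (p + 1) → Fin (N + 1)}
    (hw : ∀ x ∈ w, x.1.IsRegularOn I ∧ ∀ b, (x.2 b).IsRegularOn I)
    {v : (Fin (q + 1) → ℝ) → (Fin (N + 1) → ℂ)} (hv : ContDiff ℝ ∞ v)
    (hne : ∀ t ∈ stdSimplex ℝ (Fin (q + 1)), ∀ a, v t (I a) ≠ 0) :
    formIntegral w v = ∫ t in simplexDomain q, fval w (v (bary t)) fun a =>
      fderiv ℝ (fun s => v (bary s)) t (Pi.single a 1) := by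
  have h1 := Bnd_list w (fun x t => x.1.val (v (bary t)) *
      Matrix.det (Matrix.of fun a b : Fin q => dvf (x.2 b) (v (bary t)) (Bnd_xi v t a)))
    fun x hx => (Bnd_cont_fterm hv (hw x hx).1 (hw x hx).2).mono (Bnd_O_sub hne)
  have h2 : formIntegral w v = (w.map fun x => ∫ t in simplexDomain q, x.1.val (v (bary t)) *
      Matrix.det (Matrix.of fun a b : Fin q => dvf (x.2 b) (v (bary t)) (Bnd_xi v t a))).sum := by
    unfold formIntegral
    congr 1
    exact List.map_congr_left fun x hx => Bnd_term hv hne (hw x hx).2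
  rw [h2, ← h1.2]
  rfl

private theorem Bnd_cont_fval {q : ℕ} {w : AlgForm N q} {p : ℕ} {I : Fin (p + 1) → Fin (N + 1)}
    (hw : ∀ x ∈ w, x.1.IsRegularOn I ∧ ∀ b, (x.2 b).IsRegularOn I)
    {v : (Fin (q + 1) → ℝ) → (Fin (N + 1) → ℂ)} (hv : ContDiff ℝ ∞ v)
    (hne : ∀ t ∈ stdSimplex ℝ (Fin (q + 1)), ∀ a, v t (I a) ≠ 0) :
    ContinuousOn (fun t => fval w (v (bary t)) (Bnd_xi v t)) (simplexDomain q) :=
  (Bnd_list w (fun x t => x.1.val (v (bary t)) *
      Matrix.det (Matrix.of fun a b : Fin q => dvf (x.2 b) (v (bary t)) (Bnd_xi v t a)))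
    fun x hx => (Bnd_cont_fterm hv (hw x hx).1 (hw x hx).2).mono (Bnd_O_sub hne)).1

private theorem Bnd_val_smul {g : RatFun N} {p : ℕ} {I : Fin (p + 1) → Fin (N + 1)}
    (hg : g.IsRegularOn I) {c : ℂ} (hc : c ≠ 0) (z : Fin (N + 1) → ℂ) : g.val (c • z) = g.val z := by
  unfold RatFun.val
  rw [eval_smul_of_homogeneous hg.1]
  simp only [Pi.smul_apply, smul_eq_mul, mul_pow, Finset.prod_mul_distrib,
    Finset.prod_pow_eq_pow_sum]
  exact mul_div_mul_left _ _ (pow_ne_zero _ hc)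

private theorem Bnd_term_congr {q : ℕ} {f : RatFun N} {g : Fin q → RatFun N}
    {v v' : (Fin (q + 1) → ℝ) → (Fin (N + 1) → ℂ)}
    (hf : ∀ t ∈ stdSimplex ℝ (Fin (q + 1)), f.val (v t) = f.val (v' t))
    (hg : ∀ t ∈ stdSimplex ℝ (Fin (q + 1)), ∀ b, (g b).val (v t) = (g b).val (v' t)) :
    termIntegral f g v = termIntegral f g v' := by
  unfold termIntegral
  refine integral_congr_ae ?_
  filter_upwards [ae_mem_interior] with t ht
  have h1 : ∀ᶠ s in nhds t, s ∈ simplexDomain q := mem_interior_iff_mem_nhds.1 ht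
  have h2 : ∀ b, (fun s : Fin q → ℝ => (g b).val (v (bary s))) =ᶠ[nhds t]
      fun s => (g b).val (v' (bary s)) := by
    intro b
    filter_upwards [h1] with s hs
    exact hg _ (bary_mem hs) b
  rw [hf _ (bary_mem (interior_subset ht))]
  congr 2
  ext a b
  simp only [Matrix.of_apply]
  rw [(h2 b).fderiv_eq]

theorem formIntegral_lift {F : Fin m → CPoly N} {q : ℕ} {w : AlgForm N q} {p : ℕ}
    {I : Fin (p + 1) → Fin (N + 1)}
    (hw : ∀ x ∈ w, x.1.IsRegularOn I ∧ ∀ b, (x.2 b).IsRegularOn I) {s : Simplex N q}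
    {v v' : (Fin (q + 1) → ℝ) → (Fin (N + 1) → ℂ)} (hv : IsLift F I s v) (hv' : IsLift F I s v') :
    formIntegral w v = formIntegral w v' := by
  have h0 : ∀ t ∈ stdSimplex ℝ (Fin (q + 1)), ∃ c : ℂ, c ≠ 0 ∧ v t = c • v' t := by
    intro t ht
    obtain ⟨h1, h2⟩ := hv.lifts ⟨t, ht⟩
    obtain ⟨h3, h4⟩ := hv'.lifts ⟨t, ht⟩
    rw [h2] at h4
    obtain ⟨a, ha⟩ := (Projectivization.mk_eq_mk_iff ℂ _ _ h1 h3).mp h4
    exact ⟨a, a.ne_zero, ha.symm⟩
  have h1 : ∀ g : RatFun N, g.IsRegularOn I → ∀ t ∈ stdSimplex ℝ (Fin (q + 1)),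
      g.val (v t) = g.val (v' t) := by
    intro g hg t ht
    obtain ⟨c, hc, h2⟩ := h0 t ht
    rw [h2, Bnd_val_smul hg hc]
  unfold formIntegral
  congr 1
  exact List.map_congr_left fun x hx => Bnd_term_congr (h1 _ (hw x hx).1)
    fun t ht b => h1 _ ((hw x hx).2 b) t ht

private theorem Bnd_cech {F : Fin m → CPoly N} {k : ℕ} {w : FormCochain N} (hh : IsHodgeCochain k w)
    {W : Gen N → ℂ}
    (hW : ∀ x : Gen N, x.1 + x.2.1 = 2 * k → ∀ v, IsLift F x.2.2.1 x.2.2.2 v →
      formIntegral (w x.1 x.2.1 x.2.2.1) v = W x)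
    {p q : ℕ} (hpq : p + q = 2 * k + 1) {I : Fin (p + 1) → Fin (N + 1)} {s : Simplex N q}
    {v : (Fin (q + 1) → ℝ) → (Fin (N + 1) → ℂ)} (hv : IsLift F I s v) :
    ContinuousOn (fun t => cval w p q I (v (bary t)) (Bnd_xi v t)) (simplexDomain q) ∧
    evc W (bdC ⟨p, q, I, s⟩) = ∫ t in simplexDomain q, cval w p q I (v (bary t)) (Bnd_xi v t) := by
  cases p with
  | zero =>
    simp only [bdC, cval, map_zero, integral_zero, and_true]
    exact continuousOn_const
  | succ p =>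
    have hpq' : p + q = 2 * k := by omega
    have h1 : ∀ a : Fin (p + 2), ContinuousOn
        (fun t => fval (w p q (I ∘ a.succAbove)) (v (bary t)) (Bnd_xi v t)) (simplexDomain q) :=
      fun a => Bnd_cont_fval (I := I ∘ a.succAbove) (hh.1 p q hpq' _) hv.smooth (IsLift.cech hv a).inOpen
    have h2 : ∀ a : Fin (p + 2), ContinuousOn
        (fun t => (-1 : ℂ) ^ (a : ℕ) * fval (w p q (I ∘ a.succAbove)) (v (bary t)) (Bnd_xi v t))
          (simplexDomain q) := fun a => continuousOn_const.mul (h1 a)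
    simp only [bdC, cval, map_sum, evc_single]
    refine ⟨continuousOn_finsetSum _ fun a _ => h2 a, ?_⟩
    rw [integral_finsetSum _ fun a _ => (h2 a).integrableOn_compact isCompact_simplexDomain]
    refine Finset.sum_congr rfl fun a _ => ?_
    rw [integral_const_mul]
    have h3 := hW ⟨p, q, I ∘ a.succAbove, s⟩ hpq' v (IsLift.cech hv a)
    rw [← h3]
    have h4 := formIntegral_eq (I := I ∘ a.succAbove) (hh.1 p q hpq' (I ∘ a.succAbove)) hv.smooth
      (IsLift.cech hv a).inOpen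
    have h5 : formIntegral (w p q (I ∘ a.succAbove)) v =
        ∫ t in simplexDomain q, fval (w p q (I ∘ a.succAbove)) (v (bary t)) (Bnd_xi v t) := h4
    simp only
    rw [h5]
    push_cast
    rfl

private theorem Bnd_stokes {p : ℕ} {I : Fin (p + 1) → Fin (N + 1)} {q : ℕ}
    {v : (Fin (q + 2) → ℝ) → (Fin (N + 1) → ℂ)} (hv : ContDiff ℝ ∞ v)
    (hne : ∀ t ∈ stdSimplex ℝ (Fin (q + 2)), ∀ a, v t (I a) ≠ 0)
    {f : RatFun N} (hf : f.IsRegularOn I) {g : Fin q → RatFun N} (hg : ∀ b, (g b).IsRegularOn I) :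
    ∑ i : Fin (q + 2), (-1 : ℂ) ^ (i : ℕ) * termIntegral f g (fun t => v (i.insertNth (0 : ℝ) t)) =
      ∫ t in simplexDomain (q + 1), Matrix.det (Matrix.of fun a b : Fin (q + 1) =>
        dvf ((Fin.cons f g : Fin (q + 1) → RatFun N) b) (v (bary t)) (Bnd_xi v t a)) := by
  have h1 := stokes_form (φ := fun t => f.val (v (bary t))) (γ := fun b t => (g b).val (v (bary t)))
    (Bnd_O_open hv I) (Bnd_O_sub hne) ((Bnd_val_smooth hf hv).of_le (by norm_cast))
    (fun b => (Bnd_val_smooth (hg b) hv).of_le (by norm_cast))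
  have h2 : ∫ t in simplexDomain (q + 1), Matrix.det (Matrix.of fun a b : Fin (q + 1) =>
        dvf ((Fin.cons f g : Fin (q + 1) → RatFun N) b) (v (bary t)) (Bnd_xi v t a)) =
      ∫ t in simplexDomain (q + 1), Matrix.det (Matrix.of fun a b : Fin (q + 1) =>
        fderiv ℝ ((Fin.cons (fun t => f.val (v (bary t))) (fun b t => (g b).val (v (bary t))) :
          Fin (q + 1) → (Fin (q + 1) → ℝ) → ℂ) b) t (Pi.single a 1)) := by
    refine setIntegral_congr_fun isClosed_simplexDomain.measurableSet fun t ht => ?_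
    congr 1
    ext a b
    simp only [Matrix.of_apply]
    refine Fin.cases ?_ (fun b => ?_) b
    · simp only [Fin.cons_zero]
      exact (Bnd_fd hf hv (Bnd_O_sub hne ht) _).symm
    · simp only [Fin.cons_succ]
      exact (Bnd_fd (hg b) hv (Bnd_O_sub hne ht) _).symm
  rw [h2, h1]
  refine Finset.sum_congr rfl fun i _ => ?_
  congr 1
  unfold termIntegral
  simp only [← bary_fc]

private theorem Bnd_sing {F : Fin m → CPoly N} {k : ℕ} {w : FormCochain N} (hh : IsHodgeCochain k w)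
    {W : Gen N → ℂ}
    (hW : ∀ x : Gen N, x.1 + x.2.1 = 2 * k → ∀ v, IsLift F x.2.2.1 x.2.2.2 v →
      formIntegral (w x.1 x.2.1 x.2.2.1) v = W x)
    {p q : ℕ} (hpq : p + q = 2 * k + 1) {I : Fin (p + 1) → Fin (N + 1)} {s : Simplex N q}
    {v : (Fin (q + 1) → ℝ) → (Fin (N + 1) → ℂ)} (hv : IsLift F I s v) :
    ContinuousOn (fun t => sval w p q I (v (bary t)) (Bnd_xi v t)) (simplexDomain q) ∧
    evc W (bdS ⟨p, q, I, s⟩) = ∫ t in simplexDomain q, sval w p q I (v (bary t)) (Bnd_xi v t) := by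
  cases q with
  | zero =>
    simp only [bdS, sval, map_zero, integral_zero, and_true]
    exact continuousOn_const
  | succ q =>
    have hpq' : p + q = 2 * k := by omega
    have hw := hh.1 p q hpq' I
    have hreg : ∀ x ∈ w p q I, ∀ b : Fin (q + 1),
        ((Fin.cons x.1 x.2 : Fin (q + 1) → RatFun N) b).IsRegularOn I := by
      intro x hx b
      refine Fin.cases ?_ (fun b => ?_) b
      · exact (hw x hx).1
      · exact (hw x hx).2 b
    have h1 := Bnd_list (w p q I) (fun x t => Matrix.det (Matrix.of fun a b : Fin (q + 1) =>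
        dvf ((Fin.cons x.1 x.2 : Fin (q + 1) → RatFun N) b) (v (bary t)) (Bnd_xi v t a)))
      fun x hx => (Bnd_cont_dterm hv.smooth (hreg x hx)).mono (Bnd_O_sub hv.inOpen)
    refine ⟨h1.1, ?_⟩
    have h2 : ∫ t in simplexDomain (q + 1), sval w p (q + 1) I (v (bary t)) (Bnd_xi v t) =
        ((w p q I).map fun x => ∫ t in simplexDomain (q + 1), Matrix.det (Matrix.of
          fun a b : Fin (q + 1) => dvf ((Fin.cons x.1 x.2 : Fin (q + 1) → RatFun N) b) (v (bary t))
            (Bnd_xi v t a))).sum := h1.2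
    rw [h2]
    have h3 : ((w p q I).map fun x => ∫ t in simplexDomain (q + 1), Matrix.det (Matrix.of
          fun a b : Fin (q + 1) => dvf ((Fin.cons x.1 x.2 : Fin (q + 1) → RatFun N) b) (v (bary t))
            (Bnd_xi v t a))) =
        (w p q I).map fun x => ∑ i : Fin (q + 2), (-1 : ℂ) ^ (i : ℕ) *
          termIntegral x.1 x.2 (fun t => v (i.insertNth (0 : ℝ) t)) :=
      List.map_congr_left fun x hx => (Bnd_stokes hv.smooth hv.inOpen (hw x hx).1 (hw x hx).2).symm
    rw [h3]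
    have h4 : ∀ l : AlgForm N q, (l.map fun x => ∑ i : Fin (q + 2), (-1 : ℂ) ^ (i : ℕ) *
          termIntegral x.1 x.2 (fun t => v (i.insertNth (0 : ℝ) t))).sum =
        ∑ i : Fin (q + 2), (-1 : ℂ) ^ (i : ℕ) *
          formIntegral l (fun t => v (i.insertNth (0 : ℝ) t)) := by
      intro l
      induction l with
      | nil => simp [formIntegral]
      | cons x l ih =>
        simp only [List.map_cons, List.sum_cons, formIntegral] at ih ⊢
        rw [ih, ← Finset.sum_add_distrib]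
        refine Finset.sum_congr rfl fun i _ => ?_
        ring
    rw [h4]
    simp only [bdS, map_sum, evc_single]
    refine Finset.sum_congr rfl fun i _ => ?_
    have h5 := hW ⟨p, q, I, s ∘ face i⟩ hpq' _ (IsLift.face hv i)
    rw [← h5]
    push_cast
    rfl

theorem evc_bd_eq {F : Fin m → CPoly N} {k : ℕ} {w : FormCochain N} (hh : IsHodgeCochain k w)
    {W : Gen N → ℂ}
    (hW : ∀ x : Gen N, x.1 + x.2.1 = 2 * k → ∀ v, IsLift F x.2.2.1 x.2.2.2 v →
      formIntegral (w x.1 x.2.1 x.2.2.1) v = W x)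
    {p q : ℕ} (hpq : p + q = 2 * k + 1) {I : Fin (p + 1) → Fin (N + 1)} {s : Simplex N q}
    {v : (Fin (q + 1) → ℝ) → (Fin (N + 1) → ℂ)} (hv : IsLift F I s v) :
    evc W (AHI.bd ⟨p, q, I, s⟩) = ∫ t in simplexDomain q, tval w p q I (v (bary t)) fun a =>
      fderiv ℝ (fun s => v (bary s)) t (Pi.single a 1) := by
  obtain ⟨h1, h2⟩ := Bnd_cech hh hW hpq hv
  obtain ⟨h3, h4⟩ := Bnd_sing hh hW hpq hv
  have h5 : ContinuousOn (fun t => (-1 : ℂ) ^ p * sval w p q I (v (bary t)) (Bnd_xi v t))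
      (simplexDomain q) := continuousOn_const.mul h3
  have h6 : ∫ t in simplexDomain q, (cval w p q I (v (bary t)) (Bnd_xi v t) +
      (-1 : ℂ) ^ p * sval w p q I (v (bary t)) (Bnd_xi v t)) =
      evc W (bdC ⟨p, q, I, s⟩) + (-1 : ℂ) ^ p * evc W (bdS ⟨p, q, I, s⟩) := by
    rw [integral_add (h1.integrableOn_compact isCompact_simplexDomain)
      (h5.integrableOn_compact isCompact_simplexDomain), integral_const_mul, h2, h4]
  have h7 : evc W (AHI.bd ⟨p, q, I, s⟩) =
      evc W (bdC ⟨p, q, I, s⟩) + (-1 : ℂ) ^ p * evc W (bdS ⟨p, q, I, s⟩) := by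
    unfold AHI.bd
    rw [map_add, map_zsmul, zsmul_eq_mul]
    push_cast
    rfl
  rw [h7, ← h6]
  rfl

end Pool.Agent.AHU
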