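import Mathlib
import Pool.Agent.AHU.Bnd

/-!
# A cochain whose integrals over boundaries vanish is closed at every point

Proof.  Let `z` be on the cone, `z (I a) ≠ 0`, `ξ a` tangent vectors (`a < q`), `C` a certificate
valid at `z` (`exists_cert`), `P = C.P`.  Let `κ` be as in `AHI.exists_kappa` (with a finite `X`
containing the coefficients) and `r y = y + nv P y (κ (inc X, y))`: it is smooth near `z`,
`r z = z`, `r y` is on the cone (`onCone_of_chosen` with `β = refl`, `ev_inc`), and the derivative of `r`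
at `z` fixes tangent vectors: differentiate `P_b (r y) = 0` in the direction `ξ`:
`∑ l ∂_l P_b (z) (ξ + nv P z c') l = 0` with `c' = D κ ξ`, so `∑ l ∂_l P_b (z) (nv P z c') l = 0` for all
`b` and `nv P z c' = 0` (`conj_mul_nv`).  (Any other smooth retraction onto the cone near `z` will
do.)  Let `χ` be a smooth function with compact support on `Fin (q + 1) → ℝ`, equal to `1` near the
standard simplex (`exists_contDiff_...`/`ContDiffBump`), and for small `ε > 0` put
`v_ε b = r (z + ε χ (b) ∑ a b_(a+1) ξ_a)`.  It is a lift (`IsLift F I s_ε v_ε`) of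
`s_ε t = mk (v_ε t)` for small `ε`.  By `evc_bd_eq` and `IsPer.bd` the integral of
`tval w p q I (v_ε (bary t)) (∂_a (v_ε ∘ bary) (t))` over `simplexDomain q` vanishes.  Here
`∂_a (v_ε ∘ bary) (t) = ε (D r) (z + ε ∑ t_b ξ_b) (ξ_a)`, and `tval` is multilinear in the vectors
(homogeneous of degree `q`: factor `ε` from each row of the determinants), so
`∫ tval w p q I (r (z + ε ∑ t_b ξ_b)) (D r (z + ε ∑ t_b ξ_b) ξ_a) = 0` for all small `ε`.  Let
`ε → 0` (the integrand converges uniformly, or dominated convergence, or use continuity of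
parametric integrals over a compact set): `vol (simplexDomain q) · tval w p q I z ξ = 0`, and the
volume is positive.
-/

namespace Pool.Agent.AHU

open MvPolynomial Pool.Agent.AHC Pool.Agent.AHI Pool.Agent.AHR MeasureTheory Filter
open scoped ContDiff Topology LinearAlgebra.Projectivization

variable {N m : ℕ}

/-- the derivative of a polynomial -/
private theorem Cvs_fderiv_eval (P : CPoly N) (z v : Fin (N + 1) → ℂ) :
    fderiv ℝ (fun y : Fin (N + 1) → ℂ => eval y P) z v = ∑ l, eval z (pderiv l P) * v l := by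
  have h1 : HasFDerivAt (fun y : Fin (N + 1) → ℂ => eval y P)
      (fderiv ℝ (fun y : Fin (N + 1) → ℂ => eval y P) z) (z + (0 : ℝ) • v) := by
    rw [zero_smul, add_zero]
    exact ((contDiff_eval (k := 1) P).differentiable (by norm_num) z).hasFDerivAt
  have h2 : HasDerivAt (fun s : ℝ => z + s • v) v 0 := by
    have := ((hasDerivAt_id (0 : ℝ)).smul_const v).const_add z
    simpa using this
  have h3 := h1.comp_hasDerivAt (0 : ℝ) h2
  have h4 := hasDerivAt_eval_line P z v 0
  have h5 : (fun y : Fin (N + 1) → ℂ => eval y P) ∘ (fun s : ℝ => z + s • v) =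
      fun s : ℝ => eval (fun i => z i + s * v i) P := by
    funext s
    rfl
  rw [h5] at h3
  have h6 := h3.unique h4
  simpa using h6

/-- a smooth retraction onto the cone -/
private theorem Cvs_retract {F : Fin m → CPoly N} (hF : IsSmoothProjective F) {z : Fin (N + 1) → ℂ}
    (hz0 : z ≠ 0) (hz : OnCone F z) :
    ∃ r : (Fin (N + 1) → ℂ) → (Fin (N + 1) → ℂ), (∀ᶠ y in 𝓝 z, ContDiffAt ℝ ∞ r y ∧ OnCone F (r y)) ∧
      r z = z ∧ ∀ ξ, Tan F z ξ → fderiv ℝ r z ξ = ξ := by
  obtain ⟨C, hC⟩ := exists_cert hF hz0 hz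
  obtain ⟨X, -⟩ : ∃ X : Finset ℂ, X = ∅ := ⟨∅, rfl⟩
  obtain ⟨κ, h1, h2, h3, -⟩ := exists_kappa X C.P z hC.li (fun a => hz (C.j a))
  have hι : ContDiff ℝ ω fun y : Fin (N + 1) → ℂ => (inc X, y) := contDiff_const.prodMk contDiff_id
  set κ' : (Fin (N + 1) → ℂ) → (Fin C.r → ℂ) := fun y => κ (inc X, y) with hκ'
  have ht : Tendsto (fun y : Fin (N + 1) → ℂ => (inc X, y)) (𝓝 z) (𝓝 (inc X, z)) := hι.continuous.continuousAt
  have k1 : ∀ᶠ y in 𝓝 z, ContDiffAt ℝ ω κ' y := by
    filter_upwards [ht.eventually h1] with y hy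
    exact hy.comp y hι.contDiffAt
  have k2 : κ' z = 0 := h2
  have k3 : ∀ᶠ y in 𝓝 z, ∀ b, eval (fun l => y l + nv C.P y (κ' y) l) (C.P b) = 0 := by
    filter_upwards [ht.eventually h3] with y hy b
    have := congrFun hy b
    simp only [Hf, Pi.zero_apply] at this
    rw [ev_inc] at this
    exact this
  set n : (Fin (N + 1) → ℂ) → (Fin (N + 1) → ℂ) := fun y => nv C.P y (κ' y) with hn
  have n1 : ∀ᶠ y in 𝓝 z, ContDiffAt ℝ ω n y := by
    filter_upwards [k1] with y hy
    exact ContDiffAt.comp y (g := fun x : (Fin (N + 1) → ℂ) × (Fin C.r → ℂ) => nv C.P x.1 x.2)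
      (contDiff_nv C.P).contDiffAt (contDiffAt_id.prodMk hy)
  have n2 : n z = 0 := by rw [hn]; simp only []; rw [k2, nv_zero]
  set r : (Fin (N + 1) → ℂ) → (Fin (N + 1) → ℂ) := fun y => y + n y with hr
  have r1 : ∀ᶠ y in 𝓝 z, ContDiffAt ℝ ω r y := by
    filter_upwards [n1] with y hy
    exact contDiffAt_id.add hy
  have r2 : r z = z := by rw [hr]; simp only []; rw [n2, add_zero]
  have r3 : ∀ᶠ y in 𝓝 z, eval (r y) C.h ≠ 0 := by
    have h4 : ContinuousAt (fun y => eval (r y) C.h) z :=
      ContinuousAt.comp (g := fun y : Fin (N + 1) → ℂ => eval y C.h)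
        (contDiff_eval (k := 0) C.h).continuous.continuousAt r1.self_of_nhds.continuousAt
    refine h4.eventually_ne ?_
    rw [r2]
    exact hC.ne
  refine ⟨r, ?_, r2, fun ξ hξ => ?_⟩
  · filter_upwards [r1, r3, k3] with y hy1 hy2 hy3
    refine ⟨hy1.of_le (by simp), fun i => ?_⟩
    have h4 := congrArg (fun Q => eval (r y) Q) (C.eq i)
    have h5 : ∀ a, eval (r y) (F (C.j a)) = 0 := fun a => hy3 a
    simp only [map_sum, map_mul, h5, mul_zero, Finset.sum_const_zero] at h4
    exact (mul_eq_zero.1 h4.symm).resolve_left hy2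
  · -- the derivative
    have dκ : DifferentiableAt ℝ κ' z := k1.self_of_nhds.differentiableAt (by simp)
    have dr : DifferentiableAt ℝ r z := r1.self_of_nhds.differentiableAt (by simp)
    have dn : DifferentiableAt ℝ n z := n1.self_of_nhds.differentiableAt (by simp)
    set c' := fderiv ℝ κ' z ξ with hc'
    have e1 : fderiv ℝ n z ξ = nv C.P z c' := by
      have h4 : HasFDerivAt n (fderiv ℝ n z) z := dn.hasFDerivAt
      funext l
      have h5 : HasFDerivAt (fun y => n y l) ((ContinuousLinearMap.proj l).comp (fderiv ℝ n z)) z :=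
        (hasFDerivAt_apply (𝕜 := ℝ) l (n z)).comp z h4
      have h6 : ∀ a, HasFDerivAt (fun y => κ' y a) ((ContinuousLinearMap.proj a).comp (fderiv ℝ κ' z)) z :=
        fun a => (hasFDerivAt_apply (𝕜 := ℝ) a (κ' z)).comp z dκ.hasFDerivAt
      have h7 : ∀ a, DifferentiableAt ℝ (fun y : Fin (N + 1) → ℂ =>
          (starRingEnd ℂ) (eval y (pderiv l (C.P a)))) z := by
        intro a
        have := (Complex.conjCLE.contDiff (n := 1)).comp (contDiff_eval (k := 1) (pderiv l (C.P a)))
        exact this.differentiable (by norm_num) z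
      have h8 : HasFDerivAt (fun y => n y l) (∑ a, (κ' z a • fderiv ℝ (fun y : Fin (N + 1) → ℂ =>
          (starRingEnd ℂ) (eval y (pderiv l (C.P a)))) z + (starRingEnd ℂ) (eval z (pderiv l (C.P a))) •
            ((ContinuousLinearMap.proj a).comp (fderiv ℝ κ' z)))) z := by
        have : (fun y => n y l) = fun y => ∑ a, κ' y a * (starRingEnd ℂ) (eval y (pderiv l (C.P a))) := rfl
        rw [this]
        exact HasFDerivAt.fun_sum fun a _ => (h6 a).mul (h7 a).hasFDerivAt
      have h9 := congrArg (fun L : (Fin (N + 1) → ℂ) →L[ℝ] ℂ => L ξ) (h5.unique h8)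
      simp only [ContinuousLinearMap.comp_apply, ContinuousLinearMap.proj_apply,
        _root_.sum_apply, _root_.add_apply, _root_.smul_apply, k2,
        Pi.zero_apply, zero_mul, zero_add, smul_eq_mul] at h9
      rw [h9]
      unfold nv
      refine Finset.sum_congr rfl fun a _ => ?_
      rw [mul_comm]
    have e2 : fderiv ℝ r z ξ = ξ + nv C.P z c' := by
      have h4 : HasFDerivAt r (ContinuousLinearMap.id ℝ _ + fderiv ℝ n z) z :=
        (hasFDerivAt_id z).add dn.hasFDerivAt
      rw [h4.fderiv, _root_.add_apply, e1]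
      rfl
    have e3 : nv C.P z c' = 0 := by
      refine conj_mul_nv C.P z c' fun b => ?_
      have h4 : (fun y => eval (r y) (C.P b)) =ᶠ[𝓝 z] fun _ => 0 := by
        filter_upwards [k3] with y hy
        exact hy b
      have h5 : HasFDerivAt (fun y : Fin (N + 1) → ℂ => eval y (C.P b))
          (fderiv ℝ (fun y : Fin (N + 1) → ℂ => eval y (C.P b)) z) (r z) := by
        rw [r2]
        exact ((contDiff_eval (k := 1) (C.P b)).differentiable (by norm_num) z).hasFDerivAt
      have h6 := h5.comp z dr.hasFDerivAt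
      have h7 : HasFDerivAt (fun y => eval (r y) (C.P b)) (0 : (Fin (N + 1) → ℂ) →L[ℝ] ℂ) z :=
        (hasFDerivAt_const (0 : ℂ) z).congr_of_eventuallyEq h4
      have h8 := congrArg (fun L : (Fin (N + 1) → ℂ) →L[ℝ] ℂ => L ξ) (h6.unique h7)
      simp only [ContinuousLinearMap.comp_apply, _root_.zero_apply] at h8
      rw [Cvs_fderiv_eval, e2] at h8
      simp only [Pi.add_apply, mul_add, Finset.sum_add_distrib] at h8
      have h9 : ∑ l, eval z (pderiv l (C.P b)) * ξ l = 0 := hξ (C.j b)
      rw [h9, zero_add] at h8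
      exact h8
    rw [e2, e3, add_zero]

/-- the poles of `g` are among the coordinates `I a` -/
private def Cvs_reg (g : RatFun N) {p : ℕ} (I : Fin (p + 1) → Fin (N + 1)) : Prop :=
  ∀ i, g.den i ≠ 0 → i ∈ Set.range I

private theorem Cvs_val {g : RatFun N} {p : ℕ} {I : Fin (p + 1) → Fin (N + 1)} (hg : Cvs_reg g I)
    {T : Type} [TopologicalSpace T] {y : T → Fin (N + 1) → ℂ} (hy : Continuous y)
    (hne : ∀ t a, y t (I a) ≠ 0) : Continuous fun t => g.val (y t) := by
  unfold RatFun.val
  refine Continuous.div ?_ ?_ ?_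
  · exact (contDiff_eval (k := 0) g.num).continuous.comp hy
  · exact continuous_finsetProd _ fun i _ => ((continuous_apply i).comp hy).pow _
  · intro t
    rw [Finset.prod_ne_zero_iff]
    intro i _
    by_cases h : g.den i = 0
    · rw [h, pow_zero]
      exact one_ne_zero
    · obtain ⟨a, rfl⟩ := hg i h
      exact pow_ne_zero _ (hne t a)

private theorem Cvs_dvf {g : RatFun N} {p : ℕ} {I : Fin (p + 1) → Fin (N + 1)} (hg : Cvs_reg g I)
    {T : Type} [TopologicalSpace T] {y η : T → Fin (N + 1) → ℂ} (hy : Continuous y)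
    (hη : Continuous η) (hne : ∀ t a, y t (I a) ≠ 0) : Continuous fun t => dvf g (y t) (η t) := by
  unfold dvf
  refine continuous_finsetSum _ fun l _ => ?_
  refine Continuous.mul (Continuous.sub ?_ ?_) ((continuous_apply l).comp hη)
  · refine Continuous.div ((contDiff_eval (k := 0) (pderiv l g.num)).continuous.comp hy)
      (continuous_finsetProd _ fun i _ => ((continuous_apply i).comp hy).pow _) ?_
    intro t
    rw [Finset.prod_ne_zero_iff]
    intro i _
    by_cases h : g.den i = 0
    · rw [h, pow_zero]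
      exact one_ne_zero
    · obtain ⟨a, rfl⟩ := hg i h
      exact pow_ne_zero _ (hne t a)
  · by_cases h : g.den l = 0
    · simp only [h, Nat.cast_zero, zero_div, mul_zero]
      exact continuous_const
    · obtain ⟨a, ha⟩ := hg l h
      refine (Cvs_val hg hy hne).mul (continuous_const.div ((continuous_apply l).comp hy) ?_)
      intro t
      rw [← ha]
      exact hne t a

private theorem Cvs_listSum {α T : Type} [TopologicalSpace T] (w : List α) (f : α → T → ℂ)
    (h : ∀ x ∈ w, Continuous (f x)) : Continuous fun t => (w.map fun x => f x t).sum := by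
  induction w with
  | nil => simpa using continuous_const
  | cons a w ih =>
    simp only [List.map_cons, List.sum_cons]
    exact (h a (by simp)).add (ih fun x hx => h x (by simp [hx]))

private theorem Cvs_fval {q : ℕ} {w : AlgForm N q} {p : ℕ} {I : Fin (p + 1) → Fin (N + 1)}
    (hw : ∀ x ∈ w, Cvs_reg x.1 I ∧ ∀ b, Cvs_reg (x.2 b) I)
    {T : Type} [TopologicalSpace T] {y : T → Fin (N + 1) → ℂ} {η : Fin q → T → Fin (N + 1) → ℂ}
    (hy : Continuous y) (hη : ∀ a, Continuous (η a)) (hne : ∀ t a, y t (I a) ≠ 0) :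
    Continuous fun t => fval w (y t) fun a => η a t := by
  unfold fval
  refine Cvs_listSum w (fun x t => x.1.val (y t) * Matrix.det (Matrix.of fun a b : Fin q =>
    dvf (x.2 b) (y t) (η a t))) fun x hx => ?_
  refine (Cvs_val (hw x hx).1 hy hne).mul (Continuous.matrix_det ?_)
  refine continuous_matrix fun a b => ?_
  exact Cvs_dvf ((hw x hx).2 b) hy (hη a) hne

private theorem Cvs_dfval {q : ℕ} {w : AlgForm N q} {p : ℕ} {I : Fin (p + 1) → Fin (N + 1)}
    (hw : ∀ x ∈ w, Cvs_reg x.1 I ∧ ∀ b, Cvs_reg (x.2 b) I)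
    {T : Type} [TopologicalSpace T] {y : T → Fin (N + 1) → ℂ} {η : Fin (q + 1) → T → Fin (N + 1) → ℂ}
    (hy : Continuous y) (hη : ∀ a, Continuous (η a)) (hne : ∀ t a, y t (I a) ≠ 0) :
    Continuous fun t => dfval w (y t) fun a => η a t := by
  unfold dfval
  refine Cvs_listSum w (fun x t => Matrix.det (Matrix.of fun a b : Fin (q + 1) =>
    dvf ((Fin.cons x.1 x.2 : Fin (q + 1) → RatFun N) b) (y t) (η a t))) fun x hx => ?_
  refine Continuous.matrix_det ?_
  refine continuous_matrix fun a b => ?_
  refine Fin.cases ?_ (fun b => ?_) b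
  · exact Cvs_dvf (hw x hx).1 hy (hη a) hne
  · exact Cvs_dvf ((hw x hx).2 b) hy (hη a) hne

private theorem Cvs_tval {k : ℕ} {w : FormCochain N} (hh : IsHodgeCochain k w) {p q : ℕ}
    (hpq : p + q = 2 * k + 1) {I : Fin (p + 1) → Fin (N + 1)}
    {T : Type} [TopologicalSpace T] {y : T → Fin (N + 1) → ℂ} {η : Fin q → T → Fin (N + 1) → ℂ}
    (hy : Continuous y) (hη : ∀ a, Continuous (η a)) (hne : ∀ t a, y t (I a) ≠ 0) :
    Continuous fun t => tval w p q I (y t) fun a => η a t := by
  unfold tval
  refine Continuous.add ?_ (continuous_const.mul ?_)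
  · cases p with
    | zero => exact continuous_const
    | succ p =>
      simp only [cval]
      refine continuous_finsetSum _ fun a _ => continuous_const.mul ?_
      refine Cvs_fval (I := I ∘ a.succAbove) (fun x hx => ?_) hy hη fun t b => hne t _
      have := hh.1 p q (by omega) (I ∘ a.succAbove) x hx
      exact ⟨this.1.2, fun b => (this.2 b).2⟩
  · cases q with
    | zero => exact continuous_const
    | succ q =>
      simp only [sval]
      refine Cvs_dfval (I := I) (fun x hx => ?_) hy hη hne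
      have := hh.1 p q (by omega) I x hx
      exact ⟨this.1.2, fun b => (this.2 b).2⟩

private theorem Cvs_dvf_smul (g : RatFun N) (z ξ : Fin (N + 1) → ℂ) (c : ℂ) :
    dvf g z (c • ξ) = c * dvf g z ξ := by
  unfold dvf
  rw [Finset.mul_sum]
  refine Finset.sum_congr rfl fun l _ => ?_
  rw [Pi.smul_apply, smul_eq_mul]
  ring

private theorem Cvs_det_smul {q : ℕ} (f : Fin q → Fin q → ℂ) (c : ℂ) :
    Matrix.det (Matrix.of fun a b : Fin q => c * f a b) = c ^ q * Matrix.det (Matrix.of f) := by
  have h : (Matrix.of fun a b : Fin q => c * f a b) = c • Matrix.of f := by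
    ext a b
    simp
  rw [h, Matrix.det_smul, Fintype.card_fin]

private theorem Cvs_tval_smul (w : FormCochain N) (p q : ℕ) (I : Fin (p + 1) → Fin (N + 1))
    (z : Fin (N + 1) → ℂ) (ξ : Fin q → Fin (N + 1) → ℂ) (c : ℂ) :
    tval w p q I z (fun a => c • ξ a) = c ^ q * tval w p q I z ξ := by
  have h1 : ∀ w' : AlgForm N q, fval w' z (fun a => c • ξ a) = c ^ q * fval w' z ξ := by
    intro w'
    unfold fval
    rw [← List.sum_map_mul_left]
    congr 1
    refine List.map_congr_left fun x _ => ?_
    simp only [Cvs_dvf_smul]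
    rw [Cvs_det_smul]
    ring
  unfold tval
  rw [mul_add]
  congr 1
  · cases p with
    | zero => simp [cval]
    | succ p =>
      simp only [cval, h1, Finset.mul_sum]
      refine Finset.sum_congr rfl fun a _ => ?_
      ring
  · cases q with
    | zero => simp [sval]
    | succ q =>
      have h2 : dfval (w p q I) z (fun a => c • ξ a) = c ^ (q + 1) * dfval (w p q I) z ξ := by
        unfold dfval
        rw [← List.sum_map_mul_left]
        congr 1
        refine List.map_congr_left fun x _ => ?_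
        simp only [Cvs_dvf_smul]
        rw [Cvs_det_smul]
      simp only [sval]
      rw [h2]
      ring

private theorem Cvs_vol (q : ℕ) : volume.real (simplexDomain q) ≠ 0 := by
  have h1 : (0 : ENNReal) < volume (simplexDomain q) := by
    have h2 : IsOpen {t : Fin q → ℝ | (∀ i, 0 < t i) ∧ ∑ i, t i < 1} := by
      have h3 : {t : Fin q → ℝ | (∀ i, 0 < t i) ∧ ∑ i, t i < 1} =
          (⋂ i, {t : Fin q → ℝ | 0 < t i}) ∩ {t | ∑ i, t i < 1} := by
        ext t
        simp
      rw [h3]
      refine IsOpen.inter (isOpen_iInter_of_finite fun i => isOpen_lt continuous_const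
        (continuous_apply i)) ?_
      exact isOpen_lt (continuous_finsetSum _ fun i _ => continuous_apply i) continuous_const
    have h4 : ({t : Fin q → ℝ | (∀ i, 0 < t i) ∧ ∑ i, t i < 1}).Nonempty := by
      refine ⟨fun _ => 1 / (q + 1), fun _ => by positivity, ?_⟩
      rw [Finset.sum_const, Finset.card_univ, Fintype.card_fin, nsmul_eq_mul, mul_one_div,
        div_lt_one (by positivity)]
      linarith
    refine lt_of_lt_of_le (h2.measure_pos volume h4) (measure_mono ?_)
    intro t ht
    exact ⟨fun i => (ht.1 i).le, ht.2.le⟩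
  have h5 : volume (simplexDomain q) ≠ ⊤ := isCompact_simplexDomain.measure_lt_top.ne
  rw [Measure.real]
  exact (ENNReal.toReal_pos h1.ne' h5).ne'

theorem ptClosed_of_isPer {F : Fin m → CPoly N} {k : ℕ} {w : FormCochain N}
    (hsm : IsSmoothProjective F) (hh : IsHodgeCochain k w) {W : Gen N → ℂ}
    (hW : IsPer F k w W) : PtClosed F k w := by
  intro p q hpq I z hz hI ξ hξ
  have hz0 : z ≠ 0 := fun h => hI 0 (by rw [h]; rfl)
  obtain ⟨r, hr1, hr2, hr3⟩ := Cvs_retract hsm hz0 hz
  have hne : ∀ᶠ y in 𝓝 z, ∀ a, r y (I a) ≠ 0 := by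
    rw [Filter.eventually_all]
    intro a
    have h1 : ContinuousAt (fun y => r y (I a)) z :=
      (continuous_apply (I a)).continuousAt.comp hr1.self_of_nhds.1.continuousAt
    refine h1.eventually_ne ?_
    rw [hr2]
    exact hI a
  obtain ⟨ρ, hρ, hb⟩ := Metric.eventually_nhds_iff_ball.1 (hr1.and hne)
  -- the linear parametrisation
  let L : (Fin q → ℝ) →L[ℝ] (Fin (N + 1) → ℂ) :=
    ∑ a, (ContinuousLinearMap.proj (R := ℝ) (φ := fun _ : Fin q => ℝ) a).smulRight (ξ a)
  have hL : ∀ s, L s = ∑ a, s a • ξ a := by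
    intro s
    simp [L, _root_.sum_apply]
  let χ : ContDiffBump (0 : Fin (q + 1) → ℝ) := ⟨2, 3, by norm_num, by norm_num⟩
  let u : (Fin (q + 1) → ℝ) → (Fin (N + 1) → ℂ) := fun b => χ b • L fun a => b a.succ
  have hu : ContDiff ℝ ∞ u := by
    refine ContDiff.smul χ.contDiff (L.contDiff.comp ?_)
    rw [contDiff_pi]
    exact fun a => contDiff_apply ℝ ℝ a.succ
  set K : ℝ := ‖L‖ * 3 + 1 with hK
  have hKpos : 0 < K := by positivity
  have huK : ∀ b, ‖u b‖ < K := by
    intro b
    by_cases hb3 : 3 ≤ dist b 0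
    · have h1 : χ b = 0 := χ.zero_of_le_dist hb3
      simp only [u]
      rw [h1, zero_smul, norm_zero]
      exact hKpos
    · rw [dist_zero_right, not_le] at hb3
      have h1 : ‖(fun a : Fin q => b a.succ)‖ ≤ 3 := by
        rw [pi_norm_le_iff_of_nonneg (by norm_num)]
        intro a
        exact (norm_le_pi_norm b a.succ).trans hb3.le
      have h2 : ‖L fun a => b a.succ‖ ≤ ‖L‖ * 3 :=
        (L.le_opNorm _).trans (mul_le_mul_of_nonneg_left h1 (norm_nonneg _))
      have h3 : ‖u b‖ ≤ 1 * (‖L‖ * 3) := by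
        simp only [u]
        rw [norm_smul, Real.norm_eq_abs, abs_of_nonneg χ.nonneg]
        exact mul_le_mul χ.le_one h2 (norm_nonneg _) zero_le_one
      linarith
  have hmem : ∀ ε : ℝ, |ε| < ρ / K → ∀ b, z + ε • u b ∈ Metric.ball z ρ := by
    intro ε hε b
    rw [Metric.mem_ball, dist_eq_norm, add_sub_cancel_left, norm_smul, Real.norm_eq_abs]
    calc |ε| * ‖u b‖ ≤ |ε| * K := mul_le_mul_of_nonneg_left (huK b).le (abs_nonneg _)
      _ < ρ / K * K := mul_lt_mul_of_pos_right hε hKpos
      _ = ρ := by field_simp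
  -- near the simplex
  have hbary : ∀ t ∈ simplexDomain q, ∀ᶠ s in 𝓝 t, u (bary s) = L s := by
    intro t ht
    have h1 : bary t ∈ Metric.ball (0 : Fin (q + 1) → ℝ) 2 := by
      rw [mem_ball_zero_iff]
      refine lt_of_le_of_lt ?_ one_lt_two
      rw [pi_norm_le_iff_of_nonneg zero_le_one]
      intro i
      have h2 := bary_mem ht
      rw [Real.norm_eq_abs, abs_of_nonneg (h2.1 i), ← h2.2]
      exact Finset.single_le_sum (f := bary t) (fun j _ => h2.1 j) (Finset.mem_univ i)
    have h2 : ∀ᶠ s in 𝓝 t, bary s ∈ Metric.ball (0 : Fin (q + 1) → ℝ) 2 :=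
      (contDiff_bary (k := 0)).continuous.continuousAt.eventually (Metric.isOpen_ball.mem_nhds h1)
    filter_upwards [h2] with s hs
    have h3 : χ (bary s) = 1 := χ.one_of_mem_closedBall (Metric.ball_subset_closedBall hs)
    simp only [u]
    rw [h3, one_smul]
    congr 1
  -- the integrals vanish
  have key : ∀ ε : ℝ, ε ≠ 0 → |ε| < ρ / K → ∫ t in simplexDomain q,
      tval w p q I (r (z + ε • L t)) (fun a => fderiv ℝ r (z + ε • L t) (ξ a)) = 0 := by
    intro ε hε0 hε
    set v : (Fin (q + 1) → ℝ) → (Fin (N + 1) → ℂ) := fun b => r (z + ε • u b) with hv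
    have hvs : ContDiff ℝ ∞ v := by
      rw [contDiff_iff_contDiffAt]
      intro b
      have h1 : ContDiff ℝ ∞ fun b => z + ε • u b := contDiff_const.add (hu.const_smul ε)
      exact ContDiffAt.comp b (g := r) (hb _ (hmem ε hε b)).1.1 h1.contDiffAt
    have hv0 : ∀ b, v b ≠ 0 := fun b h => (hb _ (hmem ε hε b)).2 0 (by
      change v b (I 0) = 0
      rw [h]
      rfl)
    have hlift : IsLift F I (fun t : stdSimplex ℝ (Fin (q + 1)) => Projectivization.mk ℂ (v t) (hv0 t)) v :=
      ⟨hvs, fun t _ => (hb _ (hmem ε hε t)).1.2, fun t _ a => (hb _ (hmem ε hε t)).2 a,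
        fun t => ⟨hv0 t, rfl⟩⟩
    have e1 := evc_bd_eq hh hW.int hpq hlift
    have e2 := hW.bd ⟨p, q, I, fun t : stdSimplex ℝ (Fin (q + 1)) => Projectivization.mk ℂ (v t) (hv0 t)⟩
      ⟨v, hlift⟩ hpq
    rw [e1] at e2
    have e3 : ∫ t in simplexDomain q, tval w p q I (v (bary t)) (fun a =>
        fderiv ℝ (fun s => v (bary s)) t (Pi.single a 1)) =
        ∫ t in simplexDomain q, (ε : ℂ) ^ q *
          tval w p q I (r (z + ε • L t)) (fun a => fderiv ℝ r (z + ε • L t) (ξ a)) := by
      refine setIntegral_congr_fun isClosed_simplexDomain.measurableSet fun t ht => ?_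
      have h1 : (fun s => v (bary s)) =ᶠ[𝓝 t] fun s => r (z + ε • L s) := by
        filter_upwards [hbary t ht] with s hs
        simp only [hv]
        rw [hs]
      have h2 := h1.self_of_nhds
      have h3 : z + ε • L t ∈ Metric.ball z ρ := by
        have := hmem ε hε (bary t)
        rwa [(hbary t ht).self_of_nhds] at this
      have h4 : HasFDerivAt (fun s : Fin q → ℝ => z + ε • L s) (ε • L) t :=
        (L.hasFDerivAt.const_smul ε).const_add z
      have h5 : HasFDerivAt r (fderiv ℝ r (z + ε • L t)) (z + ε • L t) :=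
        ((hb _ h3).1.1.differentiableAt (by simp)).hasFDerivAt
      have h6 : HasFDerivAt (fun s => r (z + ε • L s)) ((fderiv ℝ r (z + ε • L t)).comp (ε • L)) t :=
        HasFDerivAt.comp t h5 h4
      have h7 : ∀ a : Fin q, fderiv ℝ (fun s => v (bary s)) t (Pi.single a 1) =
          (ε : ℂ) • fderiv ℝ r (z + ε • L t) (ξ a) := by
        intro a
        rw [h1.fderiv_eq, h6.fderiv, ContinuousLinearMap.comp_apply, _root_.smul_apply, hL (Pi.single a 1)]
        have h8 : ∑ b, (Pi.single a 1 : Fin q → ℝ) b • ξ b = ξ a := by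
          rw [Finset.sum_eq_single a]
          · rw [Pi.single_eq_same, one_smul]
          · intro b _ hba
            rw [Pi.single_eq_of_ne hba, zero_smul]
          · intro h
            exact absurd (Finset.mem_univ a) h
        rw [h8, map_smul]
        exact (Complex.coe_smul ε _).symm
      change tval w p q I (v (bary t)) (fun a => fderiv ℝ (fun s => v (bary s)) t (Pi.single a 1)) = _
      simp only [h7]
      rw [Cvs_tval_smul]
      congr 2
    rw [e3, integral_const_mul] at e2
    exact (mul_eq_zero.1 e2).resolve_left (pow_ne_zero _ (by exact_mod_cast hε0))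
  -- the limit
  let Φ : ℝ × (Fin q → ℝ) → ℂ := fun x =>
    tval w p q I (r (z + x.1 • L x.2)) (fun a => fderiv ℝ r (z + x.1 • L x.2) (ξ a))
  let O : Set (ℝ × (Fin q → ℝ)) := {x | z + x.1 • L x.2 ∈ Metric.ball z ρ}
  have hcont : Continuous fun x : ℝ × (Fin q → ℝ) => z + x.1 • L x.2 :=
    continuous_const.add (continuous_fst.smul (L.continuous.comp continuous_snd))
  have hO : IsOpen O := Metric.isOpen_ball.preimage hcont
  have hΦ : ContinuousOn Φ O := by
    rw [continuousOn_iff_continuous_domRestrict]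
    have c1 : Continuous fun x : O => r (z + x.1.1 • L x.1.2) := by
      rw [continuous_iff_continuousAt]
      intro x
      have h1 : ContinuousAt (fun x : O => z + x.1.1 • L x.1.2) x :=
        (hcont.comp continuous_subtype_val).continuousAt
      exact ContinuousAt.comp (g := r) (hb _ x.2).1.1.continuousAt h1
    have c2 : ∀ a : Fin q, Continuous fun x : O => fderiv ℝ r (z + x.1.1 • L x.1.2) (ξ a) := by
      intro a
      rw [continuous_iff_continuousAt]
      intro x
      have h1 : ContinuousAt (fun x : O => z + x.1.1 • L x.1.2) x :=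
        (hcont.comp continuous_subtype_val).continuousAt
      have h2 : ContinuousAt (fderiv ℝ r) (z + x.1.1 • L x.1.2) :=
        ((hb _ x.2).1.1.fderiv_right (m := 0) (by simp)).continuousAt
      have h3 : ContinuousAt (fun x : O => fderiv ℝ r (z + x.1.1 • L x.1.2)) x :=
        ContinuousAt.comp (g := fderiv ℝ r) h2 h1
      exact h3.clm_apply continuousAt_const
    exact Cvs_tval hh hpq (y := fun x : O => r (z + x.1.1 • L x.1.2))
      (η := fun a (x : O) => fderiv ℝ r (z + x.1.1 • L x.1.2) (ξ a)) c1 c2 fun x a => (hb _ x.2).2 a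
  have hlim := tendsto_setIntegral_of_continuousOn (θ₀ := (0 : ℝ)) hO hΦ
    (isCompact_simplexDomain (q := q)) (by
      intro t _
      change z + (0 : ℝ) • L t ∈ Metric.ball z ρ
      rw [zero_smul, add_zero]
      exact Metric.mem_ball_self hρ)
  have hconst : ∀ t, Φ (0, t) = tval w p q I z ξ := by
    intro t
    simp only [Φ, zero_smul, add_zero]
    rw [hr2]
    congr 1
    funext a
    exact hr3 _ (hξ a)
  simp only [hconst] at hlim
  rw [setIntegral_const] at hlim
  have h1 : Tendsto (fun ε : ℝ => ∫ t in simplexDomain q, Φ (ε, t)) (𝓝[≠] 0)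
      (𝓝 (volume.real (simplexDomain q) • tval w p q I z ξ)) := hlim.mono_left nhdsWithin_le_nhds
  have h2 : (fun ε : ℝ => ∫ t in simplexDomain q, Φ (ε, t)) =ᶠ[𝓝[≠] 0] fun _ => (0 : ℂ) := by
    have h3 : ∀ᶠ ε : ℝ in 𝓝[≠] 0, |ε| < ρ / K := by
      refine nhdsWithin_le_nhds ?_
      have h4 : ContinuousAt (fun ε : ℝ => |ε|) 0 := continuous_abs.continuousAt
      refine h4.eventually (eventually_lt_nhds ?_)
      change |(0 : ℝ)| < ρ / K
      rw [abs_zero]
      exact div_pos hρ hKpos
    filter_upwards [h3, self_mem_nhdsWithin] with ε h5 h6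
    exact key ε h6 h5
  have h3 := tendsto_nhds_unique h1 ((tendsto_congr' h2).2 tendsto_const_nhds)
  exact (smul_eq_zero.1 h3).resolve_left (Cvs_vol q)

end Pool.Agent.AHU
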