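import Mathlib
import Pool.Agent.AHU.Cvs
import Pool.Agent.AHU.Sta

/-!
# Closedness is invariant under conjugation

Proof.  `exists_isPer`: put `W x = formIntegral (w x.1 x.2.1 x.2.2.1) v` for a chosen lift `v` if `x` is
liftable of degree `2k`, and `0` otherwise; `IsPer.int` by `formIntegral_lift`; `IsPer.bd` by
`evc_bd_eq`: the integrand vanishes at the interior points of the simplex, because the vectors
`∂_a (v ∘ bary) (t)` are tangent to the cone at `v (bary t)` (differentiate `eval (v (bary s)) (F i) = 0`,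
which holds for `s` in the simplex, at an interior point), `AHI.ae_mem_interior`.
`allClosed`: `ptClosed_of_isPer`, `PtClosed.conj`, `exists_isPer` for the conjugate datum; a rational
class has a period function (`perIn_of_isRationalClass`).
-/

namespace Pool.Agent.AHU

open MvPolynomial Pool.Agent.AHC Pool.Agent.AHI Pool.Agent.AHR
open scoped Topology ContDiff

variable {N m : ℕ}

private theorem clo_hasFDerivAt {n : ℕ} {u : (Fin n → ℝ) → (Fin (N + 1) → ℂ)} {t : Fin n → ℝ}
    {u' : (Fin n → ℝ) →L[ℝ] (Fin (N + 1) → ℂ)} (hu : HasFDerivAt u u' t) (P : CPoly N) :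
    HasFDerivAt (fun s => eval (u s) P)
      (∑ l, eval (u t) (pderiv l P) • (ContinuousLinearMap.proj (R := ℝ) l).comp u') t := by
  have hX : ∀ i : Fin (N + 1), HasFDerivAt (fun s => u s i)
      ((ContinuousLinearMap.proj (R := ℝ) i).comp u') t := fun i =>
    (hasFDerivAt_pi'.1 hu) i
  induction P using MvPolynomial.induction_on with
  | C a =>
    have h2 : (∑ l, eval (u t) (pderiv l (C a : CPoly N)) •
        (ContinuousLinearMap.proj (R := ℝ) l).comp u') = (0 : (Fin n → ℝ) →L[ℝ] ℂ) := by
      refine Finset.sum_eq_zero fun l _ => ?_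
      rw [pderiv_C, map_zero]
      ext e
      simp
    rw [h2]
    refine (hasFDerivAt_const a t).congr_of_eventuallyEq ?_
    exact Filter.Eventually.of_forall fun s => eval_C a
  | add P Q hP hQ =>
    have h2 : (∑ l, eval (u t) (pderiv l (P + Q)) •
        (ContinuousLinearMap.proj (R := ℝ) l).comp u') =
        (∑ l, eval (u t) (pderiv l P) • (ContinuousLinearMap.proj (R := ℝ) l).comp u') +
        ∑ l, eval (u t) (pderiv l Q) • (ContinuousLinearMap.proj (R := ℝ) l).comp u' := by
      rw [← Finset.sum_add_distrib]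
      refine Finset.sum_congr rfl fun l _ => ?_
      rw [map_add, map_add]
      ext e
      simp [add_mul]
    rw [h2]
    refine (hP.add hQ).congr_of_eventuallyEq ?_
    exact Filter.Eventually.of_forall fun s => map_add _ _ _
  | mul_X P i hP =>
    have h1 := (hP.mul (hX i)).congr_of_eventuallyEq
      (f₁ := fun s => eval (u s) (P * X i)) (Filter.Eventually.of_forall fun s => by
        change eval (u s) (P * X i) = eval (u s) P * u s i
        rw [map_mul, eval_X])
    refine h1.congr_fderiv ?_
    ext e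
    simp only [add_apply, smul_apply,
      sum_apply, ContinuousLinearMap.comp_apply, ContinuousLinearMap.proj_apply,
      smul_eq_mul, pderiv_mul, map_add, map_mul, eval_X]
    have h2 : ∀ l, eval (u t) (pderiv l (X i : CPoly N)) * u' e l = if l = i then u' e l else 0 := by
      intro l
      by_cases h : l = i
      · subst h
        rw [pderiv_X_self, map_one, one_mul, if_pos rfl]
      · rw [pderiv_X_of_ne (Ne.symm h), map_zero, zero_mul, if_neg h]
    have h3 : ∑ l, (eval (u t) (pderiv l P) * u t i +
        eval (u t) P * eval (u t) (pderiv l (X i : CPoly N))) * u' e l =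
        u t i * ∑ l, eval (u t) (pderiv l P) * u' e l + eval (u t) P * u' e i := by
      have h4 : ∑ l, eval (u t) (pderiv l (X i : CPoly N)) * u' e l = u' e i := by
        rw [Finset.sum_congr rfl fun l _ => h2 l, Finset.sum_ite_eq' Finset.univ i]
        simp
      rw [← h4, Finset.mul_sum, Finset.mul_sum, ← Finset.sum_add_distrib]
      refine Finset.sum_congr rfl fun l _ => ?_
      ring
    rw [h3]
    ring

private theorem clo_tan {F : Fin m → CPoly N} {p q : ℕ} {I : Fin (p + 1) → Fin (N + 1)}
    {s : Simplex N q} {v : (Fin (q + 1) → ℝ) → (Fin (N + 1) → ℂ)} (hv : IsLift F I s v)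
    {t : Fin q → ℝ} (ht : t ∈ interior (simplexDomain q)) (e : Fin q → ℝ) :
    Tan F (v (bary t)) (fderiv ℝ (fun s => v (bary s)) t e) := by
  intro i
  have h1 : HasFDerivAt (fun s : Fin q → ℝ => v (bary s)) (fderiv ℝ (fun s => v (bary s)) t) t :=
    ((hv.smooth.comp contDiff_bary).differentiable (by simp) t).hasFDerivAt
  have h2 := clo_hasFDerivAt h1 (F i)
  have h3 : ∀ᶠ s in 𝓝 t, s ∈ simplexDomain q := mem_interior_iff_mem_nhds.1 ht
  have h4 : (fun s : Fin q → ℝ => eval (v (bary s)) (F i)) =ᶠ[𝓝 t] fun _ => (0 : ℂ) := by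
    filter_upwards [h3] with s hs
    exact hv.onCone _ (bary_mem hs) i
  have h5 := h2.congr_of_eventuallyEq h4.symm
  have h6 := h5.unique (hasFDerivAt_const (0 : ℂ) t)
  have h7 := DFunLike.congr_fun h6 e
  simpa only [sum_apply, smul_apply,
    ContinuousLinearMap.comp_apply, ContinuousLinearMap.proj_apply, smul_eq_mul,
    zero_apply] using h7

theorem exists_isPer {F : Fin m → CPoly N} {k : ℕ} {w : FormCochain N}
    (hh : IsHodgeCochain k w) (h : PtClosed F k w) : ∃ W, IsPer F k w W := by
  classical
  let W : Gen N → ℂ := fun x =>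
    if hx : Liftable F x then formIntegral (w x.1 x.2.1 x.2.2.1) hx.choose else 0
  have hW : ∀ x : Gen N, x.1 + x.2.1 = 2 * k → ∀ v, IsLift F x.2.2.1 x.2.2.2 v →
      formIntegral (w x.1 x.2.1 x.2.2.1) v = W x := by
    intro x hx v hv
    have hl : Liftable F x := ⟨v, hv⟩
    have h1 : W x = formIntegral (w x.1 x.2.1 x.2.2.1) hl.choose := dif_pos hl
    rw [h1]
    exact formIntegral_lift (hh.1 x.1 x.2.1 hx x.2.2.1) hv hl.choose_spec
  refine ⟨W, hW, ?_⟩
  rintro ⟨p, q, I, s⟩ ⟨v, hv⟩ hpq
  rw [evc_bd_eq hh hW hpq hv]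
  refine MeasureTheory.integral_eq_zero_of_ae ?_
  filter_upwards [ae_mem_interior] with t ht
  have hb := bary_mem (interior_subset ht)
  exact h p q hpq I _ (hv.onCone _ hb) (hv.inOpen _ hb) _ fun a => clo_tan hv ht _

/-- if one conjugate is a cocycle, all conjugates are cocycles -/
theorem allClosed_of_isPer (d : Datum) {σ : ℂ ≃+* ℂ} {W : Gen d.N → ℂ}
    (h : IsPer (d.conj σ).F (d.conj σ).k (d.conj σ).w W) : AllClosed d := by
  intro τ
  have h1 : PtClosed (d.conj σ).F (d.conj σ).k (d.conj σ).w :=
    ptClosed_of_isPer (d.conj σ).smooth (d.conj σ).hodge h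
  have h2 : (d.conj σ).conj (σ.symm.trans τ) = d.conj τ := by
    rw [Datum.conj_conj]
    congr 1
    ext z
    exact congrArg τ (σ.symm_apply_apply z)
  rw [← h2]
  exact exists_isPer ((d.conj σ).conj (σ.symm.trans τ)).hodge (h1.conj (σ.symm.trans τ))

/-- if one conjugate is rational, all conjugates are cocycles -/
theorem allClosed_of_isRational (d : Datum) {σ : ℂ ≃+* ℂ} (h : (d.conj σ).IsRational) :
    AllClosed d := by
  obtain ⟨W, hW, -⟩ := perIn_of_isRationalClass h
  exact allClosed_of_isPer d hW

end Pool.Agent.AHU
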