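import Mathlib
import Pool.Agent.AHU.Step
import Pool.Agent.AHU.Gen

/-!
# Connectedness: a locally constant property of the automorphisms only depends on the restriction to
a number field

Proof.  Let `H` be the set of all automorphisms `g` with `st (g.trans β) ↔ st β` for all `β`.  It is
closed under products and inverses.  It contains all `g` which fix `X` pointwise (`hdep`), and by
`one_step` all `g` which fix `cl S` for `S` as in `generate`.  So it contains `GA`.  Let `N` be the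
finite set of algebraic numbers of `AHR.exists_fix` for `Y = X`: if `κ` fixes `N`, there is `κ₁`
with `κ₁ = κ` on `cl ∅` and `κ₁ = id` on `X`; `κ₁ ∈ H` and `κ₁.symm.trans κ ∈ GA ⊆ H` (or
`κ.trans κ₁.symm`), so `κ ∈ H`.  So `st β ↔ st β'` if `β = β'` on `N`
(`β'.trans β.symm` fixes `N`).
-/

namespace Pool.Agent.AHU

open Pool.Agent.AHC Pool.Agent.AHR

theorem connected {X : Finset ℂ} {st : (ℂ ≃+* ℂ) → Prop}
    (hdep : ∀ β β' : ℂ ≃+* ℂ, (∀ x ∈ X, β x = β' x) → (st β ↔ st β'))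
    (hloc : ∀ β₀ : ℂ ≃+* ℂ, ∃ ε > 0, ∀ β : ℂ ≃+* ℂ, (∀ x ∈ X, ‖β x - β₀ x‖ < ε) →
      (∀ z ∈ cl ∅, β z = β₀ z) → (st β ↔ st β₀)) :
    ∃ N : Finset ℂ, (∀ z ∈ N, z ∈ cl ∅) ∧
      ∀ β β' : ℂ ≃+* ℂ, (∀ z ∈ N, β z = β' z) → (st β ↔ st β') := by
  classical
  let H : Set (ℂ ≃+* ℂ) := {g | ∀ β : ℂ ≃+* ℂ, st (g.trans β) ↔ st β}
  have hmul : ∀ σ ∈ H, ∀ τ ∈ H, σ.trans τ ∈ H := by
    intro σ hσ τ hτ β
    have h1 : (σ.trans τ).trans β = σ.trans (τ.trans β) := by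
      ext z
      rfl
    rw [h1, hσ, hτ]
  have hinv : ∀ σ ∈ H, σ.symm ∈ H := by
    intro σ hσ β
    have h1 : σ.trans (σ.symm.trans β) = β := by
      ext z
      simp
    have h2 := hσ (σ.symm.trans β)
    rw [h1] at h2
    exact h2.symm
  have hX : ∀ σ : ℂ ≃+* ℂ, (∀ x ∈ X, σ x = x) → σ ∈ H := by
    intro σ hσ β
    refine hdep _ _ fun x hx => ?_
    rw [RingEquiv.trans_apply, hσ x hx]
  have h1 : ∀ (S : Finset ℂ) (x : ℂ), (X : Set ℂ) ⊆ cl (insert x (S : Set ℂ)) →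
      ∀ σ : ℂ ≃+* ℂ, (∀ z ∈ cl (S : Set ℂ), σ z = z) → σ ∈ H := by
    intro S x hS σ hσ β
    exact one_step (fun β β' h _ => hdep β β' h) hloc S x hS hσ β
  have hGA : ∀ σ ∈ GA, σ ∈ H := fun σ hσ => generate hmul hinv hX h1 hσ
  obtain ⟨N, hN, hfix⟩ := exists_fix (X : Set ℂ).toFinite
  have hNH : ∀ κ : ℂ ≃+* ℂ, (∀ z ∈ N, κ z = z) → κ ∈ H := by
    intro κ hκ
    obtain ⟨κ₁, h2, h3⟩ := hfix κ hκ
    have h4 : κ.trans κ₁.symm ∈ H := by
      refine hGA _ fun z hz => ?_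
      rw [RingEquiv.trans_apply, ← h2 z hz, RingEquiv.symm_apply_apply]
    have h5 : (κ.trans κ₁.symm).trans κ₁ = κ := by
      ext z
      simp
    have h6 := hmul _ h4 _ (hX κ₁ fun x hx => h3 x (Finset.mem_coe.2 hx))
    rwa [h5] at h6
  refine ⟨N, hN, fun β β' h => ?_⟩
  have h2 : β.trans β'.symm ∈ H := by
    refine hNH _ fun z hz => ?_
    rw [RingEquiv.trans_apply, h z hz, RingEquiv.symm_apply_apply]
  have h3 : (β.trans β'.symm).trans β' = β := by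
    ext z
    simp
  have h4 := h2 β'
  rwa [h3] at h4

end Pool.Agent.AHU
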