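import Mathlib
import Pool.Agent.AHR.RatP

/-!
# Real classes

`IsRealClass F k w`: the class of `w` lies in `(2πi)^k H^{2k}(Y, ℝ)` (same definition as
`AHC.IsRationalClass` with real cochains).

Proof: adaptation of `perIn_of_isRationalClass`, `isRationalClass_of_perIn` (file `AHR/RatP.lean`):
`ℝ` in the place of `ℚ`, `duality_subgroup` with the additive subgroup `RC` of `ℂ`.
-/

namespace Pool.Agent.AHU

open MvPolynomial Pool.Agent.AHC Pool.Agent.AHI Pool.Agent.AHR
open scoped ContDiff LinearAlgebra.Projectivization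

variable {N m : ℕ}

/-- **real classes**: the cochain of algebraic forms `w` of total degree `2k` is a cocycle whose
class in `H^{2k}(Y^an, ℂ)` lies in `(2πi)^k H^{2k}(Y^an, ℝ)`: it is `(2πi)^k` times a real
cocycle plus a coboundary -/
def IsRealClass (F : Fin m → CPoly N) (k : ℕ) (w : FormCochain N) : Prop :=
  ∃ (r : SingCochain N ℝ) (b : SingCochain N ℂ),
    (∀ p q, p + q = 2 * k + 1 → ∀ I s v, IsLift F I s v → totD r p q I s = 0) ∧
    ∀ p q, p + q = 2 * k → ∀ I s v, IsLift F I s v →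
      formIntegral (w p q I) v =
        (2 * Real.pi * Complex.I) ^ k * (r p q I s : ℂ) + totD b p q I s

/-- evaluation of a real function on a chain, in `ℂ` -/
private theorem RealP_evc (f : Gen N → ℝ) (z : Gen N →₀ ℤ) :
    evc (fun y => ((f y : ℝ) : ℂ)) z = ((evc f z : ℝ) : ℂ) := by
  rw [evc_eq_sum, evc_eq_sum]
  push_cast
  rfl

private theorem RealP_fwd {F : Fin m → CPoly N} {k : ℕ} {w : FormCochain N}
    (h : IsRealClass F k w) : PerIn RC F k w := by
  obtain ⟨r, b, h1, h2⟩ := h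
  set c : ℂ := (2 * (Real.pi : ℂ) * Complex.I) ^ k with hc
  refine ⟨fun x => c * ((cg r x : ℝ) : ℂ) + evc (cg b) (AHI.bd x), ⟨?_, ?_⟩, ?_⟩
  · rintro ⟨p, q, I, s⟩ hpq v hv
    rw [evc_bd]
    exact h2 p q hpq I s v hv
  · rintro ⟨p, q, I, s⟩ ⟨v, hv⟩ hpq
    rw [evc_mul_add c (fun x => ((cg r x : ℝ) : ℂ)) (fun x => evc (cg b) (AHI.bd x)),
      evc_evc_bd_bd, RealP_evc, evc_bd]
    have h3 : totD r p q I s = 0 := h1 p q hpq I s v hv
    rw [h3]
    simp
  · intro z hz
    refine ⟨((evc (cg r) z : ℝ) : ℂ), ⟨_, rfl⟩, ?_⟩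
    rw [evc_mul_add c (fun x => ((cg r x : ℝ) : ℂ)) (fun x => evc (cg b) (AHI.bd x)),
      evc_evc_bd_of_cycle _ _ hz.bd, RealP_evc, add_zero]

private theorem RealP_bwd {F : Fin m → CPoly N} {k : ℕ} {w : FormCochain N}
    (h : PerIn RC F k w) : IsRealClass F k w := by
  classical
  obtain ⟨W, hW, hcyc⟩ := h
  have hpi : (2 * (Real.pi : ℂ) * Complex.I) ^ k ≠ 0 :=
    pow_ne_zero _ (by simp [Real.pi_ne_zero])
  set c : ℂ := (2 * (Real.pi : ℂ) * Complex.I) ^ k with hc
  let ι := {x : Gen N // Liftable F x ∧ x.1 + x.2.1 = 2 * k}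
  let A : AddSubgroup ℂ := (Complex.ofRealHom).toAddMonoidHom.range
  obtain ⟨b0, hb0⟩ := duality_subgroup A (fun x : ι => AHI.bd x.1) (fun x : ι => c⁻¹ * W x.1) (by
    intro z hz
    have h1 : Finsupp.linearCombination ℤ (AHI.bd : Gen N → (Gen N →₀ ℤ))
        (Finsupp.mapDomain Subtype.val z) = 0 := by
      rw [Finsupp.linearCombination_mapDomain]
      exact hz
    obtain ⟨a, ⟨n, rfl⟩, hn⟩ := hcyc (Finsupp.mapDomain Subtype.val z) ⟨by
      intro y hy
      obtain ⟨x, -, rfl⟩ := Finset.mem_image.1 (Finsupp.mapDomain_support hy)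
      exact x.2, h1⟩
    refine ⟨n, ?_⟩
    have h2 : Finsupp.linearCombination ℤ (fun x : ι => c⁻¹ * W x.1) z =
        c⁻¹ * evc W (Finsupp.mapDomain Subtype.val z) := by
      unfold evc
      rw [Finsupp.linearCombination_mapDomain, Finsupp.linearCombination_apply,
        Finsupp.linearCombination_apply, Finsupp.sum, Finsupp.sum, Finset.mul_sum]
      refine Finset.sum_congr rfl fun x _ => ?_
      simp only [zsmul_eq_mul, Function.comp_apply]
      ring
    rw [h2, hn, ← mul_assoc, inv_mul_cancel₀ hpi, one_mul]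
    rfl)
  choose nι hnι using hb0
  let r : SingCochain N ℝ := fun p q I s =>
    if hx : Liftable F (⟨p, q, I, s⟩ : Gen N) ∧ p + q = 2 * k then nι ⟨⟨p, q, I, s⟩, hx⟩ else 0
  let b : SingCochain N ℂ := fun p q I s => c * b0 ⟨p, q, I, s⟩
  have hcgb : ∀ z : Gen N →₀ ℤ, evc (cg b) z = c * evc b0 z := by
    intro z
    rw [evc_eq_sum, evc_eq_sum, Finset.mul_sum]
    refine Finset.sum_congr rfl fun y _ => ?_
    simp only [cg, b]
    ring
  have hrel : ∀ x : Gen N, Liftable F x ∧ x.1 + x.2.1 = 2 * k →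
      ((cg r x : ℝ) : ℂ) = c⁻¹ * W x - evc b0 (AHI.bd x) := by
    intro x hx
    have h1 : cg r x = nι ⟨x, hx⟩ := dif_pos hx
    rw [h1]
    exact hnι ⟨x, hx⟩
  refine ⟨r, b, ?_, ?_⟩
  · intro p q hpq I s v hv
    let x : Gen N := ⟨p, q, I, s⟩
    have hx : Liftable F x := ⟨v, hv⟩
    have h1 : (((totD r p q I s : ℝ)) : ℂ) = 0 := by
      have h2 : totD r p q I s = evc (cg r) (AHI.bd x) := (evc_bd r x).symm
      rw [h2, ← RealP_evc]
      have h3 : evc (fun y => ((cg r y : ℝ) : ℂ)) (AHI.bd x) =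
          evc (fun y => c⁻¹ * W y + (fun y => -evc b0 (AHI.bd y)) y) (AHI.bd x) := by
        refine evc_congr fun y hy => ?_
        rw [hrel y (hx.bd hpq y hy)]
        ring
      have h5 : evc (fun y => -evc b0 (AHI.bd y)) (AHI.bd x) =
          -evc (fun y => evc b0 (AHI.bd y)) (AHI.bd x) := by
        rw [evc_eq_sum, evc_eq_sum, ← Finset.sum_neg_distrib]
        refine Finset.sum_congr rfl fun y _ => ?_
        ring
      rw [h3, evc_mul_add, h5, evc_evc_bd_bd, hW.bd x hx hpq]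
      simp
    exact_mod_cast h1
  · intro p q hpq I s v hv
    let x : Gen N := ⟨p, q, I, s⟩
    have hx : Liftable F x ∧ x.1 + x.2.1 = 2 * k := ⟨⟨v, hv⟩, hpq⟩
    have h1 : totD b p q I s = evc (cg b) (AHI.bd x) := (evc_bd b x).symm
    have h2 : (r p q I s : ℂ) = c⁻¹ * W x - evc b0 (AHI.bd x) := hrel x hx
    have h3 : formIntegral (w p q I) v = W x := hW.int x hpq v hv
    rw [h1, h2, hcgb, h3]
    field_simp
    ring

theorem isRealClass_iff_perIn {F : Fin m → CPoly N} {k : ℕ} {w : FormCochain N} :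
    IsRealClass F k w ↔ PerIn RC F k w :=
  ⟨RealP_fwd, RealP_bwd⟩

end Pool.Agent.AHU
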