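import Mathlib
import Pool.Agent.AHU.RealP
import Pool.Agent.AHU.Clo
import Pool.Agent.AHU.Cnn
import Pool.Agent.AHR.Dich

/-!
# The zero-one law for individual classes

Proofs.
`st_rat`: `Fin_dich2` (local dichotomy for two sets) with `A = RC`, `B = QC` for the conjugate datum `d.conj β`, at `β₁ = refl`:
all `β₂ ∈ GA` near the identity have `PerIn QC`; write `β' = β.trans β₂`
(compare the proof of `exists_St`).
`open_of_dense`: if `P` is contained in the set of `σ` with `PerIn RC` for `d.conj σ` and `P` is dense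
in the open set given by `α, X, ε`, then `PerIn RC` holds for all `β` in this open set:
`perIn_of_frequently` with `isClosed_RC` for `d.conj β` (see `rational_of_dense` in `AHR/Pt.lean` and
`mem_of_dense` in `AHR/Main.lean`: `frequently_of_dense`, `Datum.conj_conj`); so
`St d RC β` for all these `β` (take `X₂ = X` and `ε₂ ≤ ε - ‖β x - α x‖` for all `x ∈ X`,
`exists_pos_le`).
`individual`: if no conjugate has `PerIn RC` take `k = ⊥`, `S = ∅`.  Otherwise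
`AllClosed d` (`allClosed_of_isPer`).  Apply `exists_St` and `connected` to `A = RC` and to
`A = QC` (`QC_subset_RC`): finite sets `N₁, N₂` of algebraic numbers; `k = ℚ(N₁ ∪ N₂)`
(`IntermediateField.adjoin`, finite dimensional: `finiteDimensional_adjoin`, see
`AHR.dichotomy`), `S = {σ | St d RC σ}`.  `St d A σ → PerIn A` at `σ` itself.  The set of the
`σ ∉ S` with `PerIn RC` is not somewhere dense by `open_of_dense`: it would meet `S`.  Last
statement: for `σ ∈ S` `(d.conj σ).IsRational ↔ PerIn QC ↔ St d QC σ` (`st_rat`,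
`perIn_of_isRationalClass`, `isRationalClass_of_perIn`), and `St d QC` only depends on the
restriction to `N₂`.
-/

namespace Pool.Agent.AHU

open MvPolynomial Pool.Agent.AHC Pool.Agent.AHI Pool.Agent.AHR Filter
open scoped Topology

variable {N m : ℕ}

/-- the conjugate of a rational function depends only on the values at the coefficients -/
private theorem Fin_ratFun {σ τ : ℂ ≃+* ℂ} {f : RatFun N}
    (h : ∀ c ∈ f.num.coeffs, σ c = τ c) : f.conj σ = f.conj τ := by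
  unfold RatFun.conj
  rw [map_congr_coeffs h]

private theorem Fin_form {X : Finset ℂ} {p q : ℕ} {I : Fin (p + 1) → Fin (N + 1)}
    {w : FormCochain N} (h : ∀ x ∈ w p q I, x.1.num.coeffs ⊆ X ∧ ∀ b, (x.2 b).num.coeffs ⊆ X)
    {σ τ : ℂ ≃+* ℂ} (hst : ∀ x ∈ X, σ x = τ x) : (w.conj σ) p q I = (w.conj τ) p q I := by
  unfold FormCochain.conj
  refine List.map_congr_left fun x hx => ?_
  obtain ⟨h1, h2⟩ := h x hx
  rw [Fin_ratFun fun c hc => hst c (h1 hc)]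
  congr 1
  funext b
  exact Fin_ratFun fun c hc => hst c (h2 b hc)

/-- `PerIn` for two automorphisms which agree on the coefficients -/
private theorem Fin_perIn {X : Finset ℂ} {F : Fin m → CPoly N} {k : ℕ} {w : FormCochain N}
    {A : Set ℂ} (hF : ∀ i, (F i).coeffs ⊆ X)
    (hcoef : ∀ p q, p + q = 2 * k → ∀ I, ∀ x ∈ w p q I,
      x.1.num.coeffs ⊆ X ∧ ∀ b, (x.2 b).num.coeffs ⊆ X)
    {σ τ : ℂ ≃+* ℂ} (hst : ∀ x ∈ X, σ x = τ x) (h : PerIn A (conjEqs σ F) k (w.conj σ)) :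
    PerIn A (conjEqs τ F) k (w.conj τ) := by
  have hE : conjEqs σ F = conjEqs τ F := by
    funext i
    exact map_congr_coeffs fun c hc => hst c (hF i hc)
  rw [← hE]
  obtain ⟨W, hW, hz⟩ := h
  refine ⟨W, ⟨fun x hx v hv => ?_, hW.bd⟩, hz⟩
  rw [← Fin_form (hcoef _ _ hx _) hst]
  exact hW.int x hx v hv

/-- local dichotomy for two sets: real periods near `β₁` and periods in `B` at `β₁` -/
private theorem Fin_dich2 {F : Fin m → CPoly N} {k : ℕ} {w : FormCochain N} (hsm : IsSmoothProjective F)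
    (hh : IsHodgeCochain k w)
    (hcl : ∀ σ : ℂ ≃+* ℂ, ∃ W, IsPer (conjEqs σ F) k (w.conj σ) W) {A B : Set ℂ} (hA : A ⊆ RC) :
    ∃ (X : Finset ℂ) (ε : ℝ), 0 < ε ∧ ∀ β₁ ∈ GA, (∀ x ∈ X, ‖β₁ x - x‖ < ε) →
      (∃ (X₂ : Finset ℂ) (ε₂ : ℝ), 0 < ε₂ ∧ ∀ β ∈ GA, (∀ x ∈ X₂, ‖β x - β₁ x‖ < ε₂) →
        PerIn A (conjEqs β F) k (w.conj β)) → PerIn B (conjEqs β₁ F) k (w.conj β₁) →
      ∀ β₂ ∈ GA, (∀ x ∈ X, ‖β₂ x - x‖ < ε) → PerIn B (conjEqs β₂ F) k (w.conj β₂) := by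
  classical
  obtain ⟨A2, hA2⟩ := exists_coeffs k w
  let Y : Finset ℂ := (Finset.univ.biUnion fun i => (F i).coeffs) ∪ A2
  obtain ⟨X, δ, hYX, hδ, hup⟩ := up hsm hh Y
  have hF : ∀ i, (F i).coeffs ⊆ X := fun i =>
    ((Finset.subset_biUnion_of_mem (fun i => (F i).coeffs) (Finset.mem_univ i)).trans
      Finset.subset_union_left).trans hYX
  have hcoef : ∀ p q, p + q = 2 * k → ∀ I, ∀ x ∈ w p q I,
      x.1.num.coeffs ⊆ X ∧ ∀ b, (x.2 b).num.coeffs ⊆ X := fun p q hpq I x hx =>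
    ⟨((hA2 p q hpq I x hx).1.trans Finset.subset_union_right).trans hYX,
      fun b => (((hA2 p q hpq I x hx).2 b).trans Finset.subset_union_right).trans hYX⟩
  obtain ⟨ε₁, hε₁, hcur⟩ := exists_curve2 X (Metric.ball_mem_nhds (inc X) hδ)
  refine ⟨X, min ε₁ δ, lt_min hε₁ hδ, ?_⟩
  intro β₁ hβ₁ hb₁ hX₂ hB β₂ hβ₂ hb₂
  obtain ⟨X₂, ε₂, hε₂, hper⟩ := hX₂
  have hdist : ∀ β : ℂ ≃+* ℂ, (∀ x ∈ X, ‖β x - x‖ < min ε₁ δ) → dist (res X β) (inc X) < δ := by
    intro β hβ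
    rw [dist_pi_lt_iff hδ]
    intro x
    rw [dist_eq_norm]
    exact (hβ x x.2).trans_le (min_le_right _ _)
  have hd₁ := hdist β₁ hb₁
  have hd₂ := hdist β₂ hb₂
  have hpi : (2 * (Real.pi : ℂ) * Complex.I) ^ k ≠ 0 :=
    pow_ne_zero _ (by simp [Real.pi_ne_zero])
  set c := (2 * (Real.pi : ℂ) * Complex.I) ^ k with hc
  obtain ⟨W, hW⟩ := hcl β₂
  refine ⟨W, hW, fun z hz => ?_⟩
  obtain ⟨Q, hQ1, hQ2, hQ3⟩ := hup β₂ hd₂ W hW z hz
  obtain ⟨γ, hγd, hγ0, hγ1, hγU, hγD⟩ := hcur β₁ β₂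
    (fun x hx => (hb₁ x hx).trans_le (min_le_left _ _))
    (fun x hx => (hb₂ x hx).trans_le (min_le_left _ _))
  have hmem0 : (0 : ℂ) ∈ Metric.ball (0 : ℂ) 2 := by simp
  have hmem1 : (1 : ℂ) ∈ Metric.ball (0 : ℂ) 2 := by simp
  -- the values of `Q` at the automorphisms with `PerIn`
  have hval : ∀ (A' : Set ℂ) (β : ℂ ≃+* ℂ), dist (res X β) (inc X) < δ →
      PerIn A' (conjEqs β F) k (w.conj β) → ∃ a ∈ A', Q (res X β) = c * a := by
    intro A' β hβ hp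
    obtain ⟨W', hW', hz'⟩ := hp
    obtain ⟨z', hcyc, hev⟩ := hQ1 β hβ
    obtain ⟨a, ha, he⟩ := hz' z' hcyc
    exact ⟨a, ha, by rw [← hev W' hW', he]⟩
  have hhol : DifferentiableOn ℂ (fun s => c⁻¹ * Q (γ s)) (Metric.ball 0 2) :=
    (hQ3 γ hγd hγU hγD).const_mul _
  -- the small disc
  obtain ⟨ε', hε', hext⟩ := near_ext X X₂ β₁ hε₂
  obtain ⟨r, hr0, hr2, hr⟩ : ∃ r : ℝ, 0 < r ∧ r ≤ 2 ∧ ∀ s ∈ Metric.ball (0 : ℂ) r,
      dist (γ s) (γ 0) < ε' := by
    have h1 : ContinuousAt γ 0 :=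
      (hγd.differentiableAt (Metric.isOpen_ball.mem_nhds hmem0)).continuousAt
    obtain ⟨r, hr, h2⟩ := Metric.continuousAt_iff.1 h1 ε' hε'
    refine ⟨min r 2, lt_min hr two_pos, min_le_right _ _, fun s hs => ?_⟩
    exact h2 ((Metric.mem_ball.1 hs).trans_le (min_le_left _ _))
  have hsub : Metric.ball (0 : ℂ) r ⊆ Metric.ball 0 2 := Metric.ball_subset_ball hr2
  have hreal : ∀ s ∈ Metric.ball (0 : ℂ) r, s ∈ {s : ℂ | ∃ β ∈ GA, res X β = γ s} →
      (c⁻¹ * Q (γ s)).im = 0 := by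
    rintro s hs ⟨β, hβ, hβs⟩
    have hd : dist (res X β) (inc X) < δ := by
      rw [hβs]
      exact hγU s (hsub hs)
    obtain ⟨β₃, e1, e2, e3⟩ := hext β (fun z hz => by rw [hβ z hz, hβ₁ z hz]) (by
      have h1 := hr s hs
      rw [hγ0, ← hβs, dist_pi_lt_iff hε'] at h1
      intro x hx
      have h2 := h1 ⟨x, hx⟩
      rw [dist_eq_norm] at h2
      exact h2)
    have hβ₃ : β₃ ∈ GA := fun z hz => by rw [e2 z hz, hβ₁ z hz]
    obtain ⟨a, ha, he⟩ := hval A β hd (Fin_perIn hF hcoef e1 (hper β₃ hβ₃ e3))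
    obtain ⟨a', rfl⟩ := hA ha
    rw [← hβs, he, inv_mul_cancel_left₀ hpi]
    exact Complex.ofReal_im a'
  have hdense : Metric.ball (0 : ℂ) r ⊆
      closure {s | s ∈ Metric.ball (0 : ℂ) r ∧ s ∈ {s : ℂ | ∃ β ∈ GA, res X β = γ s}} := by
    intro s hs
    have h1 := Metric.isOpen_ball.inter_closure ⟨hs, hγD (hsub hs)⟩
    refine closure_mono ?_ h1
    rintro x ⟨hx1, hx2, hx3⟩
    exact ⟨hx1, hx3⟩
  have hconst : ∀ s ∈ Metric.ball (0 : ℂ) r, c⁻¹ * Q (γ s) = c⁻¹ * Q (γ 0) := fun s hs =>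
    const_of_real (hhol.mono hsub) hdense hreal hs (by simpa using hr0)
  have heq : Set.EqOn (fun s => c⁻¹ * Q (γ s)) (fun _ => c⁻¹ * Q (γ 0)) (Metric.ball 0 2) :=
    (hhol.analyticOnNhd Metric.isOpen_ball).eqOn_of_preconnected_of_eventuallyEq
      analyticOnNhd_const (convex_ball 0 2).isPreconnected hmem0
      (Filter.eventuallyEq_of_mem (Metric.ball_mem_nhds 0 hr0) hconst)
  have h01 : Q (γ 1) = Q (γ 0) := mul_left_cancel₀ (inv_ne_zero hpi) (heq hmem1)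
  rw [hγ0, hγ1] at h01
  obtain ⟨a, ha, he⟩ := hval B β₁ hd₁ hB
  exact ⟨a, ha, by rw [← hQ2, h01, he]⟩

/-- the property at the automorphism itself -/
private theorem Fin_self {d : Datum} {A : Set ℂ} {β : ℂ ≃+* ℂ} (h : St d A β) :
    PerIn A (d.conj β).F (d.conj β).k (d.conj β).w := by
  obtain ⟨X₂, ε₂, hε₂, h1⟩ := h
  exact h1 β (fun _ _ => rfl) fun x _ => by simpa using hε₂

theorem st_rat (d : Datum) (hd : AllClosed d) {β : ℂ ≃+* ℂ} (h : St d RC β)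
    (h' : PerIn QC (d.conj β).F (d.conj β).k (d.conj β).w) : St d QC β := by
  classical
  obtain ⟨X₂, ε₂, hε₂, h1⟩ := h
  have hcl : ∀ σ : ℂ ≃+* ℂ, ∃ W, IsPer (conjEqs σ (d.conj β).F) (d.conj β).k
      ((d.conj β).w.conj σ) W := by
    intro σ
    have h2 := hd (β.trans σ)
    rw [← Datum.conj_conj] at h2
    exact h2
  obtain ⟨X, ε, hε, h3⟩ := Fin_dich2 (d.conj β).smooth (d.conj β).hodge hcl
    (A := RC) (B := QC) subset_rfl
  have h4 := h3 (RingEquiv.refl ℂ) refl_mem_GA (fun x _ => by simpa using hε)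
    ⟨X₂.image β, ε₂, hε₂, fun γ hγ hγX => by
      have h5 := h1 (β.trans γ) (fun z hz => by
        rw [RingEquiv.trans_apply, hγ _ (map_cl_empty β hz)]) fun x hx => by
        have h6 := hγX (β x) (Finset.mem_image_of_mem _ hx)
        exact h6
      rw [← Datum.conj_conj] at h5
      exact h5⟩
    (by
      have h7 : (d.conj β).conj (RingEquiv.refl ℂ) = d.conj β := by
        rw [Datum.conj_conj]
        rfl
      have h8 := h'
      rw [← h7] at h8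
      exact h8)
  refine ⟨X.image β.symm, ε, hε, fun β' hβ' hX => ?_⟩
  have h9 : β.trans (β.symm.trans β') = β' := by
    ext z
    simp
  have h10 := h4 (β.symm.trans β') (fun z hz => by
    rw [RingEquiv.trans_apply, hβ' _ (map_cl_empty β.symm hz), β.apply_symm_apply])
    fun x hx => by
      have h11 := hX (β.symm x) (Finset.mem_image_of_mem _ hx)
      rwa [β.apply_symm_apply] at h11
  have h12 : (d.conj β).conj (β.symm.trans β') = d.conj β' := by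
    rw [Datum.conj_conj, h9]
  rw [← h12]
  exact h10

theorem open_of_dense (d : Datum) {P : Set (ℂ ≃+* ℂ)}
    (hP : ∀ σ ∈ P, PerIn RC (d.conj σ).F (d.conj σ).k (d.conj σ).w) {α : ℂ ≃+* ℂ}
    {X : Finset ℂ} {ε : ℝ} (h : ∀ β : ℂ ≃+* ℂ, (∀ x ∈ X, ‖β x - α x‖ < ε) →
      ∀ Y : Finset ℂ, ∀ δ : ℝ, 0 < δ → ∃ σ ∈ P, ∀ y ∈ Y, ‖σ y - β y‖ < δ)
    {β : ℂ ≃+* ℂ} (hβ : ∀ x ∈ X, ‖β x - α x‖ < ε) : St d RC β := by
  classical
  obtain ⟨ε', hε', h3⟩ := exists_pos_le (fun x : X => ε - ‖β x - α x‖)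
    fun x => sub_pos.2 (hβ x x.2)
  refine ⟨X, ε', hε', fun β' _ hX => ?_⟩
  have h1 : ∀ x ∈ X, ‖β' x - α x‖ < ε := by
    intro x hx
    have h6 := hX x hx
    have h7 := h3 ⟨x, hx⟩
    have h8 : β' x - α x = (β' x - β x) + (β x - α x) := by ring
    rw [h8]
    refine (norm_add_le _ _).trans_lt ?_
    linarith
  refine perIn_of_frequently isClosed_RC (d.conj β').smooth (d.conj β').hodge ?_
  refine (frequently_of_dense (P := fun σ => σ ∈ P) (β := β') fun Y δ hδ => ?_).mono ?_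
  · exact h β' h1 Y δ hδ
  · intro γ hγ
    have h2 := hP _ hγ
    rw [← Datum.conj_conj] at h2
    exact h2

theorem individual (d : Datum) : ∃ (k : IntermediateField ℚ ℂ) (S : Set (ℂ ≃+* ℂ)),
    FiniteDimensional ℚ k ∧ (∀ σ ∈ S, ∀ τ : ℂ ≃+* ℂ, (∀ z ∈ k, τ z = σ z) → τ ∈ S) ∧
    (∀ σ ∈ S, IsRealClass (d.conj σ).F (d.conj σ).k (d.conj σ).w) ∧
    ¬ SomewhereDenseIn {σ | σ ∉ S ∧ IsRealClass (d.conj σ).F (d.conj σ).k (d.conj σ).w} ∧
    ∀ σ ∈ S, ∀ τ : ℂ ≃+* ℂ, (∀ z ∈ k, τ z = σ z) →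
      ((d.conj σ).IsRational ↔ (d.conj τ).IsRational) := by
  classical
  by_cases hex : ∃ σ : ℂ ≃+* ℂ, PerIn RC (d.conj σ).F (d.conj σ).k (d.conj σ).w
  · obtain ⟨σ₀, W, hW, -⟩ := hex
    have hd : AllClosed d := allClosed_of_isPer d hW
    obtain ⟨X₁, hdep₁, hloc₁⟩ := exists_St d hd (A := RC) subset_rfl
    obtain ⟨N₁, hN₁, h₁⟩ := connected hdep₁ hloc₁
    obtain ⟨X₂, hdep₂, hloc₂⟩ := exists_St d hd (A := QC) QC_subset_RC
    obtain ⟨N₂, hN₂, h₂⟩ := connected hdep₂ hloc₂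
    have hrat : ∀ σ : ℂ ≃+* ℂ, St d RC σ → ((d.conj σ).IsRational ↔ St d QC σ) := by
      intro σ hσ
      constructor
      · intro hr
        exact st_rat d hd hσ (perIn_of_isRationalClass hr)
      · intro hr
        exact isRationalClass_of_perIn (Fin_self hr)
    refine ⟨IntermediateField.adjoin ℚ ((N₁ ∪ N₂ : Finset ℂ) : Set ℂ), {σ | St d RC σ},
      ?_, ?_, ?_, ?_, ?_⟩
    · refine IntermediateField.finiteDimensional_adjoin fun z hz => ?_
      rcases Finset.mem_union.1 (Finset.mem_coe.1 hz) with hz | hz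
      · exact (isAlgebraic_of_mem_cl_empty (hN₁ z hz)).isIntegral
      · exact (isAlgebraic_of_mem_cl_empty (hN₂ z hz)).isIntegral
    · intro σ hσ τ hτ
      exact (h₁ τ σ fun z hz => hτ z (IntermediateField.subset_adjoin ℚ _
        (Finset.mem_coe.2 (Finset.mem_union_left _ hz)))).2 hσ
    · intro σ hσ
      exact isRealClass_iff_perIn.2 (Fin_self hσ)
    · rintro ⟨α, X, ε, hε, h⟩
      obtain ⟨σ, h3, h4⟩ := h α (fun x _ => by simpa using hε) X ε hε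
      exact h3.1 (open_of_dense d (fun τ hτ => isRealClass_iff_perIn.1 hτ.2) h h4)
    · intro σ hσ τ hτ
      have h3 : St d RC τ := (h₁ τ σ fun z hz => hτ z (IntermediateField.subset_adjoin ℚ _
        (Finset.mem_coe.2 (Finset.mem_union_left _ hz)))).2 hσ
      have h4 : St d QC τ ↔ St d QC σ := h₂ τ σ fun z hz => hτ z
        (IntermediateField.subset_adjoin ℚ _ (Finset.mem_coe.2 (Finset.mem_union_right _ hz)))
      exact (hrat σ hσ).trans (h4.symm.trans (hrat τ h3).symm)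
  · refine ⟨⊥, ∅, inferInstance, fun σ hσ => absurd hσ (Set.notMem_empty σ),
      fun σ hσ => absurd hσ (Set.notMem_empty σ), ?_,
      fun σ hσ => absurd hσ (Set.notMem_empty σ)⟩
    rintro ⟨α, X, ε, hε, h⟩
    obtain ⟨σ, h3, -⟩ := h α (fun x _ => by simpa using hε) ∅ 1 one_pos
    exact hex ⟨σ, isRealClass_iff_perIn.1 h3.2⟩

end Pool.Agent.AHU
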